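import Pool.Agent.Lib.WL.Def
import Pool.Agent.Lib.T8.Mer
import Pool.Agent.Lib.T8.Sum

/-!
# WL, row Qs: the sum of `1/g` over the exceptional small parts (the factor `i0` of `vecZ` in T8/Vec.lean)

PROOF IN WORDS. `k = 2`: `QE 1 U T x = ∅` (`qe1`). `k ≥ 3`: `qesum` (T8/Sum) with `K = k - 3`, `x = U^k ≤ U^(2M) ≤ X`; merB (`j = k - 3`, `2M`, `ε'`) and merC (`j = k - 3`, `ε'`) with `Y = X`: `≤ ∑_q 1/q (ε' λ^(k-2) + (k-2) ε' λ^(k-2)) = (k-1) ε' (k-2)! dT k T X`; `ε' = ε/((k-1) (k-2)! + 1)`, `dT ≥ 0` as `λ ≥ 1` (merC).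
-/

set_option autoImplicit false

open Finset

namespace Pool.Agent.Lib.WL

open Pool.Agent.Lib.T8 (QE dT)

theorem qsW (k M : ℕ) (hk : 2 ≤ k) (hM : k ≤ 2 * M) (ε : ℝ) (hε : 0 < ε) : ∃ η : ℝ, 0 < η ∧ ∃ X0 : ℕ, ∀ (X U : ℕ) (T : Finset ℕ), X0 ≤ X →
    U ^ (2 * M) ≤ X → X ≤ (U + 1) ^ (2 * M) → (∀ q ∈ T, q.Prime ∧ Real.log X ≤ q ∧ (q : ℝ) ≤ (X : ℝ) ^ η) →
      ∑ g ∈ QE (k - 1) U T (U ^ k), (1 : ℝ) / g ≤ ε * dT k T X := by
  obtain rfl | ⟨K, rfl⟩ : k = 2 ∨ ∃ K, k = K + 3 := by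
    rcases Nat.lt_or_ge k 3 with h | h
    · exact Or.inl (by omega)
    · exact Or.inr ⟨k - 3, by omega⟩
  · refine ⟨1, one_pos, 0, fun X U T _ _ _ hT => ?_⟩
    rw [show 2 - 1 = 1 from rfl, Pool.Agent.Lib.T8.qe1 U _ T fun q hq => (hT q hq).1, sum_empty]
    refine mul_nonneg hε.le ?_
    unfold dT
    refine sum_nonneg fun q _ => ?_
    rw [show 2 - 2 = 0 from rfl, pow_zero]
    positivity
  · have hF : (0 : ℝ) < (Nat.factorial (K + 1) : ℝ) := by exact_mod_cast Nat.factorial_pos _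
    obtain ⟨ε', hε'⟩ : ∃ ε' : ℝ, ε' = ε / (((K : ℝ) + 2) * (Nat.factorial (K + 1) : ℝ)) := ⟨_, rfl⟩
    have hε0 : 0 < ε' := by
      rw [hε']
      positivity
    obtain ⟨η1, hη1, y1, h1⟩ := Pool.Agent.Lib.T8.merB K (2 * M) (by omega) ε' hε0
    obtain ⟨η2, hη2, y2, h2⟩ := Pool.Agent.Lib.T8.merC K ε' hε0
    refine ⟨min η1 η2, lt_min hη1 hη2, max 1 (max ⌈y1⌉₊ ⌈y2⌉₊), fun X U T hX hU1 hU2 hT => ?_⟩
    have hX1 : (1 : ℝ) ≤ X := by exact_mod_cast (le_max_left _ _).trans hX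
    have hy1 : y1 ≤ X := (Nat.le_ceil y1).trans (by
      exact_mod_cast (le_max_left _ _).trans ((le_max_right _ _).trans hX))
    have hy2 : y2 ≤ X := (Nat.le_ceil y2).trans (by
      exact_mod_cast (le_max_right _ _).trans ((le_max_right _ _).trans hX))
    have hx : U ^ (K + 3) ≤ 2 * X := by
      rcases Nat.eq_zero_or_pos U with h0 | h0
      · rw [h0, zero_pow (by omega)]
        exact Nat.zero_le _
      · have := Nat.pow_le_pow_right h0 hM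
        omega
    have hq1 : ∀ q ∈ T, (q : ℝ) ≤ (X : ℝ) ^ η1 := fun q hq =>
      (hT q hq).2.2.trans (Real.rpow_le_rpow_of_exponent_le hX1 (min_le_left _ _))
    have hq2 : ∀ q ∈ T, (q : ℝ) ≤ (X : ℝ) ^ η2 := fun q hq =>
      (hT q hq).2.2.trans (Real.rpow_le_rpow_of_exponent_le hX1 (min_le_right _ _))
    rw [show K + 3 - 1 = K + 2 from rfl]
    refine (Pool.Agent.Lib.T8.qesum K U _ T fun q hq => (hT q hq).1).trans ?_
    unfold dT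
    rw [mul_sum]
    refine sum_le_sum fun q hq => ?_
    rw [show K + 3 - 2 = K + 1 from rfl]
    have a1 := h1 X U q (U ^ (K + 3)) hy1 hx hU1 hU2 (hT q hq).2.1 (hq1 q hq)
    obtain ⟨-, -, a2⟩ := h2 X q (U ^ (K + 3)) hy2 hx (hT q hq).2.1 (hq2 q hq)
    set lam : ℝ := Real.log (Real.log X / Real.log q) with hlam
    have a3 : ((K : ℝ) + 1) * (1 + Pool.Agent.Lib.G5.sg1 (q - 1) (U ^ (K + 3))) ^ K ≤ ((K : ℝ) + 1) * (ε' * lam ^ (K + 1)) :=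
      mul_le_mul_of_nonneg_left a2 (by positivity)
    have a4 : ε' * lam ^ (K + 1) + ((K : ℝ) + 1) * (ε' * lam ^ (K + 1)) = ε * (lam ^ (K + 1) / (Nat.factorial (K + 1) : ℝ)) := by
      rw [hε']
      field_simp
      ring
    calc 1 / (q : ℝ) * ((Pool.Agent.Lib.G5.sg1 (q - 1) (2 ^ (Pool.Agent.Lib.G8.di q + 1)) + Pool.Agent.Lib.G5.sg1 U (U ^ (K + 3))) *
          (Pool.Agent.Lib.G5.sg1 (q - 1) (U ^ (K + 3))) ^ K + ((K : ℝ) + 1) * (1 + Pool.Agent.Lib.G5.sg1 (q - 1) (U ^ (K + 3))) ^ K) ≤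
        1 / (q : ℝ) * (ε * (lam ^ (K + 1) / (Nat.factorial (K + 1) : ℝ))) := by
          refine mul_le_mul_of_nonneg_left ?_ (by positivity)
          rw [← a4]
          exact add_le_add a1 a3
      _ = ε * (1 / (q : ℝ) * (lam ^ (K + 1) / (Nat.factorial (K + 1) : ℝ))) := by ring

end Pool.Agent.Lib.WL
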