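import Pool.Agent.Lib.WL.ML
import Pool.Agent.Lib.SW.LG2

/-!
# WL, row AL: the sum over all classes of a window

PROOF IN WORDS. `mnL k (K+1) B`. `Ioc X (X+H)` is the disjoint union of the `wnd X H W a`, `a < W = WX X`. Each `s ∈ S` is in `Sa W S a` for exactly `φ(W)` of the `a < W`, so `∑_a max |Sa| (X/L^(K+1)) ≤ φ(W) |S| + W X/L^(K+1)`, and `(H/W) c (φ(W) |S| + W X/L^(K+1)) = H (|S| + c X/L^(K+1)) ≤ H (|S| + X/L^K)` as `c = W/φ(W) ≤ L`
for large `X` (`W ≤ L^2` and better: `c ≤ W ≤ 4^w`, see `WX_le` and its neighbours, or `cX_le`; any bound `c ≤ L^2` and `mnL k (K+2) B` will also do).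
-/

set_option autoImplicit false

open Finset

namespace Pool.Agent.Lib.WL

open Pool.Agent.Lib.SW (WX cX SN)
open Pool.Agent.Lib.T8 (dT)

theorem alL (k K B : ℕ) (hk : 2 ≤ k) : ∃ c0 C : ℕ, ∀ ε : ℝ, 0 < ε → ∃ η : ℝ, 0 < η ∧ ∃ X0 : ℕ, ∀ (X H : ℕ) (w' : ℝ) (T : Finset ℕ),
    X0 ≤ X → 1 ≤ w' → w' ≤ (X : ℝ) ^ η → w' * (Real.log X) ^ C ≤ H → H ≤ X → (∀ q ∈ T, q.Prime ∧ (Real.log X) ^ c0 ≤ q ∧ (q : ℝ) ≤ w') →
      1 / (Real.log X) ^ B ≤ ∑ q ∈ T, 1 / (q : ℝ) → ∀ S : Finset ℕ, S ⊆ Icc 1 (2 * X) →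
        ∑ N ∈ Ioc X (X + H), |(cT k T S N : ℝ) - cX X * (SN (WX X) S N).card * (dT k T X / Real.log X)| ≤
          ε * H * (S.card + X / (Real.log X) ^ K) * (dT k T X / Real.log X) := by
  obtain ⟨c0, C, h⟩ := mnL k (K + 1) B hk
  refine ⟨c0, C, fun ε hε => ?_⟩
  obtain ⟨η, hη, X0, hX0⟩ := h ε hε
  obtain ⟨X1, hX1⟩ := Pool.Agent.Lib.SW.cX_le_log
  refine ⟨η, hη, max (max X0 X1) 3, ?_⟩
  intro X H w' T hX hw1 hw2 hwH hHX hT hB S hS
  have hXa : X0 ≤ X := (le_max_left _ _).trans ((le_max_left _ _).trans hX)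
  have hXb : X1 ≤ X := (le_max_right _ _).trans ((le_max_left _ _).trans hX)
  have hX3 : 3 ≤ X := (le_max_right _ _).trans hX
  have hX3' : (3 : ℝ) ≤ X := by exact_mod_cast hX3
  have hL1 : 1 ≤ Real.log X := by
    rw [Real.le_log_iff_exp_le (by linarith)]
    have := Real.exp_one_lt_d9
    linarith
  have hL0 : 0 < Real.log X := by linarith
  obtain ⟨hc, -⟩ := hX1 X hXb
  have hW : 0 < WX X := Pool.Agent.Lib.SW.WX_pos X
  have hW' : (0 : ℝ) < (WX X : ℝ) := by exact_mod_cast hW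
  have hφ' : (0 : ℝ) < ((WX X).totient : ℝ) := by
    exact_mod_cast Pool.Agent.Lib.SW.WX_totient_pos X
  have hc1 : 1 ≤ cX X := Pool.Agent.Lib.SW.one_le_cX X
  have hH : (0 : ℝ) < (H : ℝ) := lt_of_lt_of_le (by positivity) hwH
  -- the bound for one class
  have hone : ∀ a : ℕ, ∑ N ∈ wnd X H (WX X) a,
      |(cT k T S N : ℝ) - cX X * (SN (WX X) S N).card * (dT k T X / Real.log X)| ≤
      ε * (H / WX X) * (cX X * max ((Pool.Agent.Lib.SW.Sa (WX X) S a).card : ℝ)
        (X / (Real.log X) ^ (K + 1)) * (dT k T X / Real.log X)) := fun a =>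
    hX0 X H a w' T hXa hw1 hw2 hwH hHX hT hB S hS
  have hXL : (0 : ℝ) < X / (Real.log X) ^ (K + 1) := by positivity
  have hd : 0 ≤ dT k T X / Real.log X := by
    by_contra hneg
    push Not at hneg
    have h1 := (Finset.sum_nonneg (fun N _ => abs_nonneg _)).trans (hone 0)
    have h2 : 0 < max ((Pool.Agent.Lib.SW.Sa (WX X) S 0).card : ℝ)
      (X / (Real.log X) ^ (K + 1)) := lt_max_of_lt_right hXL
    have h3 : 0 < cX X * max ((Pool.Agent.Lib.SW.Sa (WX X) S 0).card : ℝ)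
      (X / (Real.log X) ^ (K + 1)) := mul_pos (by linarith) h2
    have h4 : 0 < ε * ((H : ℝ) / WX X) := by positivity
    have h5 := mul_neg_of_pos_of_neg h4 (mul_neg_of_pos_of_neg h3 hneg)
    linarith
  -- the sum over the classes
  have hsplit : ∑ N ∈ Ioc X (X + H),
      |(cT k T S N : ℝ) - cX X * (SN (WX X) S N).card * (dT k T X / Real.log X)| =
      ∑ a ∈ range (WX X), ∑ N ∈ wnd X H (WX X) a,
        |(cT k T S N : ℝ) - cX X * (SN (WX X) S N).card * (dT k T X / Real.log X)| := by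
    rw [← Finset.sum_fiberwise_of_maps_to (g := fun N => N % WX X) (t := range (WX X))
      (fun N _ => Finset.mem_range.2 (Nat.mod_lt N hW))]
    refine Finset.sum_congr rfl fun a ha => Finset.sum_congr ?_ fun _ _ => rfl
    unfold wnd
    refine Finset.filter_congr fun N _ => ?_
    rw [Nat.ModEq, Nat.mod_eq_of_lt (Finset.mem_range.1 ha)]
  have hsum : ∑ a ∈ range (WX X), max ((Pool.Agent.Lib.SW.Sa (WX X) S a).card : ℝ)
      (X / (Real.log X) ^ (K + 1)) ≤
      S.card * ((WX X).totient : ℝ) + WX X * (X / (Real.log X) ^ (K + 1)) := by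
    have h1 : ∑ a ∈ range (WX X), ((Pool.Agent.Lib.SW.Sa (WX X) S a).card : ℝ) =
        S.card * ((WX X).totient : ℝ) := by
      exact_mod_cast Pool.Agent.Lib.SW.sum_card_Sa (WX X) hW S
    calc ∑ a ∈ range (WX X), max ((Pool.Agent.Lib.SW.Sa (WX X) S a).card : ℝ)
          (X / (Real.log X) ^ (K + 1))
        ≤ ∑ a ∈ range (WX X), (((Pool.Agent.Lib.SW.Sa (WX X) S a).card : ℝ) +
          X / (Real.log X) ^ (K + 1)) :=
          Finset.sum_le_sum fun a _ => max_le (by linarith [hXL.le]) (by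
            have : (0 : ℝ) ≤ ((Pool.Agent.Lib.SW.Sa (WX X) S a).card : ℝ) := Nat.cast_nonneg _
            linarith)
      _ = _ := by
          rw [Finset.sum_add_distrib, h1, Finset.sum_const, Finset.card_range, nsmul_eq_mul]
  have hkey : cX X * (X / (Real.log X) ^ (K + 1)) ≤ X / (Real.log X) ^ K := by
    rw [pow_succ, ← div_div, mul_div_assoc']
    rw [div_le_iff₀ hL0, mul_comm]
    exact mul_le_mul_of_nonneg_left hc (by positivity)
  rw [hsplit]
  calc ∑ a ∈ range (WX X), ∑ N ∈ wnd X H (WX X) a,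
        |(cT k T S N : ℝ) - cX X * (SN (WX X) S N).card * (dT k T X / Real.log X)|
      ≤ ∑ a ∈ range (WX X), ε * (H / WX X) * (cX X *
          max ((Pool.Agent.Lib.SW.Sa (WX X) S a).card : ℝ)
          (X / (Real.log X) ^ (K + 1)) * (dT k T X / Real.log X)) :=
        Finset.sum_le_sum fun a _ => hone a
    _ = (ε * (H / WX X) * cX X * (dT k T X / Real.log X)) *
        ∑ a ∈ range (WX X), max ((Pool.Agent.Lib.SW.Sa (WX X) S a).card : ℝ)
          (X / (Real.log X) ^ (K + 1)) := by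
        rw [Finset.mul_sum]
        exact Finset.sum_congr rfl fun a _ => by ring
    _ ≤ (ε * (H / WX X) * cX X * (dT k T X / Real.log X)) *
        (S.card * ((WX X).totient : ℝ) + WX X * (X / (Real.log X) ^ (K + 1))) :=
        mul_le_mul_of_nonneg_left hsum (by positivity)
    _ = ε * H * (S.card * (cX X * ((WX X).totient : ℝ) / WX X) +
          cX X * (X / (Real.log X) ^ (K + 1))) * (dT k T X / Real.log X) := by
        field_simp
    _ = ε * H * (S.card + cX X * (X / (Real.log X) ^ (K + 1))) * (dT k T X / Real.log X) := by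
        have h1 : cX X * ((WX X).totient : ℝ) / WX X = 1 := by
          unfold cX
          field_simp
        rw [h1, mul_one]
    _ ≤ ε * H * (S.card + X / (Real.log X) ^ K) * (dT k T X / Real.log X) := by
        refine mul_le_mul_of_nonneg_right (mul_le_mul_of_nonneg_left ?_ (by positivity)) hd
        linarith

end Pool.Agent.Lib.WL
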