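import Pool.Agent.Lib.WL.Bs

/-!
# WL, row BL: `bsW` in mean (the sum in the place of the number of exceptions)

PROOF IN WORDS. Bs.lean proves this before its last step (read its proof words): kinds (i) and (ii) are bounded for each `N` by `(ε/8) c m D/L` (at most `2H/W` numbers `N`), the sum over `N ∈ wnd` of the kind (iii) is `≤ (ε/4) (H/W) c m D/L`. No Markov inequality. (The author of Bs may put the common part into a lemma of Bs.lean without `private`.)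
-/

set_option autoImplicit false

open Finset

namespace Pool.Agent.Lib.WL

open Pool.Agent.Lib.SW (WX wX cX Sa)
open Pool.Agent.Lib.T8 (dT QE)
open Pool.Agent.Lib.G8 (EL)
open Pool.Agent.Lib.VKT (smo)

/-- the numbers divisible by the square of a number larger than `w` are few (copy from G8/L8a.lean) -/
private theorem bl_sq (w N : ℕ) (hw : 1 ≤ w) (s : Finset ℕ)
    (hs : ∀ p ∈ s, p < N ∧ ∃ q : ℕ, w < q ∧ q ^ 2 ∣ N - p) : (s.card : ℝ) ≤ N / w := by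
  classical
  have h1 : s.card ≤ ((Ioc w (max w N)).biUnion fun q => (Ioc 0 N).filter fun x => q ^ 2 ∣ x).card := by
    refine card_le_card_of_injOn (fun p => N - p) ?_ ?_
    · intro p hp
      obtain ⟨h2, q, hq, h3⟩ := hs p (by simpa using hp)
      have h4 : q ≤ N - p := (Nat.le_self_pow (by norm_num) q).trans (Nat.le_of_dvd (by omega) h3)
      have h5 : N - p ∈ (Ioc w (max w N)).biUnion fun q => (Ioc 0 N).filter fun x => q ^ 2 ∣ x := by
        rw [mem_biUnion]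
        refine ⟨q, ?_, ?_⟩
        · rw [mem_Ioc]
          exact ⟨hq, (h4.trans (Nat.sub_le _ _)).trans (le_max_right _ _)⟩
        · rw [mem_filter, mem_Ioc]
          exact ⟨⟨by omega, by omega⟩, h3⟩
      exact mem_coe.2 h5
    · intro p hp p' hp' h
      have h2 := (hs p (by simpa using hp)).1
      have h3 := (hs p' (by simpa using hp')).1
      simp only at h
      omega
  have h2 : (((Ioc w (max w N)).biUnion fun q => (Ioc 0 N).filter fun x => q ^ 2 ∣ x).card : ℝ) ≤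
      ∑ q ∈ Ioc w (max w N), (N : ℝ) * ((q : ℝ) ^ 2)⁻¹ := by
    refine (Nat.cast_le.2 (card_biUnion_le (s := Ioc w (max w N)) (t := fun q => (Ioc 0 N).filter fun x => q ^ 2 ∣ x))).trans ?_
    rw [Nat.cast_sum]
    refine sum_le_sum fun q _ => ?_
    rw [Nat.Ioc_filter_dvd_card_eq_div]
    refine Nat.cast_div_le.trans ?_
    rw [Nat.cast_pow, div_eq_mul_inv]
  have h4 := sum_Ioc_inv_sq_le_sub (α := ℝ) (k := w) (n := max w N) (by omega) (le_max_left _ _)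
  have h5 : (0 : ℝ) ≤ ((max w N : ℕ) : ℝ)⁻¹ := by positivity
  rw [← mul_sum] at h2
  calc (s.card : ℝ) ≤ _ := Nat.cast_le.2 h1
    _ ≤ _ := h2
    _ ≤ N * ((w : ℝ)⁻¹) := by
        refine mul_le_mul_of_nonneg_left ?_ (Nat.cast_nonneg _)
        linarith
    _ = N / w := (div_eq_mul_inv _ _).symm

/-- the pointwise bound -/
private theorem bl_pt {k U w0 X Z H a N : ℕ} {T S : Finset ℕ} {μ : ℕ → ℝ} (hk : 2 ≤ k) (hw0 : 1 ≤ w0)
    (hT : ∀ q ∈ T, q.Prime ∧ w0 < q ∧ 2 * q ≤ U) (hTw : ∀ q ∈ T, wX X < q)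
    (hS : S ⊆ Icc 1 Z) (hN : N ∈ wnd Z H (WX X) a)
    (h0 : ∀ n : ℕ, 1 ≤ n → 0 ≤ ∑ e ∈ n.divisors, μ e)
    (h1 : ∀ n : ℕ, 1 ≤ n → smo U n ∈ QE (k - 1) U T (U ^ k) → 1 ≤ ∑ e ∈ n.divisors, μ e) :
    (cB k U T S N : ℝ) ≤ (U : ℝ) ^ k + N / w0 + ∑ s ∈ Sa (WX X) S a, ∑ e ∈ (N - s).divisors, μ e := by
  classical
  have hN' := mem_filter.1 hN
  have hN1 := mem_Ioc.1 hN'.1
  have hSN : ∀ s ∈ S, 1 ≤ s ∧ s < N := fun s hs => by
    have := mem_Icc.1 (hS hs)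
    omega
  have hcard : cB k U T S N ≤ (S.filter fun s => N - s ≤ U ^ k).card +
      (S.filter fun s => ∃ q : ℕ, w0 < q ∧ q ^ 2 ∣ N - s).card +
      ((Sa (WX X) S a).filter fun s => smo U (N - s) ∈ QE (k - 1) U T (U ^ k)).card := by
    unfold cB
    refine (card_le_card (t := (S.filter fun s => N - s ≤ U ^ k) ∪
      (S.filter fun s => ∃ q : ℕ, w0 < q ∧ q ^ 2 ∣ N - s) ∪
      ((Sa (WX X) S a).filter fun s => smo U (N - s) ∈ QE (k - 1) U T (U ^ k))) ?_).trans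
      ((card_union_le _ _).trans (Nat.add_le_add_right (card_union_le _ _) _))
    intro s hs
    obtain ⟨hsS, hsN, hl, hm, hE⟩ := mem_filter.1 hs
    by_cases hz : N - s ≤ U ^ k
    · exact mem_union_left _ (mem_union_left _ (mem_filter.2 ⟨hsS, hz⟩))
    · have hz' : U ^ k < N - s := not_le.1 hz
      obtain ⟨-, h2⟩ := Pool.Agent.Lib.T8.spZ hk hT le_rfl hz' hl hm
      rcases h2 hE with ⟨q, hq, hwq, hd⟩ | h3
      · exact mem_union_left _ (mem_union_right _ (mem_filter.2 ⟨hsS, q, hwq, hd⟩))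
      · refine mem_union_right _ (mem_filter.2 ⟨Pool.Agent.Lib.SW.mem_Sa.2 ⟨hsS, ?_⟩, h3⟩)
        rw [← Pool.Agent.Lib.SW.cop_cast hN'.2 hsN]
        apply Nat.Coprime.symm
        unfold WX primorial
        apply Nat.Coprime.prod_left
        intro p hp
        obtain ⟨hp1, hp2⟩ := mem_filter.1 hp
        rw [Nat.Prime.coprime_iff_not_dvd hp2]
        intro hd
        have h5 := Nat.minFac_le_of_dvd hp2.two_le hd
        have h6 := hTw _ hm
        have h7 := mem_range.1 hp1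
        omega
  have hc1 : ((S.filter fun s => N - s ≤ U ^ k).card : ℝ) ≤ (U : ℝ) ^ k := by
    have : (S.filter fun s => N - s ≤ U ^ k).card ≤ (Icc 1 (U ^ k)).card := by
      refine card_le_card_of_injOn (fun s => N - s) ?_ ?_
      · intro s hs
        obtain ⟨hsS, h2⟩ := mem_filter.1 (mem_coe.1 hs)
        have := hSN s hsS
        have h3 : 1 ≤ N - s := by omega
        exact mem_coe.2 (mem_Icc.2 ⟨h3, h2⟩)
      · intro s hs s' hs' h
        have h2 := hSN s (mem_filter.1 (mem_coe.1 hs)).1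
        have h3 := hSN s' (mem_filter.1 (mem_coe.1 hs')).1
        simp only at h
        omega
    rw [Nat.card_Icc, Nat.add_sub_cancel] at this
    exact_mod_cast this
  have hc2 : ((S.filter fun s => ∃ q : ℕ, w0 < q ∧ q ^ 2 ∣ N - s).card : ℝ) ≤ N / w0 := by
    refine bl_sq w0 N hw0 _ fun s hs => ?_
    obtain ⟨hsS, h2⟩ := mem_filter.1 hs
    exact ⟨(hSN s hsS).2, h2⟩
  have hc3 : (((Sa (WX X) S a).filter fun s => smo U (N - s) ∈ QE (k - 1) U T (U ^ k)).card : ℝ) ≤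
      ∑ s ∈ Sa (WX X) S a, ∑ e ∈ (N - s).divisors, μ e := by
    have h4 : ∀ s ∈ Sa (WX X) S a, 1 ≤ N - s := fun s hs => by
      have := hSN s (Pool.Agent.Lib.SW.mem_Sa.1 hs).1
      omega
    calc (((Sa (WX X) S a).filter fun s => smo U (N - s) ∈ QE (k - 1) U T (U ^ k)).card : ℝ) =
        ∑ s ∈ (Sa (WX X) S a).filter fun s => smo U (N - s) ∈ QE (k - 1) U T (U ^ k), (1 : ℝ) := by simp
      _ ≤ ∑ s ∈ (Sa (WX X) S a).filter fun s => smo U (N - s) ∈ QE (k - 1) U T (U ^ k), ∑ e ∈ (N - s).divisors, μ e :=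
          sum_le_sum fun s hs => by
            obtain ⟨h5, h6⟩ := mem_filter.1 hs
            exact h1 _ (h4 s h5) h6
      _ ≤ _ := sum_le_sum_of_subset_of_nonneg (filter_subset _ _) fun s hs _ => h0 _ (h4 s hs)
  have h9 : (cB k U T S N : ℝ) ≤ ((S.filter fun s => N - s ≤ U ^ k).card : ℝ) +
      ((S.filter fun s => ∃ q : ℕ, w0 < q ∧ q ^ 2 ∣ N - s).card : ℝ) +
      (((Sa (WX X) S a).filter fun s => smo U (N - s) ∈ QE (k - 1) U T (U ^ k)).card : ℝ) := by exact_mod_cast hcard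
  linarith

/-- the mean value -/
private theorem bl_mean {X Z H a R : ℕ} {S : Finset ℕ} {μ : ℕ → ℝ} (hS : S ⊆ Icc 1 Z)
    (h1 : ∀ e, μ e ≠ 0 → 1 ≤ e ∧ e ≤ R ∧ Nat.Coprime (WX X) e)
    (h2 : ∀ e, |μ e| ≤ (e.divisors.card : ℝ)) (t : ℝ) (ht : 0 ≤ t)
    (hV : ((Sa (WX X) S a).card : ℝ) * (((Z : ℝ) + 1) * (wnd Z H (WX X) a).card * (1 + Real.log R) ^ 8 +
      4 * ((wnd Z H (WX X) a).card : ℝ) ^ 2 * (R : ℝ) ^ 4) ≤ t ^ 2) :
    ∑ N ∈ wnd Z H (WX X) a, ∑ s ∈ Sa (WX X) S a, ∑ e ∈ (N - s).divisors, μ e ≤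
      (wnd Z H (WX X) a).card * (∑ e ∈ Icc 1 R, μ e / e) * (Sa (WX X) S a).card + t := by
  classical
  rw [sum_comm]
  have hsub : Sa (WX X) S a ⊆ range (Z + 1) := fun s hs => by
    have := mem_Icc.1 (hS (Pool.Agent.Lib.SW.mem_Sa.1 hs).1)
    exact mem_range.2 (by omega)
  have hv := vaW Z H (WX X) a R (Pool.Agent.Lib.SW.WX_pos X) μ h1 h2
  have h3 := (sum_le_sum_of_subset_of_nonneg (f := fun s => (∑ N ∈ wnd Z H (WX X) a, ∑ e ∈ (N - s).divisors, μ e -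
    (wnd Z H (WX X) a).card * ∑ e ∈ Icc 1 R, μ e / e) ^ 2) hsub (fun _ _ _ => sq_nonneg _)).trans hv
  have h4 : (∑ s ∈ Sa (WX X) S a, (∑ N ∈ wnd Z H (WX X) a, ∑ e ∈ (N - s).divisors, μ e -
    (wnd Z H (WX X) a).card * ∑ e ∈ Icc 1 R, μ e / e)) ^ 2 ≤ (Sa (WX X) S a).card *
      ∑ s ∈ Sa (WX X) S a, (∑ N ∈ wnd Z H (WX X) a, ∑ e ∈ (N - s).divisors, μ e -
    (wnd Z H (WX X) a).card * ∑ e ∈ Icc 1 R, μ e / e) ^ 2 := sq_sum_le_card_mul_sum_sq
  have h5 := h4.trans ((mul_le_mul_of_nonneg_left h3 (Nat.cast_nonneg _)).trans hV)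
  have h6 := (abs_le.1 (abs_le_of_sq_le_sq h5 ht)).2
  rw [sum_sub_distrib, sum_const, nsmul_eq_mul] at h6
  linarith

/-- the lower bound of the density -/
private theorem bl_dT {k B M X : ℕ} {T : Finset ℕ} {η : ℝ} (hM : 1 ≤ M) (hη : η ≤ 1 / (4 * M))
    (hL : ((k - 2).factorial : ℝ) ≤ Real.log X) (hL1 : 1 ≤ Real.log X) (hX : 1 ≤ X)
    (hT : ∀ q ∈ T, 2 ≤ q ∧ (q : ℝ) ≤ (X : ℝ) ^ η) (hs : 1 / (Real.log X) ^ B ≤ ∑ q ∈ T, 1 / (q : ℝ)) :
    1 / (Real.log X) ^ (B + 1) ≤ dT k T X := by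
  have hf : (0 : ℝ) < ((k - 2).factorial : ℝ) := by exact_mod_cast Nat.factorial_pos _
  have h1 : ∀ q ∈ T, 1 / (q : ℝ) * (1 / Real.log X) ≤
      1 / (q : ℝ) * ((Real.log (Real.log X / Real.log q)) ^ (k - 2) / ((k - 2).factorial : ℝ)) := by
    intro q hq
    obtain ⟨h2, h3⟩ := hT q hq
    have hq0 : (0 : ℝ) < q := by
      have : 0 < q := by omega
      exact_mod_cast this
    have hlq : 0 < Real.log q := Real.log_pos (by
      have : 1 < q := by omega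
      exact_mod_cast this)
    have hX0 : (0 : ℝ) < X := by exact_mod_cast hX
    have h4 : Real.log q ≤ η * Real.log X := by
      rw [← Real.log_rpow hX0]
      exact Real.log_le_log hq0 h3
    have hMr : (1 : ℝ) ≤ M := by exact_mod_cast hM
    have h5 : Real.log q ≤ 1 / 4 * Real.log X := by
      refine h4.trans (mul_le_mul_of_nonneg_right (hη.trans ?_) (by linarith))
      exact one_div_le_one_div_of_le (by norm_num) (by linarith)
    have h6 : 4 ≤ Real.log X / Real.log q := by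
      rw [le_div_iff₀ hlq]
      linarith
    have h7 : 1 ≤ Real.log (Real.log X / Real.log q) := by
      rw [Real.le_log_iff_exp_le (by linarith)]
      have := Real.exp_one_lt_d9
      linarith
    refine mul_le_mul_of_nonneg_left ?_ (by positivity)
    calc 1 / Real.log X ≤ 1 / ((k - 2).factorial : ℝ) := one_div_le_one_div_of_le hf hL
      _ ≤ _ := div_le_div_of_nonneg_right (one_le_pow₀ h7) hf.le
  unfold dT
  refine le_trans ?_ (sum_le_sum h1)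
  rw [← sum_mul, pow_succ, ← one_div_mul_one_div]
  exact mul_le_mul_of_nonneg_right hs (by positivity)

/-- the size of `U` -/
private theorem bl_U {M X U : ℕ} (hM : 1 ≤ M) (hX : 3 ≤ (X : ℝ) ^ (1 / (4 * M : ℝ))) (hU : X ≤ (U + 1) ^ (2 * M)) :
    2 * (X : ℝ) ^ (1 / (4 * M : ℝ)) ≤ U := by
  have hMr : (1 : ℝ) ≤ M := by exact_mod_cast hM
  have h2 : (((X : ℝ) ^ (1 / (4 * M : ℝ))) ^ 2) ^ (2 * M) = X := by
    rw [← pow_mul, ← Real.rpow_natCast, ← Real.rpow_mul (Nat.cast_nonneg _)]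
    have : 1 / (4 * M : ℝ) * ((2 * (2 * M) : ℕ) : ℝ) = 1 := by
      push_cast
      field_simp
      norm_num
    rw [this, Real.rpow_one]
  have h3 : (((X : ℝ) ^ (1 / (4 * M : ℝ))) ^ 2) ^ (2 * M) ≤ ((U : ℝ) + 1) ^ (2 * M) := by
    rw [h2]
    exact_mod_cast hU
  have h4 := le_of_pow_le_pow_left₀ (by omega) (by positivity) h3
  nlinarith

/-- the numerical inequality -/
private theorem bl_num {K B : ℕ} {e L h X Z1 A J lr R4 : ℝ} (he : 0 < e) (hL : 1 ≤ L) (hX : 0 ≤ X)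
    (hh : L ^ (2 * K + 2 * B + 18) ≤ h) (hA2 : A ≤ 2 * X) (hZ : 0 ≤ Z1) (hZ2 : Z1 ≤ 3 * X)
    (hJ0 : 0 ≤ J) (hJ : J ≤ 2 * h) (hl0 : 0 ≤ lr) (hlr : lr ≤ 2 * L) (hR0 : 0 ≤ R4) (hR : R4 ≤ √X)
    (h1 : 1572864 ≤ e ^ 4 * L ^ 6) (h2 : 16384 * L ^ (2 * K + 2 * B + 4) ≤ e ^ 4 * √X) :
    A * (Z1 * J * lr ^ 8 + 4 * J ^ 2 * R4) ≤ (e ^ 2 / 16 * h * (X / L ^ (K + B + 2))) ^ 2 := by
  have hL0 : 0 < L := by linarith
  have hh0 : 0 ≤ h := le_trans (by positivity) hh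
  have h3 : Z1 * J * lr ^ 8 ≤ (3 * X) * (2 * h) * (2 * L) ^ 8 := by gcongr
  have h4 : 4 * J ^ 2 * R4 ≤ 4 * (2 * h) ^ 2 * √X := by gcongr
  have h5 : A * (Z1 * J * lr ^ 8 + 4 * J ^ 2 * R4) ≤ (2 * X) * ((3 * X) * (2 * h) * (2 * L) ^ 8 + 4 * (2 * h) ^ 2 * √X) := by
    gcongr
  refine h5.trans ?_
  have hLp : 0 < L ^ (2 * K + 2 * B + 4) := by positivity
  have hrhs : (e ^ 2 / 16 * h * (X / L ^ (K + B + 2))) ^ 2 = e ^ 4 / 256 * h ^ 2 * X ^ 2 / L ^ (2 * K + 2 * B + 4) := by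
    rw [show 2 * K + 2 * B + 4 = 2 * (K + B + 2) by ring, pow_mul' L 2 (K + B + 2)]
    field_simp
    ring
  rw [hrhs, le_div_iff₀ hLp]
  have h6 : 3072 * X ^ 2 * h * L ^ 8 * L ^ (2 * K + 2 * B + 4) ≤ e ^ 4 / 512 * h ^ 2 * X ^ 2 := by
    have h7 : 1572864 * (L ^ 8 * L ^ (2 * K + 2 * B + 4)) ≤ e ^ 4 * h := by
      calc 1572864 * (L ^ 8 * L ^ (2 * K + 2 * B + 4)) ≤ (e ^ 4 * L ^ 6) * (L ^ 8 * L ^ (2 * K + 2 * B + 4)) := by gcongr
        _ = e ^ 4 * L ^ (2 * K + 2 * B + 18) := by ring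
        _ ≤ _ := by gcongr
    have h8 := mul_le_mul_of_nonneg_left h7 (show 0 ≤ X ^ 2 * h / 512 by positivity)
    calc _ = X ^ 2 * h / 512 * (1572864 * (L ^ 8 * L ^ (2 * K + 2 * B + 4))) := by ring
      _ ≤ _ := h8
      _ = _ := by ring
  have h9 : 32 * h ^ 2 * X * √X * L ^ (2 * K + 2 * B + 4) ≤ e ^ 4 / 512 * h ^ 2 * X ^ 2 := by
    have h10 := mul_le_mul_of_nonneg_left h2 (show 0 ≤ h ^ 2 * X * √X / 512 by positivity)
    have h11 : √X * √X = X := Real.mul_self_sqrt hX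
    calc _ = h ^ 2 * X * √X / 512 * (16384 * L ^ (2 * K + 2 * B + 4)) := by ring
      _ ≤ _ := h10
      _ = e ^ 4 / 512 * h ^ 2 * X * (√X * √X) := by ring
      _ = _ := by rw [h11]; ring
  calc _ = 3072 * X ^ 2 * h * L ^ 8 * L ^ (2 * K + 2 * B + 4) + 32 * h ^ 2 * X * √X * L ^ (2 * K + 2 * B + 4) := by ring
    _ ≤ e ^ 4 / 512 * h ^ 2 * X ^ 2 + e ^ 4 / 512 * h ^ 2 * X ^ 2 := add_le_add h6 h9
    _ = _ := by ring

private theorem bl_e1 (K B : ℕ) (X : ℝ) {L : ℝ} (hL : 0 < L) : X / L ^ (K + B + 2) = 1 * (X / L ^ K) * ((1 / L ^ (B + 1)) / L) := by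
  rw [show K + B + 2 = K + (B + 1) + 1 by ring, pow_succ L (K + (B + 1)), pow_add L K (B + 1)]
  field_simp

private theorem bl_e2 {M C1 L h c m D e : ℝ} (hM : 0 < M) (hC1 : 0 < C1) (hL : 0 < L) :
    (2 * h) * (C1 * (c / (L / (4 * M))) * (e ^ 2 / (128 * C1 * M) * D)) * m = e ^ 2 / 16 * h * (c * m * (D / L)) := by
  field_simp
  ring

private theorem bl_e3 (K B : ℕ) (X : ℝ) {L : ℝ} (hL : 0 < L) : (3 * X) / (L ^ (K + B + 8) / 2) = 6 / L ^ 6 * (X / L ^ (K + B + 2)) := by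
  rw [show K + B + 8 = (K + B + 2) + 6 by ring, pow_add L (K + B + 2) 6]
  field_simp
  ring

private theorem bl_wnd (Z H W a : ℕ) (hW : 1 ≤ W) : ((wnd Z H W a).card : ℝ) ≤ (H : ℝ) / W + 1 := by
  classical
  by_cases hne : (wnd Z H W a).Nonempty
  · have hmin := (wnd Z H W a).min'_mem hne
    have hle : ∀ N ∈ wnd Z H W a, (wnd Z H W a).min' hne ≤ N := fun N hN => (wnd Z H W a).min'_le _ hN
    obtain ⟨N₀, hN₀⟩ : ∃ N₀, N₀ = (wnd Z H W a).min' hne := ⟨_, rfl⟩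
    rw [← hN₀] at hmin hle
    have hm := mem_filter.1 hmin
    have hm1 := mem_Ioc.1 hm.1
    have hc : (wnd Z H W a).card ≤ (range ((Z + H - N₀) / W + 1)).card := by
      refine card_le_card_of_injOn (fun N => (N - N₀) / W) ?_ ?_
      · intro N hN
        have hN' := mem_filter.1 (mem_coe.1 hN)
        have hN1 := mem_Ioc.1 hN'.1
        have h1 : (N - N₀) / W ≤ (Z + H - N₀) / W := Nat.div_le_div_right (by omega)
        exact mem_coe.2 (mem_range.2 (Nat.lt_succ_of_le h1))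
      · intro N hN N' hN' h
        have h1 := hle _ (mem_coe.1 hN)
        have h2 := hle _ (mem_coe.1 hN')
        have h3 : N₀ ≡ N [MOD W] := hm.2.trans (mem_filter.1 (mem_coe.1 hN)).2.symm
        have h4 : N₀ ≡ N' [MOD W] := hm.2.trans (mem_filter.1 (mem_coe.1 hN')).2.symm
        have h5 := Nat.div_mul_cancel ((Nat.modEq_iff_dvd' h1).1 h3)
        have h6 := Nat.div_mul_cancel ((Nat.modEq_iff_dvd' h2).1 h4)
        simp only at h
        rw [h] at h5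
        omega
    rw [card_range] at hc
    have hc' : ((wnd Z H W a).card : ℝ) ≤ (((Z + H - N₀) / W : ℕ) : ℝ) + 1 := by exact_mod_cast hc
    have h1 : (((Z + H - N₀) / W : ℕ) : ℝ) ≤ ((Z + H - N₀ : ℕ) : ℝ) / W := Nat.cast_div_le
    have h2 : ((Z + H - N₀ : ℕ) : ℝ) ≤ (H : ℝ) := by
      have : Z + H - N₀ ≤ H := by omega
      exact_mod_cast this
    have h3 : ((Z + H - N₀ : ℕ) : ℝ) / W ≤ (H : ℝ) / W :=
      div_le_div_of_nonneg_right h2 (Nat.cast_nonneg _)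
    linarith
  · rw [not_nonempty_iff_eq_empty.1 hne, card_empty]
    push_cast
    positivity

theorem bsL (k K B : ℕ) (hk : 2 ≤ k) : ∃ c0 C M1 : ℕ, ∀ M : ℕ, M1 ≤ M → ∀ ε : ℝ, 0 < ε → ∃ η : ℝ, 0 < η ∧ ∃ X0 : ℕ, ∀ (X Z H a U : ℕ) (T : Finset ℕ),
    X0 ≤ X → Z ≤ 2 * X → U ^ (2 * M) ≤ X → X ≤ (U + 1) ^ (2 * M) → (∀ q ∈ T, q.Prime ∧ (Real.log X) ^ c0 ≤ q ∧ (q : ℝ) ≤ (X : ℝ) ^ η) →
      1 / (Real.log X) ^ B ≤ ∑ q ∈ T, 1 / (q : ℝ) → (Real.log X) ^ C ≤ H → H ≤ X → ∀ S : Finset ℕ, S ⊆ Icc 1 Z →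
        ∑ N ∈ wnd Z H (WX X) a, (cB k U T S N : ℝ) ≤
          ε * (H / WX X) * (cX X * max ((Sa (WX X) S a).card : ℝ) (X / (Real.log X) ^ K) * (dT k T X / Real.log X)) := by
  classical
  obtain ⟨C1, E, hC1, hE, hmj⟩ := mjW k hk
  refine ⟨K + B + 8, 2 * K + 2 * B + 20, 4 * E + k, fun M hM ε hε => ?_⟩
  have hM1 : 1 ≤ M := by omega
  have hMr : (1 : ℝ) ≤ M := by exact_mod_cast hM1
  obtain ⟨e, he0, heε, he1⟩ : ∃ e : ℝ, 0 < e ∧ 2 * e ≤ ε ∧ e ≤ 1 := ⟨min (ε / 2) 1, lt_min (by linarith) one_pos, by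
    have := min_le_left (ε / 2) 1
    linarith, min_le_right _ _⟩
  obtain ⟨ε', hε'⟩ : ∃ ε' : ℝ, ε' = e ^ 2 / (128 * C1 * M) := ⟨_, rfl⟩
  have hε'0 : 0 < ε' := by rw [hε']; positivity
  obtain ⟨η', hη', X1, hqs⟩ := qsW k M hk (by omega) ε' hε'0
  refine ⟨min η' (1 / (4 * M)), lt_min hη' (by positivity), ?_⟩
  obtain ⟨X2, hX2⟩ := Filter.eventually_atTop.1 (((Pool.Agent.Lib.SW.ev_log ((k - 2).factorial : ℝ)).and (Pool.Agent.Lib.SW.ev_log 2)).and
    ((Pool.Agent.Lib.SW.ev_log (1572864 / e ^ 4)).and ((Pool.Agent.Lib.SW.ev_pow ((16384 / e ^ 4) ^ 2) (2 * (2 * K + 2 * B + 4))).and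
      (Filter.eventually_ge_atTop (3 ^ (4 * M))))))
  refine ⟨max X1 X2, fun X Z H a U T hX hZ hU1 hU2 hT hTs hH hHX S hS => ?_⟩
  obtain ⟨⟨ha, hb⟩, hc, hd, hg⟩ := hX2 X ((le_max_right _ _).trans hX)
  have hXX1 : X1 ≤ X := (le_max_left _ _).trans hX
  have hDL := fun h1 h2 => bl_dT (k := k) (B := B) (X := X) (T := T) hM1 (min_le_right η' (1 / (4 * (M : ℝ)))) ha h1 h2
    (fun q hq => ⟨(hT q hq).1.two_le, (hT q hq).2.2⟩) hTs
  have hW := Pool.Agent.Lib.SW.WX_le X (by linarith)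
  have hwX := Pool.Agent.Lib.SW.wX_le X (by linarith)
  have hrp : ∀ q ∈ T, (q : ℝ) ≤ (X : ℝ) ^ (1 / (4 * M : ℝ)) ∧ (q : ℝ) ≤ (X : ℝ) ^ η' := fun q hq => by
    have hX0 : (1 : ℝ) ≤ X := by exact_mod_cast le_trans (Nat.one_le_pow _ _ (by norm_num)) hg
    exact ⟨(hT q hq).2.2.trans (Real.rpow_le_rpow_of_exponent_le hX0 (min_le_right _ _)),
      (hT q hq).2.2.trans (Real.rpow_le_rpow_of_exponent_le hX0 (min_le_left _ _))⟩
  have hqs' := hqs X U T hXX1 hU1 hU2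
  obtain ⟨L, hL⟩ : ∃ L : ℝ, L = Real.log X := ⟨_, rfl⟩
  rw [← hL] at ha hb hc hd hT hTs hH hDL hW hwX hqs' ⊢
  have hL1 : 1 ≤ L := by linarith
  have hL0 : 0 < L := by linarith
  have hX1 : 1 ≤ X := le_trans (Nat.one_le_pow _ _ (by norm_num)) hg
  have hX0 : (1 : ℝ) ≤ X := by exact_mod_cast hX1
  have hW0 : (0 : ℝ) < WX X := by exact_mod_cast Pool.Agent.Lib.SW.WX_pos X
  obtain ⟨h, hh⟩ : ∃ h : ℝ, h = (H : ℝ) / WX X := ⟨_, rfl⟩
  have hhL : L ^ (2 * K + 2 * B + 18) ≤ h := by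
    rw [hh, le_div_iff₀ hW0]
    calc L ^ (2 * K + 2 * B + 18) * WX X ≤ L ^ (2 * K + 2 * B + 18) * L ^ 2 := by gcongr
      _ = L ^ (2 * K + 2 * B + 20) := by ring
      _ ≤ H := hH
  have hh1 : 1 ≤ h := (one_le_pow₀ hL1).trans hhL
  -- the size of U
  have hy3 : 3 ≤ (X : ℝ) ^ (1 / (4 * M : ℝ)) := by
    have h3 : ((3 : ℝ) ^ (4 * M)) ^ (1 / (4 * M : ℝ)) = 3 := by
      rw [← Real.rpow_natCast, ← Real.rpow_mul (by norm_num)]
      have : ((4 * M : ℕ) : ℝ) * (1 / (4 * M : ℝ)) = 1 := by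
        push_cast
        field_simp
      rw [this, Real.rpow_one]
    calc (3 : ℝ) = ((3 : ℝ) ^ (4 * M)) ^ (1 / (4 * M : ℝ)) := h3.symm
      _ ≤ _ := Real.rpow_le_rpow (by positivity) (by exact_mod_cast hg) (by positivity)
  have hUy := bl_U hM1 hy3 hU2
  have hlogU : L / (4 * M) ≤ Real.log U := by
    have hpos : (0 : ℝ) < (X : ℝ) ^ (1 / (4 * M : ℝ)) := by linarith
    have := Real.log_le_log hpos (show (X : ℝ) ^ (1 / (4 * M : ℝ)) ≤ U by linarith)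
    rw [Real.log_rpow (by linarith), ← hL] at this
    rw [div_eq_mul_one_div, mul_comm]
    exact this
  have hLc : 2 * L ≤ L ^ (K + B + 8) := by
    calc 2 * L ≤ L * L := by nlinarith
      _ = L ^ 2 := (sq L).symm
      _ ≤ L ^ (K + B + 8) := pow_le_pow_right₀ hL1 (by omega)
  obtain ⟨w0, hw0⟩ : ∃ w0 : ℕ, w0 = ⌈L ^ (K + B + 8)⌉₊ - 1 := ⟨_, rfl⟩
  have hce : 1 ≤ ⌈L ^ (K + B + 8)⌉₊ := Nat.ceil_pos.2 (by positivity)
  have hw0' : L ^ (K + B + 8) / 2 ≤ w0 := by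
    have := Nat.le_ceil (L ^ (K + B + 8))
    rw [hw0, Nat.cast_sub hce]
    push_cast
    linarith
  have hw01 : 1 ≤ w0 := by
    have : (1 : ℝ) ≤ w0 := by linarith
    exact_mod_cast this
  have hTq : ∀ q ∈ T, q.Prime ∧ w0 < q ∧ 2 * q ≤ U := fun q hq => ⟨(hT q hq).1, by
    have h2 : ⌈L ^ (K + B + 8)⌉₊ ≤ q := Nat.ceil_le.2 (hT q hq).2.1
    omega, by
    have h1 := (hrp q hq).1
    have h2 : (2 * q : ℝ) ≤ U := by linarith
    exact_mod_cast h2⟩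
  have hTw : ∀ q ∈ T, wX X < q := fun q hq => by
    have h2 := (hT q hq).2.1
    have : (wX X : ℝ) < q := by linarith
    exact_mod_cast this
  have hTne : T.Nonempty := by
    by_contra h
    rw [not_nonempty_iff_eq_empty] at h
    rw [h, sum_empty] at hTs
    have : 0 < 1 / L ^ B := by positivity
    linarith
  obtain ⟨q0, hq0⟩ := hTne
  have hq0w := hTw q0 hq0
  have hq0U := (hTq q0 hq0).2.2
  have hq02 := (hT q0 hq0).1.two_le
  obtain ⟨μ, hμ1, hμ2, hμ3, hμ4, hμ5⟩ := hmj X U T (by omega) (by omega) (fun q hq => ⟨(hT q hq).1, hTw q hq, by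
    have := (hTq q hq).2.2
    omega⟩)
  have hqe := hqs' (fun q hq => ⟨(hT q hq).1, by
    have := (hT q hq).2.1
    linarith, (hrp q hq).2⟩)
  have hDL' := hDL hL1 hX1
  have hc1 : 1 ≤ cX X := Pool.Agent.Lib.SW.one_le_cX X
  have hA2 : ((Sa (WX X) S a).card : ℝ) ≤ 2 * X := by
    have h1 : (Sa (WX X) S a).card ≤ 2 * X := by
      calc (Sa (WX X) S a).card ≤ S.card := card_le_card (filter_subset _ _)
        _ ≤ (Icc 1 Z).card := card_le_card hS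
        _ = Z := by rw [Nat.card_Icc, Nat.add_sub_cancel]
        _ ≤ _ := hZ
    exact_mod_cast h1
  have hA0 : (0 : ℝ) ≤ ((Sa (WX X) S a).card : ℝ) := Nat.cast_nonneg _
  have hJ0 : (0 : ℝ) ≤ ((wnd Z H (WX X) a).card : ℝ) := Nat.cast_nonneg _
  have hJh : ((wnd Z H (WX X) a).card : ℝ) ≤ 2 * h := by
    have := bl_wnd Z H (WX X) a (Pool.Agent.Lib.SW.WX_pos X)
    rw [← hh] at this
    linarith
  have hU0 : 1 ≤ U := by omega
  have hUr : (1 : ℝ) ≤ U := by exact_mod_cast hU0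
  have hU2M : (U : ℝ) ^ (2 * M) ≤ X := by exact_mod_cast hU1
  have hUM : (U : ℝ) ^ M ≤ √X := by
    refine Real.le_sqrt_of_sq_le ?_
    rw [← pow_mul, mul_comm M 2]
    exact hU2M
  have hUk : (U : ℝ) ^ k ≤ √X := (pow_le_pow_right₀ hUr (by omega)).trans hUM
  have hR4 : (((U ^ E : ℕ) : ℝ)) ^ 4 ≤ √X := by
    push_cast
    rw [← pow_mul]
    exact (pow_le_pow_right₀ hUr (by omega)).trans hUM
  have hlR0 : 0 ≤ Real.log ((U ^ E : ℕ) : ℝ) := Real.log_natCast_nonneg _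
  have hlR : Real.log ((U ^ E : ℕ) : ℝ) ≤ L := by
    rw [hL]
    refine Real.log_le_log (by exact_mod_cast Nat.pow_pos hU0) ?_
    push_cast
    exact (pow_le_pow_right₀ hUr (by omega)).trans hU2M
  have hsq : 16384 * L ^ (2 * K + 2 * B + 4) ≤ e ^ 4 * √X := by
    have h1 : 16384 / e ^ 4 * L ^ (2 * K + 2 * B + 4) ≤ √X := by
      refine Real.le_sqrt_of_sq_le ?_
      rw [mul_pow, ← pow_mul, mul_comm (2 * K + 2 * B + 4) 2]
      exact hd
    calc 16384 * L ^ (2 * K + 2 * B + 4) = e ^ 4 * (16384 / e ^ 4 * L ^ (2 * K + 2 * B + 4)) := by field_simp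
      _ ≤ _ := mul_le_mul_of_nonneg_left h1 (by positivity)
  have hL6 : 1572864 ≤ e ^ 4 * L ^ 6 := by
    have h1 : 1572864 ≤ L * e ^ 4 := by
      rwa [div_le_iff₀ (by positivity)] at hc
    have h2 : L ≤ L ^ 6 := le_self_pow₀ hL1 (by norm_num)
    calc (1572864 : ℝ) ≤ L * e ^ 4 := h1
      _ ≤ L ^ 6 * e ^ 4 := by gcongr
      _ = _ := by ring
  have hZr : (Z : ℝ) ≤ 2 * X := by exact_mod_cast hZ
  have hHr : (H : ℝ) ≤ X := by exact_mod_cast hHX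
  have hmean := bl_mean (X := X) (Z := Z) (H := H) (a := a) hS hμ1 hμ2 (e ^ 2 / 16 * h * (X / L ^ (K + B + 2))) (by positivity)
    (bl_num he0 hL1 (by linarith) hhL hA2 (by positivity) (by linarith) hJ0 hJh (by linarith) (by linarith) (by positivity) hR4 hL6 hsq)
  -- the main quantity
  obtain ⟨m, hm⟩ : ∃ m : ℝ, m = max ((Sa (WX X) S a).card : ℝ) (X / L ^ K) := ⟨_, rfl⟩
  have hmA : ((Sa (WX X) S a).card : ℝ) ≤ m := hm ▸ le_max_left _ _
  have hmX : (X : ℝ) / L ^ K ≤ m := hm ▸ le_max_right _ _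
  have hD0 : 0 ≤ dT k T X := le_trans (by positivity) hDL'
  have hm0 : 0 ≤ m := le_trans (by positivity) hmX
  obtain ⟨τ, hτ⟩ : ∃ τ : ℝ, τ = cX X * m * (dT k T X / L) := ⟨_, rfl⟩
  have hτ0 : X / L ^ (K + B + 2) ≤ τ := by
    calc (X : ℝ) / L ^ (K + B + 2) = 1 * (X / L ^ K) * ((1 / L ^ (B + 1)) / L) := bl_e1 K B X hL0
      _ ≤ cX X * m * (dT k T X / L) := by gcongr
      _ = τ := hτ.symm
  have hτp : 0 < X / L ^ (K + B + 2) := by positivity
  rw [← hm, ← hτ, ← hh]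
  have hm1 : ∑ e ∈ Icc 1 (U ^ E), μ e / e ≤ C1 * (cX X / (L / (4 * M))) * (ε' * dT k T X) := by
    refine hμ5.trans ?_
    gcongr
  have hfirst : ((wnd Z H (WX X) a).card : ℝ) * (∑ e ∈ Icc 1 (U ^ E), μ e / e) * ((Sa (WX X) S a).card : ℝ) ≤ e ^ 2 / 16 * h * τ := by
    calc ((wnd Z H (WX X) a).card : ℝ) * (∑ e ∈ Icc 1 (U ^ E), μ e / e) * ((Sa (WX X) S a).card : ℝ) ≤
        ((wnd Z H (WX X) a).card : ℝ) * (C1 * (cX X / (L / (4 * M))) * (ε' * dT k T X)) * ((Sa (WX X) S a).card : ℝ) := by gcongr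
      _ ≤ (2 * h) * (C1 * (cX X / (L / (4 * M))) * (ε' * dT k T X)) * m := by gcongr
      _ = e ^ 2 / 16 * h * τ := by
          rw [hτ, hε']
          exact bl_e2 (by linarith) hC1 hL0
  have htot : ∑ N ∈ wnd Z H (WX X) a, ∑ s ∈ Sa (WX X) S a, ∑ e ∈ (N - s).divisors, μ e ≤ (e / 2 * h) * (e / 4 * τ) := by
    have h1 : e ^ 2 / 16 * h * (X / L ^ (K + B + 2)) ≤ e ^ 2 / 16 * h * τ := by gcongr
    calc _ ≤ _ := hmean
      _ ≤ e ^ 2 / 16 * h * τ + e ^ 2 / 16 * h * τ := add_le_add hfirst h1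
      _ = _ := by ring
  have hτp' : 0 < τ := lt_of_lt_of_le hτp hτ0
  have hpoint : ∀ N ∈ wnd Z H (WX X) a, (cB k U T S N : ℝ) ≤ e / 2 * τ +
      ∑ s ∈ Sa (WX X) S a, ∑ e ∈ (N - s).divisors, μ e := by
    intro N hN1
    have hpt := bl_pt hk hw01 hTq hTw hS hN1 hμ3 hμ4
    have h1 := mem_Ioc.1 (mem_filter.1 hN1).1
    have hN3 : (N : ℝ) ≤ 3 * X := by
      have : (N : ℝ) ≤ Z + H := by exact_mod_cast h1.2
      linarith
    have h2 : √(X : ℝ) ≤ e / 4 * (X / L ^ (K + B + 2)) := by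
      have h3 : 4 * L ^ (K + B + 2) ≤ e * √X := by
        have h4 : L ^ (K + B + 2) ≤ L ^ (2 * K + 2 * B + 4) := pow_le_pow_right₀ hL1 (by omega)
        have h5 : e ^ 4 ≤ e := by
          calc e ^ 4 = e * e ^ 3 := by ring
            _ ≤ e * 1 := by
                gcongr
                exact pow_le_one₀ he0.le he1
            _ = e := mul_one e
        have h6 : e ^ 4 * √X ≤ e * √X := by gcongr
        have h7 : 0 < L ^ (K + B + 2) := by positivity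
        linarith
      have h8 : √(X : ℝ) * √X = X := Real.mul_self_sqrt (by positivity)
      have h9 : 0 < L ^ (K + B + 2) := by positivity
      rw [← mul_div_assoc, le_div_iff₀ h9]
      have h10 := mul_le_mul_of_nonneg_left h3 (Real.sqrt_nonneg (X : ℝ))
      nlinarith
    have h3 : (N : ℝ) / w0 ≤ e / 4 * (X / L ^ (K + B + 2)) := by
      have hw0r : (0 : ℝ) < L ^ (K + B + 8) / 2 := by positivity
      calc (N : ℝ) / w0 ≤ (3 * X) / (L ^ (K + B + 8) / 2) := by gcongr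
        _ = 6 / L ^ 6 * (X / L ^ (K + B + 2)) := bl_e3 K B X hL0
        _ ≤ e / 4 * (X / L ^ (K + B + 2)) := by
            have h4 : 24 ≤ e * L ^ 6 := by
              have h5 : e ^ 4 ≤ e := by
                calc e ^ 4 = e * e ^ 3 := by ring
                  _ ≤ e * 1 := by
                      gcongr
                      exact pow_le_one₀ he0.le he1
                  _ = e := mul_one e
              have h6 : e ^ 4 * L ^ 6 ≤ e * L ^ 6 := by gcongr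
              linarith
            have h7 : 6 / L ^ 6 ≤ e / 4 := by
              rw [div_le_div_iff₀ (by positivity) (by norm_num)]
              linarith
            gcongr
    have h4 : e / 4 * (X / L ^ (K + B + 2)) ≤ e / 4 * τ := by gcongr
    linarith
  have hht : 0 ≤ h * τ := mul_nonneg (by linarith) hτp'.le
  calc ∑ N ∈ wnd Z H (WX X) a, (cB k U T S N : ℝ) ≤
      ∑ N ∈ wnd Z H (WX X) a, (e / 2 * τ + ∑ s ∈ Sa (WX X) S a, ∑ e ∈ (N - s).divisors, μ e) := sum_le_sum hpoint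
    _ = ((wnd Z H (WX X) a).card : ℝ) * (e / 2 * τ) +
        ∑ N ∈ wnd Z H (WX X) a, ∑ s ∈ Sa (WX X) S a, ∑ e ∈ (N - s).divisors, μ e := by
        rw [sum_add_distrib, sum_const, nsmul_eq_mul]
    _ ≤ (2 * h) * (e / 2 * τ) + (e / 2 * h) * (e / 4 * τ) :=
        add_le_add (mul_le_mul_of_nonneg_right hJh (by positivity)) htot
    _ = (e + e * e / 8) * (h * τ) := by ring
    _ ≤ ε * (h * τ) := by
        refine mul_le_mul_of_nonneg_right ?_ hht
        nlinarith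
    _ = ε * h * τ := by ring

end Pool.Agent.Lib.WL
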