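import Pool.Agent.Lib.WL.Def

/-!
# WL, row De: the truncated Ramanujan series in one class modulo `W`

PROOF IN WORDS. `ram Q (N - s) = ∑ gq q (N - s)` over the squarefree `q ≤ Q` (`ram`, `LQ`; `((N - s : ℕ) : ℤ) = N - s`). Every squarefree `q ≤ Q` is uniquely `d r`, `d = (q, W) ∣ W`, `r = q/d` coprime to `W`, so `r = 1` or `r ∈ Q2Of W Q`, and `gq (d r) = gq d · gq r` (`gq_mul`; compare
`LQ_QsOf`, `QsOf_inj`, `mem_QsOf_of` in SP3). For given `r` the `d` are all the divisors of `W` if `r W ≤ Q` (in particular for `r = 1`, as `W ≤ Q`), and `∑_{d ∣ W} gq d m = (W/φ(W)) 1_{(m, W) = 1}` (`sum_gq_divisors` in SW/RamModel); for `r W > Q` the inner sum is `Dd W Q r (N - s)`.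
`gq d u` for `d ∣ W` depends on `u` modulo `W` only, `N ≡ a (W)`: replace `N - s` by `a - s` in both places. The `r ∈ Q2Of W Q` with `r W ≤ Q` are `Q2Of W (Q/W)`. `|Dd| ≤ W`: at most `W` divisors, `|gq| ≤ 1` (`abs_gq_le`).
-/

set_option autoImplicit false

open Finset

namespace Pool.Agent.Lib.WL

open Pool.Agent.Lib.SW (gq Q2Of Sa)
open Pool.Agent.Lib.VKT (ram)

private theorem De_cong {W N a s d : ℕ} (hd : d ∣ W) (hN : N ≡ a [MOD W]) :
    gq d ((N : ℤ) - s) = gq d ((a : ℤ) - s) := by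
  obtain ⟨k, hk⟩ : (d : ℤ) ∣ (N : ℤ) - a := by
    have h1 : (W : ℤ) ∣ (N : ℤ) - a := Nat.modEq_iff_dvd.mp hN.symm
    exact (Int.natCast_dvd_natCast.2 hd).trans h1
  have e : (N : ℤ) - s = ((a : ℤ) - s) + d * k := by
    rw [← hk]
    ring
  rw [e, Pool.Agent.Lib.SW.gq_periodic]

private theorem De_Dd_cong {W Q N a s q : ℕ} (hN : N ≡ a [MOD W]) :
    Dd W Q q ((N : ℤ) - s) = Dd W Q q ((a : ℤ) - s) := by
  unfold Dd
  refine Finset.sum_congr rfl fun d hd => ?_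
  exact De_cong (Nat.dvd_of_mem_divisors (Finset.mem_filter.1 hd).1) hN

private theorem De_coprime {W Q q : ℕ} (hq : q ∈ Q2Of W Q) : Nat.Coprime W q :=
  (Pool.Agent.Lib.SW.mem_Q2Of.1 hq).2.2.2

private theorem De_one {W Q : ℕ} : 1 ∉ Q2Of W Q := by
  intro h
  exact absurd (Pool.Agent.Lib.SW.mem_Q2Of.1 h).2.2.1 (lt_irrefl 1)

private theorem De_img (W Q : ℕ) (hW : Squarefree W) (hQ : 1 ≤ Q) (n : ℕ) :
    (1 ≤ n ∧ n ≤ Q ∧ Squarefree n) ↔
      n ∈ ((W.divisors ×ˢ insert 1 (Q2Of W Q)).filter (fun x : ℕ × ℕ => x.1 * x.2 ≤ Q)).image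
        (fun x : ℕ × ℕ => x.1 * x.2) := by
  constructor
  · rintro ⟨_, h2, h3⟩
    have h4 := Pool.Agent.Lib.SW.mem_QsOf_of (W := W) hW.ne_zero h3 h2
    unfold Pool.Agent.Lib.SW.QsOf at h4
    rw [Finset.mem_image] at h4
    obtain ⟨x, hx, rfl⟩ := h4
    exact Finset.mem_image.2 ⟨x, Finset.mem_filter.2 ⟨hx, h2⟩, rfl⟩
  · intro h
    rw [Finset.mem_image] at h
    obtain ⟨x, hx, rfl⟩ := h
    rw [Finset.mem_filter] at hx
    have h4 := Pool.Agent.Lib.SW.mem_QsOf_bound (q := x.1 * x.2) hW (Finset.mem_image.2 ⟨x, hx.1, rfl⟩) hQ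
    exact ⟨Nat.one_le_iff_ne_zero.2 h4.1.ne_zero, hx.2, h4.1⟩

private theorem De_ram (W Q : ℕ) (hW : Squarefree W) (hQ : 1 ≤ Q) (m : ℤ) (A : Finset ℕ)
    (hA : ∀ n, n ∈ A ↔ 1 ≤ n ∧ n ≤ Q ∧ Squarefree n) :
    ∑ n ∈ A, gq n m = ∑ r ∈ insert 1 (Q2Of W Q), Dd W Q r m * gq r m := by
  have e : A = ((W.divisors ×ˢ insert 1 (Q2Of W Q)).filter (fun x : ℕ × ℕ => x.1 * x.2 ≤ Q)).image
        (fun x : ℕ × ℕ => x.1 * x.2) := by
    ext n
    rw [hA, De_img W Q hW hQ]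
  have hinj : Set.InjOn (fun x : ℕ × ℕ => x.1 * x.2)
      ((W.divisors ×ˢ insert 1 (Q2Of W Q)).filter (fun x : ℕ × ℕ => x.1 * x.2 ≤ Q) : Finset (ℕ × ℕ)) := by
    apply (Pool.Agent.Lib.SW.QsOf_inj (W := W) (Q2 := Q2Of W Q) fun q hq => De_coprime hq).mono
    intro x hx
    rw [Finset.mem_coe, Finset.mem_filter] at hx
    exact_mod_cast hx.1
  rw [e, Finset.sum_image hinj, Finset.sum_filter, Finset.sum_product_right]
  refine Finset.sum_congr rfl fun r hr => ?_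
  unfold Dd
  rw [Finset.sum_mul, Finset.sum_filter]
  refine Finset.sum_congr rfl fun d hd => ?_
  have hc : Nat.Coprime d r :=
    (Pool.Agent.Lib.SW.coprime_insert (fun q hq => De_coprime hq) r hr).coprime_dvd_left
      (Nat.dvd_of_mem_divisors hd)
  by_cases h : d * r ≤ Q
  · simp only [h, if_true]
    exact Pool.Agent.Lib.SW.gq_mul d r hc m
  · simp only [h, if_false]

open Classical in
private theorem De_full (W Q r : ℕ) (hW : Squarefree W) (h : r * W ≤ Q) (m : ℤ) :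
    Dd W Q r m = if IsCoprime m (W : ℤ) then (W : ℝ) / (W.totient : ℝ) else 0 := by
  rw [← Pool.Agent.Lib.SW.sum_gq_divisors W hW m]
  unfold Dd
  rw [Finset.filter_true_of_mem]
  intro d hd
  calc d * r ≤ W * r := Nat.mul_le_mul_right r (Nat.divisor_le hd)
    _ = r * W := mul_comm _ _
    _ ≤ Q := h

private theorem De_split (W Q : ℕ) (hW : 0 < W) (f : ℕ → ℝ) :
    ∑ r ∈ Q2Of W Q, f r = ∑ r ∈ Q2Of W (Q / W), f r + ∑ r ∈ QT W Q, f r := by
  have e : (Q2Of W Q).filter (fun q => ¬ Q < q * W) = Q2Of W (Q / W) := by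
    ext q
    rw [Finset.mem_filter, Pool.Agent.Lib.SW.mem_Q2Of, Pool.Agent.Lib.SW.mem_Q2Of, not_lt, Nat.le_div_iff_mul_le hW]
    constructor
    · rintro ⟨⟨_, h2⟩, h3⟩
      exact ⟨h3, h2⟩
    · rintro ⟨h1, h2⟩
      exact ⟨⟨(Nat.le_mul_of_pos_right q hW).trans h1, h2⟩, h1⟩
  rw [← Finset.sum_filter_add_sum_filter_not (Q2Of W Q) (fun q => Q < q * W), e, add_comm]
  rfl

open Classical in
theorem ramD (W Q N a s : ℕ) (hW : Squarefree W) (hWQ : W ≤ Q) (hN : N ≡ a [MOD W]) (hs : s < N) :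
    ram Q (N - s) = (if IsCoprime ((a : ℤ) - s) (W : ℤ) then
        (W : ℝ) / (W.totient : ℝ) * (1 + ∑ q ∈ Q2Of W (Q / W), gq q ((N : ℤ) - s)) else 0) +
      ∑ q ∈ QT W Q, Dd W Q q ((a : ℤ) - s) * gq q ((N : ℤ) - s) := by
  have hW0 : 0 < W := Nat.pos_of_ne_zero hW.ne_zero
  have hQ : 1 ≤ Q := by omega
  have e1 : ram Q (N - s) = ∑ r ∈ insert 1 (Q2Of W Q), Dd W Q r ((N : ℤ) - s) * gq r ((N : ℤ) - s) := by
    unfold Pool.Agent.Lib.VKT.ram Pool.Agent.Lib.SW.LQ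
    rw [Nat.cast_sub hs.le]
    apply De_ram W Q hW hQ
    intro n
    rw [Finset.mem_filter, Finset.mem_Icc]
    tauto
  rw [e1, Finset.sum_insert De_one, De_split W Q hW0, ← add_assoc]
  congr 1
  · have h1 : ∑ r ∈ Q2Of W (Q / W), Dd W Q r ((N : ℤ) - s) * gq r ((N : ℤ) - s) =
        ∑ r ∈ Q2Of W (Q / W), (if IsCoprime ((a : ℤ) - s) (W : ℤ) then (W : ℝ) / (W.totient : ℝ) else 0) *
          gq r ((N : ℤ) - s) := by
      refine Finset.sum_congr rfl fun r hr => ?_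
      have h2 := (Pool.Agent.Lib.SW.mem_Q2Of.1 hr).1
      rw [Nat.le_div_iff_mul_le hW0] at h2
      rw [De_Dd_cong hN, De_full W Q r hW h2]
    rw [h1, ← Finset.mul_sum, De_Dd_cong hN, De_full W Q 1 hW (by omega), Pool.Agent.Lib.SW.gq_one']
    split_ifs <;> ring
  · exact Finset.sum_congr rfl fun r _ => by rw [De_Dd_cong hN]

theorem Dd_le (W Q q : ℕ) (u : ℤ) : |Dd W Q q u| ≤ W := by
  unfold Dd
  calc |∑ d ∈ W.divisors.filter (fun d => d * q ≤ Q), gq d u|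
      ≤ ∑ d ∈ W.divisors.filter (fun d => d * q ≤ Q), |gq d u| := Finset.abs_sum_le_sum_abs _ _
    _ ≤ ∑ d ∈ W.divisors.filter (fun d => d * q ≤ Q), (1 : ℝ) :=
        Finset.sum_le_sum fun d _ => Pool.Agent.Lib.SW.abs_gq_le d u
    _ = ((W.divisors.filter (fun d => d * q ≤ Q)).card : ℝ) := by simp
    _ ≤ W := by
        have h1 := Finset.card_filter_le W.divisors (fun d => d * q ≤ Q)
        have h2 := Nat.card_divisors_le_self W
        exact_mod_cast h1.trans h2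

end Pool.Agent.Lib.WL
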