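import Pool.Agent.Lib.WL.Def

/-!
# WL, row Ka: the correlations at the moduli `> Q1` (elementary)

PROOF IN WORDS. For `h ≠ 0`, `q` squarefree: `|gq q h| = ∏_{p ∣ q, p ∤ h} 1/(p-1) = φ((q,h))/φ(q) ≤ (q,h)/φ(q)`. For fixed `s` every `h ∈ [1, X]` is `|s - s'|` for at most two `s'`, so the sum is at most `|S| · 2 ∑_{q ∈ 𝒬} φ(q)^(-2) ∑_{h ≤ X} (q,h)`, and
`∑_{h ≤ X} (q,h) ≤ ∑_{d ∣ q} d · (X/d) = τ(q) X`. For squarefree `q`: `τ(q)/φ(q)^2 = ∏_{p ∣ q} 2/(p-1)^2 ≤ 22 q^(-3/2)` (the factors `2 p^(3/2)/(p-1)^2` are `≤ 5.7, 2.6, 1.4, 1.03` for `p = 2, 3, 5, 7` and `≤ 1` for `p ≥ 11`), and `∑_{q > Q1} q^(-3/2) ≤ 2/√Q1`.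
Total `≤ 88 |S| X/√Q1`. (`sp1_fib` in SW/SP1.lean does the change from `s'` to `h`; any constant `≤ 1000` would do.)
-/

set_option autoImplicit false

open Finset

namespace Pool.Agent.Lib.WL

open Pool.Agent.Lib.SW (gq)

/-- the absolute value of `gq q` as a function of a natural number -/
private noncomputable def kaG (q h : ℕ) : ℝ := ∏ p ∈ q.primeFactors, (if p ∣ h then (1 : ℝ) else 1 / ((p : ℝ) - 1))

private theorem ka_p {q p : ℕ} (hp : p ∈ q.primeFactors) : (0 : ℝ) < (p : ℝ) - 1 := by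
  have h : 2 ≤ p := (Nat.prime_of_mem_primeFactors hp).two_le
  have h' : (2 : ℝ) ≤ p := by exact_mod_cast h
  linarith

private theorem ka_abs (q : ℕ) (n : ℤ) : |gq q n| = kaG q n.natAbs := by
  unfold gq kaG
  rw [Finset.abs_prod]
  refine Finset.prod_congr rfl fun p hp => ?_
  have h1 := ka_p hp
  by_cases h : (p : ℤ) ∣ n
  · rw [if_pos h, if_pos (Int.natCast_dvd.1 h), abs_neg, abs_one]
  · rw [if_neg h, if_neg (fun h2 => h (Int.natCast_dvd.2 h2)), abs_of_pos (by positivity)]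

private theorem ka_phi {q : ℕ} (hq : Squarefree q) : (q.totient : ℝ) = ∏ p ∈ q.primeFactors, ((p : ℝ) - 1) := by
  have h1 := Nat.totient_mul_prod_primeFactors q
  rw [Nat.prod_primeFactors_of_squarefree hq] at h1
  have hq0 : q ≠ 0 := hq.ne_zero
  have h2 : q.totient = ∏ p ∈ q.primeFactors, (p - 1) := by
    have h3 : q * q.totient = q * ∏ p ∈ q.primeFactors, (p - 1) := by rw [← h1, mul_comm]
    exact Nat.eq_of_mul_eq_mul_left (Nat.pos_of_ne_zero hq0) h3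
  rw [h2, Nat.cast_prod]
  refine Finset.prod_congr rfl fun p hp => ?_
  rw [Nat.cast_sub (Nat.prime_of_mem_primeFactors hp).one_lt.le, Nat.cast_one]

private theorem ka_t (X : ℕ) (t : Finset ℕ) (ht : ∀ p ∈ t, p.Prime) :
    ∑ h ∈ Icc 1 X, ∏ p ∈ t, (if p ∣ h then (p : ℝ) else 0) ≤ X := by
  set D : ℕ := ∏ p ∈ t, p with hD
  have hD0 : 0 < D := Finset.prod_pos fun p hp => (ht p hp).pos
  have h1 : ∀ h ∈ Icc 1 X, ∏ p ∈ t, (if p ∣ h then (p : ℝ) else 0) ≤ if D ∣ h then (D : ℝ) else 0 := by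
    intro h _
    by_cases hall : ∀ p ∈ t, p ∣ h
    · have h2 : D ∣ h := Finset.prod_primes_dvd h (fun p hp => (ht p hp).prime) hall
      rw [if_pos h2, hD, Nat.cast_prod]
      refine le_of_eq (Finset.prod_congr rfl fun p hp => ?_)
      rw [if_pos (hall p hp)]
    · push Not at hall
      obtain ⟨p, hp, hph⟩ := hall
      rw [Finset.prod_eq_zero hp (if_neg hph)]
      split_ifs
      · exact Nat.cast_nonneg _
      · exact le_rfl
  refine (Finset.sum_le_sum h1).trans ?_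
  rw [← Finset.sum_filter, Finset.sum_const, nsmul_eq_mul]
  have h3 : (Icc 1 X).filter (fun h => D ∣ h) = (Ioc 0 X).filter fun h => D ∣ h := by
    ext v
    simp only [mem_filter, mem_Icc, mem_Ioc]
    constructor
    · rintro ⟨h, h'⟩
      exact ⟨by omega, h'⟩
    · rintro ⟨h, h'⟩
      exact ⟨by omega, h'⟩
  rw [h3, Nat.Ioc_filter_dvd_card_eq_div]
  exact_mod_cast Nat.div_mul_le_self X D

private theorem ka_sum {q : ℕ} (hq : Squarefree q) (X : ℕ) :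
    ∑ h ∈ Icc 1 X, kaG q h ≤ 2 ^ q.primeFactors.card * X / (q.totient : ℝ) := by
  have hphi : (0 : ℝ) < (q.totient : ℝ) := by
    exact_mod_cast Nat.totient_pos.2 (Nat.pos_of_ne_zero hq.ne_zero)
  rw [le_div_iff₀ hphi, Finset.sum_mul]
  have h1 : ∀ h ∈ Icc 1 X, kaG q h * (q.totient : ℝ) ≤
      ∑ t ∈ q.primeFactors.powerset, ∏ p ∈ t, (if p ∣ h then (p : ℝ) else 0) := by
    intro h _
    rw [← Finset.prod_one_add, ka_phi hq, kaG, ← Finset.prod_mul_distrib]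
    refine Finset.prod_le_prod (fun p hp => ?_) fun p hp => ?_
    · have := ka_p hp
      split_ifs <;> positivity
    · have h2 := ka_p hp
      split_ifs
      · linarith
      · rw [one_div, inv_mul_cancel₀ h2.ne', add_zero]
  refine (Finset.sum_le_sum h1).trans ?_
  rw [Finset.sum_comm]
  have h3 : ∀ t ∈ q.primeFactors.powerset, ∑ h ∈ Icc 1 X, ∏ p ∈ t, (if p ∣ h then (p : ℝ) else 0) ≤ X :=
    fun t ht => ka_t X t fun p hp => Nat.prime_of_mem_primeFactors (Finset.mem_powerset.1 ht hp)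
  refine (Finset.sum_le_sum h3).trans (le_of_eq ?_)
  rw [Finset.sum_const, Finset.card_powerset, nsmul_eq_mul]
  push_cast
  rfl

/-- the local weights -/
private def kaw (p : ℕ) : ℕ := if p = 2 then 6 else if p = 3 then 3 else if p = 5 then 2 else if p = 7 then 2 else 1

private theorem kaw_ge (p : ℕ) : 1 ≤ kaw p := by
  unfold kaw
  split_ifs <;> norm_num

private theorem kaw_prod (P : Finset ℕ) : ∏ p ∈ P, kaw p ≤ 72 := by
  have h1 : ∏ p ∈ P, kaw p ≤ ∏ p ∈ P ∪ {2, 3, 5, 7}, kaw p :=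
    Finset.prod_le_prod_of_subset_of_one_le' Finset.subset_union_left fun p _ _ => kaw_ge p
  have h2 : ∏ p ∈ ({2, 3, 5, 7} : Finset ℕ), kaw p = ∏ p ∈ P ∪ {2, 3, 5, 7}, kaw p := by
    refine Finset.prod_subset Finset.subset_union_right fun p _ hp => ?_
    simp only [Finset.mem_insert, Finset.mem_singleton, not_or] at hp
    unfold kaw
    rw [if_neg hp.1, if_neg hp.2.1, if_neg hp.2.2.1, if_neg hp.2.2.2]
  have h3 : ∏ p ∈ ({2, 3, 5, 7} : Finset ℕ), kaw p = 72 := by decide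
  omega

private theorem ka_local {p : ℕ} (hp : p.Prime) : 2 * ((p : ℝ) * √p) ≤ kaw p * ((p : ℝ) - 1) ^ 2 := by
  have h2 := hp.two_le
  have key : ∀ (a b : ℝ), 0 ≤ b → (p : ℝ) * (2 * p) ^ 2 ≤ b ^ 2 → 2 * ((p : ℝ) * √p) ≤ b := by
    intro _ b hb h
    have h3 : 2 * ((p : ℝ) * √p) = √((p : ℝ) * (2 * p) ^ 2) := by
      rw [Real.sqrt_mul (Nat.cast_nonneg p), Real.sqrt_sq (by positivity)]
      ring
    rw [h3]
    exact Real.sqrt_le_iff.2 ⟨hb, h⟩
  by_cases h11 : 11 ≤ p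
  · have hw : kaw p = 1 := by
      unfold kaw
      rw [if_neg (by omega), if_neg (by omega), if_neg (by omega), if_neg (by omega)]
    rw [hw, Nat.cast_one, one_mul]
    have hr : (11 : ℝ) ≤ p := by exact_mod_cast h11
    refine key 0 _ (by positivity) ?_
    have h4 : (10 / 11 : ℝ) * p ≤ (p : ℝ) - 1 := by linarith
    have h5 : ((10 / 11 : ℝ) * p) ^ 4 ≤ ((p : ℝ) - 1) ^ 4 := pow_le_pow_left₀ (by positivity) h4 4
    have h6 : (p : ℝ) * (2 * p) ^ 2 ≤ ((10 / 11 : ℝ) * p) ^ 4 := by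
      have h7 : (0 : ℝ) ≤ (p : ℝ) ^ 3 := by positivity
      nlinarith
    calc (p : ℝ) * (2 * p) ^ 2 ≤ ((10 / 11 : ℝ) * p) ^ 4 := h6
      _ ≤ ((p : ℝ) - 1) ^ 4 := h5
      _ = (((p : ℝ) - 1) ^ 2) ^ 2 := by ring
  · have h12 : p = 2 ∨ p = 3 ∨ p = 5 ∨ p = 7 := by
      have h13 : p < 11 := by omega
      interval_cases p <;> simp_all (config := { decide := true })
    rcases h12 with rfl | rfl | rfl | rfl
    · refine key 0 _ ?_ ?_ <;> norm_num [kaw]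
    · refine key 0 _ ?_ ?_ <;> norm_num [kaw]
    · refine key 0 _ ?_ ?_ <;> norm_num [kaw]
    · refine key 0 _ ?_ ?_ <;> norm_num [kaw]

private theorem ka_sqrt (P : Finset ℕ) : ∏ p ∈ P, ((p : ℝ) * √p) = ((∏ p ∈ P, p : ℕ) : ℝ) * √((∏ p ∈ P, p : ℕ) : ℝ) := by
  classical
  induction P using Finset.induction_on with
  | empty => simp
  | insert a s ha ih =>
    rw [Finset.prod_insert ha, Finset.prod_insert ha, ih]
    push_cast
    rw [Real.sqrt_mul (Nat.cast_nonneg a)]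
    ring

private theorem ka_q {q : ℕ} (hq : Squarefree q) :
    2 ^ q.primeFactors.card / (q.totient : ℝ) ^ 2 ≤ 72 / ((q : ℝ) * √q) := by
  have hq0 : (0 : ℝ) < q := by exact_mod_cast Nat.pos_of_ne_zero hq.ne_zero
  have hphi : (0 : ℝ) < (q.totient : ℝ) := by
    exact_mod_cast Nat.totient_pos.2 (Nat.pos_of_ne_zero hq.ne_zero)
  have hs : 0 < √(q : ℝ) := Real.sqrt_pos.2 hq0
  rw [div_le_div_iff₀ (by positivity) (by positivity)]
  have h1 : ∏ p ∈ q.primeFactors, (2 * ((p : ℝ) * √p)) ≤ ∏ p ∈ q.primeFactors, ((kaw p : ℝ) * ((p : ℝ) - 1) ^ 2) :=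
    Finset.prod_le_prod (fun p _ => by positivity) fun p hp => ka_local (Nat.prime_of_mem_primeFactors hp)
  have l1 : ∏ p ∈ q.primeFactors, (2 * ((p : ℝ) * √p)) = 2 ^ q.primeFactors.card * ((q : ℝ) * √q) := by
    rw [Finset.prod_mul_distrib, Finset.prod_const, ka_sqrt, Nat.prod_primeFactors_of_squarefree hq]
  have l2 : ∏ p ∈ q.primeFactors, ((kaw p : ℝ) * ((p : ℝ) - 1) ^ 2) =
      (∏ p ∈ q.primeFactors, (kaw p : ℝ)) * (q.totient : ℝ) ^ 2 := by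
    rw [Finset.prod_mul_distrib, Finset.prod_pow, ← ka_phi hq]
  rw [l1, l2] at h1
  have h2 : ∏ p ∈ q.primeFactors, (kaw p : ℝ) ≤ 72 := by
    have := kaw_prod q.primeFactors
    exact_mod_cast this
  exact h1.trans (mul_le_mul_of_nonneg_right h2 (by positivity))

private theorem ka_tel (Q1 : ℕ) (hQ1 : 1 ≤ Q1) (M : ℕ) (hM : Q1 ≤ M) :
    ∑ q ∈ Ioc Q1 M, 1 / ((q : ℝ) * √q) ≤ 2 / √(Q1 : ℝ) - 2 / √(M : ℝ) := by
  induction M, hM using Nat.le_induction with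
  | base => simp
  | succ M hM ih =>
    rw [Finset.sum_Ioc_succ_top hM]
    have hM1 : (1 : ℝ) ≤ M := by exact_mod_cast hQ1.trans hM
    set a := √(M : ℝ) with ha
    set b := √((M + 1 : ℕ) : ℝ) with hb
    have ha2 : a ^ 2 = M := Real.sq_sqrt (by linarith)
    have hb2 : b ^ 2 = (M : ℝ) + 1 := by
      rw [hb, Real.sq_sqrt (by positivity)]
      push_cast
      ring
    have ha0 : 0 < a := Real.sqrt_pos.2 (by linarith)
    have hb0 : 0 < b := Real.sqrt_pos.2 (by positivity)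
    have hab : a ≤ b := by
      rw [ha, hb]
      apply Real.sqrt_le_sqrt
      push_cast
      linarith
    have h1 : ((M + 1 : ℕ) : ℝ) * b = b ^ 3 := by
      push_cast
      rw [← hb2]
      ring
    have h2 : 1 / b ^ 3 ≤ 2 / a - 2 / b := by
      have h3 : 2 / a - 2 / b = 2 * (b - a) / (a * b) := by
        field_simp
      rw [h3, div_le_div_iff₀ (by positivity) (by positivity)]
      have h4 : (b - a) * (b + a) = 1 := by nlinarith
      have h5 : 1 ≤ 2 * (b - a) * b := by nlinarith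
      calc 1 * (a * b) ≤ (2 * (b - a) * b) * (b * b) := by
            apply mul_le_mul h5 (by nlinarith) (by positivity) (by nlinarith)
        _ = 2 * (b - a) * b ^ 3 := by ring
    rw [h1]
    linarith

private theorem ka_tail (Q1 : ℕ) (hQ1 : 1 ≤ Q1) (𝒬 : Finset ℕ) (h𝒬 : ∀ q ∈ 𝒬, Q1 < q) :
    ∑ q ∈ 𝒬, 1 / ((q : ℝ) * √q) ≤ 2 / √(Q1 : ℝ) := by
  have hsub : 𝒬 ⊆ Ioc Q1 (max Q1 (𝒬.sup id)) := by
    intro q hq
    rw [mem_Ioc]
    exact ⟨h𝒬 q hq, (Finset.le_sup (f := id) hq).trans (le_max_right _ _)⟩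
  have h1 := ka_tel Q1 hQ1 (max Q1 (𝒬.sup id)) (le_max_left _ _)
  have h2 : 0 ≤ 2 / √((max Q1 (𝒬.sup id) : ℕ) : ℝ) := by positivity
  calc ∑ q ∈ 𝒬, 1 / ((q : ℝ) * √q) ≤ ∑ q ∈ Ioc Q1 (max Q1 (𝒬.sup id)), 1 / ((q : ℝ) * √q) :=
        Finset.sum_le_sum_of_subset_of_nonneg hsub fun q _ _ => by positivity
    _ ≤ 2 / √(Q1 : ℝ) := by linarith

theorem kapT (Q1 X : ℕ) (hQ1 : 1 ≤ Q1) (𝒬 : Finset ℕ) (h𝒬 : ∀ q ∈ 𝒬, Squarefree q ∧ Q1 < q) (S : Finset ℕ) (hS : S ⊆ Icc 1 X) :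
    ∑ s ∈ S, ∑ s' ∈ S.filter (fun s' => s' ≠ s), ∑ q ∈ 𝒬, |gq q ((s : ℤ) - s')| / (q.totient : ℝ) ≤
      1000 * S.card * X / Real.sqrt Q1 := by
  have hsq : 0 < √(Q1 : ℝ) := Real.sqrt_pos.2 (by exact_mod_cast hQ1)
  have hG0 : ∀ q h, 0 ≤ kaG q h := by
    intro q h
    refine Finset.prod_nonneg fun p hp => ?_
    have := ka_p hp
    split_ifs <;> positivity
  have h1 : ∀ s ∈ S, ∑ s' ∈ S.filter (fun s' => s' ≠ s), ∑ q ∈ 𝒬, |gq q ((s : ℤ) - s')| / (q.totient : ℝ) ≤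
      288 * X / √(Q1 : ℝ) := by
    intro s hs
    have e1 : ∑ s' ∈ S.filter (fun s' => s' ≠ s), ∑ q ∈ 𝒬, |gq q ((s : ℤ) - s')| / (q.totient : ℝ) =
        ∑ s' ∈ S.filter (fun s' => s' ≠ s),
          (fun h : ℕ => ∑ q ∈ 𝒬, kaG q h / (q.totient : ℝ)) ((s : ℤ) - (s' : ℤ)).natAbs := by
      refine Finset.sum_congr rfl fun s' _ => Finset.sum_congr rfl fun q _ => ?_
      rw [ka_abs]
    rw [e1]
    refine (Pool.Agent.Lib.SW.sp1_fib X s (hS hs) S hS (fun h : ℕ => ∑ q ∈ 𝒬, kaG q h / (q.totient : ℝ)) fun h =>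
      Finset.sum_nonneg fun q _ => div_nonneg (hG0 q h) (Nat.cast_nonneg _)).trans ?_
    have e2 : ∑ h ∈ Icc 1 X, ∑ q ∈ 𝒬, kaG q h / (q.totient : ℝ) ≤ ∑ q ∈ 𝒬, 72 * X * (1 / ((q : ℝ) * √q)) := by
      rw [Finset.sum_comm]
      refine Finset.sum_le_sum fun q hq => ?_
      rw [← Finset.sum_div]
      have hqs := (h𝒬 q hq).1
      have hphi : (0 : ℝ) < (q.totient : ℝ) := by
        exact_mod_cast Nat.totient_pos.2 (Nat.pos_of_ne_zero hqs.ne_zero)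
      calc (∑ h ∈ Icc 1 X, kaG q h) / (q.totient : ℝ)
          ≤ (2 ^ q.primeFactors.card * X / (q.totient : ℝ)) / (q.totient : ℝ) :=
            div_le_div_of_nonneg_right (ka_sum hqs X) hphi.le
        _ = X * (2 ^ q.primeFactors.card / (q.totient : ℝ) ^ 2) := by
            field_simp
        _ ≤ X * (72 / ((q : ℝ) * √q)) := mul_le_mul_of_nonneg_left (ka_q hqs) (Nat.cast_nonneg X)
        _ = 72 * X * (1 / ((q : ℝ) * √q)) := by ring
    rw [← Finset.mul_sum] at e2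
    have e3 := ka_tail Q1 hQ1 𝒬 fun q hq => (h𝒬 q hq).2
    have e4 : 72 * (X : ℝ) * ∑ q ∈ 𝒬, 1 / ((q : ℝ) * √q) ≤ 72 * X * (2 / √(Q1 : ℝ)) :=
      mul_le_mul_of_nonneg_left e3 (by positivity)
    have e5 : 288 * (X : ℝ) / √(Q1 : ℝ) = 2 * (72 * X * (2 / √(Q1 : ℝ))) := by ring
    rw [e5]
    linarith
  refine (Finset.sum_le_sum h1).trans ?_
  rw [Finset.sum_const, nsmul_eq_mul, ← mul_div_assoc]
  apply div_le_div_of_nonneg_right _ hsq.le
  have h2 : (0 : ℝ) ≤ (S.card : ℝ) * X := by positivity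
  nlinarith

end Pool.Agent.Lib.WL
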