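import Pool.Agent.Lib.WL.Fo
import Pool.Agent.Lib.WL.Mt
import Pool.Agent.Lib.T8.Pl

/-!
# WL, row Bl: one block of `S` (`Y < Z - s ≤ 2Y`), second moment over a class in a window

PROOF IN WORDS. `L = log X`, `l = log 32Y`, `c = cX X ≥ 1`, `W = WX X ≤ L^2`, `σ = sL k U T ≥ L^(-B)`. `mtW K` gives `g0`; `foW Kk A g0` with `A = 2K + 2B + 8` gives `g ≥ g0`, `a1`, and `c6` for each `c1`; `mtW` at `g` gives `C'`; `C = max C' (c6 + 1)`. For `N` in the window and `s ∈ S`: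
`N - s = (N - Z) + (Z - s) ∈ (Y, 2Y + H] ⊆ (Y, 3Y]`, so `rZ Y k U T (N - s) = σ/l` (`platZ`). `∑_s FZ - c |Sa| σ/L = x1 + x2 + x3`, `x1 = ∑ (FZ - rZ ram)`, `x2 = (σ/l)(∑ ram - c |Sa|)`, `x3 = c |Sa| σ (1/l - 1/L)`; `(x1+x2+x3)^2 ≤ 3(x1^2+x2^2+x3^2)`.
x1: `foW` (the window contains the class): `≤ 64 Y H |S|/l^A ≤ 64 (2X) H (2X) 2^A/L^A ≤ (ε/9) (H/W) (c σ/L)^2 (X/L^K)^2` for large `X`. x2: `mtW` with `ε/72` (`(L/2)^g ≤ ⌊l^g⌋ ≤ (2L)^g` as `L (1 - o(1)) ≤ l ≤ log 64X`), `(σ/l)^2 ≤ 4 (σ/L)^2`. x3: `|1/l - 1/L| ≤ ε'/L` for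
large `X`, at most `H/W + 1 ≤ 2H/W` numbers `N`, `|Sa|^2 ≤ (|Sa| + X/L^K)^2`. (`log X - B3 log log X ≤ log Y`.)
-/

set_option autoImplicit false

open Finset

namespace Pool.Agent.Lib.WL

open Pool.Agent.Lib.SW (WX cX Sa)
open Pool.Agent.Lib.T8 (FZ)
open Pool.Agent.Lib.G8 (RgL sL)

open Pool.Agent.Lib.SW (cX_le_log)
open Pool.Agent.Lib.T8 (rZ platZ)
open Pool.Agent.Lib.VKT (ram)

private theorem wnd_card_le (Z H W a : ℕ) (hW : 0 < W) : ((wnd Z H W a).card : ℝ) ≤ H / W + 1 := by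
  have h1 := Nat.Ioc_filter_modEq_card Z (Z + H) hW a
  have h2 : (((wnd Z H W a).card : ℤ) : ℚ) ≤ (H : ℚ) / W + 1 := by
    unfold wnd
    rw [h1]
    rcases le_total (⌊(((Z + H : ℕ) : ℚ) - a) / W⌋ - ⌊((Z : ℚ) - a) / W⌋) 0 with h | h
    · rw [max_eq_right h]
      push_cast
      positivity
    · rw [max_eq_left h]
      push_cast
      have f1 := Int.floor_le (((Z : ℚ) + H - a) / W)
      have f2 := Int.sub_one_lt_floor (((Z : ℚ) - a) / W)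
      have f3 : ((Z : ℚ) + H - a) / W = ((Z : ℚ) - a) / W + H / W := by ring
      rw [f3] at f1
      rw [f3]
      linarith
  have h3 : (((wnd Z H W a).card : ℕ) : ℚ) ≤ (H : ℚ) / W + 1 := by exact_mod_cast h2
  have h4 : (((((wnd Z H W a).card : ℕ) : ℚ)) : ℝ) ≤ (((H : ℚ) / W + 1 : ℚ) : ℝ) := Rat.cast_le.2 h3
  push_cast at h4
  exact h4

private theorem bl_three (x y z : ℝ) : (x + y + z) ^ 2 ≤ 3 * (x ^ 2 + y ^ 2 + z ^ 2) := by
  nlinarith [sq_nonneg (x - y), sq_nonneg (y - z), sq_nonneg (x - z)]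

/-- large `X` -/
private theorem bl_large (B3 c6 : ℕ) (M δ κ : ℝ) (hδ : 0 < δ) : ∃ X0 : ℕ, ∀ X : ℕ, X0 ≤ X →
    4 ≤ Real.log X ∧ M ≤ X / (Real.log X) ^ B3 ∧ (B3 : ℝ) * Real.log (Real.log X) + Real.log 64 ≤ δ * Real.log X ∧
      (2 : ℝ) ^ c6 ≤ Real.log X ∧ κ ≤ Real.log X := by
  have hL : Filter.Tendsto (fun X : ℕ => Real.log (X : ℝ)) Filter.atTop Filter.atTop :=
    Real.tendsto_log_atTop.comp tendsto_natCast_atTop_atTop
  have e1 := hL.eventually_ge_atTop (4 : ℝ)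
  have e2 : ∀ᶠ X : ℕ in Filter.atTop, M ≤ X / (Real.log X) ^ B3 := by
    have h1 := (Real.isLittleO_pow_log_id_atTop (n := B3)).bound (show (0 : ℝ) < 1 / (|M| + 1) by positivity)
    have h2 := tendsto_natCast_atTop_atTop.eventually h1
    filter_upwards [h2, e1] with X hX hX4
    have hl : 0 < (Real.log X) ^ B3 := by positivity
    rw [Real.norm_of_nonneg hl.le, id, Real.norm_of_nonneg (Nat.cast_nonneg X)] at hX
    rw [le_div_iff₀ hl]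
    have h3 : (|M| + 1) * (Real.log X) ^ B3 ≤ X := by
      rw [div_mul_eq_mul_div, one_mul, le_div_iff₀ (by positivity)] at hX
      linarith
    nlinarith [le_abs_self M, abs_nonneg M]
  have e3 : ∀ᶠ X : ℕ in Filter.atTop, (B3 : ℝ) * Real.log (Real.log X) + Real.log 64 ≤ δ * Real.log X := by
    have h1 := Real.isLittleO_log_id_atTop.bound (show (0 : ℝ) < δ / (2 * ((B3 : ℝ) + 1)) by positivity)
    have h2 := hL.eventually h1
    have h3 := hL.eventually_ge_atTop (2 * Real.log 64 / δ)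
    filter_upwards [h2, h3, e1] with X hX hX3 hX4
    have hl : 0 ≤ Real.log (Real.log X) := Real.log_nonneg (by linarith)
    rw [Real.norm_of_nonneg hl, id, Real.norm_of_nonneg (by linarith)] at hX
    rw [div_le_iff₀ hδ] at hX3
    have h4 : (B3 : ℝ) * Real.log (Real.log X) ≤ δ / 2 * Real.log X := by
      calc (B3 : ℝ) * Real.log (Real.log X) ≤ ((B3 : ℝ) + 1) * (δ / (2 * ((B3 : ℝ) + 1)) * Real.log X) :=
            mul_le_mul (by linarith) hX hl (by positivity)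
        _ = δ / 2 * Real.log X := by field_simp
    linarith
  have e4 := hL.eventually_ge_atTop ((2 : ℝ) ^ c6)
  have e5 := hL.eventually_ge_atTop κ
  obtain ⟨X0, hX0⟩ := Filter.eventually_atTop.1 ((((e1.and e2).and e3).and e4).and e5)
  exact ⟨X0, fun X hX => by
    have := hX0 X hX
    exact ⟨this.1.1.1.1, this.1.1.1.2, this.1.1.2, this.1.2, this.2⟩⟩

theorem blW (K Kk B B3 : ℕ) : ∃ a1 : ℕ, ∀ c1 : ℕ, a1 ≤ c1 → ∃ C : ℕ, ∀ ε : ℝ, 0 < ε → ∃ X0 : ℕ, ∀ (X Y Z H a k U w' : ℕ) (T : Finset ℕ),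
    X0 ≤ X → (X : ℝ) / (Real.log X) ^ B3 ≤ Y → Y ≤ 2 * X → Z ≤ 2 * X → 2 ≤ k → k ≤ Kk → RgL (4 * Y) U w' (c1 + 1) (1000 * Kk) T →
      1 / (Real.log X) ^ B ≤ sL k U T → 1 ≤ w' → (w' : ℝ) * (Real.log X) ^ C ≤ H → H ≤ Y →
        ∀ S : Finset ℕ, S ⊆ Icc 1 Z → (∀ s ∈ S, Y < Z - s ∧ Z - s ≤ 2 * Y) →
          ∑ N ∈ wnd Z H (WX X) a, (∑ s ∈ S, FZ Y k U T (N - s) - cX X * (Sa (WX X) S a).card * (sL k U T / Real.log X)) ^ 2 ≤
            ε * (H / WX X) * (cX X * (sL k U T / Real.log X)) ^ 2 * (((Sa (WX X) S a).card : ℝ) + X / (Real.log X) ^ K) ^ 2 := by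
  obtain ⟨g0, hmt⟩ := mtW K
  obtain ⟨g, hg, a1, hfo⟩ := foW Kk (2 * K + 2 * B + 8) (max g0 1)
  have hg0 : g0 ≤ g := (le_max_left _ _).trans hg
  have hg1 : 1 ≤ g := (le_max_right _ _).trans hg
  obtain ⟨C', hC'⟩ := hmt g hg0
  refine ⟨a1, fun c1 hc1 => ?_⟩
  obtain ⟨c6, x0, hfo1⟩ := hfo c1 hc1
  obtain ⟨x1, hpl⟩ := platZ Kk (c1 + 1)
  refine ⟨max C' (c6 + 1) + 2, fun ε hε => ?_⟩
  obtain ⟨X1, hmt1⟩ := hC' (ε / 36) (by positivity)
  obtain ⟨X2, hW2⟩ := cX_le_log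
  obtain ⟨δ, hδ⟩ : ∃ δ : ℝ, δ = min (1 / 4) (√(ε / 72)) := ⟨_, rfl⟩
  have hδ0 : 0 < δ := by
    rw [hδ]
    exact lt_min (by norm_num) (Real.sqrt_pos.2 (by positivity))
  have hδ4 : δ ≤ 1 / 4 := hδ ▸ min_le_left _ _
  have hδε : δ ^ 2 ≤ ε / 72 := by
    have h1 : δ ≤ √(ε / 72) := hδ ▸ min_le_right _ _
    calc δ ^ 2 ≤ √(ε / 72) ^ 2 := pow_le_pow_left₀ hδ0.le h1 2
      _ = ε / 72 := Real.sq_sqrt (by positivity)
  obtain ⟨X3, hX3⟩ := bl_large B3 c6 (max (max x0 x1) 1) δ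
    (9 * (256 * 2 ^ (2 * K + 2 * B + 8)) / ε) hδ0
  refine ⟨max (max X1 X2) X3, ?_⟩
  intro X Y Z H a k U w' T hX hYX hY2 hZ2 hk2 hkK hR hσB hw1 hH hHY S hS hSY
  have hXX1 : X1 ≤ X := (le_trans (le_max_left _ _) (le_max_left _ _)).trans hX
  have hXX2 : X2 ≤ X := (le_trans (le_max_right _ _) (le_max_left _ _)).trans hX
  have hXX3 : X3 ≤ X := (le_max_right _ _).trans hX
  obtain ⟨hL4, hM, hll, hc6, hκ⟩ := hX3 X hXX3
  obtain ⟨hcL, hWL⟩ := hW2 X hXX2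
  obtain ⟨L, hL⟩ : ∃ L, L = Real.log (X : ℝ) := ⟨_, rfl⟩
  rw [← hL] at hL4 hM hll hc6 hκ hcL hWL hYX hσB hH ⊢
  obtain ⟨l, hl⟩ : ∃ l, l = Real.log ((32 * Y : ℕ) : ℝ) := ⟨_, rfl⟩
  have hYM : max (max x0 x1) 1 ≤ (Y : ℝ) := hM.trans hYX
  have hYx0 : x0 ≤ (Y : ℝ) := (le_trans (le_max_left _ _) (le_max_left _ _)).trans hYM
  have hYx1 : x1 ≤ (Y : ℝ) := (le_trans (le_max_right _ _) (le_max_left _ _)).trans hYM
  have hY1 : (1 : ℝ) ≤ Y := (le_max_right _ _).trans hYM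
  have hL0 : 0 < L := by linarith
  have hX0 : (0 : ℝ) < X := by
    rcases Nat.eq_zero_or_pos X with h | h
    · rw [h] at hL
      simp at hL
      linarith
    · exact_mod_cast h
  -- the two logarithms
  have hlup : l ≤ L + Real.log 64 := by
    rw [hl, hL, ← Real.log_mul hX0.ne' (by norm_num)]
    apply Real.log_le_log (by push_cast; linarith)
    have : (Y : ℝ) ≤ 2 * X := by exact_mod_cast hY2
    push_cast
    linarith
  have hllo : L - (B3 : ℝ) * Real.log L ≤ l := by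
    have h1 : Real.log ((X : ℝ) / L ^ B3) ≤ l := by
      rw [hl]
      apply Real.log_le_log (by positivity)
      push_cast
      linarith
    rwa [Real.log_div hX0.ne' (by positivity), Real.log_pow, ← hL] at h1
  have hlog64 : 0 < Real.log 64 := Real.log_pos (by norm_num)
  have hlogL : 0 ≤ Real.log L := Real.log_nonneg (by linarith)
  have hB3l : 0 ≤ (B3 : ℝ) * Real.log L := by positivity
  have hδL : δ * L ≤ 1 / 4 * L := mul_le_mul_of_nonneg_right hδ4 hL0.le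
  have hl34 : 3 / 4 * L ≤ l := by linarith
  have hl2 : l ≤ 2 * L := by linarith
  have hl0 : 0 < l := by linarith
  have hLl : L ≤ 2 * l := by linarith
  have hlL : |L - l| ≤ δ * L := by
    rw [abs_le]
    constructor <;> linarith
  -- the modulus
  obtain ⟨W, hW⟩ : ∃ W : ℕ, W = WX X := ⟨_, rfl⟩
  have hWp : 0 < W := hW ▸ Pool.Agent.Lib.SW.WX_pos X
  rw [← hW] at hWL ⊢
  have hW0 : (0 : ℝ) < W := by exact_mod_cast hWp
  obtain ⟨c, hc⟩ : ∃ c, c = cX X := ⟨_, rfl⟩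
  have hc1' : 1 ≤ c := hc ▸ Pool.Agent.Lib.SW.one_le_cX X
  rw [← hc]
  obtain ⟨σ, hσ⟩ : ∃ σ, σ = sL k U T := ⟨_, rfl⟩
  rw [← hσ] at hσB ⊢
  have hσ0 : 0 < σ := lt_of_lt_of_le (by positivity) hσB
  obtain ⟨s1, hs1⟩ : ∃ s1 : ℝ, s1 = ((Sa W S a).card : ℝ) := ⟨_, rfl⟩
  have hs10 : 0 ≤ s1 := hs1 ▸ Nat.cast_nonneg _
  rw [← hs1]
  obtain ⟨XK, hXK⟩ : ∃ XK, XK = (X : ℝ) / L ^ K := ⟨_, rfl⟩
  have hXK0 : 0 < XK := hXK ▸ div_pos hX0 (by positivity)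
  rw [← hXK]
  -- sizes of `H`
  have hHC : L ^ (max C' (c6 + 1) + 2) ≤ (H : ℝ) := by
    refine le_trans ?_ hH
    have : (1 : ℝ) ≤ w' := by exact_mod_cast hw1
    exact le_mul_of_one_le_left (by positivity) this
  have hL1 : 1 ≤ L := by linarith
  have hHC' : L ^ C' ≤ (H : ℝ) :=
    (pow_le_pow_right₀ hL1 (le_trans (le_max_left C' (c6 + 1)) (Nat.le_add_right _ 2))).trans hHC
  have hH0 : (0 : ℝ) < H := lt_of_lt_of_le (by positivity) hHC'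
  have hHp : 1 ≤ H := by exact_mod_cast hH0
  have hHW : (W : ℝ) ≤ H := by
    refine hWL.trans ((pow_le_pow_right₀ hL1 ?_).trans hHC)
    omega
  have hH6 : (w' : ℝ) * (Real.log ((32 * Y : ℕ) : ℝ)) ^ c6 ≤ H := by
    rw [← hl]
    refine le_trans ?_ hH
    apply mul_le_mul_of_nonneg_left _ (Nat.cast_nonneg w')
    calc l ^ c6 ≤ (2 * L) ^ c6 := pow_le_pow_left₀ hl0.le hl2 c6
      _ = 2 ^ c6 * L ^ c6 := mul_pow _ _ _
      _ ≤ L * L ^ c6 := by gcongr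
      _ = L ^ (c6 + 1) := by ring
      _ ≤ L ^ (max C' (c6 + 1) + 2) :=
          pow_le_pow_right₀ hL1 (le_trans (le_max_right C' (c6 + 1)) (Nat.le_add_right _ 2))
  -- the level
  obtain ⟨Q, hQ⟩ : ∃ Q : ℕ, Q = ⌊l ^ g⌋₊ := ⟨_, rfl⟩
  have hQup : (Q : ℝ) ≤ (2 * L) ^ g := by
    rw [hQ]
    exact (Nat.floor_le (by positivity)).trans (pow_le_pow_left₀ hl0.le hl2 g)
  have hQlo : (L / 2) ^ g ≤ (Q : ℝ) := by
    have h1 : l ^ g - 1 < (Q : ℝ) := by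
      rw [hQ]
      exact Nat.sub_one_lt_floor _
    have h2 : (3 / 4 * L) ^ g ≤ l ^ g := pow_le_pow_left₀ (by positivity) hl34 g
    have h3 : (3 / 4 * L) ^ g = (3 / 2) ^ g * (L / 2) ^ g := by
      rw [← mul_pow]
      congr 1
      ring
    have h4 : (3 / 2 : ℝ) ≤ (3 / 2) ^ g := by
      calc (3 / 2 : ℝ) = (3 / 2) ^ 1 := by norm_num
        _ ≤ _ := pow_le_pow_right₀ (by norm_num) hg1
    have h5 : (2 : ℝ) ≤ (L / 2) ^ g := by
      calc (2 : ℝ) ≤ (L / 2) ^ 1 := by rw [pow_one]; linarith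
        _ ≤ _ := pow_le_pow_right₀ (by linarith) hg1
    have h6 : (3 / 2 : ℝ) * (L / 2) ^ g ≤ (3 / 2) ^ g * (L / 2) ^ g :=
      mul_le_mul_of_nonneg_right h4 (by positivity)
    rw [h3] at h2
    linarith
  -- the three parts
  obtain ⟨Q1, hQ1⟩ : ∃ x : ℕ → ℝ, ∀ N, x N = ∑ s ∈ S, (FZ Y k U T (N - s) - rZ Y k U T (N - s) * ram Q (N - s)) := ⟨_, fun _ => rfl⟩
  obtain ⟨Q2, hQ2⟩ : ∃ x : ℕ → ℝ, ∀ N, x N = ∑ s ∈ S, ram Q (N - s) - c * s1 := ⟨_, fun _ => rfl⟩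
  have hdec : ∀ N ∈ wnd Z H W a, ∑ s ∈ S, FZ Y k U T (N - s) - c * s1 * (σ / L) =
      Q1 N + σ / l * Q2 N + c * s1 * σ * (1 / l - 1 / L) := by
    intro N hN
    have hN1 := mem_Ioc.1 (mem_filter.1 hN).1
    have h1 : ∑ s ∈ S, FZ Y k U T (N - s) = Q1 N + σ / l * ∑ s ∈ S, ram Q (N - s) := by
      rw [hQ1, mul_sum, ← sum_add_distrib]
      refine sum_congr rfl fun s hs => ?_
      have hs2 := hSY s hs
      have hsZ := (mem_Icc.1 (hS hs)).2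
      have hp := hpl Y hYx1 U w' T hR k hk2 hkK (N - s) (by omega) (by omega)
      rw [hp, ← hσ, ← hl]
      ring
    rw [h1, hQ2]
    field_simp
    ring
  have hS1 : ∑ N ∈ wnd Z H W a, (∑ s ∈ S, FZ Y k U T (N - s) - c * s1 * (σ / L)) ^ 2 ≤
      3 * (∑ N ∈ wnd Z H W a, Q1 N ^ 2 + (σ / l) ^ 2 * ∑ N ∈ wnd Z H W a, Q2 N ^ 2 +
        ((wnd Z H W a).card : ℝ) * (c * s1 * σ * (1 / l - 1 / L)) ^ 2) := by
    calc ∑ N ∈ wnd Z H W a, (∑ s ∈ S, FZ Y k U T (N - s) - c * s1 * (σ / L)) ^ 2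
        ≤ ∑ N ∈ wnd Z H W a, 3 * (Q1 N ^ 2 + (σ / l * Q2 N) ^ 2 + (c * s1 * σ * (1 / l - 1 / L)) ^ 2) := by
          refine sum_le_sum fun N hN => ?_
          rw [hdec N hN]
          exact bl_three _ _ _
      _ = _ := by
          rw [← mul_sum, sum_add_distrib, sum_add_distrib, sum_const, nsmul_eq_mul, mul_sum]
          congr 2
          congr 1
          exact sum_congr rfl fun N _ => by ring
  obtain ⟨P, hP⟩ : ∃ P, P = (H / W : ℝ) * (c * (σ / L)) ^ 2 * (s1 + XK) ^ 2 := ⟨_, rfl⟩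
  have hP0 : 0 ≤ P := hP ▸ by positivity
  -- first part
  have hT1 : ∑ N ∈ wnd Z H W a, Q1 N ^ 2 ≤ ε / 9 * P := by
    have h1 : ∑ N ∈ wnd Z H W a, Q1 N ^ 2 ≤ ∑ N ∈ Ioc Z (Z + H), Q1 N ^ 2 :=
      sum_le_sum_of_subset_of_nonneg (filter_subset _ _) fun _ _ _ => sq_nonneg _
    have h2 := hfo1 Y hYx0 k U w' T hk2 hkK hR H hHp hH6 Z S (fun s hs => (mem_Icc.1 (hS hs)).2)
    rw [← hl, ← hQ] at h2
    simp only [← hQ1] at h2
    have hSX : (S.card : ℝ) ≤ 2 * X := by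
      have h3 : S.card ≤ Z := by
        have := card_le_card hS
        rwa [Nat.card_Icc, Nat.add_sub_cancel] at this
      exact_mod_cast h3.trans hZ2
    have hYX2 : (Y : ℝ) ≤ 2 * X := by exact_mod_cast hY2
    have h4 : 64 * (Y : ℝ) * H * S.card ≤ 256 * (X : ℝ) ^ 2 * H := by
      calc 64 * (Y : ℝ) * H * S.card ≤ 64 * (2 * X) * H * (2 * X) := by gcongr
        _ = _ := by ring
    obtain ⟨D, hD⟩ : ∃ D, D = L ^ (2 * K + 2 * B + 4) := ⟨_, rfl⟩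
    have hD0 : 0 < D := hD ▸ by positivity
    have h5 : D * L ^ 4 ≤ 2 ^ (2 * K + 2 * B + 8) * l ^ (2 * K + 2 * B + 8) := by
      calc D * L ^ 4 = L ^ (2 * K + 2 * B + 8) := by rw [hD]; ring
        _ ≤ (2 * l) ^ (2 * K + 2 * B + 8) := pow_le_pow_left₀ hL0.le (by linarith) _
        _ = _ := mul_pow _ _ _
    have h6 : 256 * 2 ^ (2 * K + 2 * B + 8) ≤ ε / 9 * L ^ 4 := by
      have h7 : 9 * (256 * 2 ^ (2 * K + 2 * B + 8)) ≤ L * ε := by
        rwa [div_le_iff₀ hε] at hκ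
      have h8 : L ≤ L ^ 4 := le_self_pow₀ hL1 (by norm_num)
      have h10 := mul_le_mul_of_nonneg_left h8 hε.le
      linarith
    have h9 : (X : ℝ) ^ 2 * H / D ≤ P := by
      have i1 : (H : ℝ) / L ^ 2 ≤ H / W := div_le_div_of_nonneg_left hH0.le hW0 hWL
      have i2 : 1 / L ^ B / L ≤ c * (σ / L) := by
        have j1 : 1 / L ^ B / L ≤ σ / L := div_le_div_of_nonneg_right hσB hL0.le
        have j2 : σ / L ≤ c * (σ / L) := le_mul_of_one_le_left (by positivity) hc1'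
        exact j1.trans j2
      have i3 : XK ≤ s1 + XK := by linarith
      calc (X : ℝ) ^ 2 * H / D = (H / L ^ 2) * (1 / L ^ B / L) ^ 2 * XK ^ 2 := by
            rw [hD, hXK]
            field_simp
            ring
        _ ≤ (H / W : ℝ) * (c * (σ / L)) ^ 2 * (s1 + XK) ^ 2 := by gcongr
        _ = P := hP.symm
    calc ∑ N ∈ wnd Z H W a, Q1 N ^ 2 ≤ 64 * Y * H * S.card / l ^ (2 * K + 2 * B + 8) := h1.trans h2
      _ ≤ 256 * (X : ℝ) ^ 2 * H / l ^ (2 * K + 2 * B + 8) := div_le_div_of_nonneg_right h4 (by positivity)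
      _ ≤ ε / 9 * ((X : ℝ) ^ 2 * H / D) := by
          rw [mul_div_assoc', div_le_div_iff₀ (by positivity) hD0]
          have k1 : 256 * (D * L ^ 4) ≤ 256 * (2 ^ (2 * K + 2 * B + 8) * l ^ (2 * K + 2 * B + 8)) := by linarith
          have k2 : 256 * D * L ^ 4 ≤ ε / 9 * L ^ 4 * l ^ (2 * K + 2 * B + 8) := by
            calc 256 * D * L ^ 4 ≤ 256 * 2 ^ (2 * K + 2 * B + 8) * l ^ (2 * K + 2 * B + 8) := by linarith
              _ ≤ ε / 9 * L ^ 4 * l ^ (2 * K + 2 * B + 8) := by gcongr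
          have k3 : 256 * D ≤ ε / 9 * l ^ (2 * K + 2 * B + 8) := by
            have : 0 < L ^ 4 := by positivity
            refine le_of_mul_le_mul_right ?_ this
            linarith
          calc 256 * (X : ℝ) ^ 2 * H * D = (X : ℝ) ^ 2 * H * (256 * D) := by ring
            _ ≤ (X : ℝ) ^ 2 * H * (ε / 9 * l ^ (2 * K + 2 * B + 8)) := by gcongr
            _ = _ := by ring
      _ ≤ ε / 9 * P := by gcongr
  -- second part
  have hT2 : (σ / l) ^ 2 * ∑ N ∈ wnd Z H W a, Q2 N ^ 2 ≤ ε / 9 * P := by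
    have h1 := hmt1 X Q Z H a hXX1 (by rw [← hL]; exact hQlo) (by rw [← hL]; exact hQup) hZ2 (by rw [← hL]; exact hHC') S hS
    rw [← hL, ← hW, ← hc, ← hs1, ← hXK] at h1
    simp only [← hQ2] at h1
    have h2 : (σ / l) ^ 2 ≤ 4 * (σ / L) ^ 2 := by
      have h3 : σ / l ≤ 2 * (σ / L) := by
        rw [mul_div_assoc', div_le_div_iff₀ hl0 hL0]
        have h10 := mul_le_mul_of_nonneg_left hLl hσ0.le
        linarith
      calc (σ / l) ^ 2 ≤ (2 * (σ / L)) ^ 2 := pow_le_pow_left₀ (by positivity) h3 2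
        _ = _ := by ring
    calc (σ / l) ^ 2 * ∑ N ∈ wnd Z H W a, Q2 N ^ 2
        ≤ (4 * (σ / L) ^ 2) * (ε / 36 * (H / W) * c ^ 2 * (s1 + XK) ^ 2) :=
          mul_le_mul h2 h1 (sum_nonneg fun _ _ => sq_nonneg _) (by positivity)
      _ = ε / 9 * P := by rw [hP]; ring
  -- third part
  have hT3 : ((wnd Z H W a).card : ℝ) * (c * s1 * σ * (1 / l - 1 / L)) ^ 2 ≤ ε / 9 * P := by
    have h1 : ((wnd Z H W a).card : ℝ) ≤ 2 * (H / W) := by
      have h2 := wnd_card_le Z H W a hWp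
      have h3 : (1 : ℝ) ≤ H / W := by rwa [le_div_iff₀ hW0, one_mul]
      linarith
    have h4 : (1 / l - 1 / L) ^ 2 ≤ (2 * δ / L) ^ 2 := by
      rw [← sq_abs (1 / l - 1 / L)]
      apply pow_le_pow_left₀ (abs_nonneg _)
      have h5 : 1 / l - 1 / L = (L - l) / (l * L) := by field_simp
      rw [h5, abs_div, abs_of_pos (mul_pos hl0 hL0), div_le_div_iff₀ (by positivity) hL0]
      have h6 : δ * L * L ≤ 2 * δ * (l * L) := by
        calc δ * L * L = (δ * L) * L := by ring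
          _ ≤ (δ * L) * (2 * l) := mul_le_mul_of_nonneg_left hLl (by positivity)
          _ = _ := by ring
      calc |L - l| * L ≤ δ * L * L := by gcongr
        _ ≤ _ := h6
    have h7 : s1 ^ 2 ≤ (s1 + XK) ^ 2 := pow_le_pow_left₀ hs10 (by linarith) 2
    calc ((wnd Z H W a).card : ℝ) * (c * s1 * σ * (1 / l - 1 / L)) ^ 2
        = ((wnd Z H W a).card : ℝ) * ((c * σ) ^ 2 * s1 ^ 2 * (1 / l - 1 / L) ^ 2) := by ring
      _ ≤ (2 * (H / W)) * ((c * σ) ^ 2 * (s1 + XK) ^ 2 * (2 * δ / L) ^ 2) := by gcongr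
      _ = 8 * δ ^ 2 * P := by
          rw [hP]
          field_simp
          ring
      _ ≤ 8 * (ε / 72) * P := by gcongr
      _ = ε / 9 * P := by ring
  calc ∑ N ∈ wnd Z H W a, (∑ s ∈ S, FZ Y k U T (N - s) - c * s1 * (σ / L)) ^ 2
      ≤ 3 * (ε / 9 * P + ε / 9 * P + ε / 9 * P) := hS1.trans (by linarith)
    _ = ε * P := by ring
    _ = ε * (H / W) * (c * (σ / L)) ^ 2 * (s1 + XK) ^ 2 := by rw [hP]; ring

end Pool.Agent.Lib.WL
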