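import Pool.Agent.Lib.WL.Ms
import Pool.Agent.Lib.VK.XSp
import Pool.Agent.Lib.MP_7b7e48_nt.TC.FLM

/-!
# WL, row Mj: a sieve majorant of type I of the exceptional numbers

PROOF IN WORDS. `w = wX X`, `W = WX X = primorial w`, `P` = the primes in `(w, U]`, `Q0 = QE (k-1) U T (U^k)` (T8/Def). `Pool.Agent.Lib.TC.flm 1` with `b = 1`, `z = U` gives `up : Finset ℕ → ℝ`, `|up d| ≤ 1`, `∏ d ≤ U^12` if `up d ≠ 0`. Let `μ e = ∑_{g ∈ Q0} ∑_{d ∈ P.powerset} [g ∏ d = e] up d`. Then for `n ≥ 1`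
`∑_{e ∣ n} μ e = ∑_{g ∈ Q0, g ∣ n} ∑_{d ⊆ P, ∏ d ∣ n/g} up d`, the inner sum is over the subsets of `B = {p ∈ P : p ∣ n/g}` and is `≥ 1` if `B = ∅`, `≥ 0` otherwise (third clause of `flm`). If `g = smo U n ∈ Q0` then `g ∣ n` and `n/g` has no prime factor `≤ U` (`smo_spec`, VK/XSp), so `B = ∅`. `E = k + 12`: `g ≤ U^k`. A `g ∈ Q0` has all its prime factors
`≥ g.minFac ∈ T`, so `> w`: it is coprime to `W`, as are the `d`. `|μ e| ≤ τ(e)`: `g ∣ e` and `d` is the set of prime factors of `e/g`. `∑ μ e/e = (∑_{g} 1/g) ∑_d up d ∏_{p ∈ d} 1/p ≤ (∑ 1/g)(1 + K/2) ∏_{p ∈ P} (1 - 1/p)` (fourth clause, `g r = 1/r`), and `msW`.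
-/

set_option autoImplicit false

open Finset

namespace Pool.Agent.Lib.WL

open Pool.Agent.Lib.SW (WX wX cX)
open Pool.Agent.Lib.VKT (smo)
open Pool.Agent.Lib.T8 (QE)

private noncomputable def mjMu (Q P : Finset ℕ) (up : Finset ℕ → ℝ) (e : ℕ) : ℝ :=
  ∑ g ∈ Q, ∑ d ∈ P.powerset, if g * ∏ r ∈ d, r = e then up d else 0

private theorem mj_sum (Q P : Finset ℕ) (up : Finset ℕ → ℝ) (D : Finset ℕ) (f : ℕ → ℝ) :
    ∑ e ∈ D, mjMu Q P up e * f e =
      ∑ g ∈ Q, ∑ d ∈ P.powerset, if g * ∏ r ∈ d, r ∈ D then up d * f (g * ∏ r ∈ d, r) else 0 := by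
  unfold mjMu
  simp only [Finset.sum_mul]
  rw [Finset.sum_comm]
  refine Finset.sum_congr rfl fun g hg => ?_
  rw [Finset.sum_comm]
  refine Finset.sum_congr rfl fun d hd => ?_
  simp only [ite_mul, zero_mul]
  rw [Finset.sum_ite_eq]

private theorem mj_div (Q P : Finset ℕ) (hQ : ∀ g ∈ Q, 1 ≤ g) (hP : ∀ r ∈ P, r.Prime) (up : Finset ℕ → ℝ) (n : ℕ)
    (hn : 1 ≤ n) : ∑ e ∈ n.divisors, mjMu Q P up e =
      ∑ g ∈ Q.filter (fun g => g ∣ n), ∑ d ∈ (P.filter fun r => r ∣ n / g).powerset, up d := by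
  have h := mj_sum Q P up n.divisors (fun _ => 1)
  simp only [mul_one] at h
  rw [h, Finset.sum_filter]
  refine Finset.sum_congr rfl fun g hg => ?_
  split_ifs with hgn
  · obtain ⟨m, rfl⟩ := hgn
    have hg0 : 0 < g := hQ g hg
    rw [Nat.mul_div_cancel_left m hg0, ← Finset.sum_filter]
    refine Finset.sum_congr ?_ fun _ _ => rfl
    ext d
    simp only [mem_filter, mem_powerset, Nat.mem_divisors]
    constructor
    · rintro ⟨hd, hdv, -⟩
      have hdm : ∏ r ∈ d, r ∣ m := (Nat.mul_dvd_mul_iff_left hg0).mp hdv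
      intro r hr
      exact mem_filter.mpr ⟨hd hr, (Finset.dvd_prod_of_mem _ hr).trans hdm⟩
    · intro hd
      have h1 : d ⊆ P := fun r hr => (mem_filter.mp (hd hr)).1
      exact ⟨h1, Nat.mul_dvd_mul_left g (Finset.prod_primes_dvd m (fun r hr => (hP r (h1 hr)).prime)
        fun r hr => (mem_filter.mp (hd hr)).2), by omega⟩
  · apply Finset.sum_eq_zero
    intro d hd
    rw [if_neg]
    intro h'
    exact hgn ((Dvd.intro _ rfl).trans (Nat.dvd_of_mem_divisors h'))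

private theorem mj_tau (Q P : Finset ℕ) (hQ : ∀ g ∈ Q, 1 ≤ g) (hP : ∀ r ∈ P, r.Prime) (up : Finset ℕ → ℝ)
    (hup : ∀ d, |up d| ≤ 1) (e : ℕ) : |mjMu Q P up e| ≤ (e.divisors.card : ℝ) := by
  have h1 : |mjMu Q P up e| ≤ ∑ g ∈ Q, if g ∈ e.divisors then (1 : ℝ) else 0 := by
    unfold mjMu
    refine (Finset.abs_sum_le_sum_abs _ _).trans (Finset.sum_le_sum fun g hg => ?_)
    refine (Finset.abs_sum_le_sum_abs _ _).trans ?_
    have h2 : ∀ d ∈ P.powerset, |if g * ∏ r ∈ d, r = e then up d else 0| ≤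
        if g * ∏ r ∈ d, r = e then (1 : ℝ) else 0 := by
      intro d hd
      split_ifs
      · exact hup d
      · simp
    refine (Finset.sum_le_sum h2).trans ?_
    by_cases hge : ∃ d ∈ P.powerset, g * ∏ r ∈ d, r = e
    · obtain ⟨d0, hd0, h0⟩ := hge
      have hpos : ∀ d ∈ P.powerset, 0 < ∏ r ∈ d, r :=
        fun d hd => Finset.prod_pos fun r hr => (hP r (mem_powerset.mp hd hr)).pos
      have hge : g ∈ e.divisors := by
        rw [Nat.mem_divisors]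
        refine ⟨⟨_, h0.symm⟩, ?_⟩
        rw [← h0]
        exact (Nat.mul_pos (hQ g hg) (hpos d0 hd0)).ne'
      rw [if_pos hge, Finset.sum_eq_single_of_mem d0 hd0, if_pos h0]
      intro d hd hne
      rw [if_neg]
      intro h3
      apply hne
      have h4 : ∏ r ∈ d, r = ∏ r ∈ d0, r := Nat.eq_of_mul_eq_mul_left (hQ g hg) (h3.trans h0.symm)
      rw [← Nat.primeFactors_prod (fun p hp => hP p (mem_powerset.mp hd hp)), h4,
        Nat.primeFactors_prod (fun p hp => hP p (mem_powerset.mp hd0 hp))]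
    · rw [Finset.sum_eq_zero]
      · split_ifs <;> norm_num
      · intro d hd
        exact if_neg fun h => hge ⟨d, hd, h⟩
  refine h1.trans ?_
  rw [← Finset.sum_filter, Finset.sum_const, nsmul_eq_mul, mul_one]
  exact_mod_cast Finset.card_le_card fun g hg => (mem_filter.mp hg).2

/-- a list is split by a condition -/
private theorem mj_split (l : List ℕ) (w : ℕ) :
    (l.filter fun p => p ≤ w).prod * (l.filter fun p => !decide (p ≤ w)).prod = l.prod := by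
  induction l with
  | nil => simp
  | cons a l ih =>
    by_cases h : a ≤ w
    · rw [List.filter_cons_of_pos (by simpa using h), List.filter_cons_of_neg (by simpa using h),
        List.prod_cons, List.prod_cons, ← ih, mul_assoc]
    · rw [List.filter_cons_of_neg (by simpa using h), List.filter_cons_of_pos (by simpa using h),
        List.prod_cons, List.prod_cons, ← ih]
      ring

private theorem mj_smo (w n : ℕ) (hn : 1 ≤ n) {p : ℕ} (hp : p.Prime) (hpn : p ∣ n / smo w n) : w < p := by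
  have h1 : smo w n * (n.primeFactorsList.filter fun p => !decide (p ≤ w)).prod = n := by
    unfold smo
    rw [mj_split, Nat.prod_primeFactorsList (by omega)]
  have h2 : 0 < smo w n := (Pool.Agent.Lib.VKT.smo_spec w n hn).2.1
  have h3 : n / smo w n = (n.primeFactorsList.filter fun p => !decide (p ≤ w)).prod :=
    Nat.div_eq_of_eq_mul_right h2 h1.symm
  rw [h3] at hpn
  obtain ⟨q, hq, hpq⟩ := (hp.prime.dvd_prod_iff).mp hpn
  obtain ⟨hq1, hq2⟩ := List.mem_filter.mp hq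
  have hqp : q.Prime := Nat.prime_of_mem_primeFactorsList hq1
  rw [(Nat.prime_dvd_prime_iff_eq hp hqp).mp hpq]
  simpa using hq2

theorem mjW (k : ℕ) (hk : 2 ≤ k) : ∃ (C : ℝ) (E : ℕ), 0 < C ∧ 1 ≤ E ∧ ∀ (X U : ℕ) (T : Finset ℕ), wX X ≤ U → 3 ≤ U → (∀ q ∈ T, q.Prime ∧ wX X < q ∧ q ≤ U) →
    ∃ μ : ℕ → ℝ, (∀ e, μ e ≠ 0 → 1 ≤ e ∧ e ≤ U ^ E ∧ Nat.Coprime (WX X) e) ∧ (∀ e, |μ e| ≤ (e.divisors.card : ℝ)) ∧
      (∀ n : ℕ, 1 ≤ n → 0 ≤ ∑ e ∈ n.divisors, μ e) ∧ (∀ n : ℕ, 1 ≤ n → smo U n ∈ QE (k - 1) U T (U ^ k) → 1 ≤ ∑ e ∈ n.divisors, μ e) ∧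
      ∑ e ∈ Icc 1 (U ^ E), μ e / e ≤ C * (cX X / Real.log U) * ∑ g ∈ QE (k - 1) U T (U ^ k), (1 : ℝ) / g := by
  obtain ⟨K, hK, hfl⟩ := Pool.Agent.Lib.TC.flm 1 zero_le_one
  obtain ⟨C0, hC0, hms⟩ := msW
  refine ⟨(1 + K / 2) * C0, k + 12, by positivity, by omega, fun X U T hXU hU hT => ?_⟩
  set P : Finset ℕ := (Icc 1 U).filter (fun p => p.Prime ∧ wX X < p) with hPdef
  have hP : ∀ r ∈ P, r.Prime ∧ r ≤ U := by
    intro r hr
    rw [hPdef, mem_filter, mem_Icc] at hr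
    exact ⟨hr.2.1, hr.1.2⟩
  have hPw : ∀ r ∈ P, wX X < r := by
    intro r hr
    rw [hPdef, mem_filter] at hr
    exact hr.2.2
  have hPp : ∀ r ∈ P, r.Prime := fun r hr => (hP r hr).1
  obtain ⟨up, lo, hup, hsup, hB, hdens⟩ := hfl 1 le_rfl U (by omega) P hP
  set Q : Finset ℕ := QE (k - 1) U T (U ^ k) with hQdef
  have hQ : ∀ g ∈ Q, 1 ≤ g ∧ g ≤ U ^ k ∧ g.minFac ∈ T := by
    intro g hg
    rw [hQdef] at hg
    simp only [QE, Pool.Agent.Lib.T8.QF, mem_filter, mem_Icc] at hg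
    exact ⟨hg.1.1.1, hg.1.1.2, hg.1.2.2⟩
  have hQ1 : ∀ g ∈ Q, 1 ≤ g := fun g hg => (hQ g hg).1
  have hcop : ∀ g ∈ Q, ∀ d ∈ P.powerset, Nat.Coprime (WX X) (g * ∏ r ∈ d, r) := by
    intro g hg d hd
    unfold WX primorial
    refine Nat.Coprime.prod_left fun p hp => ?_
    rw [mem_filter, mem_range] at hp
    refine Nat.Coprime.mul_right ?_ ?_
    · rw [Nat.Prime.coprime_iff_not_dvd hp.2]
      intro hpg
      have h1 := Nat.minFac_le_of_dvd hp.2.two_le hpg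
      have h2 := (hT _ (hQ g hg).2.2).2.1
      omega
    · refine Nat.Coprime.prod_right fun r hr => ?_
      have h1 := hPw r (mem_powerset.mp hd hr)
      exact (Nat.coprime_primes hp.2 (hPp r (mem_powerset.mp hd hr))).mpr (by omega)
  have hdpos : ∀ d ∈ P.powerset, 0 < ∏ r ∈ d, r :=
    fun d hd => Finset.prod_pos fun r hr => (hPp r (mem_powerset.mp hd hr)).pos
  have hsz : ∀ g ∈ Q, ∀ d ∈ P.powerset, up d ≠ 0 → 1 ≤ g * ∏ r ∈ d, r ∧ g * ∏ r ∈ d, r ≤ U ^ (k + 12) := by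
    intro g hg d hd hu
    refine ⟨Nat.mul_pos (hQ1 g hg) (hdpos d hd), ?_⟩
    have h1 : ((∏ r ∈ d, r : ℕ) : ℝ) ≤ ((U ^ 12 : ℕ) : ℝ) := by
      have := hsup d (mem_powerset.mp hd) (Or.inl hu)
      push_cast at this ⊢
      simpa using this
    have h2 : ∏ r ∈ d, r ≤ U ^ 12 := by exact_mod_cast h1
    rw [pow_add]
    exact Nat.mul_le_mul (hQ g hg).2.1 h2
  refine ⟨mjMu Q P up, ?_, mj_tau Q P hQ1 hPp up fun d => (hup d).1, ?_, ?_, ?_⟩
  · intro e he
    unfold mjMu at he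
    obtain ⟨g, hg, he⟩ := Finset.exists_ne_zero_of_sum_ne_zero he
    obtain ⟨d, hd, he⟩ := Finset.exists_ne_zero_of_sum_ne_zero he
    split_ifs at he with h
    · rw [← h]
      obtain ⟨h1, h2⟩ := hsz g hg d hd he
      exact ⟨h1, h2, hcop g hg d hd⟩
    · exact absurd rfl he
  · intro n hn
    rw [mj_div Q P hQ1 hPp up n hn]
    refine Finset.sum_nonneg fun g hg => ?_
    refine le_trans ?_ (hB _ (filter_subset _ _)).2
    split_ifs <;> norm_num
  · intro n hn hsm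
    rw [mj_div Q P hQ1 hPp up n hn]
    have hmem : smo U n ∈ Q.filter (fun g => g ∣ n) :=
      mem_filter.mpr ⟨hsm, (Pool.Agent.Lib.VKT.smo_spec U n hn).1⟩
    have hemp : (P.filter fun r => r ∣ n / smo U n) = ∅ := by
      rw [Finset.filter_eq_empty_iff]
      intro r hr hdv
      have := mj_smo U n hn (hPp r hr) hdv
      have := (hP r hr).2
      omega
    have h1 : (1 : ℝ) ≤ ∑ d ∈ (P.filter fun r => r ∣ n / smo U n).powerset, up d := by
      have := (hB (P.filter fun r => r ∣ n / smo U n) (filter_subset _ _)).2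
      rwa [if_pos hemp] at this
    refine h1.trans ?_
    refine Finset.single_le_sum (f := fun g => ∑ d ∈ (P.filter fun r => r ∣ n / g).powerset, up d) (fun g hg => ?_) hmem
    refine le_trans ?_ (hB _ (filter_subset _ _)).2
    split_ifs <;> norm_num
  · have h1 : ∑ e ∈ Icc 1 (U ^ (k + 12)), mjMu Q P up e / e =
        (∑ g ∈ Q, (1 : ℝ) / g) * ∑ d ∈ P.powerset, up d * ∏ r ∈ d, (1 / (r : ℝ)) := by
      have h2 := mj_sum Q P up (Icc 1 (U ^ (k + 12))) (fun e => 1 / (e : ℝ))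
      have h3 : ∑ e ∈ Icc 1 (U ^ (k + 12)), mjMu Q P up e / e =
          ∑ e ∈ Icc 1 (U ^ (k + 12)), mjMu Q P up e * (1 / (e : ℝ)) :=
        Finset.sum_congr rfl fun e _ => by ring
      rw [h3, h2, Finset.sum_mul_sum]
      refine Finset.sum_congr rfl fun g hg => Finset.sum_congr rfl fun d hd => ?_
      by_cases hu : up d = 0
      · rw [hu]
        simp
      · rw [if_pos (mem_Icc.mpr (hsz g hg d hd hu))]
        push_cast
        rw [Finset.prod_div_distrib, Finset.prod_const_one]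
        field_simp
    rw [h1]
    have h4 := (hdens (fun r => 1 / (r : ℝ)) fun r hr => by
      have h2 : (2 : ℝ) ≤ r := by exact_mod_cast (hPp r hr).two_le
      refine ⟨by positivity, le_refl _, ?_⟩
      rw [div_le_div_iff₀ (by linarith) (by norm_num)]
      linarith).1
    have h5 := (abs_le.mp h4).2
    have h6 := hms X U hXU hU
    have h7 : ∑ d ∈ P.powerset, up d * ∏ r ∈ d, (1 / (r : ℝ)) ≤ (1 + K / 2) * (C0 * (cX X / Real.log U)) := by
      have h8 : ∑ d ∈ P.powerset, up d * ∏ r ∈ d, (1 / (r : ℝ)) ≤ (1 + K / 2) * ∏ r ∈ P, (1 - 1 / (r : ℝ)) := by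
        have : K * (1 / 2 : ℝ) ^ 1 * ∏ r ∈ P, (1 - 1 / (r : ℝ)) = K / 2 * ∏ r ∈ P, (1 - 1 / (r : ℝ)) := by ring
        linarith
      exact h8.trans (mul_le_mul_of_nonneg_left h6 (by positivity))
    have h9 : 0 ≤ ∑ g ∈ Q, (1 : ℝ) / g := Finset.sum_nonneg fun g _ => by positivity
    calc (∑ g ∈ Q, (1 : ℝ) / g) * ∑ d ∈ P.powerset, up d * ∏ r ∈ d, (1 / (r : ℝ))
        ≤ (∑ g ∈ Q, (1 : ℝ) / g) * ((1 + K / 2) * (C0 * (cX X / Real.log U))) := mul_le_mul_of_nonneg_left h7 h9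
      _ = _ := by ring

end Pool.Agent.Lib.WL
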