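import Pool.Agent.Lib.WL.M2
import Pool.Agent.Lib.SW.SC.SC3

/-!
# WL, row C2: `clW` for all `k` (copy of WL/Cl.lean)

PROOF IN WORDS. Word for word WL/Cl.lean with `k` in the place of `2` (`mn2 k (K+3) B`, or the first part of `mnW k (K+3) B`), `dT k T X ≥ L^(-B)/(k-2)! ≥ L^(-B-1)` (`log (log X/log q) ≥ 1` as `q ≤ X^η`, `η ≤ 1/e` w.l.o.g.).
-/

set_option autoImplicit false

open Finset

namespace Pool.Agent.Lib.WL

open Pool.Agent.Lib.SW (WX)
open Pool.Agent.Lib.SW (cX Sa SN)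
open Filter

theorem clK (k K B : ℕ) (hk : 2 ≤ k) : ∃ c0 C : ℕ, ∀ ε : ℝ, 0 < ε → ∃ η : ℝ, 0 < η ∧ ∃ X0 : ℕ, ∀ (X H : ℕ) (w' : ℝ) (T : Finset ℕ),
    X0 ≤ X → 1 ≤ w' → w' ≤ (X : ℝ) ^ η → w' * (Real.log X) ^ C ≤ H → H ≤ X → (∀ q ∈ T, q.Prime ∧ (Real.log X) ^ c0 ≤ q ∧ (q : ℝ) ≤ w') →
      1 / (Real.log X) ^ B ≤ ∑ q ∈ T, 1 / (q : ℝ) → ∀ S : Finset ℕ, S ⊆ Icc 1 X → (∀ s ∈ S, s.Prime) → X / (Real.log X) ^ K ≤ (S.card : ℝ) →
        ∀ m : ℕ, m ∣ WX X → (1 - ε) * H * ((WX X / m).totient : ℝ) / WX X ≤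
          (((Ioc X (X + H)).filter fun N => m ∣ N ∧ X / (Real.log X) ^ (K + B + 7) ≤ (cT k T S N : ℝ)).card : ℝ) := by
  obtain ⟨c0, C, hmn⟩ := mn2 k (K + 3) B hk
  refine ⟨c0, C + 3, fun ε hε => ?_⟩
  obtain ⟨δ, hδ, hδ1, hδε⟩ : ∃ δ : ℝ, 0 < δ ∧ δ ≤ 1 / 2 ∧ δ ≤ ε / 4 :=
    ⟨min (1 / 2) (ε / 4), lt_min (by norm_num) (by linarith), min_le_left _ _, min_le_right _ _⟩
  obtain ⟨η₀, hη₀, X₁, hX₁⟩ := hmn δ hδ
  obtain ⟨X₂, hX₂⟩ := Pool.Agent.Lib.SW.cX_le_log
  obtain ⟨X₃, hX₃⟩ := eventually_atTop.1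
    ((Pool.Agent.Lib.SW.eventually_log_ge (4 + 4 / δ + (Nat.factorial (k - 2) : ℝ))).and
      ((Pool.Agent.Lib.SW.eventually_log_pow (K + 4) (1 / 2) (by norm_num)).and
        (eventually_ge_atTop (max X₁ (max X₂ 3)))))
  refine ⟨min η₀ (1 / 3), lt_min hη₀ (by norm_num), X₃, fun X H w' T hX hw1 hwη hH hHX hT hTs S hSX hSp hSK m hm => ?_⟩
  obtain ⟨k1, k2, k5⟩ := hX₃ X hX
  have hXa : X₁ ≤ X := (le_max_left _ _).trans k5
  have hXb : X₂ ≤ X := (le_max_left _ _).trans ((le_max_right _ _).trans k5)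
  have hX3 : 3 ≤ X := (le_max_right _ _).trans ((le_max_right _ _).trans k5)
  have hXr3 : (3 : ℝ) ≤ X := by exact_mod_cast hX3
  have hX0 : (0 : ℝ) < X := by linarith
  obtain ⟨hcL, hWL⟩ := hX₂ X hXb
  obtain ⟨L, hL⟩ : ∃ L : ℝ, L = Real.log X := ⟨_, rfl⟩
  rw [← hL] at k1 k2 hcL hWL hH hT hTs hSK
  have hδi : 0 < 4 / δ := by positivity
  have hf0 : (0 : ℝ) < (Nat.factorial (k - 2) : ℝ) := by exact_mod_cast Nat.factorial_pos _
  have hX1 : (1 : ℝ) ≤ X := by linarith
  have hwη0 : w' ≤ (X : ℝ) ^ η₀ := hwη.trans (Real.rpow_le_rpow_of_exponent_le hX1 (min_le_left _ _))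
  have hwη1 : w' ≤ (X : ℝ) ^ (1 / 3 : ℝ) := hwη.trans (Real.rpow_le_rpow_of_exponent_le hX1 (min_le_right _ _))
  have hL4 : 4 ≤ L := by linarith
  have hL0 : 0 < L := by linarith
  have hWpos := Pool.Agent.Lib.SW.WX_pos X
  have hc1 := Pool.Agent.Lib.SW.one_le_cX X
  have hwL : (Pool.Agent.Lib.SW.wX X : ℝ) ≤ L := by
    rw [hL]
    exact Pool.Agent.Lib.SW.wX_le X (by rw [← hL]; linarith)
  have hWr : (0 : ℝ) < WX X := by exact_mod_cast hWpos
  have hw0 : 0 < w' := by linarith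
  -- the window is long
  have hHL : L ^ 3 ≤ (H : ℝ) := by
    refine le_trans ?_ hH
    have e1 : L ^ 3 ≤ L ^ (C + 3) := pow_le_pow_right₀ (by linarith) (by omega)
    have e2 : (1 : ℝ) * L ^ (C + 3) ≤ w' * L ^ (C + 3) := mul_le_mul_of_nonneg_right hw1 (by positivity)
    linarith
  have hH' : w' * L ^ C ≤ (H : ℝ) := by
    refine le_trans ?_ hH
    exact mul_le_mul_of_nonneg_left (pow_le_pow_right₀ (by linarith) (by omega)) hw0.le
  have hH0 : (0 : ℝ) ≤ H := Nat.cast_nonneg _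
  have hone : 1 ≤ δ * ((H : ℝ) / WX X) := by
    have e1 : L ≤ (H : ℝ) / WX X := by
      rw [le_div_iff₀ hWr]
      calc L * (WX X : ℝ) ≤ L * L ^ 2 := mul_le_mul_of_nonneg_left hWL hL0.le
        _ = L ^ 3 := by ring
        _ ≤ H := hHL
    have e2 : 4 / δ ≤ (H : ℝ) / WX X := by linarith
    rw [div_le_iff₀ hδ] at e2
    linarith
  -- remove the primes `≤ w`
  obtain ⟨S', hS'⟩ : ∃ S' : Finset ℕ, S' = S.filter (fun s => Pool.Agent.Lib.SW.wX X < s) := ⟨_, rfl⟩
  have hS'c : X / L ^ (K + 1) ≤ (S'.card : ℝ) := by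
    have h1 : S ⊆ S' ∪ Icc 1 (Pool.Agent.Lib.SW.wX X) := by
      intro s hs
      rw [mem_union, hS']
      by_cases h : Pool.Agent.Lib.SW.wX X < s
      · exact Or.inl (mem_filter.2 ⟨hs, h⟩)
      · exact Or.inr (mem_Icc.2 ⟨(hSp s hs).one_lt.le, not_lt.1 h⟩)
    have h2 := (card_le_card h1).trans (card_union_le _ _)
    rw [Nat.card_Icc, Nat.add_sub_cancel] at h2
    have h3 : (S.card : ℝ) ≤ S'.card + Pool.Agent.Lib.SW.wX X := by exact_mod_cast h2
    have h4 : X / L ^ (K + 1) + L ≤ X / L ^ K := by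
      have e1 : L ^ (K + 1) = L ^ K * L := pow_succ _ _
      have e2 : X / L ^ (K + 1) = X / L ^ K / L := by rw [e1, div_div]
      have e3 : X / L ^ K / L ≤ X / L ^ K / 4 :=
        div_le_div_of_nonneg_left (by positivity) (by norm_num) hL4
      have e4 : L ≤ X / L ^ K / 2 := by
        rw [le_div_iff₀ (by norm_num), le_div_iff₀ (by positivity)]
        have e5 : L ^ (K + 4) = L * L ^ K * (L * L * L) := by ring
        have e6 : L * 2 * L ^ K ≤ L * L ^ K * (L * L * L) := by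
          have e7 : 2 ≤ L * L * L := by nlinarith [mul_pos hL0 hL0]
          have e8 : 0 ≤ L * L ^ K := by positivity
          nlinarith
        rw [← e5] at e6
        linarith
      have e9 : 0 ≤ X / L ^ K := by positivity
      rw [e2]
      linarith
    linarith
  have hS'cop : ∀ s ∈ S', Nat.Coprime s (WX X) := by
    intro s hs
    rw [hS'] at hs
    obtain ⟨hs1, hs3⟩ := mem_filter.1 hs
    rw [Nat.Prime.coprime_iff_not_dvd (hSp s hs1)]
    unfold Pool.Agent.Lib.SW.WX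
    rw [(hSp s hs1).dvd_primorial_iff]
    exact not_le.2 hs3
  obtain ⟨b, hb1, hb2⟩ := Pool.Agent.Lib.SW.SC3_popular (WX X) hWpos S' hS'cop
  have hb : Nat.Coprime b (WX X) := by
    rcases hb1 with h | h
    · exact h
    · rw [h, card_empty, Nat.cast_zero] at hS'c
      have : 0 < X / L ^ (K + 1) := by positivity
      linarith
  obtain ⟨Sb, hSb⟩ : ∃ Sb : Finset ℕ, Sb = S'.filter (fun s => s % WX X = b) := ⟨_, rfl⟩
  rw [← hSb] at hb2
  have hφW : ((WX X).totient : ℝ) ≤ L ^ 2 :=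
    le_trans (by exact_mod_cast Nat.totient_le _) hWL
  have hSbc : X / L ^ (K + 3) ≤ (Sb.card : ℝ) := by
    have h1 : (S'.card : ℝ) ≤ (WX X).totient * Sb.card := by exact_mod_cast hb2
    have h2 : X / L ^ (K + 1) ≤ L ^ 2 * Sb.card :=
      hS'c.trans (h1.trans (mul_le_mul_of_nonneg_right hφW (Nat.cast_nonneg _)))
    have h3 : X / L ^ (K + 3) = X / L ^ (K + 1) / L ^ 2 := by
      rw [div_div, ← pow_add]
    rw [h3, div_le_iff₀ (by positivity)]
    linarith
  have hSbS : Sb ⊆ S := by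
    intro s hs
    rw [hSb, mem_filter, hS', mem_filter] at hs
    exact hs.1.1
  have hSbb : ∀ s ∈ Sb, s % WX X = b := by
    intro s hs
    rw [hSb] at hs
    exact (mem_filter.1 hs).2
  have hS2X : S ⊆ Icc 1 (2 * X) := by
    intro s hs
    have := mem_Icc.1 (hSX hs)
    exact mem_Icc.2 ⟨this.1, by omega⟩
  obtain ⟨D, hD⟩ : ∃ D : ℝ, D = Pool.Agent.Lib.T8.dT k T X := ⟨_, rfl⟩
  have hdT : 1 / L ^ (B + 1) ≤ D := by
    have h1 : (∑ q ∈ T, 1 / (q : ℝ)) * (1 / (Nat.factorial (k - 2) : ℝ)) ≤ D := by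
      rw [hD, Pool.Agent.Lib.T8.dT, sum_mul]
      refine sum_le_sum fun q hq => ?_
      have h2 : (0 : ℝ) ≤ 1 / (q : ℝ) := by positivity
      refine mul_le_mul_of_nonneg_left ?_ h2
      refine div_le_div_of_nonneg_right ?_ hf0.le
      refine one_le_pow₀ ?_
      have hq2 : (2 : ℝ) ≤ q := by exact_mod_cast (hT q hq).1.two_le
      have hlq : 0 < Real.log q := Real.log_pos (by linarith)
      have h3 : Real.log q ≤ 1 / 3 * Real.log X := by
        rw [← Real.log_rpow hX0]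
        exact Real.log_le_log (by linarith) ((hT q hq).2.2.trans hwη1)
      have h4 : 3 ≤ Real.log X / Real.log q := by
        rw [le_div_iff₀ hlq]
        linarith
      rw [Real.le_log_iff_exp_le (by linarith)]
      linarith [Real.exp_one_lt_d9]
    refine le_trans ?_ h1
    have h5 : 1 / L ^ (B + 1) = 1 / L ^ B * (1 / L) := by
      rw [pow_succ, one_div_mul_one_div]
    rw [h5]
    refine mul_le_mul hTs ?_ (by positivity) (le_trans (by positivity) hTs)
    exact one_div_le_one_div_of_le hf0 (by linarith)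
  -- the good classes
  obtain ⟨U, hU⟩ : ∃ U : Finset ℕ, U = (range (WX X)).filter (fun a => m ∣ a ∧
      IsCoprime ((a : ℤ) - b) (WX X : ℤ)) := ⟨_, rfl⟩
  have hUc : (WX X / m).totient ≤ U.card := by
    rw [hU]
    refine Pool.Agent.Lib.SW.SC3_classes (WX X) m b ?_ hm hb
    exact Pool.Agent.Lib.SW.WX_squarefree _
  obtain ⟨G, hG⟩ : ∃ G : Finset ℕ, G = (Ioc X (X + H)).filter (fun N => m ∣ N ∧
            X / L ^ (K + B + 7) ≤ (cT k T S N : ℝ)) := ⟨_, rfl⟩
  rw [← hL, ← hG]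
  have hclass : ∀ a ∈ U, (1 - ε) * ((H : ℝ) / WX X) ≤ ((G.filter (fun N => N % WX X = a)).card : ℝ) := by
    intro a ha
    rw [hU, mem_filter, mem_range] at ha
    obtain ⟨ha1, ha2, ha3⟩ := ha
    have haW : a % WX X = a := Nat.mod_eq_of_lt ha1
    have hSa : X / L ^ (K + 3) ≤ ((Sa (WX X) S a).card : ℝ) := by
      refine hSbc.trans ?_
      have hsub : Sb ⊆ Sa (WX X) S a := by
        intro s hs
        unfold Pool.Agent.Lib.SW.Sa
        refine mem_filter.2 ⟨hSbS hs, ?_⟩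
        have h1 : b ≡ s [MOD WX X] := by
          rw [← hSbb s hs]
          exact Nat.mod_modEq _ _
        obtain ⟨t, ht⟩ := (Nat.modEq_iff_dvd).1 h1
        have h2 : (a : ℤ) - s = ((a : ℤ) - b) + (WX X : ℤ) * (-t) := by linarith
        rw [h2]
        exact (IsCoprime.add_mul_left_left_iff).2 ha3
      exact_mod_cast card_le_card hsub
    have hbad := (hX₁ X H a w' T hXa hw1 hwη0 (by rw [← hL]; exact hH') hHX
      (fun q hq => by rw [← hL]; exact hT q hq) (by rw [← hL]; exact hTs) S hS2X)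
    rw [← hL, max_eq_left hSa, ← hD] at hbad
    obtain ⟨E, hE⟩ : ∃ E : Finset ℕ, E = (wnd X H (WX X) a).filter fun N =>
        δ * (cX X * ((Sa (WX X) S a).card : ℝ) * (D / L)) <
          |(cT k T S N : ℝ) - cX X * (SN (WX X) S N).card * (D / L)| := ⟨_, rfl⟩
    rw [← hE] at hbad
    have hcl := Pool.Agent.Lib.SW.SC3_class_ge X (X + H) (WX X) a hWpos
    have hsub : (Ioc X (X + H)).filter (fun N => N ≡ a [MOD WX X]) ⊆
        E ∪ G.filter (fun N => N % WX X = a) := by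
      intro N hN
      obtain ⟨hN1, hN2⟩ := mem_filter.1 hN
      obtain ⟨hN3, hN4⟩ := mem_Ioc.1 hN1
      rw [mem_union]
      by_cases hbN : δ * (cX X * ((Sa (WX X) S a).card : ℝ) * (D / L)) <
          |(cT k T S N : ℝ) - cX X * (SN (WX X) S N).card * (D / L)|
      · left
        rw [hE]
        refine mem_filter.2 ⟨?_, hbN⟩
        unfold wnd
        exact hN
      · right
        rw [Pool.Agent.Lib.SW.SN_eq_Sa S hSX hN3 a hN2] at hbN
        have h1 : cX X * ((Sa (WX X) S a).card : ℝ) * (D / L) -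
            δ * (cX X * ((Sa (WX X) S a).card : ℝ) * (D / L)) ≤ (cT k T S N : ℝ) := by
          have h0 := (abs_le.1 (not_lt.1 hbN)).1
          linarith
        have hs1 : 1 / L ^ (B + 2) ≤ D / L := by
          have e1 : 1 / L ^ (B + 2) = 1 / L ^ (B + 1) / L := by rw [pow_succ _ (B + 1), div_div]
          rw [e1]
          exact div_le_div_of_nonneg_right hdT hL0.le
        have hA0 : (0 : ℝ) ≤ ((Sa (WX X) S a).card : ℝ) := Nat.cast_nonneg _
        have h2 : (1 / 2) * (X / L ^ (K + 3) * (1 / L ^ (B + 2))) ≤ (cT k T S N : ℝ) := by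
          refine le_trans ?_ h1
          have e1 : cX X * ((Sa (WX X) S a).card : ℝ) * (D / L) -
              δ * (cX X * ((Sa (WX X) S a).card : ℝ) * (D / L)) =
              (1 - δ) * cX X * (((Sa (WX X) S a).card : ℝ) * (D / L)) := by ring
          rw [e1]
          have e2 : X / L ^ (K + 3) * (1 / L ^ (B + 2)) ≤
              ((Sa (WX X) S a).card : ℝ) * (D / L) :=
            mul_le_mul hSa hs1 (by positivity) hA0
          have e3 : (1 / 2 : ℝ) ≤ (1 - δ) * cX X := by nlinarith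
          exact mul_le_mul e3 e2 (by positivity) (by linarith)
        have h3 : X / L ^ (K + B + 7) ≤ (cT k T S N : ℝ) := by
          refine le_trans ?_ h2
          have e1 : (1 / 2 : ℝ) * (X / L ^ (K + 3) * (1 / L ^ (B + 2))) = X / (2 * L ^ (K + B + 5)) := by
            have e2 : L ^ (K + B + 5) = L ^ (K + 3) * L ^ (B + 2) := by rw [← pow_add]; ring_nf
            rw [e2]
            field_simp
          rw [e1]
          refine div_le_div_of_nonneg_left hX0.le (by positivity) ?_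
          have e3 : L ^ (K + B + 7) = L ^ (K + B + 5) * L ^ 2 := by rw [← pow_add]
          rw [e3]
          have e4 : 0 < L ^ (K + B + 5) := by positivity
          have e5 : (2 : ℝ) ≤ L ^ 2 := by nlinarith
          rw [mul_comm (2 : ℝ)]
          exact mul_le_mul_of_nonneg_left e5 e4.le
        have h8 : N % WX X = a := by
          have : N % WX X = a % WX X := hN2
          rw [this, haW]
        refine mem_filter.2 ⟨?_, h8⟩
        rw [hG]
        refine mem_filter.2 ⟨hN1, ?_, h3⟩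
        -- `m ∣ N`
        have h9 : N ≡ a [MOD m] := Nat.ModEq.of_dvd hm hN2
        exact (Nat.modEq_zero_iff_dvd).1 (h9.trans ((Nat.modEq_zero_iff_dvd).2 ha2))
    have hle : (((Ioc X (X + H)).filter (fun N => N ≡ a [MOD WX X])).card : ℝ) ≤
        (E.card : ℝ) + ((G.filter (fun N => N % WX X = a)).card : ℝ) := by
      exact_mod_cast le_trans (card_le_card hsub) (card_union_le _ _)
    have e3 : (((X + H : ℕ) : ℝ) - X) / WX X = (H : ℝ) / WX X := by
      push_cast
      congr 1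
      ring
    rw [e3] at hcl
    have e5 : 0 ≤ (H : ℝ) / WX X := by positivity
    have e6 : (1 - ε) * ((H : ℝ) / WX X) ≤ (1 - 2 * δ) * ((H : ℝ) / WX X) :=
      mul_le_mul_of_nonneg_right (by linarith) e5
    have e7 : (1 - 2 * δ) * ((H : ℝ) / WX X) = (H : ℝ) / WX X - δ * ((H : ℝ) / WX X) - δ * ((H : ℝ) / WX X) := by
      ring
    linarith
  have hsum : ∑ a ∈ U, ((G.filter (fun N => N % WX X = a)).card : ℝ) ≤ (G.card : ℝ) := by
    have h1 : ∑ a ∈ U, (G.filter (fun N => N % WX X = a)).card =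
        (U.biUnion (fun a => G.filter (fun N => N % WX X = a))).card := by
      rw [Finset.card_biUnion]
      intro a _ b _ hab
      rw [Function.onFun, Finset.disjoint_left]
      intro N hN hN2
      rw [Finset.mem_filter] at hN hN2
      exact hab (hN.2.symm.trans hN2.2)
    have h2 : (U.biUnion (fun a => G.filter (fun N => N % WX X = a))).card ≤ G.card := by
      apply Finset.card_le_card
      intro N hN
      rw [Finset.mem_biUnion] at hN
      obtain ⟨a, _, ha⟩ := hN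
      exact (Finset.mem_filter.mp ha).1
    rw [← h1] at h2
    exact_mod_cast h2
  by_cases hε1 : 1 ≤ ε
  · have h1 : (1 - ε) * H * ((WX X / m).totient : ℝ) / WX X ≤ 0 := by
      refine div_nonpos_of_nonpos_of_nonneg ?_ hWr.le
      exact mul_nonpos_of_nonpos_of_nonneg
        (mul_nonpos_of_nonpos_of_nonneg (by linarith) hH0) (Nat.cast_nonneg _)
    exact h1.trans (Nat.cast_nonneg _)
  · have hε2 : 0 ≤ 1 - ε := by
      have := lt_of_not_ge hε1
      linarith
    calc (1 - ε) * H * ((WX X / m).totient : ℝ) / WX X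
        = ((WX X / m).totient : ℝ) * ((1 - ε) * ((H : ℝ) / WX X)) := by ring
      _ ≤ (U.card : ℝ) * ((1 - ε) * ((H : ℝ) / WX X)) := by
          refine mul_le_mul_of_nonneg_right (by exact_mod_cast hUc) ?_
          positivity
      _ = ∑ _a ∈ U, (1 - ε) * ((H : ℝ) / WX X) := by rw [sum_const, nsmul_eq_mul]
      _ ≤ ∑ a ∈ U, ((G.filter (fun N => N % WX X = a)).card : ℝ) := sum_le_sum hclass
      _ ≤ (G.card : ℝ) := hsum

end Pool.Agent.Lib.WL
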