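import Pool.Agent.Lib.WL.TL

/-!
# WL, row CL: `coW` in mean (copy of WL/Co.lean, with `tyL` in the place of `tyW`)

PROOF IN WORDS. As Co.lean (read its proof words): the window `(X, X+H]` is covered by the `(Z_j, Z_j + H0]`, `H0 = ⌈w' L^C'⌉`, `Z_j = X + j H0 ≤ 2X`, `j < J`, `J ≤ H/H0 + 1` (the part of the last one beyond `X + H` is only an upper bound: the terms are absolute values). For `N` in the `j`-th one and `S_j = S ∩ [1, Z_j]`:
`|cE S N - c |SN| σ/L| ≤ |cE S_j N - c |Sa S_j| σ/L| + H0 + c H0 σ/L`, `|Sa S_j| ≤ |Sa S|`, and `H0 + c H0 σ/L ≤ ε' c (X/L^K) σ/L`. Sum: `tyL` with `ε' = ε/16` for each `j`, in total `≤ ε' (H + H0)/W · c m σ/L + (2(H+H0)/W) ε' c m σ/L` (each window has at most `H0/W + 1 ≤ 2 H0/W` numbers) `≤ ε (H/W) c m σ/L`.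
-/

set_option autoImplicit false

open Finset

namespace Pool.Agent.Lib.WL

open Pool.Agent.Lib.SW (WX cX Sa SN)
open Pool.Agent.Lib.G8 (sL)

private theorem cl_wnd_card (Z H W a : ℕ) (hW : 0 < W) : ((wnd Z H W a).card : ℝ) ≤ H / W + 1 := by
  have h1 := Nat.Ioc_filter_modEq_card Z (Z + H) hW a
  have h2 : (((wnd Z H W a).card : ℤ) : ℚ) ≤ (H : ℚ) / W + 1 := by
    unfold wnd
    rw [h1]
    rcases le_total (⌊(((Z + H : ℕ) : ℚ) - a) / W⌋ - ⌊((Z : ℚ) - a) / W⌋) 0 with h | h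
    · rw [max_eq_right h]
      push_cast
      positivity
    · rw [max_eq_left h]
      push_cast
      have f1 := Int.floor_le (((Z : ℚ) + H - a) / W)
      have f2 := Int.sub_one_lt_floor (((Z : ℚ) - a) / W)
      have f3 : ((Z : ℚ) + H - a) / W = ((Z : ℚ) - a) / W + H / W := by ring
      rw [f3] at f1
      rw [f3]
      linarith
  have h3 : (((wnd Z H W a).card : ℕ) : ℚ) ≤ (H : ℚ) / W + 1 := by exact_mod_cast h2
  have h4 : (((((wnd Z H W a).card : ℕ) : ℚ)) : ℝ) ≤ (((H : ℚ) / W + 1 : ℚ) : ℝ) := Rat.cast_le.2 h3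
  push_cast at h4
  exact h4

private theorem cl_real {c τ E Ej n Aj h : ℝ} (hcτ : 0 ≤ c * τ) (hE1 : Ej ≤ E) (hE2 : E ≤ Ej + h) (hn1 : Aj ≤ n)
    (hn2 : n ≤ Aj + h) : |E - c * n * τ| ≤ |Ej - c * Aj * τ| + (h + c * τ * h) := by
  have e1 : E - c * n * τ = (Ej - c * Aj * τ) + ((E - Ej) - c * τ * (n - Aj)) := by ring
  rw [e1]
  refine (abs_add_le _ _).trans (add_le_add le_rfl ?_)
  have e2 : 0 ≤ c * τ * (n - Aj) := mul_nonneg hcτ (by linarith)
  have e3 : c * τ * (n - Aj) ≤ c * τ * h := mul_le_mul_of_nonneg_left (by linarith) hcτ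
  rw [abs_le]
  constructor <;> linarith

private theorem cl_sum {f : ℕ → ℕ → ℝ} (hf : ∀ j N, 0 ≤ f j N) {X H H0 W a : ℕ} (hH0 : 0 < H0) :
    ∑ N ∈ wnd X H W a, f ((N - X - 1) / H0) N ≤ ∑ j ∈ range (H / H0 + 1), ∑ N ∈ wnd (X + j * H0) H0 W a, f j N := by
  have hmaps : ∀ N ∈ wnd X H W a, (N - X - 1) / H0 ∈ range (H / H0 + 1) := by
    intro N hN
    unfold wnd at hN
    rw [mem_filter, mem_Ioc] at hN
    rw [mem_range]
    have : (N - X - 1) / H0 ≤ H / H0 := Nat.div_le_div_right (by omega)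
    omega
  rw [← Finset.sum_fiberwise_of_maps_to hmaps]
  refine Finset.sum_le_sum fun j _ => ?_
  have h1 : ∑ N ∈ (wnd X H W a).filter (fun N => (N - X - 1) / H0 = j), f ((N - X - 1) / H0) N =
      ∑ N ∈ (wnd X H W a).filter (fun N => (N - X - 1) / H0 = j), f j N :=
    Finset.sum_congr rfl fun N hN => by rw [(mem_filter.1 hN).2]
  rw [h1]
  refine Finset.sum_le_sum_of_subset_of_nonneg ?_ fun N _ _ => hf j N
  intro N hN
  rw [mem_filter] at hN
  obtain ⟨hNw, hj⟩ := hN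
  unfold wnd at hNw ⊢
  rw [mem_filter, mem_Ioc] at hNw ⊢
  have hj1 : j * H0 ≤ N - X - 1 := by rw [← hj]; exact Nat.div_mul_le_self _ _
  have hj2 : N - X - 1 < j * H0 + H0 := by
    have := Nat.lt_div_mul_add (a := N - X - 1) hH0
    rw [hj] at this
    exact this
  exact ⟨⟨by omega, by omega⟩, hNw.2⟩

theorem coL (K Kk B : ℕ) : ∃ c10 : ℕ, ∀ c1 : ℕ, c10 ≤ c1 → ∃ C : ℕ, ∀ ε : ℝ, 0 < ε → ∃ M X0 : ℕ, 2 ≤ M ∧ ∀ (X H a k U w' : ℕ) (T : Finset ℕ),
    X0 ≤ X → 2 ≤ k → k ≤ Kk → (∀ q ∈ T, q.Prime ∧ (Real.log X) ^ (c1 + 3) ≤ q ∧ q ≤ w') → 2 * w' ≤ U → U ^ (2 * M) ≤ X →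
      1 / (Real.log X) ^ B ≤ sL k U T → 1 ≤ w' → (w' : ℝ) * (Real.log X) ^ C ≤ H → H ≤ X →
        ∀ S : Finset ℕ, S ⊆ Icc 1 (2 * X) →
          ∑ N ∈ wnd X H (WX X) a, |(cE k U T S N : ℝ) - cX X * (SN (WX X) S N).card * (sL k U T / Real.log X)| ≤
            ε * (H / WX X) * (cX X * max ((Sa (WX X) S a).card : ℝ) (X / (Real.log X) ^ K) * (sL k U T / Real.log X)) := by
  classical
  obtain ⟨c10, h10⟩ := tyL K Kk B
  refine ⟨c10, fun c1 hc1 => ?_⟩
  obtain ⟨C', hC'⟩ := h10 c1 hc1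
  refine ⟨C' + 4, fun ε hε => ?_⟩
  obtain ⟨M0, X1, hty⟩ := hC' (ε / 16) (by positivity)
  obtain ⟨X3, hX3⟩ := Pool.Agent.Lib.SW.cX_le_log
  obtain ⟨E, hE⟩ : ∃ E : ℕ, E = C' + 2 := ⟨_, rfl⟩
  obtain ⟨D, hD⟩ : ∃ D : ℕ, D = 2 * E + K + B + 1 := ⟨_, rfl⟩
  obtain ⟨δ, hδ⟩ : ∃ δ : ℝ, δ = min 1 (ε / 16) := ⟨_, rfl⟩
  have hδ0 : 0 < δ := by rw [hδ]; exact lt_min one_pos (by positivity)
  have hδ1 : δ ≤ 1 := by rw [hδ]; exact min_le_left _ _
  have hδε : δ ≤ ε / 16 := by rw [hδ]; exact min_le_right _ _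
  have hpl : ∀ᶠ x : ℝ in Filter.atTop, ‖Real.log x ^ (2 * D)‖ ≤ (δ ^ 2 / 4) * ‖x‖ :=
    (Real.isLittleO_pow_log_id_atTop (n := 2 * D)).def (by positivity)
  obtain ⟨x2, hx2⟩ := Filter.eventually_atTop.1 hpl
  refine ⟨max M0 2, max (max X1 X3) (max ⌈x2⌉₊ 8), le_max_right _ _, ?_⟩
  intro X H a k U w' T hX hk2 hkK hT hU hUM hσ hw1 hwH hHX S hS
  have hX1 : X1 ≤ X := (le_max_left _ _).trans ((le_max_left _ _).trans hX)
  have hX3' : X3 ≤ X := (le_max_right _ _).trans ((le_max_left _ _).trans hX)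
  have hX2 : x2 ≤ X := (Nat.le_ceil x2).trans (by exact_mod_cast (le_max_left _ _).trans ((le_max_right _ _).trans hX))
  have hX8 : 8 ≤ X := (le_max_right _ _).trans ((le_max_right _ _).trans hX)
  have hXr : (8 : ℝ) ≤ X := by exact_mod_cast hX8
  have hXpos : (0 : ℝ) < X := by linarith
  have hWL0 := (hX3 X hX3').2
  obtain ⟨L, hL⟩ : ∃ L : ℝ, L = Real.log X := ⟨_, rfl⟩
  have hL2 : 2 ≤ L := by
    rw [hL]
    have h1 : Real.log 8 ≤ Real.log X := Real.log_le_log (by norm_num) hXr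
    have h2 : Real.log 8 = 3 * Real.log 2 := by
      rw [show (8 : ℝ) = 2 ^ 3 by norm_num, Real.log_pow]; norm_num
    have h3 := Real.log_two_gt_d9
    linarith
  have hL1 : 1 ≤ L := by linarith
  have hL0 : 0 < L := by linarith
  have hlog := hx2 X hX2
  rw [Real.norm_of_nonneg (pow_nonneg (by rw [← hL]; exact hL0.le) _), Real.norm_of_nonneg hXpos.le, ← hL] at hlog
  have hty' := hty X
  rw [← hL] at hT hσ hwH hWL0 ⊢
  simp only [← hL] at hty'
  -- the parameters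
  have hU1 : 1 ≤ U := by omega
  have hUM0 : U ^ (2 * M0) ≤ X := (Nat.pow_le_pow_right hU1 (Nat.mul_le_mul_left 2 (le_max_left _ _))).trans hUM
  have hU4 : U ^ 4 ≤ X := (Nat.pow_le_pow_right hU1 (by have := le_max_right M0 2; omega)).trans hUM
  have hw2 : w' ^ 2 ≤ X := by
    have h1 : w' ^ 2 ≤ U ^ 2 := Nat.pow_le_pow_left (by omega) 2
    have h2 : U ^ 2 ≤ U ^ 4 := Nat.pow_le_pow_right hU1 (by norm_num)
    omega
  have hwr : (1 : ℝ) ≤ w' := by exact_mod_cast hw1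
  have hw2r : (w' : ℝ) ^ 2 ≤ X := by exact_mod_cast hw2
  have hkey : 2 * (w' : ℝ) * L ^ D ≤ δ * X := by
    refine le_of_sq_le_sq ?_ (by positivity)
    have e1 : (2 * (w' : ℝ) * L ^ D) ^ 2 = 4 * (w' : ℝ) ^ 2 * L ^ (2 * D) := by
      rw [mul_comm 2 D, pow_mul]
      ring
    rw [e1]
    calc 4 * (w' : ℝ) ^ 2 * L ^ (2 * D) ≤ 4 * X * (δ ^ 2 / 4 * X) :=
          mul_le_mul (by linarith) hlog (by positivity) (by positivity)
      _ = (δ * X) ^ 2 := by ring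
  obtain ⟨H0, hH0⟩ : ∃ H0 : ℕ, H0 = ⌈(w' : ℝ) * L ^ E⌉₊ := ⟨_, rfl⟩
  have hLC : 1 ≤ L ^ E := one_le_pow₀ hL1
  have hwL : 1 ≤ (w' : ℝ) * L ^ E := by nlinarith
  have hH0a : (w' : ℝ) * L ^ E ≤ H0 := by rw [hH0]; exact Nat.le_ceil _
  have hH0b : (H0 : ℝ) ≤ 2 * w' * L ^ E := by
    have h1 : (H0 : ℝ) < w' * L ^ E + 1 := by rw [hH0]; exact Nat.ceil_lt_add_one (by linarith)
    linarith
  have hH0pos : 0 < H0 := by
    have : (0 : ℝ) < H0 := by linarith
    exact_mod_cast this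
  have hH0r : (0 : ℝ) < H0 := by exact_mod_cast hH0pos
  have hLCE : L ^ C' ≤ L ^ E := pow_le_pow_right₀ hL1 (by omega)
  have hH0a' : (w' : ℝ) * L ^ C' ≤ H0 := (mul_le_mul_of_nonneg_left hLCE (by positivity)).trans hH0a
  have hH0H : H0 ≤ H := by
    have h1 : (H0 : ℝ) ≤ H := by
      refine hH0b.trans (le_trans ?_ hwH)
      rw [show C' + 4 = E + 2 by omega, pow_add]
      have h2 : 2 ≤ L ^ 2 := by nlinarith
      have h3 : (w' : ℝ) * L ^ E * 2 ≤ w' * L ^ E * L ^ 2 := mul_le_mul_of_nonneg_left h2 (by positivity)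
      linarith
    exact_mod_cast h1
  have hH0X : (H0 : ℝ) * L ^ C' ≤ X := by
    have h1 : (H0 : ℝ) * L ^ C' ≤ 2 * w' * L ^ E * L ^ C' := mul_le_mul_of_nonneg_right hH0b (by positivity)
    have h2 : L ^ E * L ^ C' ≤ L ^ D := by
      rw [← pow_add]
      exact pow_le_pow_right₀ hL1 (by omega)
    have h3 : 2 * (w' : ℝ) * (L ^ E * L ^ C') ≤ 2 * w' * L ^ D := mul_le_mul_of_nonneg_left h2 (by positivity)
    have h4 : δ * X ≤ 1 * X := mul_le_mul_of_nonneg_right hδ1 hXpos.le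
    nlinarith
  have hH0R : (H0 : ℝ) * L ^ (B + 1) ≤ ε / 16 * (X / L ^ K) := by
    rw [mul_div_assoc', le_div_iff₀ (by positivity)]
    have h1 : (H0 : ℝ) * (L ^ (B + 1) * L ^ K) ≤ 2 * w' * L ^ E * (L ^ (B + 1) * L ^ K) :=
      mul_le_mul_of_nonneg_right hH0b (by positivity)
    have h2 : L ^ E * (L ^ (B + 1) * L ^ K) ≤ L ^ D := by
      rw [← pow_add, ← pow_add]
      exact pow_le_pow_right₀ hL1 (by omega)
    have h3 : 2 * (w' : ℝ) * (L ^ E * (L ^ (B + 1) * L ^ K)) ≤ 2 * w' * L ^ D := mul_le_mul_of_nonneg_left h2 (by positivity)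
    have h4 : δ * X ≤ ε / 16 * X := mul_le_mul_of_nonneg_right hδε hXpos.le
    nlinarith
  have hR0 : (0 : ℝ) < X / L ^ K := by positivity
  have hσ0 : 0 < sL k U T := lt_of_lt_of_le (by positivity) hσ
  obtain ⟨τ, hτ⟩ : ∃ τ : ℝ, τ = sL k U T / L := ⟨_, rfl⟩
  have hτ0 : 0 ≤ τ := by rw [hτ]; positivity
  have hτ1 : 1 / L ^ (B + 1) ≤ τ := by
    rw [hτ, pow_succ, ← div_div]
    exact div_le_div_of_nonneg_right hσ hL0.le
  have hc1' := Pool.Agent.Lib.SW.one_le_cX X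
  have hc0' : 0 ≤ cX X := by linarith
  have hWpos := Pool.Agent.Lib.SW.WX_pos X
  have hWr : (0 : ℝ) < WX X := by exact_mod_cast hWpos
  have hWH : (WX X : ℝ) ≤ H := by
    have h1 : L ^ 2 ≤ L ^ E := pow_le_pow_right₀ hL1 (by omega)
    have h2 : (1 : ℝ) * L ^ E ≤ w' * L ^ E := mul_le_mul_of_nonneg_right hwr (by positivity)
    have h3 : (H0 : ℝ) ≤ H := by exact_mod_cast hH0H
    linarith
  rw [← hτ]
  set W : ℕ := WX X with hW
  have hcτ : 0 ≤ cX X * τ := mul_nonneg (by linarith) hτ0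
  obtain ⟨m, hm⟩ : ∃ m : ℝ, m = max ((Sa W S a).card : ℝ) (X / L ^ K) := ⟨_, rfl⟩
  rw [← hm]
  have hm1 : (X : ℝ) / L ^ K ≤ m := by rw [hm]; exact le_max_right _ _
  have hm0 : 0 < m := lt_of_lt_of_le hR0 hm1
  have hcm0 : 0 ≤ cX X * m * τ := by
    have := mul_nonneg hcτ hm0.le
    linarith
  -- the pointwise bound
  have hpt : ∀ N ∈ wnd X H W a, |(cE k U T S N : ℝ) - cX X * (SN W S N).card * τ| ≤
      |(cE k U T (S.filter fun s => s ≤ X + (N - X - 1) / H0 * H0) N : ℝ) -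
        cX X * (Sa W (S.filter fun s => s ≤ X + (N - X - 1) / H0 * H0) a).card * τ| + ε / 8 * (cX X * m * τ) := by
    intro N hNw
    unfold wnd at hNw
    rw [mem_filter, mem_Ioc] at hNw
    obtain ⟨⟨hN1, hN2⟩, hNa⟩ := hNw
    obtain ⟨j, hj⟩ : ∃ j : ℕ, j = (N - X - 1) / H0 := ⟨_, rfl⟩
    have hj1 : j * H0 ≤ N - X - 1 := by rw [hj]; exact Nat.div_mul_le_self _ _
    have hj2 : N - X - 1 < j * H0 + H0 := by
      have := Nat.lt_div_mul_add (a := N - X - 1) hH0pos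
      rw [← hj] at this
      exact this
    obtain ⟨Z, hZ⟩ : ∃ Z : ℕ, Z = X + j * H0 := ⟨_, rfl⟩
    rw [← hj, ← hZ]
    have hZ1 : Z < N := by omega
    have hZ2 : N ≤ Z + H0 := by omega
    obtain ⟨Sj, hSj⟩ : ∃ Sj : Finset ℕ, Sj = S.filter fun s => s ≤ Z := ⟨_, rfl⟩
    rw [← hSj]
    have hmem : ∀ s, s ∈ Sj ↔ s ∈ S ∧ s ≤ Z := fun s => by rw [hSj, mem_filter]
    have hcard : (Ioc Z (Z + H0)).card = H0 := by rw [Nat.card_Ioc]; omega
    have hE1 : cE k U T Sj N ≤ cE k U T S N := by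
      unfold cE
      refine card_le_card fun s hs => ?_
      rw [mem_filter] at hs ⊢
      exact ⟨((hmem s).1 hs.1).1, hs.2⟩
    have hE2 : cE k U T S N ≤ cE k U T Sj N + H0 := by
      unfold cE
      have h1 : (S.filter fun s => s < N ∧ Pool.Agent.Lib.G8.EL k U T (N - s)) ⊆
          (Sj.filter fun s => s < N ∧ Pool.Agent.Lib.G8.EL k U T (N - s)) ∪ Ioc Z (Z + H0) := by
        intro s hs
        rw [mem_filter] at hs
        rw [mem_union, mem_filter, mem_Ioc, hmem]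
        by_cases hsZ : s ≤ Z
        · exact Or.inl ⟨⟨hs.1, hsZ⟩, hs.2⟩
        · right
          have := hs.2.1
          omega
      have h2 := (card_le_card h1).trans (card_union_le _ _)
      rwa [hcard] at h2
    have hn1 : (Sa W Sj a).card ≤ (SN W S N).card := by
      refine card_le_card fun s hs => ?_
      rw [Pool.Agent.Lib.SW.mem_Sa, hmem] at hs
      unfold SN
      rw [mem_filter]
      have hsN : s < N := by omega
      exact ⟨hs.1.1, hsN, (Pool.Agent.Lib.SW.cop_cast hNa hsN).2 hs.2⟩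
    have hn2 : (SN W S N).card ≤ (Sa W Sj a).card + H0 := by
      have h1 : SN W S N ⊆ Sa W Sj a ∪ Ioc Z (Z + H0) := by
        intro s hs
        unfold SN at hs
        rw [mem_filter] at hs
        rw [mem_union, Pool.Agent.Lib.SW.mem_Sa, mem_Ioc, hmem]
        by_cases hsZ : s ≤ Z
        · exact Or.inl ⟨⟨hs.1, hsZ⟩, (Pool.Agent.Lib.SW.cop_cast hNa hs.2.1).1 hs.2.2⟩
        · right
          have := hs.2.1
          omega
      have h2 := (card_le_card h1).trans (card_union_le _ _)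
      rwa [hcard] at h2
    refine (cl_real (h := (H0 : ℝ)) hcτ (by exact_mod_cast hE1) (by exact_mod_cast hE2) (by exact_mod_cast hn1)
      (by exact_mod_cast hn2)).trans (add_le_add le_rfl ?_)
    have g1 : (H0 : ℝ) ≤ ε / 16 * (cX X * m * τ) := by
      have h1 : (H0 : ℝ) ≤ ε / 16 * (X / L ^ K) * (1 / L ^ (B + 1)) := by
        rw [mul_one_div, le_div_iff₀ (by positivity)]
        exact hH0R
      have h2 : ε / 16 * (X / L ^ K) * (1 / L ^ (B + 1)) ≤ ε / 16 * (X / L ^ K) * τ :=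
        mul_le_mul_of_nonneg_left hτ1 (by positivity)
      have h3 : (X : ℝ) / L ^ K * τ ≤ m * τ := mul_le_mul_of_nonneg_right hm1 hτ0
      have h4 : ε / 16 * (X / L ^ K * τ) ≤ ε / 16 * (m * τ) := mul_le_mul_of_nonneg_left h3 (by positivity)
      have h5 : 0 ≤ m * τ := mul_nonneg hm0.le hτ0
      have h6 : 1 * (m * τ) ≤ cX X * (m * τ) := mul_le_mul_of_nonneg_right hc1' h5
      have h7 : ε / 16 * (m * τ) ≤ ε / 16 * (cX X * (m * τ)) := mul_le_mul_of_nonneg_left (by linarith) (by positivity)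
      rw [mul_assoc (ε / 16)] at h2
      rw [mul_assoc (cX X)]
      linarith
    have g2 : cX X * τ * H0 ≤ ε / 16 * (cX X * m * τ) := by
      have h1 : (1 : ℝ) ≤ L ^ (B + 1) := one_le_pow₀ hL1
      have h2 : (H0 : ℝ) * 1 ≤ H0 * L ^ (B + 1) := mul_le_mul_of_nonneg_left h1 hH0r.le
      have h3 : ε / 16 * (X / L ^ K) ≤ ε / 16 * m := mul_le_mul_of_nonneg_left hm1 (by positivity)
      have h4 : (H0 : ℝ) ≤ ε / 16 * m := by linarith
      have h5 := mul_le_mul_of_nonneg_left h4 hcτ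
      calc cX X * τ * H0 ≤ cX X * τ * (ε / 16 * m) := h5
        _ = ε / 16 * (cX X * m * τ) := by ring
    linarith
  -- the sum
  have hb : ∀ j ∈ range (H / H0 + 1), ∑ N ∈ wnd (X + j * H0) H0 W a,
        |(cE k U T (S.filter fun s => s ≤ X + j * H0) N : ℝ) - cX X * (Sa W (S.filter fun s => s ≤ X + j * H0) a).card * τ| ≤
      ε / 16 * (H0 / W) * (cX X * m * τ) := by
    intro j hj
    rw [mem_range] at hj
    have hjH : j * H0 ≤ H := (Nat.mul_le_mul_right H0 (by omega : j ≤ H / H0)).trans (Nat.div_mul_le_self _ _)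
    have h1 := hty' (X + j * H0) H0 a k U w' T hX1 (by omega) hk2 hkK hT hU hUM0 hσ hw1 hH0a' hH0X
      (S.filter fun s => s ≤ X + j * H0) (by
        intro s hs
        rw [mem_filter] at hs
        have := mem_Icc.1 (hS hs.1)
        rw [mem_Icc]
        omega)
    rw [← hτ] at h1
    refine h1.trans (mul_le_mul_of_nonneg_left ?_ (by positivity))
    have hA : (Sa W (S.filter fun s => s ≤ X + j * H0) a).card ≤ (Sa W S a).card := by
      refine card_le_card fun s hs => ?_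
      rw [Pool.Agent.Lib.SW.mem_Sa, mem_filter] at hs
      rw [Pool.Agent.Lib.SW.mem_Sa]
      exact ⟨hs.1.1, hs.2⟩
    have hA2 : max ((Sa W (S.filter fun s => s ≤ X + j * H0) a).card : ℝ) (X / L ^ K) ≤ m := by
      rw [hm]
      exact max_le_max (by exact_mod_cast hA) le_rfl
    exact mul_le_mul_of_nonneg_right (mul_le_mul_of_nonneg_left hA2 (by linarith)) hτ0
  have s1 := Finset.sum_le_sum hpt
  rw [Finset.sum_add_distrib, Finset.sum_const, nsmul_eq_mul] at s1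
  have s2 := cl_sum (f := fun j N => |(cE k U T (S.filter fun s => s ≤ X + j * H0) N : ℝ) -
    cX X * (Sa W (S.filter fun s => s ≤ X + j * H0) a).card * τ|) (fun _ _ => abs_nonneg _) (X := X) (H := H) (W := W) (a := a) hH0pos
  have s3 := Finset.sum_le_sum hb
  rw [Finset.sum_const, card_range, nsmul_eq_mul] at s3
  have h4 : ((H / H0 + 1 : ℕ) : ℝ) * H0 ≤ 2 * H := by
    have h5 : (H / H0 + 1) * H0 ≤ 2 * H := by
      have := Nat.div_mul_le_self H H0
      rw [add_mul, one_mul]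
      omega
    exact_mod_cast h5
  have h6 : ((H / H0 + 1 : ℕ) : ℝ) * (ε / 16 * (H0 / W) * (cX X * m * τ)) ≤ ε / 8 * (H / W) * (cX X * m * τ) := by
    have e1 : ((H / H0 + 1 : ℕ) : ℝ) * (ε / 16 * (H0 / W) * (cX X * m * τ)) =
        (((H / H0 + 1 : ℕ) : ℝ) * H0) * (ε / 16 / W * (cX X * m * τ)) := by ring
    have e2 : ε / 8 * (H / W) * (cX X * m * τ) = (2 * (H : ℝ)) * (ε / 16 / W * (cX X * m * τ)) := by ring
    rw [e1, e2]
    exact mul_le_mul_of_nonneg_right h4 (by positivity)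
  have h7 : ((wnd X H W a).card : ℝ) * (ε / 8 * (cX X * m * τ)) ≤ ε / 4 * (H / W) * (cX X * m * τ) := by
    have e1 := cl_wnd_card X H W a hWpos
    have e2 : (1 : ℝ) ≤ H / W := by rw [le_div_iff₀ hWr]; linarith
    have e3 : ((wnd X H W a).card : ℝ) ≤ 2 * (H / W) := by linarith
    have e4 : ε / 4 * (H / W) * (cX X * m * τ) = 2 * ((H : ℝ) / W) * (ε / 8 * (cX X * m * τ)) := by ring
    rw [e4]
    exact mul_le_mul_of_nonneg_right e3 (by positivity)
  have h8 : 0 ≤ ε * (H / W) * (cX X * m * τ) := by positivity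
  have h9 : ε / 8 * (H / W) * (cX X * m * τ) + ε / 4 * (H / W) * (cX X * m * τ) ≤ ε * (H / W) * (cX X * m * τ) := by
    have : ε / 8 * (H / W) * (cX X * m * τ) + ε / 4 * (H / W) * (cX X * m * τ) = 3 / 8 * (ε * (H / W) * (cX X * m * τ)) := by ring
    rw [this]
    linarith
  linarith

end Pool.Agent.Lib.WL
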