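import Pool.Agent.Lib.WL.Bs

/-!
# WL, row Cb: `bsW` for sets with members in and beyond the window (copy of WL/Co.lean)

PROOF IN WORDS. `bsW k K B` gives `c0`, `C'`, `M1`; `C = C' + 2`. `H0 = ⌈L^C'⌉ ≤ H`. The window `(X, X+H]` is covered by the `(Z_j, Z_j + H0]`, `Z_j = X + j H0`, `j < J`, `J ≤ H/H0 + 1`, all with `Z_j ≤ 2X`. For `N` in the `j`-th one let `S_j = S ∩ [1, Z_j]`: `cB S N ≤ cB S_j N + H0`, `|Sa S_j| ≤ |Sa S|`, and `H0 ≤ (ε/2) c (X/L^K) (D/L)` for large `X` (`D ≥ L^(-B)/(k-2)!`).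
`bsW` with `ε/4` for each `j`: in total at most `(ε/4)(H + H0)/W ≤ ε H/W` exceptions.
-/

set_option autoImplicit false

open Finset

namespace Pool.Agent.Lib.WL

open Pool.Agent.Lib.SW (WX cX Sa one_le_cX WX_pos mem_Sa)
open Pool.Agent.Lib.T8 (dT)

private theorem cb_real {ε c τ m mj E Ej h : ℝ} (hε : 0 < ε) (hc : 1 ≤ c) (hτ : 0 ≤ τ) (hm : mj ≤ m) (hm0 : 0 ≤ m)
    (h1 : Ej ≤ ε / 4 * (c * mj * τ)) (hE2 : E ≤ Ej + h) (hh1 : h ≤ ε / 4 * (m * τ)) : E ≤ ε * (c * m * τ) := by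
  have hcτ : 0 ≤ c * τ := mul_nonneg (by linarith) hτ
  have e1 : c * mj * τ ≤ c * m * τ := by
    have := mul_le_mul_of_nonneg_left hm hcτ
    nlinarith
  have e2 : h ≤ ε / 4 * (c * m * τ) := by
    have h3 : 0 ≤ ε / 4 * (m * τ) := mul_nonneg (by linarith) (mul_nonneg hm0 hτ)
    have h4 : ε / 4 * (m * τ) * 1 ≤ ε / 4 * (m * τ) * c := mul_le_mul_of_nonneg_left hc h3
    nlinarith
  have e6 : ε / 4 * (c * mj * τ) ≤ ε / 4 * (c * m * τ) := mul_le_mul_of_nonneg_left e1 (by linarith)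
  have e7 : 0 ≤ c * m * τ := by
    have := mul_nonneg hcτ hm0
    nlinarith
  nlinarith

/-- the lower bound for `dT` -/
private theorem cb_dT (k B : ℕ) (T : Finset ℕ) (X : ℕ) (hX : 3 ≤ X) (hT : ∀ q ∈ T, q.Prime ∧ (q : ℝ) ≤ (X : ℝ) ^ (1 / 3 : ℝ))
    (hs : 1 / (Real.log X) ^ B ≤ ∑ q ∈ T, 1 / (q : ℝ)) :
    1 / (Real.log X) ^ B * (1 / (Nat.factorial (k - 2) : ℝ)) ≤ dT k T X := by
  have hXr : (3 : ℝ) ≤ X := by exact_mod_cast hX
  have hf : (0 : ℝ) < Nat.factorial (k - 2) := by exact_mod_cast Nat.factorial_pos _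
  refine (mul_le_mul_of_nonneg_right hs (by positivity)).trans ?_
  unfold Pool.Agent.Lib.T8.dT
  rw [sum_mul]
  refine sum_le_sum fun q hq => ?_
  obtain ⟨hqp, hq1⟩ := hT q hq
  have hq2 : (2 : ℝ) ≤ q := by exact_mod_cast hqp.two_le
  refine mul_le_mul_of_nonneg_left (div_le_div_of_nonneg_right ?_ hf.le) (by positivity)
  refine one_le_pow₀ ?_
  have hlq : 0 < Real.log q := Real.log_pos (by linarith)
  have h1 : Real.log q ≤ 1 / 3 * Real.log X := by
    have h2 := Real.log_le_log (by linarith) hq1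
    rwa [Real.log_rpow (by linarith)] at h2
  have h3 : 3 ≤ Real.log X / Real.log q := by
    rw [le_div_iff₀ hlq]
    linarith
  have h4 : Real.exp 1 ≤ Real.log X / Real.log q := by
    have := Real.exp_one_lt_d9
    linarith
  have h5 := Real.log_le_log (Real.exp_pos 1) h4
  rwa [Real.log_exp] at h5

theorem cbW (k K B : ℕ) (hk : 2 ≤ k) : ∃ c0 C M1 : ℕ, ∀ M : ℕ, M1 ≤ M → ∀ ε : ℝ, 0 < ε → ∃ η : ℝ, 0 < η ∧ ∃ X0 : ℕ, ∀ (X H a U : ℕ) (T : Finset ℕ),
    X0 ≤ X → U ^ (2 * M) ≤ X → X ≤ (U + 1) ^ (2 * M) → (∀ q ∈ T, q.Prime ∧ (Real.log X) ^ c0 ≤ q ∧ (q : ℝ) ≤ (X : ℝ) ^ η) →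
      1 / (Real.log X) ^ B ≤ ∑ q ∈ T, 1 / (q : ℝ) → (Real.log X) ^ C ≤ H → H ≤ X → ∀ S : Finset ℕ, S ⊆ Icc 1 (2 * X) →
        (((wnd X H (WX X) a).filter fun N => ε * (cX X * max ((Sa (WX X) S a).card : ℝ) (X / (Real.log X) ^ K) * (dT k T X / Real.log X)) <
          (cB k U T S N : ℝ)).card : ℝ) ≤ ε * (H / WX X) := by
  classical
  obtain ⟨c0, C', M1, hbs⟩ := bsW k K B hk
  refine ⟨c0, C' + 2, M1, fun M hM ε hε => ?_⟩
  obtain ⟨η', hη', X1, hbs'⟩ := hbs M hM (ε / 4) (by positivity)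
  obtain ⟨D, hD⟩ : ∃ D : ℕ, D = C' + K + B + 1 := ⟨_, rfl⟩
  have hf : (0 : ℝ) < Nat.factorial (k - 2) := by exact_mod_cast Nat.factorial_pos _
  obtain ⟨δ, hδ⟩ : ∃ δ : ℝ, δ = ε / (8 * (Nat.factorial (k - 2) : ℝ)) := ⟨_, rfl⟩
  have hδ0 : 0 < δ := by rw [hδ]; positivity
  have hpl : ∀ᶠ x : ℝ in Filter.atTop, ‖Real.log x ^ D‖ ≤ δ * ‖x‖ :=
    (Real.isLittleO_pow_log_id_atTop (n := D)).def hδ0
  obtain ⟨x2, hx2⟩ := Filter.eventually_atTop.1 hpl
  refine ⟨min η' (1 / 3), lt_min hη' (by norm_num), max X1 (max ⌈x2⌉₊ 8), ?_⟩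
  intro X H a U T hX hUM hUM' hT hσ hwH hHX S hS
  have hX1 : X1 ≤ X := (le_max_left _ _).trans hX
  have hX2 : x2 ≤ X := (Nat.le_ceil x2).trans (by exact_mod_cast (le_max_left _ _).trans ((le_max_right _ _).trans hX))
  have hX8 : 8 ≤ X := (le_max_right _ _).trans ((le_max_right _ _).trans hX)
  have hXr : (8 : ℝ) ≤ X := by exact_mod_cast hX8
  have hXpos : (0 : ℝ) < X := by linarith
  have hT1 : ∀ q ∈ T, q.Prime ∧ (Real.log X) ^ c0 ≤ q ∧ (q : ℝ) ≤ (X : ℝ) ^ η' := fun q hq =>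
    ⟨(hT q hq).1, (hT q hq).2.1, (hT q hq).2.2.trans (Real.rpow_le_rpow_of_exponent_le (by linarith) (min_le_left _ _))⟩
  have hT2 : ∀ q ∈ T, q.Prime ∧ (q : ℝ) ≤ (X : ℝ) ^ (1 / 3 : ℝ) := fun q hq =>
    ⟨(hT q hq).1, (hT q hq).2.2.trans (Real.rpow_le_rpow_of_exponent_le (by linarith) (min_le_right _ _))⟩
  have hdT := cb_dT k B T X (by omega) hT2 hσ
  obtain ⟨L, hL⟩ : ∃ L : ℝ, L = Real.log X := ⟨_, rfl⟩
  have hL2 : 2 ≤ L := by
    rw [hL]
    have h1 : Real.log 8 ≤ Real.log X := Real.log_le_log (by norm_num) hXr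
    have h2 : Real.log 8 = 3 * Real.log 2 := by
      rw [show (8 : ℝ) = 2 ^ 3 by norm_num, Real.log_pow]; norm_num
    have h3 := Real.log_two_gt_d9
    linarith
  have hL1 : 1 ≤ L := by linarith
  have hL0 : 0 < L := by linarith
  have hlog := hx2 X hX2
  rw [Real.norm_of_nonneg (pow_nonneg (by rw [← hL]; exact hL0.le) _), Real.norm_of_nonneg hXpos.le, ← hL] at hlog
  have hty' := fun Z H a U T => hbs' X Z H a U T hX1
  rw [← hL] at hσ hwH hdT ⊢
  simp only [← hL] at hty' hT1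
  -- the parameters
  obtain ⟨H0, hH0⟩ : ∃ H0 : ℕ, H0 = ⌈L ^ C'⌉₊ := ⟨_, rfl⟩
  have hLC : 1 ≤ L ^ C' := one_le_pow₀ hL1
  have hH0a : L ^ C' ≤ H0 := by rw [hH0]; exact Nat.le_ceil _
  have hH0b : (H0 : ℝ) ≤ 2 * L ^ C' := by
    have h1 : (H0 : ℝ) < L ^ C' + 1 := by rw [hH0]; exact Nat.ceil_lt_add_one (by linarith)
    linarith
  have hH0pos : 0 < H0 := by
    have : (0 : ℝ) < H0 := by linarith
    exact_mod_cast this
  have hH0r : (0 : ℝ) < H0 := by exact_mod_cast hH0pos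
  have hH0H : H0 ≤ H := by
    have h1 : (H0 : ℝ) ≤ H := by
      refine hH0b.trans (le_trans ?_ hwH)
      rw [pow_add]
      have h2 : 2 ≤ L ^ 2 := by nlinarith
      have h3 : L ^ C' * 2 ≤ L ^ C' * L ^ 2 := mul_le_mul_of_nonneg_left h2 (by positivity)
      linarith
    exact_mod_cast h1
  obtain ⟨τ, hτ⟩ : ∃ τ : ℝ, τ = dT k T X / L := ⟨_, rfl⟩
  have hτ1 : 1 / L ^ B * (1 / (Nat.factorial (k - 2) : ℝ)) / L ≤ τ := by
    rw [hτ]
    exact div_le_div_of_nonneg_right hdT hL0.le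
  have hτ0 : 0 ≤ τ := le_trans (by positivity) hτ1
  have hR0 : (0 : ℝ) < X / L ^ K := by positivity
  have hH0R : (H0 : ℝ) ≤ ε / 4 * (X / L ^ K * τ) := by
    have h1 : (H0 : ℝ) ≤ ε / 4 * (X / L ^ K * (1 / L ^ B * (1 / (Nat.factorial (k - 2) : ℝ)) / L)) := by
      have e1 : ε / 4 * (X / L ^ K * (1 / L ^ B * (1 / (Nat.factorial (k - 2) : ℝ)) / L)) =
          2 * (δ * X) / (L ^ K * L ^ B * L) := by
        rw [hδ]
        field_simp
        ring
      rw [e1, le_div_iff₀ (by positivity)]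
      calc (H0 : ℝ) * (L ^ K * L ^ B * L) ≤ 2 * L ^ C' * (L ^ K * L ^ B * L) := mul_le_mul_of_nonneg_right hH0b (by positivity)
        _ = 2 * L ^ D := by rw [hD]; ring
        _ ≤ 2 * (δ * X) := by linarith
    exact h1.trans (mul_le_mul_of_nonneg_left (mul_le_mul_of_nonneg_left hτ1 hR0.le) (by linarith))
  have hc1' := one_le_cX X
  have hWpos := WX_pos X
  have hWr : (0 : ℝ) < WX X := by exact_mod_cast hWpos
  rw [← hτ]
  set W : ℕ := WX X with hW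
  -- the covering
  have hsub : ((wnd X H W a).filter fun N => ε * (cX X * max ((Sa W S a).card : ℝ) (X / L ^ K) * τ) < (cB k U T S N : ℝ)) ⊆
      (range (H / H0 + 1)).biUnion fun j => (wnd (X + j * H0) H0 W a).filter fun N =>
        ε / 4 * (cX X * max ((Sa W (S.filter fun s => s ≤ X + j * H0) a).card : ℝ) (X / L ^ K) * τ) <
          (cB k U T (S.filter fun s => s ≤ X + j * H0) N : ℝ) := by
    intro N hN
    rw [mem_filter] at hN
    obtain ⟨hNw, hNb⟩ := hN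
    unfold wnd at hNw
    rw [mem_filter, mem_Ioc] at hNw
    obtain ⟨⟨hN1, hN2⟩, hNa⟩ := hNw
    rw [mem_biUnion]
    obtain ⟨j, hj⟩ : ∃ j : ℕ, j = (N - X - 1) / H0 := ⟨_, rfl⟩
    have hj1 : j * H0 ≤ N - X - 1 := by rw [hj]; exact Nat.div_mul_le_self _ _
    have hj2 : N - X - 1 < j * H0 + H0 := by
      have := Nat.lt_div_mul_add (a := N - X - 1) hH0pos
      rw [← hj] at this
      exact this
    have hjH : j ≤ H / H0 := by
      rw [hj]
      exact Nat.div_le_div_right (by omega)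
    obtain ⟨Z, hZ⟩ : ∃ Z : ℕ, Z = X + j * H0 := ⟨_, rfl⟩
    have hZ1 : Z < N := by omega
    have hZ2 : N ≤ Z + H0 := by omega
    refine ⟨j, mem_range.2 (by omega), ?_⟩
    rw [mem_filter, ← hZ]
    refine ⟨?_, ?_⟩
    · unfold wnd
      rw [mem_filter, mem_Ioc]
      exact ⟨⟨hZ1, hZ2⟩, hNa⟩
    · by_contra hcon
      push Not at hcon
      refine absurd hNb (not_lt.2 ?_)
      obtain ⟨Sj, hSj⟩ : ∃ Sj : Finset ℕ, Sj = S.filter fun s => s ≤ Z := ⟨_, rfl⟩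
      rw [← hSj] at hcon
      have hmem : ∀ s, s ∈ Sj ↔ s ∈ S ∧ s ≤ Z := fun s => by rw [hSj, mem_filter]
      have hcard : (Ioc Z (Z + H0)).card = H0 := by rw [Nat.card_Ioc]; omega
      have hE2 : cB k U T S N ≤ cB k U T Sj N + H0 := by
        unfold cB
        have h1 : (S.filter fun s => s < N ∧ (N - s).primeFactorsList.length = k ∧ (N - s).minFac ∈ T ∧
              ¬ Pool.Agent.Lib.G8.EL k U T (N - s)) ⊆
            (Sj.filter fun s => s < N ∧ (N - s).primeFactorsList.length = k ∧ (N - s).minFac ∈ T ∧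
              ¬ Pool.Agent.Lib.G8.EL k U T (N - s)) ∪ Ioc Z (Z + H0) := by
          intro s hs
          rw [mem_filter] at hs
          rw [mem_union, mem_filter, mem_Ioc, hmem]
          by_cases hsZ : s ≤ Z
          · exact Or.inl ⟨⟨hs.1, hsZ⟩, hs.2⟩
          · right
            have := hs.2.1
            omega
        have h2 := (card_le_card h1).trans (card_union_le _ _)
        rwa [hcard] at h2
      have hA : (Sa W Sj a).card ≤ (Sa W S a).card := by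
        refine card_le_card fun s hs => ?_
        rw [mem_Sa, hmem] at hs
        rw [mem_Sa]
        exact ⟨hs.1.1, hs.2⟩
      have hm1 : (X : ℝ) / L ^ K ≤ max ((Sa W S a).card : ℝ) (X / L ^ K) := le_max_right _ _
      refine cb_real (h := (H0 : ℝ)) hε hc1' hτ0 (max_le_max (by exact_mod_cast hA) le_rfl) (hR0.le.trans hm1) hcon
        (by exact_mod_cast hE2) (hH0R.trans ?_)
      exact mul_le_mul_of_nonneg_left (mul_le_mul_of_nonneg_right hm1 hτ0) (by linarith)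
  -- the sum
  have hb : ∀ j ∈ range (H / H0 + 1), ((((wnd (X + j * H0) H0 W a).filter fun N =>
        ε / 4 * (cX X * max ((Sa W (S.filter fun s => s ≤ X + j * H0) a).card : ℝ) (X / L ^ K) * τ) <
          (cB k U T (S.filter fun s => s ≤ X + j * H0) N : ℝ)).card : ℕ) : ℝ) ≤ ε / 4 * (H0 / W) := by
    intro j hj
    rw [mem_range] at hj
    have hjH : j * H0 ≤ H := (Nat.mul_le_mul_right H0 (by omega : j ≤ H / H0)).trans (Nat.div_mul_le_self _ _)
    have h1 := hty' (X + j * H0) H0 a U T (by omega) hUM hUM' hT1 hσ hH0a (by omega)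
      (S.filter fun s => s ≤ X + j * H0) (by
        intro s hs
        rw [mem_filter] at hs
        have := mem_Icc.1 (hS hs.1)
        rw [mem_Icc]
        omega)
    rw [← hτ] at h1
    exact h1
  have h1 := card_le_card hsub
  have h2 := h1.trans card_biUnion_le
  have h3 : ((((wnd X H W a).filter fun N => ε * (cX X * max ((Sa W S a).card : ℝ) (X / L ^ K) * τ) <
      (cB k U T S N : ℝ)).card : ℕ) : ℝ) ≤
      ∑ j ∈ range (H / H0 + 1), ((((wnd (X + j * H0) H0 W a).filter fun N =>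
        ε / 4 * (cX X * max ((Sa W (S.filter fun s => s ≤ X + j * H0) a).card : ℝ) (X / L ^ K) * τ) <
          (cB k U T (S.filter fun s => s ≤ X + j * H0) N : ℝ)).card : ℕ) : ℝ) := by
    exact_mod_cast h2
  refine h3.trans ((Finset.sum_le_sum hb).trans ?_)
  rw [Finset.sum_const, card_range, nsmul_eq_mul]
  have h4 : ((H / H0 + 1 : ℕ) : ℝ) * H0 ≤ 2 * H := by
    have h5 : (H / H0 + 1) * H0 ≤ 2 * H := by
      have := Nat.div_mul_le_self H H0
      rw [add_mul, one_mul]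
      omega
    exact_mod_cast h5
  have e : ((H / H0 + 1 : ℕ) : ℝ) * (ε / 4 * (H0 / W)) = ε / 4 * (((H / H0 + 1 : ℕ) : ℝ) * H0 / W) := by ring
  rw [e]
  have h6 : ((H / H0 + 1 : ℕ) : ℝ) * H0 / W ≤ 2 * H / W := div_le_div_of_nonneg_right h4 hWr.le
  have h7 : ε / 4 * (((H / H0 + 1 : ℕ) : ℝ) * H0 / W) ≤ ε / 4 * (2 * H / W) := mul_le_mul_of_nonneg_left h6 (by positivity)
  have h8 : ε / 4 * (2 * H / W) ≤ ε * ((H : ℝ) / W) := by
    have h9 : 0 ≤ (H : ℝ) / W := by positivity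
    have e2 : ε / 4 * (2 * H / W) = ε / 2 * ((H : ℝ) / W) := by ring
    rw [e2]
    nlinarith
  exact h7.trans h8

end Pool.Agent.Lib.WL
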