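import Pool.Agent.Lib.WL.BL

/-!
# WL, row CbL: `cbW` in mean (copy of WL/Cb.lean, with `bsL` in the place of `bsW`)

PROOF IN WORDS. As Cb.lean: the window is covered by the `(Z_j, Z_j + H0]`, `H0 = ⌈L^C1⌉`, `C1 = max C' 2` (so `W ≤ H0`), `Z_j = X + j H0 ≤ 2X`, `j < J`, `J ≤ H/H0 + 1`; `cB S N ≤ cB S_j N + H0`, `|Sa S_j| ≤ |Sa S|`, `H0 ≤ (ε/8) c (X/L^K)(D/L)` for large `X`. Sum: `bsL` with `ε/8` for each `j` and at most `2 (H + H0)/W` numbers `N`: `≤ ε (H/W) c m D/L`.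
-/

set_option autoImplicit false

open Finset

namespace Pool.Agent.Lib.WL

open Pool.Agent.Lib.SW (WX cX Sa one_le_cX WX_pos mem_Sa cX_le_log)
open Pool.Agent.Lib.T8 (dT)

private theorem cbl_card_le (Z H W a : ℕ) (hW : 0 < W) : ((wnd Z H W a).card : ℝ) ≤ H / W + 1 := by
  have h1 := Nat.Ioc_filter_modEq_card Z (Z + H) hW a
  have h2 : (((wnd Z H W a).card : ℤ) : ℚ) ≤ (H : ℚ) / W + 1 := by
    unfold wnd
    rw [h1]
    rcases le_total (⌊(((Z + H : ℕ) : ℚ) - a) / W⌋ - ⌊((Z : ℚ) - a) / W⌋) 0 with h | h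
    · rw [max_eq_right h]
      push_cast
      positivity
    · rw [max_eq_left h]
      push_cast
      have f1 := Int.floor_le (((Z : ℚ) + H - a) / W)
      have f2 := Int.sub_one_lt_floor (((Z : ℚ) - a) / W)
      have f3 : ((Z : ℚ) + H - a) / W = ((Z : ℚ) - a) / W + H / W := by ring
      rw [f3] at f1
      rw [f3]
      linarith
  have h3 : (((wnd Z H W a).card : ℕ) : ℚ) ≤ (H : ℚ) / W + 1 := by exact_mod_cast h2
  have h4 : (((((wnd Z H W a).card : ℕ) : ℚ)) : ℝ) ≤ (((H : ℚ) / W + 1 : ℚ) : ℝ) := Rat.cast_le.2 h3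
  push_cast at h4
  exact h4

private theorem cbl_bU (f : ℕ → ℝ) (hf : ∀ n, 0 ≤ f n) (t : ℕ → Finset ℕ) (s : Finset ℕ) :
    ∑ N ∈ s.biUnion t, f N ≤ ∑ j ∈ s, ∑ N ∈ t j, f N := by
  classical
  induction s using Finset.induction_on with
  | empty => simp
  | insert a s ha ih =>
    rw [Finset.biUnion_insert, Finset.sum_insert ha]
    have h := Finset.sum_union_inter (s₁ := t a) (s₂ := s.biUnion t) (f := f)
    have h2 : 0 ≤ ∑ N ∈ t a ∩ s.biUnion t, f N := Finset.sum_nonneg fun n _ => hf n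
    linarith

/-- the lower bound for `dT` -/
private theorem cbl_dT (k B : ℕ) (T : Finset ℕ) (X : ℕ) (hX : 3 ≤ X) (hT : ∀ q ∈ T, q.Prime ∧ (q : ℝ) ≤ (X : ℝ) ^ (1 / 3 : ℝ))
    (hs : 1 / (Real.log X) ^ B ≤ ∑ q ∈ T, 1 / (q : ℝ)) :
    1 / (Real.log X) ^ B * (1 / (Nat.factorial (k - 2) : ℝ)) ≤ dT k T X := by
  have hXr : (3 : ℝ) ≤ X := by exact_mod_cast hX
  have hf : (0 : ℝ) < Nat.factorial (k - 2) := by exact_mod_cast Nat.factorial_pos _
  refine (mul_le_mul_of_nonneg_right hs (by positivity)).trans ?_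
  unfold Pool.Agent.Lib.T8.dT
  rw [sum_mul]
  refine sum_le_sum fun q hq => ?_
  obtain ⟨hqp, hq1⟩ := hT q hq
  have hq2 : (2 : ℝ) ≤ q := by exact_mod_cast hqp.two_le
  refine mul_le_mul_of_nonneg_left (div_le_div_of_nonneg_right ?_ hf.le) (by positivity)
  refine one_le_pow₀ ?_
  have hlq : 0 < Real.log q := Real.log_pos (by linarith)
  have h1 : Real.log q ≤ 1 / 3 * Real.log X := by
    have h2 := Real.log_le_log (by linarith) hq1
    rwa [Real.log_rpow (by linarith)] at h2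
  have h3 : 3 ≤ Real.log X / Real.log q := by
    rw [le_div_iff₀ hlq]
    linarith
  have h4 : Real.exp 1 ≤ Real.log X / Real.log q := by
    have := Real.exp_one_lt_d9
    linarith
  have h5 := Real.log_le_log (Real.exp_pos 1) h4
  rwa [Real.log_exp] at h5

theorem cbL (k K B : ℕ) (hk : 2 ≤ k) : ∃ c0 C M1 : ℕ, ∀ M : ℕ, M1 ≤ M → ∀ ε : ℝ, 0 < ε → ∃ η : ℝ, 0 < η ∧ ∃ X0 : ℕ, ∀ (X H a U : ℕ) (T : Finset ℕ),
    X0 ≤ X → U ^ (2 * M) ≤ X → X ≤ (U + 1) ^ (2 * M) → (∀ q ∈ T, q.Prime ∧ (Real.log X) ^ c0 ≤ q ∧ (q : ℝ) ≤ (X : ℝ) ^ η) →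
      1 / (Real.log X) ^ B ≤ ∑ q ∈ T, 1 / (q : ℝ) → (Real.log X) ^ C ≤ H → H ≤ X → ∀ S : Finset ℕ, S ⊆ Icc 1 (2 * X) →
        ∑ N ∈ wnd X H (WX X) a, (cB k U T S N : ℝ) ≤
          ε * (H / WX X) * (cX X * max ((Sa (WX X) S a).card : ℝ) (X / (Real.log X) ^ K) * (dT k T X / Real.log X)) := by
  classical
  obtain ⟨c0, C', M1, hbs⟩ := bsL k K B hk
  obtain ⟨C1, hC1⟩ : ∃ C1 : ℕ, C1 = max C' 2 := ⟨_, rfl⟩
  have hC1a : C' ≤ C1 := by omega
  have hC1b : 2 ≤ C1 := by omega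
  obtain ⟨X5, hX5⟩ := cX_le_log
  refine ⟨c0, C1 + 2, M1, fun M hM ε hε => ?_⟩
  obtain ⟨η', hη', X1, hbs'⟩ := hbs M hM (ε / 8) (by positivity)
  obtain ⟨D, hD⟩ : ∃ D : ℕ, D = C1 + K + B + 1 := ⟨_, rfl⟩
  have hf : (0 : ℝ) < Nat.factorial (k - 2) := by exact_mod_cast Nat.factorial_pos _
  obtain ⟨δ, hδ⟩ : ∃ δ : ℝ, δ = ε / (16 * (Nat.factorial (k - 2) : ℝ)) := ⟨_, rfl⟩
  have hδ0 : 0 < δ := by rw [hδ]; positivity
  have hpl : ∀ᶠ x : ℝ in Filter.atTop, ‖Real.log x ^ D‖ ≤ δ * ‖x‖ :=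
    (Real.isLittleO_pow_log_id_atTop (n := D)).def hδ0
  obtain ⟨x2, hx2⟩ := Filter.eventually_atTop.1 hpl
  refine ⟨min η' (1 / 3), lt_min hη' (by norm_num), max X5 (max X1 (max ⌈x2⌉₊ 8)), ?_⟩
  intro X H a U T hX0 hUM hUM' hT hσ hwH hHX S hS
  have hX50 : X5 ≤ X := (le_max_left _ _).trans hX0
  have hX : max X1 (max ⌈x2⌉₊ 8) ≤ X := (le_max_right _ _).trans hX0
  have hX1 : X1 ≤ X := (le_max_left _ _).trans hX
  have hX2 : x2 ≤ X := (Nat.le_ceil x2).trans (by exact_mod_cast (le_max_left _ _).trans ((le_max_right _ _).trans hX))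
  have hX8 : 8 ≤ X := (le_max_right _ _).trans ((le_max_right _ _).trans hX)
  have hXr : (8 : ℝ) ≤ X := by exact_mod_cast hX8
  have hXpos : (0 : ℝ) < X := by linarith
  have hT1 : ∀ q ∈ T, q.Prime ∧ (Real.log X) ^ c0 ≤ q ∧ (q : ℝ) ≤ (X : ℝ) ^ η' := fun q hq =>
    ⟨(hT q hq).1, (hT q hq).2.1, (hT q hq).2.2.trans (Real.rpow_le_rpow_of_exponent_le (by linarith) (min_le_left _ _))⟩
  have hT2 : ∀ q ∈ T, q.Prime ∧ (q : ℝ) ≤ (X : ℝ) ^ (1 / 3 : ℝ) := fun q hq =>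
    ⟨(hT q hq).1, (hT q hq).2.2.trans (Real.rpow_le_rpow_of_exponent_le (by linarith) (min_le_right _ _))⟩
  have hdT := cbl_dT k B T X (by omega) hT2 hσ
  have hWL := (hX5 X hX50).2
  obtain ⟨L, hL⟩ : ∃ L : ℝ, L = Real.log X := ⟨_, rfl⟩
  have hL2 : 2 ≤ L := by
    rw [hL]
    have h1 : Real.log 8 ≤ Real.log X := Real.log_le_log (by norm_num) hXr
    have h2 : Real.log 8 = 3 * Real.log 2 := by
      rw [show (8 : ℝ) = 2 ^ 3 by norm_num, Real.log_pow]; norm_num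
    have h3 := Real.log_two_gt_d9
    linarith
  have hL1 : 1 ≤ L := by linarith
  have hL0 : 0 < L := by linarith
  have hlog := hx2 X hX2
  rw [Real.norm_of_nonneg (pow_nonneg (by rw [← hL]; exact hL0.le) _), Real.norm_of_nonneg hXpos.le, ← hL] at hlog
  have hty' := fun Z H a U T => hbs' X Z H a U T hX1
  rw [← hL] at hσ hwH hdT hWL ⊢
  simp only [← hL] at hty' hT1
  -- the parameters
  obtain ⟨H0, hH0⟩ : ∃ H0 : ℕ, H0 = ⌈L ^ C1⌉₊ := ⟨_, rfl⟩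
  have hLC : 1 ≤ L ^ C1 := one_le_pow₀ hL1
  have hH0a : L ^ C1 ≤ H0 := by rw [hH0]; exact Nat.le_ceil _
  have hH0a' : L ^ C' ≤ H0 := (pow_le_pow_right₀ hL1 hC1a).trans hH0a
  have hH0b : (H0 : ℝ) ≤ 2 * L ^ C1 := by
    have h1 : (H0 : ℝ) < L ^ C1 + 1 := by rw [hH0]; exact Nat.ceil_lt_add_one (by linarith)
    linarith
  have hH0pos : 0 < H0 := by
    have : (0 : ℝ) < H0 := by linarith
    exact_mod_cast this
  have hH0r : (0 : ℝ) < H0 := by exact_mod_cast hH0pos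
  have hH0H : H0 ≤ H := by
    have h1 : (H0 : ℝ) ≤ H := by
      refine hH0b.trans (le_trans ?_ hwH)
      rw [pow_add]
      have h2 : 2 ≤ L ^ 2 := by nlinarith
      have h3 : L ^ C1 * 2 ≤ L ^ C1 * L ^ 2 := mul_le_mul_of_nonneg_left h2 (by positivity)
      linarith
    exact_mod_cast h1
  have hWH0 : (WX X : ℝ) ≤ H0 := hWL.trans ((pow_le_pow_right₀ hL1 hC1b).trans hH0a)
  obtain ⟨τ, hτ⟩ : ∃ τ : ℝ, τ = dT k T X / L := ⟨_, rfl⟩
  have hτ1 : 1 / L ^ B * (1 / (Nat.factorial (k - 2) : ℝ)) / L ≤ τ := by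
    rw [hτ]
    exact div_le_div_of_nonneg_right hdT hL0.le
  have hτ0 : 0 ≤ τ := le_trans (by positivity) hτ1
  have hR0 : (0 : ℝ) < X / L ^ K := by positivity
  have hH0R : (H0 : ℝ) ≤ ε / 8 * (X / L ^ K * τ) := by
    have h1 : (H0 : ℝ) ≤ ε / 8 * (X / L ^ K * (1 / L ^ B * (1 / (Nat.factorial (k - 2) : ℝ)) / L)) := by
      have e1 : ε / 8 * (X / L ^ K * (1 / L ^ B * (1 / (Nat.factorial (k - 2) : ℝ)) / L)) =
          2 * (δ * X) / (L ^ K * L ^ B * L) := by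
        rw [hδ]
        field_simp
        ring
      rw [e1, le_div_iff₀ (by positivity)]
      calc (H0 : ℝ) * (L ^ K * L ^ B * L) ≤ 2 * L ^ C1 * (L ^ K * L ^ B * L) := mul_le_mul_of_nonneg_right hH0b (by positivity)
        _ = 2 * L ^ D := by rw [hD]; ring
        _ ≤ 2 * (δ * X) := by linarith
    exact h1.trans (mul_le_mul_of_nonneg_left (mul_le_mul_of_nonneg_left hτ1 hR0.le) (by linarith))
  have hc1' := one_le_cX X
  have hWpos := WX_pos X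
  have hWr : (0 : ℝ) < WX X := by exact_mod_cast hWpos
  rw [← hτ]
  set W : ℕ := WX X with hW
  obtain ⟨m, hm⟩ : ∃ m : ℝ, m = max ((Sa W S a).card : ℝ) (X / L ^ K) := ⟨_, rfl⟩
  have hm0 : 0 < m := hR0.trans_le (by rw [hm]; exact le_max_right _ _)
  rw [← hm]
  obtain ⟨G, hG⟩ : ∃ G : ℝ, G = cX X * m * τ := ⟨_, rfl⟩
  have hG0 : 0 ≤ G := by rw [hG]; exact mul_nonneg (mul_nonneg (by linarith) hm0.le) hτ0
  rw [← hG]
  have hH0G : (H0 : ℝ) ≤ ε / 8 * G := by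
    refine hH0R.trans (mul_le_mul_of_nonneg_left ?_ (by linarith))
    have e1 : X / L ^ K * τ ≤ m * τ := mul_le_mul_of_nonneg_right (by rw [hm]; exact le_max_right _ _) hτ0
    have e2 : m * τ ≤ cX X * (m * τ) := le_mul_of_one_le_left (mul_nonneg hm0.le hτ0) hc1'
    rw [hG, mul_assoc]
    exact e1.trans e2
  -- the covering
  have hcov : wnd X H W a ⊆ (range (H / H0 + 1)).biUnion fun j => wnd (X + j * H0) H0 W a := by
    intro N hNw
    unfold wnd at hNw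
    rw [mem_filter, mem_Ioc] at hNw
    obtain ⟨⟨hN1, hN2⟩, hNa⟩ := hNw
    rw [mem_biUnion]
    obtain ⟨j, hj⟩ : ∃ j : ℕ, j = (N - X - 1) / H0 := ⟨_, rfl⟩
    have hj1 : j * H0 ≤ N - X - 1 := by rw [hj]; exact Nat.div_mul_le_self _ _
    have hj2 : N - X - 1 < j * H0 + H0 := by
      have := Nat.lt_div_mul_add (a := N - X - 1) hH0pos
      rw [← hj] at this
      exact this
    have hjH : j ≤ H / H0 := by
      rw [hj]
      exact Nat.div_le_div_right (by omega)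
    refine ⟨j, mem_range.2 (by omega), ?_⟩
    unfold wnd
    rw [mem_filter, mem_Ioc]
    exact ⟨⟨by omega, by omega⟩, hNa⟩
  -- one window
  have hb : ∀ j ∈ range (H / H0 + 1), ∑ N ∈ wnd (X + j * H0) H0 W a, (cB k U T S N : ℝ) ≤ 3 / 8 * ε * (H0 / W) * G := by
    intro j hj
    rw [mem_range] at hj
    have hjH : j * H0 ≤ H := (Nat.mul_le_mul_right H0 (by omega : j ≤ H / H0)).trans (Nat.div_mul_le_self _ _)
    obtain ⟨Z, hZ⟩ : ∃ Z : ℕ, Z = X + j * H0 := ⟨_, rfl⟩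
    have h1 := hty' Z H0 a U T (by omega) hUM hUM' hT1 hσ hH0a' (by omega)
      (S.filter fun s => s ≤ Z) (by
        intro s hs
        rw [mem_filter] at hs
        have := mem_Icc.1 (hS hs.1)
        rw [mem_Icc]
        omega)
    rw [← hτ] at h1
    rw [← hZ]
    obtain ⟨Sj, hSj⟩ : ∃ Sj : Finset ℕ, Sj = S.filter fun s => s ≤ Z := ⟨_, rfl⟩
    rw [← hSj] at h1
    have hmem : ∀ s, s ∈ Sj ↔ s ∈ S ∧ s ≤ Z := fun s => by rw [hSj, mem_filter]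
    have hpt : ∀ N ∈ wnd Z H0 W a, (cB k U T S N : ℝ) ≤ (cB k U T Sj N : ℝ) + H0 := by
      intro N hN
      unfold wnd at hN
      rw [mem_filter, mem_Ioc] at hN
      obtain ⟨⟨hZ1, hZ2⟩, -⟩ := hN
      have hcard : (Ioc Z (Z + H0)).card = H0 := by rw [Nat.card_Ioc]; omega
      have hE2 : cB k U T S N ≤ cB k U T Sj N + H0 := by
        unfold cB
        have h1 : (S.filter fun s => s < N ∧ (N - s).primeFactorsList.length = k ∧ (N - s).minFac ∈ T ∧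
              ¬ Pool.Agent.Lib.G8.EL k U T (N - s)) ⊆
            (Sj.filter fun s => s < N ∧ (N - s).primeFactorsList.length = k ∧ (N - s).minFac ∈ T ∧
              ¬ Pool.Agent.Lib.G8.EL k U T (N - s)) ∪ Ioc Z (Z + H0) := by
          intro s hs
          rw [mem_filter] at hs
          rw [mem_union, mem_filter, mem_Ioc, hmem]
          by_cases hsZ : s ≤ Z
          · exact Or.inl ⟨⟨hs.1, hsZ⟩, hs.2⟩
          · right
            have := hs.2.1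
            omega
        have h2 := (card_le_card h1).trans (card_union_le _ _)
        rwa [hcard] at h2
      exact_mod_cast hE2
    have hA : ((Sa W Sj a).card : ℝ) ≤ ((Sa W S a).card : ℝ) := by
      exact_mod_cast card_le_card fun s hs => by
        rw [mem_Sa, hmem] at hs
        rw [mem_Sa]
        exact ⟨hs.1.1, hs.2⟩
    have h2 : ∑ N ∈ wnd Z H0 W a, (cB k U T Sj N : ℝ) ≤ ε / 8 * (H0 / W) * G := by
      refine h1.trans (mul_le_mul_of_nonneg_left ?_ (by positivity))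
      rw [hG, hm]
      exact mul_le_mul_of_nonneg_right (mul_le_mul_of_nonneg_left (max_le_max hA le_rfl) (by linarith)) hτ0
    have h3 : ((wnd Z H0 W a).card : ℝ) ≤ 2 * (H0 / W) := by
      have h4 := cbl_card_le Z H0 W a hWpos
      have h5 : (1 : ℝ) ≤ H0 / W := by rw [le_div_iff₀ hWr, one_mul]; exact hWH0
      linarith
    have h4 : ((wnd Z H0 W a).card : ℝ) * H0 ≤ 2 * (H0 / W) * (ε / 8 * G) :=
      mul_le_mul h3 hH0G hH0r.le (by positivity)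
    calc ∑ N ∈ wnd Z H0 W a, (cB k U T S N : ℝ) ≤ ∑ N ∈ wnd Z H0 W a, ((cB k U T Sj N : ℝ) + H0) := Finset.sum_le_sum hpt
      _ = ∑ N ∈ wnd Z H0 W a, (cB k U T Sj N : ℝ) + ((wnd Z H0 W a).card : ℝ) * H0 := by
          rw [Finset.sum_add_distrib, Finset.sum_const, nsmul_eq_mul]
      _ ≤ ε / 8 * (H0 / W) * G + 2 * (H0 / W) * (ε / 8 * G) := add_le_add h2 h4
      _ = 3 / 8 * ε * (H0 / W) * G := by ring
  -- the sum
  have h0 : ∀ N, (0 : ℝ) ≤ (cB k U T S N : ℝ) := fun N => Nat.cast_nonneg _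
  have hs1 : ∑ N ∈ wnd X H W a, (cB k U T S N : ℝ) ≤
      ∑ j ∈ range (H / H0 + 1), ∑ N ∈ wnd (X + j * H0) H0 W a, (cB k U T S N : ℝ) := by
    exact (Finset.sum_le_sum_of_subset_of_nonneg hcov fun N _ _ => h0 N).trans (cbl_bU _ h0 _ _)
  refine hs1.trans ((Finset.sum_le_sum hb).trans ?_)
  rw [Finset.sum_const, card_range, nsmul_eq_mul]
  have h4 : ((H / H0 + 1 : ℕ) : ℝ) * H0 ≤ 2 * H := by
    have h5 : (H / H0 + 1) * H0 ≤ 2 * H := by
      have := Nat.div_mul_le_self H H0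
      rw [add_mul, one_mul]
      omega
    exact_mod_cast h5
  have e : ((H / H0 + 1 : ℕ) : ℝ) * (3 / 8 * ε * (H0 / W) * G) = 3 / 8 * ε * G * (((H / H0 + 1 : ℕ) : ℝ) * H0 / W) := by ring
  rw [e]
  have h6 : ((H / H0 + 1 : ℕ) : ℝ) * H0 / W ≤ 2 * H / W := div_le_div_of_nonneg_right h4 hWr.le
  have h7 : 3 / 8 * ε * G * (((H / H0 + 1 : ℕ) : ℝ) * H0 / W) ≤ 3 / 8 * ε * G * (2 * H / W) :=
    mul_le_mul_of_nonneg_left h6 (by positivity)
  have h8 : 3 / 8 * ε * G * (2 * H / W) ≤ ε * ((H : ℝ) / W) * G := by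
    have h9 : 0 ≤ ε * ((H : ℝ) / W) * G := by positivity
    have e2 : 3 / 8 * ε * G * (2 * H / W) = 3 / 4 * (ε * ((H : ℝ) / W) * G) := by ring
    rw [e2]
    linarith
  exact h7.trans h8

end Pool.Agent.Lib.WL
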