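import Pool.Agent.Lib.WL.Ty

/-!
# WL, row Co: long windows, and sets `S` which may have members in and beyond the window

PROOF IN WORDS. `tyW (K) Kk B` with `c10`, `c1`, `C'`; `C = C' + 2`. `H0 = ⌈w' L^C'⌉`: `H0 ≤ 2 w' L^C' ≤ H`, `H0 L^C' ≤ 2 w' L^(2C') ≤ X` (`2 w' ≤ U`, `U^2 ≤ U^(2M) ≤ X`, `M ≥ 2` w.l.o.g., so `w' ≤ X^(1/4)`). The window `(X, X+H]` is covered by the `(Z_j, Z_j + H0]`, `Z_j = X + j H0`, `j < J`, `J ≤ H/H0 + 1`, all with
`Z_j ≤ X + H ≤ 2X`. For `N` in the `j`-th one let `S_j = S ∩ [1, Z_j]`. `tyW` with `ε' = ε/8` for `X`, `Z_j`, `H0`, `S_j`: at most `ε' H0/W` exceptions, in total `ε' (H + H0)/W ≤ ε H/W`. For the other `N`: `cE S_j N ≤ cE S N ≤ cE S_j N + H0` (only `s ∈ (Z_j, N)` are missing), in the same way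
`|Sa S_j| ≤ |SN W S N| ≤ |Sa S_j| + H0` (for `s < N`, `N ≡ a`: `(N - s, W) = 1 ↔ IsCoprime (a - s) W`, `cop_cast` in SP3), `|Sa S_j| ≤ |Sa S|`; and `H0 ≤ ε' (X/L^K) (σ/L)`, `c H0 σ/L ≤ ε' c (X/L^K) σ/L` for large `X` (`H0 ≤ √X`, `σ ≥ L^(-B)`).
-/

set_option autoImplicit false

open Finset

namespace Pool.Agent.Lib.WL

open Pool.Agent.Lib.SW (WX cX Sa SN one_le_cX WX_pos mem_Sa cop_cast)
open Pool.Agent.Lib.G8 (RgL sL)

private theorem co_real {ε c τ m mj E Ej n Aj h : ℝ} (hε : 0 < ε) (hc : 1 ≤ c) (hτ : 0 ≤ τ) (hm : mj ≤ m)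
    (h1 : |Ej - c * Aj * τ| ≤ ε / 4 * (c * mj * τ)) (hE1 : Ej ≤ E) (hE2 : E ≤ Ej + h) (hn1 : Aj ≤ n) (hn2 : n ≤ Aj + h)
    (hh1 : h ≤ ε / 4 * (m * τ)) (hh2 : h ≤ ε / 4 * m) : |E - c * n * τ| ≤ ε * (c * m * τ) := by
  have hm0 : 0 ≤ m := by
    have h2 : 0 ≤ h := by linarith
    by_contra hneg
    have : ε / 4 * m < 0 := mul_neg_of_pos_of_neg (by linarith) (by linarith)
    linarith
  have hcτ : 0 ≤ c * τ := mul_nonneg (by linarith) hτ
  have e1 : c * mj * τ ≤ c * m * τ := by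
    have := mul_le_mul_of_nonneg_left hm hcτ
    nlinarith
  have e2 : h ≤ ε / 4 * (c * m * τ) := by
    have h3 : 0 ≤ ε / 4 * (m * τ) := mul_nonneg (by linarith) (mul_nonneg hm0 hτ)
    have h4 : ε / 4 * (m * τ) * 1 ≤ ε / 4 * (m * τ) * c := mul_le_mul_of_nonneg_left hc h3
    nlinarith
  have e3 : c * τ * h ≤ ε / 4 * (c * m * τ) := by
    have := mul_le_mul_of_nonneg_left hh2 hcτ
    nlinarith
  have e4 : c * τ * (n - Aj) ≤ c * τ * h := mul_le_mul_of_nonneg_left (by linarith) hcτ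
  have e5 : 0 ≤ c * τ * (n - Aj) := mul_nonneg hcτ (by linarith)
  have e6 : ε / 4 * (c * mj * τ) ≤ ε / 4 * (c * m * τ) := mul_le_mul_of_nonneg_left e1 (by linarith)
  have e7 : 0 ≤ c * m * τ := by
    have := mul_nonneg hcτ hm0
    nlinarith
  rw [abs_le] at h1 ⊢
  have e8 : c * n * τ = c * Aj * τ + c * τ * (n - Aj) := by ring
  rw [e8]
  have e9 : 0 ≤ ε * (c * m * τ) := mul_nonneg hε.le e7
  constructor <;> nlinarith [h1.1, h1.2]

theorem coW (K Kk B : ℕ) : ∃ c10 : ℕ, ∀ c1 : ℕ, c10 ≤ c1 → ∃ C : ℕ, ∀ ε : ℝ, 0 < ε → ∃ M X0 : ℕ, 2 ≤ M ∧ ∀ (X H a k U w' : ℕ) (T : Finset ℕ),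
    X0 ≤ X → 2 ≤ k → k ≤ Kk → (∀ q ∈ T, q.Prime ∧ (Real.log X) ^ (c1 + 3) ≤ q ∧ q ≤ w') → 2 * w' ≤ U → U ^ (2 * M) ≤ X →
      1 / (Real.log X) ^ B ≤ sL k U T → 1 ≤ w' → (w' : ℝ) * (Real.log X) ^ C ≤ H → H ≤ X →
        ∀ S : Finset ℕ, S ⊆ Icc 1 (2 * X) →
          (((wnd X H (WX X) a).filter fun N => ε * (cX X * max ((Sa (WX X) S a).card : ℝ) (X / (Real.log X) ^ K) * (sL k U T / Real.log X)) <
            |(cE k U T S N : ℝ) - cX X * (SN (WX X) S N).card * (sL k U T / Real.log X)|).card : ℝ) ≤ ε * (H / WX X) := by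
  classical
  obtain ⟨c10, h10⟩ := tyW K Kk B
  refine ⟨c10, fun c1 hc1 => ?_⟩
  obtain ⟨C', hC'⟩ := h10 c1 hc1
  refine ⟨C' + 2, fun ε hε => ?_⟩
  obtain ⟨M0, X1, hty⟩ := hC' (ε / 4) (by positivity)
  obtain ⟨D, hD⟩ : ∃ D : ℕ, D = 2 * C' + K + B + 1 := ⟨_, rfl⟩
  obtain ⟨δ, hδ⟩ : ∃ δ : ℝ, δ = min 1 (ε / 4) := ⟨_, rfl⟩
  have hδ0 : 0 < δ := by rw [hδ]; exact lt_min one_pos (by positivity)
  have hδ1 : δ ≤ 1 := by rw [hδ]; exact min_le_left _ _
  have hδε : δ ≤ ε / 4 := by rw [hδ]; exact min_le_right _ _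
  have hpl : ∀ᶠ x : ℝ in Filter.atTop, ‖Real.log x ^ (2 * D)‖ ≤ (δ ^ 2 / 4) * ‖x‖ :=
    (Real.isLittleO_pow_log_id_atTop (n := 2 * D)).def (by positivity)
  obtain ⟨x2, hx2⟩ := Filter.eventually_atTop.1 hpl
  refine ⟨max M0 2, max X1 (max ⌈x2⌉₊ 8), le_max_right _ _, ?_⟩
  intro X H a k U w' T hX hk2 hkK hT hU hUM hσ hw1 hwH hHX S hS
  have hX1 : X1 ≤ X := (le_max_left _ _).trans hX
  have hX2 : x2 ≤ X := (Nat.le_ceil x2).trans (by exact_mod_cast (le_max_left _ _).trans ((le_max_right _ _).trans hX))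
  have hX8 : 8 ≤ X := (le_max_right _ _).trans ((le_max_right _ _).trans hX)
  have hXr : (8 : ℝ) ≤ X := by exact_mod_cast hX8
  have hXpos : (0 : ℝ) < X := by linarith
  obtain ⟨L, hL⟩ : ∃ L : ℝ, L = Real.log X := ⟨_, rfl⟩
  have hL2 : 2 ≤ L := by
    rw [hL]
    have h1 : Real.log 8 ≤ Real.log X := Real.log_le_log (by norm_num) hXr
    have h2 : Real.log 8 = 3 * Real.log 2 := by
      rw [show (8 : ℝ) = 2 ^ 3 by norm_num, Real.log_pow]; norm_num
    have h3 := Real.log_two_gt_d9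
    linarith
  have hL1 : 1 ≤ L := by linarith
  have hL0 : 0 < L := by linarith
  have hlog := hx2 X hX2
  rw [Real.norm_of_nonneg (pow_nonneg (by rw [← hL]; exact hL0.le) _), Real.norm_of_nonneg hXpos.le, ← hL] at hlog
  have hty' := hty X
  rw [← hL] at hT hσ hwH ⊢
  simp only [← hL] at hty'
  -- the parameters
  have hU1 : 1 ≤ U := by omega
  have hUM0 : U ^ (2 * M0) ≤ X := (Nat.pow_le_pow_right hU1 (Nat.mul_le_mul_left 2 (le_max_left _ _))).trans hUM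
  have hU4 : U ^ 4 ≤ X := (Nat.pow_le_pow_right hU1 (by have := le_max_right M0 2; omega)).trans hUM
  have hw2 : w' ^ 2 ≤ X := by
    have h1 : w' ^ 2 ≤ U ^ 2 := Nat.pow_le_pow_left (by omega) 2
    have h2 : U ^ 2 ≤ U ^ 4 := Nat.pow_le_pow_right hU1 (by norm_num)
    omega
  have hwr : (1 : ℝ) ≤ w' := by exact_mod_cast hw1
  have hw2r : (w' : ℝ) ^ 2 ≤ X := by exact_mod_cast hw2
  have hkey : 2 * (w' : ℝ) * L ^ D ≤ δ * X := by
    refine le_of_sq_le_sq ?_ (by positivity)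
    have e1 : (2 * (w' : ℝ) * L ^ D) ^ 2 = 4 * (w' : ℝ) ^ 2 * L ^ (2 * D) := by
      rw [mul_comm 2 D, pow_mul]
      ring
    rw [e1]
    calc 4 * (w' : ℝ) ^ 2 * L ^ (2 * D) ≤ 4 * X * (δ ^ 2 / 4 * X) :=
          mul_le_mul (by linarith) hlog (by positivity) (by positivity)
      _ = (δ * X) ^ 2 := by ring
  obtain ⟨H0, hH0⟩ : ∃ H0 : ℕ, H0 = ⌈(w' : ℝ) * L ^ C'⌉₊ := ⟨_, rfl⟩
  have hLC : 1 ≤ L ^ C' := one_le_pow₀ hL1
  have hwL : 1 ≤ (w' : ℝ) * L ^ C' := by nlinarith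
  have hH0a : (w' : ℝ) * L ^ C' ≤ H0 := by rw [hH0]; exact Nat.le_ceil _
  have hH0b : (H0 : ℝ) ≤ 2 * w' * L ^ C' := by
    have h1 : (H0 : ℝ) < w' * L ^ C' + 1 := by rw [hH0]; exact Nat.ceil_lt_add_one (by linarith)
    linarith
  have hH0pos : 0 < H0 := by
    have : (0 : ℝ) < H0 := by linarith
    exact_mod_cast this
  have hH0r : (0 : ℝ) < H0 := by exact_mod_cast hH0pos
  have hH0H : H0 ≤ H := by
    have h1 : (H0 : ℝ) ≤ H := by
      refine hH0b.trans (le_trans ?_ hwH)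
      rw [pow_add]
      have h2 : 2 ≤ L ^ 2 := by nlinarith
      have h3 : (w' : ℝ) * L ^ C' * 2 ≤ w' * L ^ C' * L ^ 2 := mul_le_mul_of_nonneg_left h2 (by positivity)
      linarith
    exact_mod_cast h1
  have hH0X : (H0 : ℝ) * L ^ C' ≤ X := by
    have h1 : (H0 : ℝ) * L ^ C' ≤ 2 * w' * L ^ C' * L ^ C' := mul_le_mul_of_nonneg_right hH0b (by positivity)
    have h2 : L ^ C' * L ^ C' ≤ L ^ D := by
      rw [← pow_add]
      exact pow_le_pow_right₀ hL1 (by omega)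
    have h3 : 2 * (w' : ℝ) * (L ^ C' * L ^ C') ≤ 2 * w' * L ^ D := mul_le_mul_of_nonneg_left h2 (by positivity)
    have h4 : δ * X ≤ 1 * X := mul_le_mul_of_nonneg_right hδ1 hXpos.le
    nlinarith
  have hH0R : (H0 : ℝ) * L ^ (B + 1) ≤ ε / 4 * (X / L ^ K) := by
    rw [mul_div_assoc', le_div_iff₀ (by positivity)]
    have h1 : (H0 : ℝ) * (L ^ (B + 1) * L ^ K) ≤ 2 * w' * L ^ C' * (L ^ (B + 1) * L ^ K) :=
      mul_le_mul_of_nonneg_right hH0b (by positivity)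
    have h2 : L ^ C' * (L ^ (B + 1) * L ^ K) ≤ L ^ D := by
      rw [← pow_add, ← pow_add]
      exact pow_le_pow_right₀ hL1 (by omega)
    have h3 : 2 * (w' : ℝ) * (L ^ C' * (L ^ (B + 1) * L ^ K)) ≤ 2 * w' * L ^ D := mul_le_mul_of_nonneg_left h2 (by positivity)
    have h4 : δ * X ≤ ε / 4 * X := mul_le_mul_of_nonneg_right hδε hXpos.le
    nlinarith
  have hR0 : (0 : ℝ) < X / L ^ K := by positivity
  have hσ0 : 0 < sL k U T := lt_of_lt_of_le (by positivity) hσ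
  obtain ⟨τ, hτ⟩ : ∃ τ : ℝ, τ = sL k U T / L := ⟨_, rfl⟩
  have hτ0 : 0 ≤ τ := by rw [hτ]; positivity
  have hτ1 : 1 / L ^ (B + 1) ≤ τ := by
    rw [hτ, pow_succ, ← div_div]
    exact div_le_div_of_nonneg_right hσ hL0.le
  have hc1' := one_le_cX X
  have hWpos := WX_pos X
  have hWr : (0 : ℝ) < WX X := by exact_mod_cast hWpos
  rw [← hτ]
  set W : ℕ := WX X with hW
  -- the covering
  have hsub : ((wnd X H W a).filter fun N => ε * (cX X * max ((Sa W S a).card : ℝ) (X / L ^ K) * τ) <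
      |(cE k U T S N : ℝ) - cX X * (SN W S N).card * τ|) ⊆
      (range (H / H0 + 1)).biUnion fun j => (wnd (X + j * H0) H0 W a).filter fun N =>
        ε / 4 * (cX X * max ((Sa W (S.filter fun s => s ≤ X + j * H0) a).card : ℝ) (X / L ^ K) * τ) <
          |(cE k U T (S.filter fun s => s ≤ X + j * H0) N : ℝ) - cX X * (Sa W (S.filter fun s => s ≤ X + j * H0) a).card * τ| := by
    intro N hN
    rw [mem_filter] at hN
    obtain ⟨hNw, hNb⟩ := hN
    unfold wnd at hNw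
    rw [mem_filter, mem_Ioc] at hNw
    obtain ⟨⟨hN1, hN2⟩, hNa⟩ := hNw
    rw [mem_biUnion]
    obtain ⟨j, hj⟩ : ∃ j : ℕ, j = (N - X - 1) / H0 := ⟨_, rfl⟩
    have hj1 : j * H0 ≤ N - X - 1 := by rw [hj]; exact Nat.div_mul_le_self _ _
    have hj2 : N - X - 1 < j * H0 + H0 := by
      have := Nat.lt_div_mul_add (a := N - X - 1) hH0pos
      rw [← hj] at this
      exact this
    have hjH : j ≤ H / H0 := by
      rw [hj]
      exact Nat.div_le_div_right (by omega)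
    obtain ⟨Z, hZ⟩ : ∃ Z : ℕ, Z = X + j * H0 := ⟨_, rfl⟩
    have hZ1 : Z < N := by omega
    have hZ2 : N ≤ Z + H0 := by omega
    refine ⟨j, mem_range.2 (by omega), ?_⟩
    rw [mem_filter, ← hZ]
    refine ⟨?_, ?_⟩
    · unfold wnd
      rw [mem_filter, mem_Ioc]
      exact ⟨⟨hZ1, hZ2⟩, hNa⟩
    · by_contra hcon
      push Not at hcon
      refine absurd hNb (not_lt.2 ?_)
      obtain ⟨Sj, hSj⟩ : ∃ Sj : Finset ℕ, Sj = S.filter fun s => s ≤ Z := ⟨_, rfl⟩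
      rw [← hSj] at hcon
      have hmem : ∀ s, s ∈ Sj ↔ s ∈ S ∧ s ≤ Z := fun s => by rw [hSj, mem_filter]
      have hcard : (Ioc Z (Z + H0)).card = H0 := by rw [Nat.card_Ioc]; omega
      have hE1 : cE k U T Sj N ≤ cE k U T S N := by
        unfold cE
        refine card_le_card fun s hs => ?_
        rw [mem_filter] at hs ⊢
        exact ⟨((hmem s).1 hs.1).1, hs.2⟩
      have hE2 : cE k U T S N ≤ cE k U T Sj N + H0 := by
        unfold cE
        have h1 : (S.filter fun s => s < N ∧ Pool.Agent.Lib.G8.EL k U T (N - s)) ⊆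
            (Sj.filter fun s => s < N ∧ Pool.Agent.Lib.G8.EL k U T (N - s)) ∪ Ioc Z (Z + H0) := by
          intro s hs
          rw [mem_filter] at hs
          rw [mem_union, mem_filter, mem_Ioc, hmem]
          by_cases hsZ : s ≤ Z
          · exact Or.inl ⟨⟨hs.1, hsZ⟩, hs.2⟩
          · right
            have := hs.2.1
            omega
        have h2 := (card_le_card h1).trans (card_union_le _ _)
        rwa [hcard] at h2
      have hn1 : (Sa W Sj a).card ≤ (SN W S N).card := by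
        refine card_le_card fun s hs => ?_
        rw [mem_Sa, hmem] at hs
        unfold SN
        rw [mem_filter]
        have hsN : s < N := by omega
        exact ⟨hs.1.1, hsN, (cop_cast hNa hsN).2 hs.2⟩
      have hn2 : (SN W S N).card ≤ (Sa W Sj a).card + H0 := by
        have h1 : SN W S N ⊆ Sa W Sj a ∪ Ioc Z (Z + H0) := by
          intro s hs
          unfold SN at hs
          rw [mem_filter] at hs
          rw [mem_union, mem_Sa, mem_Ioc, hmem]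
          by_cases hsZ : s ≤ Z
          · exact Or.inl ⟨⟨hs.1, hsZ⟩, (cop_cast hNa hs.2.1).1 hs.2.2⟩
          · right
            have := hs.2.1
            omega
        have h2 := (card_le_card h1).trans (card_union_le _ _)
        rwa [hcard] at h2
      have hA : (Sa W Sj a).card ≤ (Sa W S a).card := by
        refine card_le_card fun s hs => ?_
        rw [mem_Sa, hmem] at hs
        rw [mem_Sa]
        exact ⟨hs.1.1, hs.2⟩
      have hm1 : (X : ℝ) / L ^ K ≤ max ((Sa W S a).card : ℝ) (X / L ^ K) := le_max_right _ _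
      refine co_real (h := (H0 : ℝ)) hε hc1' hτ0 (max_le_max (by exact_mod_cast hA) le_rfl) hcon (by exact_mod_cast hE1)
        (by exact_mod_cast hE2) (by exact_mod_cast hn1) (by exact_mod_cast hn2) ?_ ?_
      · -- `H0 ≤ ε/4 m τ`
        have h1 : (H0 : ℝ) ≤ ε / 4 * (X / L ^ K) * (1 / L ^ (B + 1)) := by
          rw [mul_one_div, le_div_iff₀ (by positivity)]
          exact hH0R
        have h2 : ε / 4 * (X / L ^ K) * (1 / L ^ (B + 1)) ≤ ε / 4 * (X / L ^ K) * τ :=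
          mul_le_mul_of_nonneg_left hτ1 (by positivity)
        have h3 : (X : ℝ) / L ^ K * τ ≤ max ((Sa W S a).card : ℝ) (X / L ^ K) * τ := mul_le_mul_of_nonneg_right hm1 hτ0
        have h4 : ε / 4 * (X / L ^ K * τ) ≤ ε / 4 * (max ((Sa W S a).card : ℝ) (X / L ^ K) * τ) :=
          mul_le_mul_of_nonneg_left h3 (by positivity)
        rw [mul_assoc (ε / 4)] at h2
        linarith
      · have h1 : (1 : ℝ) ≤ L ^ (B + 1) := one_le_pow₀ hL1
        have h2 : (H0 : ℝ) * 1 ≤ H0 * L ^ (B + 1) := mul_le_mul_of_nonneg_left h1 hH0r.le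
        have h3 : ε / 4 * (X / L ^ K) ≤ ε / 4 * max ((Sa W S a).card : ℝ) (X / L ^ K) :=
          mul_le_mul_of_nonneg_left hm1 (by positivity)
        linarith
  -- the sum
  have hb : ∀ j ∈ range (H / H0 + 1), ((((wnd (X + j * H0) H0 W a).filter fun N =>
        ε / 4 * (cX X * max ((Sa W (S.filter fun s => s ≤ X + j * H0) a).card : ℝ) (X / L ^ K) * τ) <
          |(cE k U T (S.filter fun s => s ≤ X + j * H0) N : ℝ) - cX X * (Sa W (S.filter fun s => s ≤ X + j * H0) a).card * τ|).card : ℕ) : ℝ) ≤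
      ε / 4 * (H0 / W) := by
    intro j hj
    rw [mem_range] at hj
    have hjH : j * H0 ≤ H := (Nat.mul_le_mul_right H0 (by omega : j ≤ H / H0)).trans (Nat.div_mul_le_self _ _)
    have h1 := hty' (X + j * H0) H0 a k U w' T hX1 (by omega) hk2 hkK hT hU hUM0 hσ hw1 hH0a hH0X
      (S.filter fun s => s ≤ X + j * H0) (by
        intro s hs
        rw [mem_filter] at hs
        have := mem_Icc.1 (hS hs.1)
        rw [mem_Icc]
        omega)
    rw [← hτ] at h1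
    exact h1
  have h1 := card_le_card hsub
  have h2 := h1.trans card_biUnion_le
  have h3 : ((((wnd X H W a).filter fun N => ε * (cX X * max ((Sa W S a).card : ℝ) (X / L ^ K) * τ) <
      |(cE k U T S N : ℝ) - cX X * (SN W S N).card * τ|).card : ℕ) : ℝ) ≤
      ∑ j ∈ range (H / H0 + 1), ((((wnd (X + j * H0) H0 W a).filter fun N =>
        ε / 4 * (cX X * max ((Sa W (S.filter fun s => s ≤ X + j * H0) a).card : ℝ) (X / L ^ K) * τ) <
          |(cE k U T (S.filter fun s => s ≤ X + j * H0) N : ℝ) - cX X * (Sa W (S.filter fun s => s ≤ X + j * H0) a).card * τ|).card : ℕ) : ℝ) := by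
    exact_mod_cast h2
  refine h3.trans ((Finset.sum_le_sum hb).trans ?_)
  rw [Finset.sum_const, card_range, nsmul_eq_mul]
  have h4 : ((H / H0 + 1 : ℕ) : ℝ) * H0 ≤ 2 * H := by
    have h5 : (H / H0 + 1) * H0 ≤ 2 * H := by
      have := Nat.div_mul_le_self H H0
      rw [add_mul, one_mul]
      omega
    exact_mod_cast h5
  have e : ((H / H0 + 1 : ℕ) : ℝ) * (ε / 4 * (H0 / W)) = ε / 4 * (((H / H0 + 1 : ℕ) : ℝ) * H0 / W) := by ring
  rw [e]
  have h6 : ((H / H0 + 1 : ℕ) : ℝ) * H0 / W ≤ 2 * H / W := div_le_div_of_nonneg_right h4 hWr.le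
  have h7 : ε / 4 * (((H / H0 + 1 : ℕ) : ℝ) * H0 / W) ≤ ε / 4 * (2 * H / W) := mul_le_mul_of_nonneg_left h6 (by positivity)
  have h8 : ε / 4 * (2 * H / W) ≤ ε * ((H : ℝ) / W) := by
    have h9 : 0 ≤ (H : ℝ) / W := by positivity
    have e2 : ε / 4 * (2 * H / W) = ε / 2 * ((H : ℝ) / W) := by ring
    rw [e2]
    nlinarith
  exact h7.trans h8

end Pool.Agent.Lib.WL
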