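import Pool.Agent.Lib.WL.NDef

/-!
# WL, row DC: the change of variables for one cofactor `d` and one class `r` modulo `d` (elementary)

PROOF IN WORDS. Let `N ≡ r` modulo `d`, `N' = N/d`, `N = r + d N'`: `N ∈ (X, X+H]` iff `N' ∈ ((X-r)/d, (X+H-r)/d]` (floors; `r < d ≤ X`). For `s < N`: `d ∣ N - s` iff `s ≡ r`; then `s = r + d s'`, `(N - s)/d = N' - s'`, `s < N` iff `s' < N'`, and `s ↦ s' = s/d` is injective on these `s`. So `cD d k T S N` is `cT k T (Sq d r S) N'` plus the contribution (0 or 1)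
of `s' = 0`, i.e. `s = r`; in the same way `sg w d S N` and `|SN (primorial w) (Sq d r S) N'|`. So the two absolute values differ by at most `1 + g`.
-/

set_option autoImplicit false

open Finset

namespace Pool.Agent.Lib.WL

open Pool.Agent.Lib.SW (SN)
open Pool.Agent.Lib.MP_5d7b92_nt.UA (sg)

private theorem dc_mod {d r N s : ℕ} (hr : r < d) (hN : N % d = r) (hs : s < N) (hd : d ∣ N - s) :
    s % d = r := by
  obtain ⟨c, hc⟩ := hd
  have h1 : N = s + d * c := by omega
  rw [h1, Nat.add_mul_mod_self_left] at hN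
  exact hN

private theorem dc_eq {d r N : ℕ} (hN : N % d = r) : N = r + d * (N / d) := by
  have := Nat.mod_add_div N d
  rw [hN] at this
  exact this.symm

private theorem dc_sub {d r N s : ℕ} (hr : r < d) (hN : N % d = r) (hs : s % d = r) :
    N - s = d * (N / d - s / d) := by
  have h1 := dc_eq hN
  have h2 := dc_eq hs
  rw [Nat.mul_sub]
  omega

private theorem dc_div {d r N s : ℕ} (hr : r < d) (hN : N % d = r) (hs : s % d = r) :
    (N - s) / d = N / d - s / d := by
  rw [dc_sub hr hN hs]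
  exact Nat.mul_div_cancel_left _ (by omega)

private theorem dc_lt {d r N s : ℕ} (hr : r < d) (hN : N % d = r) (hs : s % d = r) :
    s < N ↔ s / d < N / d := by
  have h1 := dc_eq hN
  have h2 := dc_eq hs
  have hd : 0 < d := by omega
  constructor
  · intro h
    have : d * (s / d) < d * (N / d) := by omega
    exact Nat.lt_of_mul_lt_mul_left this
  · intro h
    have : d * (s / d) < d * (N / d) := Nat.mul_lt_mul_of_pos_left h hd
    omega

private theorem dc_cnt (d r N : ℕ) (S : Finset ℕ) (hr : r < d) (hN : N % d = r) (P : ℕ → Prop)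
    [DecidablePred P] :
    ((Sq d r S).filter fun s => s < N / d ∧ P (N / d - s)).card ≤
        (S.filter fun s => s < N ∧ d ∣ N - s ∧ P ((N - s) / d)).card ∧
      (S.filter fun s => s < N ∧ d ∣ N - s ∧ P ((N - s) / d)).card ≤
        ((Sq d r S).filter fun s => s < N / d ∧ P (N / d - s)).card + 1 := by
  constructor
  · refine le_trans (card_le_card (t := (S.filter fun s => s < N ∧ d ∣ N - s ∧ P ((N - s) / d)).image
      fun s => s / d) ?_) card_image_le
    intro x hx
    simp only [Sq, mem_filter, mem_image] at hx ⊢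
    obtain ⟨⟨⟨s, ⟨hs, hsr⟩, rfl⟩, _⟩, hlt, hP⟩ := hx
    refine ⟨s, ⟨hs, (dc_lt hr hN hsr).2 hlt, ?_, ?_⟩, rfl⟩
    · rw [dc_sub hr hN hsr]
      exact dvd_mul_right _ _
    · rw [dc_div hr hN hsr]
      exact hP
  · have hinj : Set.InjOn (fun s => s / d)
        (S.filter fun s => s < N ∧ d ∣ N - s ∧ P ((N - s) / d) : Finset ℕ) := by
      intro a ha b hb hab
      rw [mem_coe, mem_filter] at ha hb
      have h1 := dc_mod hr hN ha.2.1 ha.2.2.1
      have h2 := dc_mod hr hN hb.2.1 hb.2.2.1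
      have h3 := dc_eq h1
      have h4 := dc_eq h2
      simp only at hab
      rw [hab] at h3
      rw [h3, ← h4]
    rw [← card_image_of_injOn hinj]
    refine le_trans (card_le_card (t := insert 0 ((Sq d r S).filter fun s => s < N / d ∧ P (N / d - s)))
      ?_) (card_insert_le _ _)
    intro x hx
    simp only [mem_image, mem_filter] at hx
    obtain ⟨s, ⟨hs, hlt, hdv, hP⟩, rfl⟩ := hx
    have h1 := dc_mod hr hN hlt hdv
    rw [mem_insert]
    by_cases h0 : s / d = 0
    · exact Or.inl h0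
    · right
      simp only [Sq, mem_filter, mem_image]
      refine ⟨⟨⟨s, ⟨hs, h1⟩, rfl⟩, Nat.one_le_iff_ne_zero.2 h0⟩, (dc_lt hr hN h1).1 hlt, ?_⟩
      rw [← dc_div hr hN h1]
      exact hP

private theorem dc_point (d r k w N : ℕ) (T S : Finset ℕ) (g : ℝ) (hg : 0 ≤ g) (hr : r < d)
    (hN : N % d = r) :
    |(cD d k T S N : ℝ) - g * sg w d S N| ≤
      |(cT k T (Sq d r S) (N / d) : ℝ) - g * (SN (primorial w) (Sq d r S) (N / d)).card| + (1 + g) := by
  have h1 := dc_cnt d r N S hr hN (fun n => n.primeFactorsList.length = k ∧ n.minFac ∈ T)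
  have h2 := dc_cnt d r N S hr hN (fun n => Nat.Coprime n (primorial w))
  change cT k T (Sq d r S) (N / d) ≤ cD d k T S N ∧ cD d k T S N ≤ cT k T (Sq d r S) (N / d) + 1 at h1
  change (SN (primorial w) (Sq d r S) (N / d)).card ≤ sg w d S N ∧
    sg w d S N ≤ (SN (primorial w) (Sq d r S) (N / d)).card + 1 at h2
  have a1 : (cT k T (Sq d r S) (N / d) : ℝ) ≤ cD d k T S N := by exact_mod_cast h1.1
  have a2 : (cD d k T S N : ℝ) ≤ cT k T (Sq d r S) (N / d) + 1 := by exact_mod_cast h1.2
  have b1 : ((SN (primorial w) (Sq d r S) (N / d)).card : ℝ) ≤ sg w d S N := by exact_mod_cast h2.1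
  have b2 : (sg w d S N : ℝ) ≤ (SN (primorial w) (Sq d r S) (N / d)).card + 1 := by
    exact_mod_cast h2.2
  have c1 := mul_le_mul_of_nonneg_left b1 hg
  have c2 := mul_le_mul_of_nonneg_left b2 hg
  rw [mul_add, mul_one] at c2
  have e1 := le_abs_self ((cT k T (Sq d r S) (N / d) : ℝ) - g * (SN (primorial w) (Sq d r S) (N / d)).card)
  have e2 := neg_abs_le ((cT k T (Sq d r S) (N / d) : ℝ) - g * (SN (primorial w) (Sq d r S) (N / d)).card)
  rw [abs_le]
  constructor <;> linarith

theorem dcL (d r k w X H : ℕ) (T S : Finset ℕ) (g : ℝ) (hg : 0 ≤ g) (hr : r < d) (hd : d ≤ X) :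
    ∑ N ∈ (Ioc X (X + H)).filter (fun N => N % d = r), |(cD d k T S N : ℝ) - g * sg w d S N| ≤
      ∑ N ∈ Ioc ((X - r) / d) ((X + H - r) / d), |(cT k T (Sq d r S) N : ℝ) - g * (SN (primorial w) (Sq d r S) N).card| +
        (1 + g) * (((X + H - r) / d - (X - r) / d : ℕ) : ℝ) := by
  have hd0 : 0 < d := by omega
  set F := (Ioc X (X + H)).filter (fun N => N % d = r) with hF
  set J := Ioc ((X - r) / d) ((X + H - r) / d) with hJ
  set B : ℕ → ℝ := fun n => |(cT k T (Sq d r S) n : ℝ) - g * (SN (primorial w) (Sq d r S) n).card| with hB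
  have hinj : Set.InjOn (fun N => N / d) (F : Set ℕ) := by
    intro a ha b hb hab
    rw [mem_coe, hF, mem_filter] at ha hb
    have h3 := dc_eq ha.2
    have h4 := dc_eq hb.2
    simp only at hab
    rw [hab] at h3
    rw [h3, ← h4]
  have hsub : F.image (fun N => N / d) ⊆ J := by
    intro x hx
    rw [mem_image] at hx
    obtain ⟨N, hN, rfl⟩ := hx
    rw [hF, mem_filter, mem_Ioc] at hN
    obtain ⟨⟨hN1, hN2⟩, hN3⟩ := hN
    have h3 := dc_eq hN3
    rw [hJ, mem_Ioc, Nat.div_lt_iff_lt_mul hd0, Nat.le_div_iff_mul_le hd0, mul_comm (N / d) d]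
    omega
  calc ∑ N ∈ F, |(cD d k T S N : ℝ) - g * sg w d S N|
      ≤ ∑ N ∈ F, (B (N / d) + (1 + g)) := by
        refine sum_le_sum fun N hN => ?_
        rw [hF, mem_filter] at hN
        exact dc_point d r k w N T S g hg hr hN.2
    _ = ∑ n ∈ F.image (fun N => N / d), (B n + (1 + g)) := by
        rw [sum_image hinj]
    _ ≤ ∑ n ∈ J, (B n + (1 + g)) :=
        sum_le_sum_of_subset_of_nonneg hsub fun n _ _ => add_nonneg (abs_nonneg _) (by linarith)
    _ = ∑ n ∈ J, B n + (1 + g) * (((X + H - r) / d - (X - r) / d : ℕ) : ℝ) := by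
        rw [sum_add_distrib, sum_const, hJ, Nat.card_Ioc, nsmul_eq_mul, mul_comm (1 + g)]

end Pool.Agent.Lib.WL
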