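import Pool.Agent.Lib.WL.NDef

/-!
# WL, row DT: `X` and `X'` between `X/(2 log X)` and `X` (elementary)

PROOF IN WORDS. `log X' ≥ log X - log (2 log X) ≥ (1 - ε') log X` for large `X`. `dtL`: for `q ∈ T`, `λ = log (log X/log q) ≥ log 4 ≥ 1` (`q ≤ X^(1/4)`, `q ≥ 2`), `λ' = log (log X'/log q) = λ - log (log X/log X')` is in `[λ - 2 ε', λ]`, so `λ'^(k-2)` is in `[(1 - 2ε')^(k-2) λ^(k-2), λ^(k-2)]`; and `1/log X' ` is in `[1/log X, (1 + 2ε')/log X]`. Termwise, then sum.
`wpL`: `log log X - log log X' = log (log X/log X') < 1` for large `X`, and `wX X = ⌊log log X⌋`.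
-/

set_option autoImplicit false

open Finset

namespace Pool.Agent.Lib.WL

open Pool.Agent.Lib.SW (wX)
open Pool.Agent.Lib.T8 (dT)

open Filter in
private theorem dt_large (η : ℝ) (h0 : 0 < η) (h1 : η ≤ 1) : ∃ X0 : ℕ, ∀ X X' : ℕ, X0 ≤ X →
    (X : ℝ) / (2 * Real.log X) ≤ X' → X' ≤ X →
      4 ≤ Real.log X ∧ 1 ≤ Real.log X' ∧ Real.log X' ≤ Real.log X ∧ Real.log X ≤ (1 + η) * Real.log X' := by
  have h2 : ∀ᶠ a : ℝ in atTop, Real.log (2 * a) ≤ η / 2 * a := by
    have h := Real.isLittleO_log_id_atTop.def (show 0 < η / 4 by positivity)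
    have h' := (tendsto_id.const_mul_atTop (show (0 : ℝ) < 2 by norm_num)).eventually h
    filter_upwards [h', eventually_ge_atTop (0 : ℝ)] with a ha ha0
    rw [Real.norm_eq_abs, Real.norm_eq_abs] at ha
    have h3 := (le_abs_self (Real.log (2 * id a))).trans ha
    simp only [id] at h3
    rw [abs_of_nonneg (by positivity : (0 : ℝ) ≤ 2 * a)] at h3
    linarith
  have h3 := (Real.tendsto_log_atTop.comp tendsto_natCast_atTop_atTop).eventually (h2.and (eventually_ge_atTop (4 : ℝ)))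
  obtain ⟨X0, hX0⟩ := eventually_atTop.1 h3
  refine ⟨X0, fun X X' hX hX1 hX2 => ?_⟩
  obtain ⟨ha, hb⟩ := hX0 X hX
  simp only [Function.comp] at ha hb
  set a : ℝ := Real.log X with haa
  have ha0 : 0 < a := by linarith
  have hXpos : (0 : ℝ) < X := by
    rcases Nat.eq_zero_or_pos X with h | h
    · rw [haa, h] at ha0
      simp at ha0
    · exact_mod_cast h
  have h2a : (0 : ℝ) < 2 * a := by linarith
  have hq : (0 : ℝ) < (X : ℝ) / (2 * a) := div_pos hXpos h2a
  have hX'pos : (0 : ℝ) < X' := hq.trans_le hX1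
  have e1 : a - Real.log (2 * a) ≤ Real.log X' := by
    rw [haa, ← Real.log_div hXpos.ne' (by rw [← haa]; exact h2a.ne'), ← haa]
    exact Real.log_le_log hq hX1
  have e2 : Real.log X' ≤ a := by
    rw [haa]
    exact Real.log_le_log hX'pos (by exact_mod_cast hX2)
  have e3 : (1 - η / 2) * a ≤ Real.log X' := by
    have : (1 - η / 2) * a = a - η / 2 * a := by ring
    rw [this]
    linarith
  refine ⟨hb, ?_, e2, ?_⟩
  · nlinarith
  · have h5 : a ≤ (1 + η) * ((1 - η / 2) * a) := by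
      have : (1 + η) * ((1 - η / 2) * a) - a = a * (η / 2 * (1 - η)) := by ring
      have h6 : 0 ≤ a * (η / 2 * (1 - η)) :=
        mul_nonneg ha0.le (mul_nonneg (by linarith) (by linarith))
      linarith
    exact h5.trans (mul_le_mul_of_nonneg_left e3 (by linarith))

private theorem dt_term (m : ℕ) (η a a' s : ℝ) (h0 : 0 < η) (h1 : η ≤ 1) (hs : 0 < s) (hsa : 4 * s ≤ a)
    (ha' : 1 ≤ a') (haa : a' ≤ a) (hr : a ≤ (1 + η) * a') :
    |Real.log (a' / s) ^ m / a' - Real.log (a / s) ^ m / a| ≤ ((m : ℝ) + 1) * η * (Real.log (a / s) ^ m / a) := by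
  have ha'0 : 0 < a' := by linarith
  have ha0 : 0 < a := by linarith
  set lam := Real.log (a / s) with hlam
  have hlam1 : 1 ≤ lam := by
    rw [hlam, Real.le_log_iff_exp_le (div_pos ha0 hs)]
    have h4 : (4 : ℝ) ≤ a / s := by
      rw [le_div_iff₀ hs]
      exact hsa
    have he := Real.exp_one_lt_d9
    linarith
  have hle : Real.log (a' / s) ≤ lam :=
    Real.log_le_log (div_pos ha'0 hs) (div_le_div_of_nonneg_right haa hs.le)
  have hge : (1 - η) * lam ≤ Real.log (a' / s) := by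
    have e1 : lam = Real.log (a' / s) + Real.log (a / a') := by
      rw [hlam, ← Real.log_mul (div_pos ha'0 hs).ne' (div_pos ha0 ha'0).ne']
      congr 1
      field_simp
    have e2 : Real.log (a / a') ≤ η := by
      have h5 : a / a' ≤ 1 + η := by
        rw [div_le_iff₀ ha'0]
        exact hr
      have h6 := Real.log_le_sub_one_of_pos (div_pos ha0 ha'0)
      linarith
    nlinarith
  have hl0 : 0 ≤ lam := by linarith
  have hl'0 : 0 ≤ Real.log (a' / s) := (mul_nonneg (by linarith) hl0).trans hge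
  have hL : 0 ≤ lam ^ m / a := div_nonneg (pow_nonneg hl0 m) ha0.le
  -- upper bound
  have hup : Real.log (a' / s) ^ m / a' ≤ (1 + η) * (lam ^ m / a) := by
    have h5 : Real.log (a' / s) ^ m ≤ lam ^ m := pow_le_pow_left₀ hl'0 hle m
    have h6 : (1 : ℝ) / a' ≤ (1 + η) / a := by
      rw [div_le_div_iff₀ ha'0 ha0]
      linarith
    calc Real.log (a' / s) ^ m / a' = Real.log (a' / s) ^ m * (1 / a') := by ring
      _ ≤ lam ^ m * ((1 + η) / a) := mul_le_mul h5 h6 (by positivity) (pow_nonneg hl0 m)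
      _ = _ := by ring
  have hlo : (1 - m * η) * (lam ^ m / a) ≤ Real.log (a' / s) ^ m / a' := by
    have h5 : ((1 - η) * lam) ^ m ≤ Real.log (a' / s) ^ m :=
      pow_le_pow_left₀ (mul_nonneg (by linarith) hl0) hge m
    have h6 : 1 - m * η ≤ (1 - η) ^ m := by
      have h7 := one_add_mul_le_pow (show (-2 : ℝ) ≤ -η by linarith) m
      calc 1 - (m : ℝ) * η = 1 + m * (-η) := by ring
        _ ≤ (1 + -η) ^ m := h7
        _ = _ := by rw [← sub_eq_add_neg]
    calc (1 - m * η) * (lam ^ m / a) ≤ (1 - η) ^ m * (lam ^ m / a) := mul_le_mul_of_nonneg_right h6 hL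
      _ = ((1 - η) * lam) ^ m / a := by rw [mul_pow]; ring
      _ ≤ Real.log (a' / s) ^ m / a := div_le_div_of_nonneg_right h5 ha0.le
      _ ≤ Real.log (a' / s) ^ m / a' := div_le_div_of_nonneg_left (pow_nonneg hl'0 m) ha'0 haa
  have hm : (0 : ℝ) ≤ m := Nat.cast_nonneg m
  have hη : 0 ≤ η * (lam ^ m / a) := mul_nonneg h0.le hL
  have hmη : 0 ≤ m * (η * (lam ^ m / a)) := mul_nonneg hm hη
  rw [abs_le]
  constructor
  · have : ((m : ℝ) + 1) * η * (lam ^ m / a) = m * (η * (lam ^ m / a)) + η * (lam ^ m / a) := by ring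
    have h8 : (1 - m * η) * (lam ^ m / a) = lam ^ m / a - m * (η * (lam ^ m / a)) := by ring
    rw [this]
    rw [h8] at hlo
    linarith
  · have : ((m : ℝ) + 1) * η * (lam ^ m / a) = m * (η * (lam ^ m / a)) + η * (lam ^ m / a) := by ring
    have h8 : (1 + η) * (lam ^ m / a) = lam ^ m / a + η * (lam ^ m / a) := by ring
    rw [this]
    rw [h8] at hup
    linarith

theorem dtL (k : ℕ) (ε : ℝ) (hε : 0 < ε) : ∃ X0 : ℕ, ∀ (X X' : ℕ) (T : Finset ℕ), X0 ≤ X → (X : ℝ) / (2 * Real.log X) ≤ X' → X' ≤ X →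
    (∀ q ∈ T, q.Prime ∧ (q : ℝ) ≤ (X : ℝ) ^ (1 / 4 : ℝ)) →
      |dT k T X' / Real.log X' - dT k T X / Real.log X| ≤ ε * (dT k T X / Real.log X) := by
  obtain ⟨m, hm⟩ : ∃ m, m = k - 2 := ⟨_, rfl⟩
  have hm0 : (0 : ℝ) < (m : ℝ) + 1 := by positivity
  set η : ℝ := min 1 (ε / ((m : ℝ) + 1)) with hη
  have hη0 : 0 < η := lt_min one_pos (div_pos hε hm0)
  have hη1 : η ≤ 1 := min_le_left _ _
  have hη2 : ((m : ℝ) + 1) * η ≤ ε := by
    have h := min_le_right (1 : ℝ) (ε / ((m : ℝ) + 1))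
    rw [← hη, le_div_iff₀ hm0] at h
    linarith
  obtain ⟨X0, hX0⟩ := dt_large η hη0 hη1
  refine ⟨X0, fun X X' T hX hX1 hX2 hT => ?_⟩
  obtain ⟨ha, ha1, haa, hr⟩ := hX0 X X' hX hX1 hX2
  have hXpos : (0 : ℝ) < X := by
    rcases Nat.eq_zero_or_pos X with h | h
    · rw [h] at ha
      simp at ha
      linarith
    · exact_mod_cast h
  have hterm : ∀ q ∈ T, |1 / (q : ℝ) * (Real.log (Real.log X' / Real.log q) ^ (k - 2) / (Nat.factorial (k - 2) : ℝ)) / Real.log X' -
      1 / (q : ℝ) * (Real.log (Real.log X / Real.log q) ^ (k - 2) / (Nat.factorial (k - 2) : ℝ)) / Real.log X| ≤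
      ε * (1 / (q : ℝ) * (Real.log (Real.log X / Real.log q) ^ (k - 2) / (Nat.factorial (k - 2) : ℝ)) / Real.log X) := by
    intro q hq
    obtain ⟨hqp, hqX⟩ := hT q hq
    have hq2 : (2 : ℝ) ≤ q := by exact_mod_cast hqp.two_le
    have hlq : 0 < Real.log q := Real.log_pos (by linarith)
    have hlq4 : 4 * Real.log q ≤ Real.log X := by
      have h := Real.log_le_log (by linarith : (0 : ℝ) < q) hqX
      rw [Real.log_rpow hXpos] at h
      linarith
    have h := dt_term (k - 2) η (Real.log X) (Real.log X') (Real.log q) hη0 hη1 hlq hlq4 ha1 haa hr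
    rw [← hm] at h ⊢
    have hc : (0 : ℝ) ≤ 1 / (q : ℝ) * (1 / (Nat.factorial m : ℝ)) := by positivity
    have hL : 0 ≤ Real.log (Real.log X / Real.log q) ^ m / Real.log X := by
      refine div_nonneg (pow_nonneg (Real.log_nonneg ?_) m) (by linarith)
      rw [le_div_iff₀ hlq]
      linarith
    have e1 : 1 / (q : ℝ) * (Real.log (Real.log X' / Real.log q) ^ m / (Nat.factorial m : ℝ)) / Real.log X' -
        1 / (q : ℝ) * (Real.log (Real.log X / Real.log q) ^ m / (Nat.factorial m : ℝ)) / Real.log X =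
        (1 / (q : ℝ) * (1 / (Nat.factorial m : ℝ))) * (Real.log (Real.log X' / Real.log q) ^ m / Real.log X' -
          Real.log (Real.log X / Real.log q) ^ m / Real.log X) := by ring
    rw [e1, abs_mul, abs_of_nonneg hc]
    calc (1 / (q : ℝ) * (1 / (Nat.factorial m : ℝ))) * |Real.log (Real.log X' / Real.log q) ^ m / Real.log X' -
          Real.log (Real.log X / Real.log q) ^ m / Real.log X|
        ≤ (1 / (q : ℝ) * (1 / (Nat.factorial m : ℝ))) * (((m : ℝ) + 1) * η * (Real.log (Real.log X / Real.log q) ^ m / Real.log X)) :=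
          mul_le_mul_of_nonneg_left h hc
      _ ≤ (1 / (q : ℝ) * (1 / (Nat.factorial m : ℝ))) * (ε * (Real.log (Real.log X / Real.log q) ^ m / Real.log X)) :=
          mul_le_mul_of_nonneg_left (mul_le_mul_of_nonneg_right hη2 hL) hc
      _ = _ := by ring
  unfold dT
  rw [sum_div, sum_div, ← sum_sub_distrib, mul_sum]
  exact (abs_sum_le_sum_abs _ _).trans (sum_le_sum hterm)

theorem wpL : ∃ X0 : ℕ, ∀ X X' : ℕ, X0 ≤ X → (X : ℝ) / (2 * Real.log X) ≤ X' → X' ≤ X → wX X' = wX X ∨ wX X' + 1 = wX X := by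
  obtain ⟨X0, hX0⟩ := dt_large 1 one_pos le_rfl
  refine ⟨X0, fun X X' hX hX1 hX2 => ?_⟩
  obtain ⟨ha, ha1, haa, hr⟩ := hX0 X X' hX hX1 hX2
  have h1 : 0 ≤ Real.log (Real.log X') := Real.log_nonneg ha1
  have h2 : Real.log (Real.log X') ≤ Real.log (Real.log X) := Real.log_le_log (by linarith) haa
  have h3 : Real.log (Real.log X) ≤ Real.log (Real.log X') + 1 := by
    have h4 : Real.log (Real.log X) ≤ Real.log ((1 + 1) * Real.log X') := Real.log_le_log (by linarith) hr
    rw [Real.log_mul (by norm_num) (by linarith)] at h4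
    have h5 : Real.log (1 + 1) ≤ 1 := by
      have := Real.log_le_sub_one_of_pos (show (0 : ℝ) < 1 + 1 by norm_num)
      linarith
    linarith
  have h4 : ⌊Real.log (Real.log X')⌋₊ ≤ ⌊Real.log (Real.log X)⌋₊ := Nat.floor_mono h2
  have h5 : ⌊Real.log (Real.log X)⌋₊ ≤ ⌊Real.log (Real.log X')⌋₊ + 1 := by
    rw [← Nat.floor_add_one h1]
    exact Nat.floor_mono h3
  unfold wX
  omega

end Pool.Agent.Lib.WL
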