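import Pool.Agent.Lib.WL.NDef

/-!
# WL, row DW: the mean of `sg`, and the change of `w` by one (elementary)

PROOF IN WORDS. `W = primorial w`. `dwA`: for fixed `s` the `N ∈ (X, X+H]`, `N > s`, `d ∣ N - s` correspond to the integers `m = (N-s)/d ≥ 1` in an interval with at most `n ≤ H/d + 1` integers; those coprime to `W` are at most `(n/W + 1) φ(W)` (`φ(W)` in each complete period), so `(W/φ(W))` times their number is at most `n + W ≤ 3 H/d`
(`1 ≤ W ≤ H/d`). `dwB`: nothing to prove if `w' = w`, or if `w = w' + 1` is not prime (`primorial w = primorial w'`). If `w = w' + 1` is prime then `primorial w = w W'`, `cW w = cW w' · w/(w-1)`, and an `e` coprime to `W'` is coprime to `W` or `e = w e'` with `e'` coprime to `W'` and conversely, so `sg w' d S N = sg w d S N + sg w' (d w) S N`: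
`|cW w' sg w' d - cW w sg w d| ≤ cW w' sg w' (d w) + (cW w - cW w') sg w d`, `cW w - cW w' = cW w/w`. Use `dwA` for `(w', d w)` (`d w W' = d W ≤ H`) and for `(w, d)`: `≤ 3 |S| H/(d w) + 3 |S| H/(d w)`.
-/

set_option autoImplicit false

open Finset

namespace Pool.Agent.Lib.WL

open Pool.Agent.Lib.MP_5d7b92_nt.UA (sg cW)

private theorem DW_card (w d X H s : ℕ) (hd : 1 ≤ d) (h : d * primorial w ≤ H) :
    cW w * (((Ioc X (X + H)).filter fun N => s < N ∧ d ∣ N - s ∧ Nat.Coprime ((N - s) / d) (primorial w)).card : ℝ) ≤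
      3 * (H / d) := by
  obtain ⟨W, hW⟩ : ∃ W, W = primorial w := ⟨_, rfl⟩
  have hWpos : 0 < W := by rw [hW]; exact primorial_pos w
  obtain ⟨u, hu⟩ : ∃ u, u = X - s := ⟨_, rfl⟩
  obtain ⟨n, hn⟩ : ∃ n, n = (u + H) / d - u / d := ⟨_, rfl⟩
  have hle : u / d ≤ (u + H) / d := Nat.div_le_div_right (Nat.le_add_right _ _)
  have hcw : cW w = (W : ℝ) / (W.totient : ℝ) := by
    rw [hW]
    rfl
  rw [hcw, ← hW]
  rw [← hW] at h
  have h1 : ((Ioc X (X + H)).filter fun N => s < N ∧ d ∣ N - s ∧ Nat.Coprime ((N - s) / d) W).card ≤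
      ((Ico (u / d + 1) (u / d + 1 + n)).filter fun m => Nat.Coprime W m).card := by
    refine card_le_card_of_injOn (fun N => (N - s) / d) ?_ ?_
    · intro N hN
      have hN' := mem_filter.1 (mem_coe.1 hN)
      obtain ⟨a0, a3, a4, a5⟩ := hN'
      obtain ⟨a1, a2⟩ := mem_Ioc.1 a0
      obtain ⟨e, he⟩ := a4
      have he2 : (N - s) / d = e := by
        rw [he]
        exact Nat.mul_div_cancel_left e hd
      rw [he2] at a5
      have b1 : u / d < e := by
        rw [Nat.div_lt_iff_lt_mul hd, mul_comm, ← he]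
        omega
      have b2 : e ≤ (u + H) / d := by
        rw [Nat.le_div_iff_mul_le hd, mul_comm, ← he]
        omega
      refine mem_coe.2 (mem_filter.2 ⟨?_, ?_⟩)
      · show (N - s) / d ∈ _
        rw [he2, mem_Ico]
        omega
      · show Nat.Coprime W ((N - s) / d)
        rw [he2]
        exact a5.symm
    · intro N hN N' hN' hNN
      have hN1 := mem_filter.1 (mem_coe.1 hN)
      have hN2 := mem_filter.1 (mem_coe.1 hN')
      obtain ⟨_, a3, a4, _⟩ := hN1
      obtain ⟨_, b3, b4, _⟩ := hN2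
      have hNN' : (N - s) / d = (N' - s) / d := hNN
      have h2 : N - s = N' - s := by
        rw [← Nat.div_mul_cancel a4, ← Nat.div_mul_cancel b4, hNN']
      omega
  have h2 := Nat.Ico_filter_coprime_le (u / d + 1) n hWpos.ne'
  have h3 := h1.trans h2
  have hφ : (0 : ℝ) < (W.totient : ℝ) := by exact_mod_cast Nat.totient_pos.2 hWpos
  have hW0 : (0 : ℝ) < W := by exact_mod_cast hWpos
  have hd0 : (0 : ℝ) < d := by exact_mod_cast hd
  have h4 : n ≤ H / d + 1 := by
    have h5 := Nat.add_div (a := u) (b := H) hd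
    split_ifs at h5 <;> omega
  have h5 : (n : ℝ) ≤ H / d + 1 := by
    have h6 : (n : ℝ) ≤ ((H / d : ℕ) : ℝ) + 1 := by exact_mod_cast h4
    have h7 : ((H / d : ℕ) : ℝ) ≤ (H : ℝ) / d := Nat.cast_div_le
    linarith
  have h6 : (W : ℝ) ≤ H / d := by
    rw [le_div_iff₀ hd0]
    have : ((d * W : ℕ) : ℝ) ≤ H := by exact_mod_cast h
    push_cast at this
    linarith
  have h7 : (1 : ℝ) ≤ W := by exact_mod_cast hWpos
  have h8 : (W : ℝ) * ((n / W : ℕ) : ℝ) ≤ n := by exact_mod_cast Nat.mul_div_le n W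
  have h9 : (((Ioc X (X + H)).filter fun N => s < N ∧ d ∣ N - s ∧ Nat.Coprime ((N - s) / d) W).card : ℝ) ≤
      (W.totient : ℝ) * (((n / W : ℕ) : ℝ) + 1) := by exact_mod_cast h3
  calc (W : ℝ) / (W.totient : ℝ) * (((Ioc X (X + H)).filter fun N => s < N ∧ d ∣ N - s ∧ Nat.Coprime ((N - s) / d) W).card : ℝ)
      ≤ (W : ℝ) / (W.totient : ℝ) * ((W.totient : ℝ) * (((n / W : ℕ) : ℝ) + 1)) :=
        mul_le_mul_of_nonneg_left h9 (by positivity)
    _ = (W : ℝ) * ((n / W : ℕ) : ℝ) + W := by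
        field_simp
    _ ≤ 3 * (H / d) := by linarith

private theorem DW_primorial (v : ℕ) :
    primorial (v + 1) = if (v + 1).Prime then (v + 1) * primorial v else primorial v := by
  unfold primorial
  rw [range_add_one (n := v + 1), filter_insert]
  split_ifs with h
  · rw [prod_insert (by simp)]
  · rfl

private theorem DW_split (v d : ℕ) (S : Finset ℕ) (N : ℕ) (hd : 1 ≤ d) (hp : (v + 1).Prime) :
    sg v d S N = sg (v + 1) d S N + sg v (d * (v + 1)) S N := by
  have hP : primorial (v + 1) = (v + 1) * primorial v := by rw [DW_primorial, if_pos hp]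
  have hc : Nat.Coprime (v + 1) (primorial v) := by
    rw [Nat.Prime.coprime_iff_not_dvd hp, hp.dvd_primorial_iff]
    omega
  unfold sg
  rw [card_filter, card_filter, card_filter, ← sum_add_distrib]
  refine sum_congr rfl fun s _ => ?_
  rw [hP]
  by_cases h1 : s < N ∧ d ∣ N - s
  · obtain ⟨h2, e, he⟩ := h1
    have he2 : (N - s) / d = e := by
      rw [he]
      exact Nat.mul_div_cancel_left e hd
    rw [he2]
    by_cases h3 : (v + 1) ∣ e
    · obtain ⟨e', rfl⟩ := h3
      have he3 : (N - s) / (d * (v + 1)) = e' := by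
        rw [he, ← mul_assoc]
        exact Nat.mul_div_cancel_left e' (Nat.mul_pos hd hp.pos)
      have h4 : ¬ Nat.Coprime ((v + 1) * e') ((v + 1) * primorial v) := by
        intro h5
        have h6 := Nat.Coprime.coprime_mul_right h5
        have h7 := Nat.Coprime.coprime_mul_right_right h6
        rw [Nat.coprime_self] at h7
        exact hp.one_lt.ne' h7
      have h5 : Nat.Coprime ((v + 1) * e') (primorial v) ↔ Nat.Coprime e' (primorial v) := by
        rw [Nat.coprime_mul_iff_left]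
        exact ⟨fun h => h.2, fun h => ⟨hc, h⟩⟩
      have h6 : d ∣ N - s := ⟨_, he⟩
      have h7 : d * (v + 1) ∣ N - s := ⟨e', by rw [he, mul_assoc]⟩
      rw [he3]
      simp only [h2, h6, h7, h4, h5, true_and, if_false, and_false, zero_add]
    · have h4 : ¬ d * (v + 1) ∣ N - s := by
        rintro ⟨e', he'⟩
        apply h3
        refine ⟨e', ?_⟩
        rw [he, mul_assoc] at he'
        exact Nat.eq_of_mul_eq_mul_left hd he'
      have h5 : Nat.Coprime e ((v + 1) * primorial v) ↔ Nat.Coprime e (primorial v) := by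
        rw [Nat.coprime_mul_iff_right]
        exact ⟨fun h => h.2, fun h => ⟨((Nat.Prime.coprime_iff_not_dvd hp).2 h3).symm, h⟩⟩
      have h6 : d ∣ N - s := ⟨_, he⟩
      simp only [h2, h6, h4, h5, true_and, false_and, and_false, if_false, add_zero]
  · have h2 : ∀ P : Prop, ¬ (s < N ∧ d ∣ N - s ∧ P) := fun P h => h1 ⟨h.1, h.2.1⟩
    have h3 : ¬ (s < N ∧ d * (v + 1) ∣ N - s ∧ Nat.Coprime ((N - s) / (d * (v + 1))) (primorial v)) :=
      fun h => h1 ⟨h.1, (Dvd.intro _ rfl).trans h.2.1⟩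
    rw [if_neg (h2 _), if_neg (h2 _), if_neg h3]

private theorem DW_cW (v : ℕ) (hp : (v + 1).Prime) :
    cW (v + 1) - cW v = cW (v + 1) / ((v + 1 : ℕ) : ℝ) := by
  have hP : primorial (v + 1) = (v + 1) * primorial v := by rw [DW_primorial, if_pos hp]
  have hc : Nat.Coprime (v + 1) (primorial v) := by
    rw [Nat.Prime.coprime_iff_not_dvd hp, hp.dvd_primorial_iff]
    omega
  have hv : 1 ≤ v := by
    have := hp.two_le
    omega
  unfold cW
  rw [hP, Nat.totient_mul hc, Nat.totient_prime hp, Nat.add_sub_cancel]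
  obtain ⟨P, hPd⟩ : ∃ P, P = primorial v := ⟨_, rfl⟩
  have hP0 : (0 : ℝ) < P := by
    rw [hPd]
    exact_mod_cast primorial_pos v
  have hf : (0 : ℝ) < (P.totient : ℝ) := by
    have : 0 < P := by exact_mod_cast hP0
    exact_mod_cast Nat.totient_pos.2 this
  have hv0 : (0 : ℝ) < v := by exact_mod_cast hv
  rw [← hPd]
  push_cast
  field_simp
  ring

theorem dwA (w d X H : ℕ) (S : Finset ℕ) (hd : 1 ≤ d) (h : d * primorial w ≤ H) :
    ∑ N ∈ Ioc X (X + H), cW w * (sg w d S N : ℝ) ≤ 3 * S.card * (H / d) := by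
  have h1 : ∑ N ∈ Ioc X (X + H), cW w * (sg w d S N : ℝ) =
      ∑ s ∈ S, cW w * (((Ioc X (X + H)).filter fun N => s < N ∧ d ∣ N - s ∧ Nat.Coprime ((N - s) / d) (primorial w)).card : ℝ) := by
    rw [← mul_sum, ← mul_sum]
    congr 1
    unfold sg
    simp only [card_filter]
    push_cast
    exact sum_comm
  rw [h1]
  refine (sum_le_sum fun s _ => DW_card w d X H s hd h).trans (le_of_eq ?_)
  rw [sum_const, nsmul_eq_mul]
  ring

theorem dwB (w w' d X H : ℕ) (S : Finset ℕ) (hw1 : 1 ≤ w) (hw : w' = w ∨ w' + 1 = w) (hd : 1 ≤ d) (h : d * primorial w ≤ H) :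
    ∑ N ∈ Ioc X (X + H), |cW w' * (sg w' d S N : ℝ) - cW w * (sg w d S N : ℝ)| ≤ 6 * S.card * (H / (d * w)) := by
  have h0 : (0 : ℝ) ≤ 6 * S.card * (H / (d * w)) := by positivity
  rcases hw with rfl | hw
  · simpa using h0
  subst hw
  by_cases hp : (w' + 1).Prime
  swap
  · have hP : primorial (w' + 1) = primorial w' := by rw [DW_primorial, if_neg hp]
    have e1 : cW (w' + 1) = cW w' := by
      unfold cW
      rw [hP]
    have e2 : ∀ N, sg (w' + 1) d S N = sg w' d S N := by
      intro N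
      unfold sg
      rw [hP]
    refine le_trans (le_of_eq ?_) h0
    refine sum_eq_zero fun N _ => ?_
    rw [e1, e2, sub_self, abs_zero]
  · have hP : primorial (w' + 1) = (w' + 1) * primorial w' := by rw [DW_primorial, if_pos hp]
    have hd0 : (0 : ℝ) < d := by exact_mod_cast hd
    have hw0 : (0 : ℝ) < ((w' + 1 : ℕ) : ℝ) := by exact_mod_cast Nat.succ_pos w'
    have hA := dwA w' (d * (w' + 1)) X H S (Nat.mul_pos hd (Nat.succ_pos w')) (by rw [mul_assoc, ← hP]; exact h)
    have hB := dwA (w' + 1) d X H S hd h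
    have hcw := DW_cW w' hp
    have hc0 : 0 ≤ cW w' := (Pool.Agent.Lib.MP_5d7b92_nt.UA.cW_pos w').le
    have hc1 : 0 ≤ cW (w' + 1) := (Pool.Agent.Lib.MP_5d7b92_nt.UA.cW_pos (w' + 1)).le
    have hone : ∀ N ∈ Ioc X (X + H), |cW w' * (sg w' d S N : ℝ) - cW (w' + 1) * (sg (w' + 1) d S N : ℝ)| ≤
        cW w' * (sg w' (d * (w' + 1)) S N : ℝ) + 1 / ((w' + 1 : ℕ) : ℝ) * (cW (w' + 1) * (sg (w' + 1) d S N : ℝ)) := by
      intro N _
      have h2 : (sg w' d S N : ℝ) = sg (w' + 1) d S N + sg w' (d * (w' + 1)) S N := by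
        exact_mod_cast DW_split w' d S N hd hp
      have h3 : cW w' = cW (w' + 1) - cW (w' + 1) / ((w' + 1 : ℕ) : ℝ) := by linarith
      have h4 : cW w' * (sg w' d S N : ℝ) - cW (w' + 1) * (sg (w' + 1) d S N : ℝ) =
          cW w' * (sg w' (d * (w' + 1)) S N : ℝ) - 1 / ((w' + 1 : ℕ) : ℝ) * (cW (w' + 1) * (sg (w' + 1) d S N : ℝ)) := by
        rw [h2, mul_add]
        have h5 : cW w' * (sg (w' + 1) d S N : ℝ) =
            (cW (w' + 1) - cW (w' + 1) / ((w' + 1 : ℕ) : ℝ)) * (sg (w' + 1) d S N : ℝ) := by rw [← h3]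
        rw [h5]
        ring
      rw [h4]
      have a1 : 0 ≤ cW w' * (sg w' (d * (w' + 1)) S N : ℝ) := mul_nonneg hc0 (Nat.cast_nonneg _)
      have a2 : 0 ≤ 1 / ((w' + 1 : ℕ) : ℝ) * (cW (w' + 1) * (sg (w' + 1) d S N : ℝ)) :=
        mul_nonneg (by positivity) (mul_nonneg hc1 (Nat.cast_nonneg _))
      rw [abs_le]
      constructor <;> linarith
    refine (sum_le_sum hone).trans ?_
    rw [sum_add_distrib]
    have h6 := mul_le_mul_of_nonneg_left hB (by positivity : (0 : ℝ) ≤ 1 / ((w' + 1 : ℕ) : ℝ))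
    rw [mul_sum] at h6
    refine (add_le_add hA h6).trans (le_of_eq ?_)
    push_cast
    field_simp
    ring

end Pool.Agent.Lib.WL
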