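import Pool.Agent.Lib.WL.AL
import Pool.Agent.Lib.WL.DC
import Pool.Agent.Lib.WL.DW
import Pool.Agent.Lib.WL.DT

/-!
# WL, row DL: one cofactor `d ≤ log X`

PROOF IN WORDS. `L = log X`. `alL k (K+1) (B+1)` gives `c0`, `C'`; `C = C' + 3`; for `ε` use it with `ε' = ε/64`: `η'`, and `η = min (η'/2) (1/4)`. For `r < d` let `A = (X-r)/d`, `B' = (X+H-r)/d`, `H' = B' - A`: `X/(2L) ≤ X/d - 1 ≤ A ≤ X/d ≤ X`, `H/d - 1 ≤ H' ≤ H/d + 1 ≤ 2H/d`, `L' = log A ∈ [L/2, L]`, `ρ' = dT k T A/log A`, `ρ = dT k T X/L`,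
`|ρ' - ρ| ≤ ε' ρ` (`dtL`), `w1 = wX A` is `w = wX X` or `w - 1` (`wpL`), `cX A = cW w1`, `W ≤ L^2` (`WX_le`). Let `S' = (Sq d r S).filter (· ≤ 2A)` (`Sq d r S` and `S'` have the same members `< N'` for `N' ≤ 2A`, so the same `cT`, `SN`). `alL` at `X' = A` with `H'' = min H' A`, the same `w'`, `T`: `w' ≤ X^(η'/2) ≤ A^η'`, `w' L'^C' ≤ H''`,
`L'^c0 ≤ L^c0 ≤ q`, `1/L'^(B+1) ≤ 1/L^B` (`L'^(B+1) ≥ L^(B+1)/2^(B+1) ≥ L^B`). It gives for `N' ∈ (A, A + H'']` the bound `ε' H' (|Sq d r S| + A/L'^(K+1)) ρ'`. If `H' > A` then `H ≥ X/2 - 2L`, and the at most 3 further `N'` give at most `3 · 2X (1 + cW w1 ρ')` (every `cT`, `|SN|` is at most `|S| ≤ 2X`), which is tiny compared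
with `ε' (H/d)(X/L^K) ρ/d`. `dcL` with `g = cW w1 ρ'` transports this to the `N ∈ (X, X+H]`, `N ≡ r`, with the error `(1 + g) H' ≤ (1 + 2 L^2 ρ) 2H/d`, tiny compared with `ε' (H/d) (X/L^K) ρ/d` (`ρ ≥ L^(-B)/((k-2)! L)`, since `log (log X/log q) ≥ 1`). Sum over `r < d`: `∑_r |Sq d r S| ≤ |S|`, `∑_r A/L'^(K+1) ≤ X 2^(K+1)/L^(K+1) ≤ X/L^K`:
`∑_N |cD d k T S N - cW w_(N%d) ρ'_(N%d) sg w_(N%d) d S N| ≤ (ε/2)(H/d)(|S| + X/L^K) ρ`. Finally `|cW w1 sg w1 d ρ' - cW w sg w d ρ| ≤ |cW w1 sg w1 d - cW w sg w d| 2ρ + cW w sg w d · ε' ρ`; the sum over all `N ∈ (X, X+H]` of the first term is at most `2ρ · 6 |S| H/(d w)` for each of the two possible values of `w1` (`dwB`), of the second at most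
`3 ε' ρ |S| H/d` (`dwA`); `w → ∞`.
-/

set_option autoImplicit false

open Finset

namespace Pool.Agent.Lib.WL

open Pool.Agent.Lib.SW (wX cX SN)
open Pool.Agent.Lib.T8 (dT)
open Pool.Agent.Lib.MP_5d7b92_nt.UA (sg cW)

private theorem dl_nat {X H d r : ℕ} (hr : r < d) (hd : d ≤ X) (hHX : H ≤ X) :
    ((X - r) / d) * d ≤ X ∧ X ≤ ((X - r) / d + 2) * d ∧ (X - r) / d ≤ (X + H - r) / d ∧
    ((X + H - r) / d - (X - r) / d) * d ≤ H + d ∧ H ≤ ((X + H - r) / d - (X - r) / d + 1) * d ∧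
    (X + H - r) / d ≤ 2 * ((X - r) / d) + 2 := by
  have hd0 : 0 < d := by omega
  have e1 := Nat.div_add_mod (X - r) d
  have e2 := Nat.div_add_mod (X + H - r) d
  have m1 := Nat.mod_lt (X - r) hd0
  have m2 := Nat.mod_lt (X + H - r) hd0
  have hAB : (X - r) / d ≤ (X + H - r) / d := Nat.div_le_div_right (by omega)
  generalize (X - r) / d = A at *
  generalize (X + H - r) / d = Bn at *
  generalize (X - r) % d = r0 at *
  generalize (X + H - r) % d = r1 at *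
  have hsub : (Bn - A) * d = d * Bn - d * A := by rw [Nat.sub_mul, mul_comm Bn, mul_comm A]
  have hle : d * A ≤ d * Bn := Nat.mul_le_mul_left d hAB
  refine ⟨?_, ?_, hAB, ?_, ?_, ?_⟩
  · rw [mul_comm]; omega
  · rw [add_mul, mul_comm A]; omega
  · rw [hsub]; omega
  · rw [add_mul, hsub]; omega
  · have h1 : d * Bn < d * (2 * A + 3) := by
      have h2 : d * (2 * A + 3) = 2 * (d * A) + 3 * d := by ring
      rw [h2]; omega
    have h3 := Nat.lt_of_mul_lt_mul_left h1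
    omega

private theorem dl_cT {k : ℕ} {T S : Finset ℕ} {A N : ℕ} (hN : N ≤ 2 * A) :
    cT k T (S.filter fun s => s ≤ 2 * A) N = cT k T S N := by
  unfold cT
  rw [filter_filter]
  congr 1
  refine filter_congr fun s _ => ?_
  constructor
  · rintro ⟨_, h⟩
    exact h
  · intro h
    exact ⟨by have := h.1; omega, h⟩

private theorem dl_SN {W : ℕ} {S : Finset ℕ} {A N : ℕ} (hN : N ≤ 2 * A) :
    SN W (S.filter fun s => s ≤ 2 * A) N = SN W S N := by
  unfold Pool.Agent.Lib.SW.SN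
  rw [filter_filter]
  refine filter_congr fun s _ => ?_
  constructor
  · rintro ⟨_, h⟩
    exact h
  · intro h
    exact ⟨by have := h.1; omega, h⟩

private theorem dl_sq (d : ℕ) (hd : 0 < d) (S : Finset ℕ) : ∑ r ∈ range d, (Sq d r S).card ≤ S.card := by
  have h1 : ∀ r ∈ range d, (Sq d r S).card ≤ (S.filter fun s => s % d = r).card := fun r _ =>
    (card_filter_le _ _).trans card_image_le
  refine (sum_le_sum h1).trans (le_of_eq ?_)
  exact (card_eq_sum_card_fiberwise fun s _ => mem_coe.mpr (mem_range.mpr (Nat.mod_lt s hd))).symm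

private theorem dl_triv {k W : ℕ} {T S : Finset ℕ} {N : ℕ} {g : ℝ} (hg : 0 ≤ g) :
    |(cT k T S N : ℝ) - g * (SN W S N).card| ≤ (1 + g) * S.card := by
  have h1 : (cT k T S N : ℝ) ≤ S.card := by
    unfold cT
    exact_mod_cast card_filter_le _ _
  have h2 : ((SN W S N).card : ℝ) ≤ S.card := by
    unfold Pool.Agent.Lib.SW.SN
    exact_mod_cast card_filter_le _ _
  have h3 : g * ((SN W S N).card : ℝ) ≤ g * S.card := mul_le_mul_of_nonneg_left h2 hg
  have h4 : 0 ≤ g * ((SN W S N).card : ℝ) := mul_nonneg hg (Nat.cast_nonneg _)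
  have h5 : (0 : ℝ) ≤ (cT k T S N : ℝ) := Nat.cast_nonneg _
  have h6 : (0 : ℝ) ≤ (S.card : ℝ) := Nat.cast_nonneg _
  have h7 : 0 ≤ g * (S.card : ℝ) := mul_nonneg hg h6
  rw [abs_le]
  constructor
  · linarith
  · linarith

private theorem dl_class {k d r X H : ℕ} {T S : Finset ℕ} {g P : ℝ} (w : ℕ) (hg : 0 ≤ g) (hr : r < d) (hd : d ≤ X)
    (hHX : H ≤ X)
    (hP : ∑ N ∈ Ioc ((X - r) / d) ((X - r) / d + min ((X + H - r) / d - (X - r) / d) ((X - r) / d)),
      |(cT k T ((Sq d r S).filter fun s => s ≤ 2 * ((X - r) / d)) N : ℝ) -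
        g * (SN (primorial w) ((Sq d r S).filter fun s => s ≤ 2 * ((X - r) / d)) N).card| ≤ P) :
    ∑ N ∈ (Ioc X (X + H)).filter (fun N => N % d = r), |(cD d k T S N : ℝ) - g * sg w d S N| ≤
      P + 2 * (1 + g) * (Sq d r S).card + (1 + g) * (((X + H - r) / d - (X - r) / d : ℕ) : ℝ) := by
  obtain ⟨_, _, hAB, _, _, hB2⟩ := dl_nat hr hd hHX
  have h0 := dcL d r k w X H T S g hg hr hd
  refine h0.trans (add_le_add_left ?_ _)
  generalize (X - r) / d = A at *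
  generalize (X + H - r) / d = Bn at *
  have hmB : A + min (Bn - A) A ≤ Bn := by omega
  rw [← sum_Ioc_consecutive _ (Nat.le_add_right A _) hmB]
  refine add_le_add (le_trans (le_of_eq ?_) hP) ?_
  · refine sum_congr rfl fun N hN => ?_
    have hN2 : N ≤ 2 * A := by
      have := (mem_Ioc.mp hN).2
      omega
    rw [dl_cT hN2, dl_SN hN2]
  · have h1 : ∀ N ∈ Ioc (A + min (Bn - A) A) Bn,
        |(cT k T (Sq d r S) N : ℝ) - g * (SN (primorial w) (Sq d r S) N).card| ≤ (1 + g) * (Sq d r S).card :=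
      fun N _ => dl_triv hg
    refine (sum_le_card_nsmul _ _ _ h1).trans ?_
    rw [nsmul_eq_mul, Nat.card_Ioc]
    have h2 : ((Bn - (A + min (Bn - A) A) : ℕ) : ℝ) ≤ 2 := by
      have : Bn - (A + min (Bn - A) A) ≤ 2 := by omega
      exact_mod_cast this
    have h3 : 0 ≤ (1 + g) * ((Sq d r S).card : ℝ) := mul_nonneg (by linarith) (Nat.cast_nonneg _)
    calc ((Bn - (A + min (Bn - A) A) : ℕ) : ℝ) * ((1 + g) * ((Sq d r S).card : ℝ))
        ≤ 2 * ((1 + g) * ((Sq d r S).card : ℝ)) := mul_le_mul_of_nonneg_right h2 h3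
      _ = 2 * (1 + g) * ((Sq d r S).card : ℝ) := by ring

private theorem dl_dT {k B X : ℕ} {T : Finset ℕ} (hX : 1 ≤ X) (hL : 1 ≤ Real.log X)
    (hfac : (Nat.factorial (k - 2) : ℝ) ≤ Real.log X)
    (hT : ∀ q ∈ T, q.Prime ∧ (q : ℝ) ≤ (X : ℝ) ^ (1 / 4 : ℝ)) (hTs : 1 / (Real.log X) ^ B ≤ ∑ q ∈ T, 1 / (q : ℝ)) :
    1 / (Real.log X) ^ (B + 1) ≤ dT k T X := by
  have hX0 : (0 : ℝ) < X := by exact_mod_cast hX
  have hf0 : (0 : ℝ) < (Nat.factorial (k - 2) : ℝ) := by exact_mod_cast Nat.factorial_pos _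
  set L : ℝ := Real.log X with hLd
  have hL0 : 0 < L := by linarith
  have h1 : ∑ q ∈ T, 1 / (q : ℝ) * (1 / (Nat.factorial (k - 2) : ℝ)) ≤ dT k T X := by
    unfold Pool.Agent.Lib.T8.dT
    refine sum_le_sum fun q hq => ?_
    refine mul_le_mul_of_nonneg_left ?_ (by positivity)
    refine div_le_div_of_nonneg_right ?_ hf0.le
    refine one_le_pow₀ ?_
    obtain ⟨hq1, hq3⟩ := hT q hq
    have hq2 : (2 : ℝ) ≤ q := by exact_mod_cast hq1.two_le
    have hlq : 0 < Real.log q := Real.log_pos (by linarith)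
    have hlq3 : Real.log q ≤ 1 / 4 * L := by
      have h2 : Real.log q ≤ Real.log ((X : ℝ) ^ (1 / 4 : ℝ)) := Real.log_le_log (by linarith) hq3
      rwa [Real.log_rpow hX0] at h2
    rw [← hLd, Real.le_log_iff_exp_le (by positivity), le_div_iff₀ hlq]
    have h3 := Real.exp_one_lt_d9
    have h4 : Real.exp 1 * Real.log q ≤ 4 * Real.log q := mul_le_mul_of_nonneg_right (by linarith) hlq.le
    linarith
  have h2 : 1 / L ^ (B + 1) ≤ ∑ q ∈ T, 1 / (q : ℝ) * (1 / (Nat.factorial (k - 2) : ℝ)) := by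
    rw [← sum_mul]
    have h3 : 1 / L ^ B * (1 / L) ≤ (∑ q ∈ T, 1 / (q : ℝ)) * (1 / (Nat.factorial (k - 2) : ℝ)) :=
      mul_le_mul hTs (one_div_le_one_div_of_le hf0 hfac) (by positivity) (sum_nonneg fun q _ => by positivity)
    have h4 : 1 / L ^ (B + 1) = 1 / L ^ B * (1 / L) := by
      rw [pow_succ]
      field_simp
    rw [h4]
    exact h3
  exact h2.trans h1

private theorem dl_cmp {a b r r' δ D : ℝ} (hb : 0 ≤ b) (hr : 0 ≤ r) (hr' : 0 ≤ r') (hr2 : r' ≤ 2 * r)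
    (h : |r' - r| ≤ δ * r) (hD : |a - b| ≤ D) : |a * r' - b * r| ≤ 2 * r * D + δ * r * b := by
  have h1 : a * r' - b * r = (a - b) * r' + b * (r' - r) := by ring
  rw [h1]
  refine (abs_add_le _ _).trans ?_
  rw [abs_mul, abs_mul, abs_of_nonneg hr', abs_of_nonneg hb]
  have h2 : |a - b| * r' ≤ D * (2 * r) := mul_le_mul hD hr2 hr' ((abs_nonneg _).trans hD)
  have h3 : b * |r' - r| ≤ b * (δ * r) := mul_le_mul_of_nonneg_left h hb
  linarith

private theorem dl_ev (δ Q : ℝ) (Y1 : ℕ) : ∃ X0 : ℕ, ∀ X : ℕ, X0 ≤ X → Y1 ≤ X ∧ Y1 * Y1 ≤ X ∧ Q ≤ Real.log X ∧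
    4 * (Real.log X) ^ 2 ≤ X ∧ δ ≤ (wX X : ℝ) := by
  have h1 := Pool.Agent.Lib.SW.eventually_log_ge Q
  have h2 := Pool.Agent.Lib.SW.eventually_log_pow 2 (1 / 4) (by norm_num)
  have h3 : ∀ᶠ X : ℕ in Filter.atTop, ((⌈δ⌉₊ : ℕ) : ℝ) ≤ Real.log (Real.log (X : ℝ)) :=
    (Real.tendsto_log_atTop.comp (Real.tendsto_log_atTop.comp tendsto_natCast_atTop_atTop)).eventually_ge_atTop _
  obtain ⟨X0, h4⟩ := Filter.eventually_atTop.mp (h1.and (h2.and (h3.and (Filter.eventually_ge_atTop (Y1 + Y1 * Y1)))))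
  refine ⟨X0, fun X hX => ?_⟩
  obtain ⟨a1, a2, a3, a4⟩ := h4 X hX
  refine ⟨by omega, by omega, a1, by linarith, ?_⟩
  refine (Nat.le_ceil δ).trans ?_
  have h5 : ⌈δ⌉₊ ≤ wX X := by
    unfold Pool.Agent.Lib.SW.wX
    exact Nat.le_floor a3
  exact_mod_cast h5

theorem dlL (k K B : ℕ) (hk : 2 ≤ k) : ∃ c0 C : ℕ, ∀ ε : ℝ, 0 < ε → ∃ η : ℝ, 0 < η ∧ ∃ X0 : ℕ, ∀ (X H : ℕ) (w' : ℝ) (T : Finset ℕ),
    X0 ≤ X → 1 ≤ w' → w' ≤ (X : ℝ) ^ η → w' * (Real.log X) ^ C ≤ H → H ≤ X → (∀ q ∈ T, q.Prime ∧ (Real.log X) ^ c0 ≤ q ∧ (q : ℝ) ≤ w') →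
      1 / (Real.log X) ^ B ≤ ∑ q ∈ T, 1 / (q : ℝ) → ∀ S : Finset ℕ, S ⊆ Icc 1 (2 * X) → ∀ d : ℕ, 1 ≤ d → (d : ℝ) ≤ Real.log X →
        ∑ N ∈ Ioc X (X + H), |(cD d k T S N : ℝ) - cX X * (sg (wX X) d S N : ℝ) * (dT k T X / Real.log X)| ≤
          ε * (H / d) * (S.card + X / (Real.log X) ^ K) * (dT k T X / Real.log X) := by
  classical
  obtain ⟨c0, C', hal⟩ := alL k (K + 1) (B + 1) hk
  refine ⟨c0, C' + K + B + 4, fun ε hε => ?_⟩
  obtain ⟨δ, hδ, hδ1, hδε⟩ : ∃ δ : ℝ, 0 < δ ∧ δ ≤ 1 ∧ δ ≤ ε / 9 :=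
    ⟨min 1 (ε / 9), lt_min one_pos (by linarith), min_le_left _ _, min_le_right _ _⟩
  obtain ⟨η', hη', X1, hal⟩ := hal δ hδ
  obtain ⟨η, hη, hηa, hηb⟩ : ∃ η : ℝ, 0 < η ∧ η ≤ 1 / 2 * η' ∧ η ≤ 1 / 4 :=
    ⟨min (1 / 2 * η') (1 / 4), lt_min (by linarith) (by norm_num), min_le_left _ _, min_le_right _ _⟩
  obtain ⟨X2, hX2⟩ := Pool.Agent.Lib.SW.cX_le_log
  obtain ⟨X3, hX3⟩ := dtL k δ hδ
  obtain ⟨X4, hX4⟩ := wpL
  obtain ⟨X5, hX5⟩ := dl_ev (12 / δ + 1) (4 + 6 / δ + 2 ^ (K + 1) + 2 ^ (B + 1) + (Nat.factorial (k - 2) : ℝ)) (X1 + X2 + 1)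
  refine ⟨η, hη, max (max X3 X4) X5, ?_⟩
  intro X H w' T hX hw1 hwη hwH hHX hT hTs S hS d hd1 hdL
  obtain ⟨hY1, hY2, hLQ, hXL, hwX⟩ := hX5 X ((le_max_right _ _).trans hX)
  have hX3' : X3 ≤ X := ((le_max_left _ _).trans (le_max_left _ _)).trans hX
  have hX4' : X4 ≤ X := ((le_max_right _ _).trans (le_max_left _ _)).trans hX
  have hX2' : X2 ≤ X := by omega
  obtain ⟨_, hWL⟩ := hX2 X hX2'
  set L : ℝ := Real.log X with hL
  have hf0 : (0 : ℝ) < (Nat.factorial (k - 2) : ℝ) := by exact_mod_cast Nat.factorial_pos _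
  have h6δ : 0 < 6 / δ := by positivity
  have hp1 : (0 : ℝ) < 2 ^ (K + 1) := by positivity
  have hp2 : (0 : ℝ) < 2 ^ (B + 1) := by positivity
  have hL4 : 4 ≤ L := by linarith
  have hL6 : 6 / δ ≤ L := by linarith
  have hLK : (2 : ℝ) ^ (K + 1) ≤ L := by linarith
  have hLB : (2 : ℝ) ^ (B + 1) ≤ L := by linarith
  have hLf : (Nat.factorial (k - 2) : ℝ) ≤ L := by linarith
  have hL0 : 0 < L := by linarith
  have hL1 : 1 ≤ L := by linarith
  have hX1n : 1 ≤ X := by omega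
  have hX0 : (0 : ℝ) < X := by exact_mod_cast hX1n
  have hXr1 : (1 : ℝ) ≤ X := by exact_mod_cast hX1n
  have hdr : (1 : ℝ) ≤ d := by exact_mod_cast hd1
  have hd0 : (0 : ℝ) < d := by linarith
  have hw0 : 0 < w' := by linarith
  -- sizes
  have hLa : 4 * L ≤ L ^ 2 := by
    rw [sq]
    exact mul_le_mul_of_nonneg_right hL4 hL0.le
  have hLb : 4 * L ^ 2 ≤ L ^ 3 := by
    have h1 : L ^ 3 = L * L ^ 2 := by ring
    rw [h1]
    exact mul_le_mul_of_nonneg_right hL4 (by positivity)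
  have hLX : L ≤ X := by linarith
  have hdX : d ≤ X := by exact_mod_cast hdL.trans hLX
  have hHC : L ^ (C' + K + B + 4) ≤ (H : ℝ) := by
    have h1 : 1 * L ^ (C' + K + B + 4) ≤ w' * L ^ (C' + K + B + 4) := mul_le_mul_of_nonneg_right hw1 (by positivity)
    linarith
  have hHbig : L ^ (K + B + 4) ≤ (H : ℝ) := (pow_le_pow_right₀ hL1 (by omega)).trans hHC
  have hH3 : L ^ 3 ≤ (H : ℝ) := (pow_le_pow_right₀ hL1 (by omega)).trans hHC
  have hH0 : (0 : ℝ) < H := lt_of_lt_of_le (by positivity) hH3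
  have hHXr : (H : ℝ) ≤ X := by exact_mod_cast hHX
  -- the density
  have hTq : ∀ q ∈ T, q.Prime ∧ (q : ℝ) ≤ (X : ℝ) ^ (1 / 4 : ℝ) := fun q hq =>
    ⟨(hT q hq).1, ((hT q hq).2.2.trans hwη).trans (Real.rpow_le_rpow_of_exponent_le hXr1 hηb)⟩
  have hdT := dl_dT (k := k) (B := B) hX1n hL1 hLf hTq hTs
  rw [← hL] at hdT
  set ρ : ℝ := dT k T X / L with hρ
  have hρ1 : 1 / L ^ (B + 2) ≤ ρ := by
    have e1 : 1 / L ^ (B + 2) = 1 / L ^ (B + 1) / L := by rw [pow_succ, div_div]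
    rw [e1, hρ]
    exact div_le_div_of_nonneg_right hdT hL0.le
  have hρ0 : 0 < ρ := lt_of_lt_of_le (by positivity) hρ1
  -- the points `A`
  have hsq : 2 * L ≤ Real.sqrt X := by
    rw [Real.le_sqrt (by positivity) hX0.le]
    linarith
  have hsX : Real.sqrt X * Real.sqrt X = X := Real.mul_self_sqrt hX0.le
  have hs0 : 0 < Real.sqrt X := Real.sqrt_pos.mpr hX0
  have hXd : (X : ℝ) / L ≤ X / d := div_le_div_of_nonneg_left hX0.le hd0 hdL
  have hA : ∀ r, r < d → (X : ℝ) / (2 * L) ≤ (((X - r) / d : ℕ) : ℝ) ∧ (((X - r) / d : ℕ) : ℝ) ≤ X / d := by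
    intro r hr
    obtain ⟨n1, n2, _, _, _, _⟩ := dl_nat hr hdX hHX
    have n1' : (((X - r) / d : ℕ) : ℝ) * d ≤ X := by exact_mod_cast n1
    have n2' : (X : ℝ) ≤ ((((X - r) / d : ℕ) : ℝ) + 2) * d := by exact_mod_cast n2
    constructor
    · have h1 : (X : ℝ) / d ≤ (((X - r) / d : ℕ) : ℝ) + 2 := by
        rw [div_le_iff₀ hd0]
        exact n2'
      have h2 : (X : ℝ) / L = X / (2 * L) + X / (2 * L) := by
        field_simp
        ring
      have h3 : 2 ≤ (X : ℝ) / (2 * L) := by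
        rw [le_div_iff₀ (by positivity)]
        linarith
      linarith
    · rw [le_div_iff₀ hd0]
      exact n1'
  have hAs : ∀ r, r < d → Real.sqrt X ≤ (((X - r) / d : ℕ) : ℝ) := by
    intro r hr
    refine le_trans ?_ (hA r hr).1
    rw [le_div_iff₀ (by positivity)]
    calc Real.sqrt X * (2 * L) ≤ Real.sqrt X * Real.sqrt X := mul_le_mul_of_nonneg_left hsq hs0.le
      _ = X := hsX
  have hAX : ∀ r, r < d → (X - r) / d ≤ X := fun r _ => (Nat.div_le_self _ _).trans (Nat.sub_le _ _)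
  have hAY : ∀ r, r < d → X1 + X2 + 1 ≤ (X - r) / d := by
    intro r hr
    have h1 : ((X1 + X2 + 1 : ℕ) : ℝ) ≤ Real.sqrt X := by
      rw [Real.le_sqrt (Nat.cast_nonneg _) hX0.le, sq]
      exact_mod_cast hY2
    exact_mod_cast h1.trans (hAs r hr)
  have hAl : ∀ r, r < d → L / 2 ≤ Real.log (((X - r) / d : ℕ) : ℝ) ∧ Real.log (((X - r) / d : ℕ) : ℝ) ≤ L := by
    intro r hr
    have hA0 : (0 : ℝ) < (((X - r) / d : ℕ) : ℝ) := lt_of_lt_of_le hs0 (hAs r hr)
    constructor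
    · have h1 := Real.log_le_log hs0 (hAs r hr)
      rwa [Real.log_sqrt hX0.le] at h1
    · exact Real.log_le_log hA0 (by exact_mod_cast hAX r hr)
  set ρ1 : ℕ → ℝ := fun r => dT k T ((X - r) / d) / Real.log (((X - r) / d : ℕ) : ℝ) with hρ1d
  have hρr : ∀ r, r < d → |ρ1 r - ρ| ≤ δ * ρ := fun r hr => hX3 X _ T hX3' (hA r hr).1 (hAX r hr) hTq
  have hρr0 : ∀ r, r < d → 0 ≤ ρ1 r ∧ ρ1 r ≤ 2 * ρ := by
    intro r hr
    have h1 := abs_le.mp (hρr r hr)
    have h2 : δ * ρ ≤ 1 * ρ := mul_le_mul_of_nonneg_right hδ1 hρ0.le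
    constructor <;> linarith
  set w1 : ℕ → ℕ := fun r => wX ((X - r) / d) with hw1d
  have hw1r : ∀ r, r < d → w1 r = wX X ∨ w1 r + 1 = wX X := fun r hr => hX4 X _ hX4' (hA r hr).1 (hAX r hr)
  set g : ℕ → ℝ := fun r => cX ((X - r) / d) * ρ1 r with hgd
  have hg0 : ∀ r, r < d → 0 ≤ g r := fun r hr =>
    mul_nonneg (by linarith [Pool.Agent.Lib.SW.one_le_cX ((X - r) / d)]) (hρr0 r hr).1
  have hgG : ∀ r, r < d → g r ≤ 2 * L * ρ := by
    intro r hr
    have h1 := (hX2 ((X - r) / d) (by have := hAY r hr; omega)).1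
    have h2 : cX ((X - r) / d) ≤ L := h1.trans (hAl r hr).2
    have h3 := mul_le_mul h2 (hρr0 r hr).2 (hρr0 r hr).1 hL0.le
    have h4 : L * (2 * ρ) = 2 * L * ρ := by ring
    linarith
  set G : ℝ := 2 * L * ρ with hG
  have hG0 : 0 ≤ G := by positivity
  have hG3 : 2 * (1 + G) ≤ 6 * L ^ (B + 2) * ρ := by
    have h1 : 1 ≤ L ^ (B + 2) * ρ := by
      have h2 : L ^ (B + 2) * (1 / L ^ (B + 2)) ≤ L ^ (B + 2) * ρ := mul_le_mul_of_nonneg_left hρ1 (by positivity)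
      have h3 : L ^ (B + 2) * (1 / L ^ (B + 2)) = 1 := by
        field_simp
      linarith
    have h2 : L * ρ ≤ L ^ (B + 2) * ρ := by
      refine mul_le_mul_of_nonneg_right ?_ hρ0.le
      calc L = L ^ 1 := (pow_one L).symm
        _ ≤ L ^ (B + 2) := pow_le_pow_right₀ hL1 (by omega)
    rw [hG]
    linarith
  -- one class
  set Sc : ℝ := (S.card : ℝ) with hSc
  have hHd0 : 0 < (H : ℝ) / d := by positivity
  have hHd1 : 1 ≤ (H : ℝ) / d := by
    rw [le_div_iff₀ hd0]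
    have h1 : L ≤ L ^ 3 := by
      calc L = L ^ 1 := (pow_one L).symm
        _ ≤ L ^ 3 := pow_le_pow_right₀ hL1 (by norm_num)
    linarith
  have hcls : ∀ r ∈ range d, ∑ N ∈ (Ioc X (X + H)).filter (fun N => N % d = r),
      |(cD d k T S N : ℝ) - g r * sg (w1 r) d S N| ≤
      4 * δ * (H / d) * ρ * ((Sq d r S).card + X / d / L ^ K) + 2 * (1 + G) * (Sq d r S).card +
        (1 + G) * (2 * (H / d)) := by
    intro r hr
    rw [mem_range] at hr
    obtain ⟨_, _, hAB, n4, n5, _⟩ := dl_nat hr hdX hHX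
    have n4' : ((((X + H - r) / d - (X - r) / d : ℕ) : ℝ)) * d ≤ H + d := by exact_mod_cast n4
    have n5' : (H : ℝ) ≤ ((((X + H - r) / d - (X - r) / d : ℕ) : ℝ) + 1) * d := by exact_mod_cast n5
    have hH'u : ((((X + H - r) / d - (X - r) / d : ℕ) : ℝ)) ≤ 2 * (H / d) := by
      have h1 : ((((X + H - r) / d - (X - r) / d : ℕ) : ℝ)) ≤ (H + d) / d := by
        rw [le_div_iff₀ hd0]
        exact n4'
      have h2 : ((H : ℝ) + d) / d = H / d + 1 := by
        field_simp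
      linarith
    have hH'l : (H : ℝ) / d - 1 ≤ ((((X + H - r) / d - (X - r) / d : ℕ) : ℝ)) := by
      have h1 : (H : ℝ) / d ≤ ((((X + H - r) / d - (X - r) / d : ℕ) : ℝ)) + 1 := by
        rw [div_le_iff₀ hd0]
        exact n5'
      linarith
    obtain ⟨hA1, hA2⟩ := hA r hr
    obtain ⟨hl1, hl2⟩ := hAl r hr
    obtain ⟨hr0, hr2⟩ := hρr0 r hr
    have hYr := hAY r hr
    have hsr := hAs r hr
    have hwA : w1 r = wX ((X - r) / d) := rfl
    have hgr : g r = cX ((X - r) / d) * ρ1 r := rfl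
    have hρd : ρ1 r = dT k T ((X - r) / d) / Real.log (((X - r) / d : ℕ) : ℝ) := rfl
    have hg0r := hg0 r hr
    have hgGr := hgG r hr
    set H' : ℕ := (X + H - r) / d - (X - r) / d with hH'
    set A : ℕ := (X - r) / d with hAd
    have hA0 : (0 : ℝ) < A := lt_of_lt_of_le hs0 hsr
    have hlA0 : 0 < Real.log A := by linarith
    set H'' : ℕ := min H' A with hH''
    -- the conditions of `alL`
    have hwη2 : w' ≤ (A : ℝ) ^ η' := by
      have h1 : (X : ℝ) ^ η ≤ (X : ℝ) ^ (1 / 2 * η') := Real.rpow_le_rpow_of_exponent_le hXr1 hηa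
      have h2 : (X : ℝ) ^ (1 / 2 * η') = (Real.sqrt X) ^ η' := by
        rw [Real.rpow_mul hX0.le, Real.sqrt_eq_rpow]
      have h3 : (Real.sqrt X) ^ η' ≤ (A : ℝ) ^ η' := Real.rpow_le_rpow hs0.le hsr hη'.le
      linarith
    have hLC : w' * (Real.log A) ^ C' ≤ H / L ^ 3 := by
      have h1 : (Real.log A) ^ C' ≤ L ^ C' := pow_le_pow_left₀ hlA0.le hl2 _
      have h2 : w' * (Real.log A) ^ C' ≤ w' * L ^ C' := mul_le_mul_of_nonneg_left h1 hw0.le
      refine h2.trans ?_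
      rw [le_div_iff₀ (by positivity), mul_assoc, ← pow_add]
      refine le_trans (mul_le_mul_of_nonneg_left (pow_le_pow_right₀ hL1 (by omega)) hw0.le) hwH
    have hwH'' : w' * (Real.log A) ^ C' ≤ (H'' : ℝ) := by
      have h1 : (H : ℝ) / L ^ 3 ≤ H' := by
        have h2 : (H : ℝ) / L ^ 3 ≤ H / d / 2 := by
          rw [div_div]
          refine div_le_div_of_nonneg_left hH0.le (by positivity) ?_
          have h3 : L * 2 ≤ L ^ 3 := by linarith
          have h4 : (d : ℝ) * 2 ≤ L * 2 := by linarith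
          linarith
        have h5 : 2 ≤ (H : ℝ) / d := by
          rw [le_div_iff₀ hd0]
          have h3 : 2 * L ≤ L ^ 3 := by linarith
          linarith
        linarith
      have h6 : (H : ℝ) / L ^ 3 ≤ A := by
        refine le_trans ?_ hA1
        have h7 : (H : ℝ) / L ^ 3 ≤ X / L ^ 3 := div_le_div_of_nonneg_right hHXr (by positivity)
        refine h7.trans (div_le_div_of_nonneg_left hX0.le (by positivity) ?_)
        linarith
      rw [hH'', Nat.cast_min]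
      exact le_min (hLC.trans h1) (hLC.trans h6)
    have hT' : ∀ q ∈ T, q.Prime ∧ (Real.log A) ^ c0 ≤ q ∧ (q : ℝ) ≤ w' := fun q hq =>
      ⟨(hT q hq).1, (pow_le_pow_left₀ hlA0.le hl2 _).trans (hT q hq).2.1, (hT q hq).2.2⟩
    have hTs' : 1 / (Real.log A) ^ (B + 1) ≤ ∑ q ∈ T, 1 / (q : ℝ) := by
      refine le_trans ?_ hTs
      refine one_div_le_one_div_of_le (by positivity) ?_
      have h1 : (L / 2) ^ (B + 1) ≤ (Real.log A) ^ (B + 1) := pow_le_pow_left₀ (by positivity) hl1 _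
      refine le_trans ?_ h1
      rw [div_pow, le_div_iff₀ hp2, pow_succ L B]
      exact mul_le_mul_of_nonneg_left hLB (by positivity)
    set S'' : Finset ℕ := (Sq d r S).filter fun s => s ≤ 2 * A with hS''
    have hS''1 : S'' ⊆ Icc 1 (2 * A) := by
      intro s hs
      obtain ⟨h1, h2⟩ := mem_filter.mp hs
      unfold Sq at h1
      exact mem_Icc.mpr ⟨(mem_filter.mp h1).2, h2⟩
    have hmain := hal A H'' w' T (by omega) hw1 hwη2 hwH'' (min_le_right _ _) hT' hTs' S'' hS''1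
    have hP : ∑ N ∈ Ioc A (A + H''), |(cT k T S'' N : ℝ) - g r * (SN (primorial (w1 r)) S'' N).card| ≤
        4 * δ * (H / d) * ρ * ((Sq d r S).card + X / d / L ^ K) := by
      refine le_trans (le_of_eq ?_) (hmain.trans ?_)
      · refine sum_congr rfl fun N _ => ?_
        have e1 : primorial (w1 r) = Pool.Agent.Lib.SW.WX A := rfl
        rw [e1, hgr, ← hρd]
        congr 1
        ring
      · rw [← hρd]
        have h1 : (H'' : ℝ) ≤ 2 * (H / d) := by
          have : (H'' : ℝ) ≤ H' := by exact_mod_cast min_le_left _ _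
          linarith
        have h2 : ((S''.card : ℝ) + A / (Real.log A) ^ (K + 1)) ≤ (Sq d r S).card + X / d / L ^ K := by
          have h3 : (S''.card : ℝ) ≤ (Sq d r S).card := by exact_mod_cast card_filter_le _ _
          have h4 : (A : ℝ) / (Real.log A) ^ (K + 1) ≤ X / d / L ^ K := by
            have h5 : L ^ K ≤ (Real.log A) ^ (K + 1) := by
              have h6 : (L / 2) ^ (K + 1) ≤ (Real.log A) ^ (K + 1) := pow_le_pow_left₀ (by positivity) hl1 _
              refine le_trans ?_ h6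
              rw [div_pow, le_div_iff₀ hp1, pow_succ L K]
              exact mul_le_mul_of_nonneg_left hLK (by positivity)
            exact div_le_div₀ (by positivity) hA2 (by positivity) h5
          linarith
        have h7 : 0 ≤ (S''.card : ℝ) + A / (Real.log A) ^ (K + 1) := by positivity
        have h8 : δ * (H'' : ℝ) * ((S''.card : ℝ) + A / (Real.log A) ^ (K + 1)) * ρ1 r ≤
            δ * (2 * (H / d)) * ((Sq d r S).card + X / d / L ^ K) * (2 * ρ) := by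
          have h9 : δ * (H'' : ℝ) ≤ δ * (2 * (H / d)) := mul_le_mul_of_nonneg_left h1 hδ.le
          have h10 := mul_le_mul h9 h2 h7 (by positivity)
          exact mul_le_mul h10 hr2 hr0 (by positivity)
        refine h8.trans (le_of_eq ?_)
        ring
    have hfin := dl_class (w1 r) hg0r hr hdX hHX hP
    refine hfin.trans ?_
    have q1 : 2 * (1 + g r) * ((Sq d r S).card : ℝ) ≤ 2 * (1 + G) * (Sq d r S).card :=
      mul_le_mul_of_nonneg_right (by linarith) (Nat.cast_nonneg _)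
    have q2 : (1 + g r) * (H' : ℝ) ≤ (1 + G) * (2 * (H / d)) :=
      mul_le_mul (by linarith) hH'u (Nat.cast_nonneg _) (by linarith)
    linarith
  -- the sum over the classes
  have hfib : ∑ N ∈ Ioc X (X + H), |(cD d k T S N : ℝ) - g (N % d) * sg (w1 (N % d)) d S N| =
      ∑ r ∈ range d, ∑ N ∈ (Ioc X (X + H)).filter (fun N => N % d = r),
        |(cD d k T S N : ℝ) - g r * sg (w1 r) d S N| := by
    rw [← sum_fiberwise_of_maps_to (s := Ioc X (X + H)) (t := range d) (g := fun N => N % d)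
      (fun N _ => mem_range.mpr (Nat.mod_lt N (by omega)))]
    refine sum_congr rfl fun r _ => sum_congr rfl fun N hN => ?_
    rw [(mem_filter.mp hN).2]
  have hsqS : ∑ r ∈ range d, ((Sq d r S).card : ℝ) ≤ Sc := by
    rw [hSc]
    exact_mod_cast dl_sq d (by omega) S
  have hs1 : ∑ N ∈ Ioc X (X + H), |(cD d k T S N : ℝ) - g (N % d) * sg (w1 (N % d)) d S N| ≤
      5 * δ * (H / d) * ρ * (Sc + X / L ^ K) := by
    rw [hfib]
    refine (sum_le_sum hcls).trans ?_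
    rw [sum_add_distrib, sum_add_distrib, ← mul_sum, ← mul_sum, sum_add_distrib, sum_const, sum_const, card_range,
      nsmul_eq_mul, nsmul_eq_mul]
    have e1 : (d : ℝ) * (X / d / L ^ K) = X / L ^ K := by
      field_simp
    have e2 : (d : ℝ) * ((1 + G) * (2 * (H / d))) = 2 * (1 + G) * H := by
      field_simp
    rw [e1, e2]
    have hc : 0 ≤ 4 * δ * (H / d) * ρ := by positivity
    have t1 : 4 * δ * (H / d) * ρ * (∑ r ∈ range d, ((Sq d r S).card : ℝ) + X / L ^ K) ≤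
        4 * δ * (H / d) * ρ * (Sc + X / L ^ K) := mul_le_mul_of_nonneg_left (by linarith) hc
    have t2 : 2 * (1 + G) * ∑ r ∈ range d, ((Sq d r S).card : ℝ) ≤ δ * (H / d) * ρ * Sc := by
      have h1 : 2 * (1 + G) * ∑ r ∈ range d, ((Sq d r S).card : ℝ) ≤ 2 * (1 + G) * Sc :=
        mul_le_mul_of_nonneg_left hsqS (by linarith)
      have h2 : 2 * (1 + G) ≤ δ * (H / d) * ρ := by
        refine hG3.trans (mul_le_mul_of_nonneg_right ?_ hρ0.le)
        rw [mul_div_assoc', le_div_iff₀ hd0]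
        have h3 : 6 ≤ L * δ := by
          rw [div_le_iff₀ hδ] at hL6
          exact hL6
        have h4 : 6 * L ^ (B + 2) * d ≤ L * δ * L ^ (B + 2) * L := by
          have h5 : 6 * L ^ (B + 2) ≤ L * δ * L ^ (B + 2) := mul_le_mul_of_nonneg_right h3 (by positivity)
          exact mul_le_mul h5 hdL hd0.le (by positivity)
        have h6 : L * δ * L ^ (B + 2) * L = δ * L ^ (B + 4) := by ring
        have h7 : L ^ (B + 4) ≤ (H : ℝ) := (pow_le_pow_right₀ hL1 (by omega)).trans hHbig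
        have h8 : δ * L ^ (B + 4) ≤ δ * H := mul_le_mul_of_nonneg_left h7 hδ.le
        linarith
      have h3 : 2 * (1 + G) * Sc ≤ δ * (H / d) * ρ * Sc := mul_le_mul_of_nonneg_right h2 (Nat.cast_nonneg _)
      linarith
    have t3 : 2 * (1 + G) * H ≤ δ * (H / d) * ρ * (X / L ^ K) := by
      have h2 : 2 * (1 + G) ≤ δ * (X / (d * L ^ K)) * ρ := by
        refine hG3.trans (mul_le_mul_of_nonneg_right ?_ hρ0.le)
        rw [mul_div_assoc', le_div_iff₀ (by positivity)]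
        have h3 : 6 ≤ L * δ := by
          rw [div_le_iff₀ hδ] at hL6
          exact hL6
        have h4 : 6 * L ^ (B + 2) * (d * L ^ K) ≤ L * δ * L ^ (B + 2) * (L * L ^ K) := by
          have h5 : 6 * L ^ (B + 2) ≤ L * δ * L ^ (B + 2) := mul_le_mul_of_nonneg_right h3 (by positivity)
          have h6 : (d : ℝ) * L ^ K ≤ L * L ^ K := mul_le_mul_of_nonneg_right hdL (by positivity)
          exact mul_le_mul h5 h6 (by positivity) (by positivity)
        have h6 : L * δ * L ^ (B + 2) * (L * L ^ K) = δ * L ^ (K + B + 4) := by ring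
        have h8 : δ * L ^ (K + B + 4) ≤ δ * X := mul_le_mul_of_nonneg_left (hHbig.trans hHXr) hδ.le
        linarith
      have h3 := mul_le_mul_of_nonneg_right h2 hH0.le
      refine h3.trans (le_of_eq ?_)
      field_simp
    linarith
  -- the change of the density
  have hWH : d * primorial (wX X) ≤ H := by
    have h1 : (d : ℝ) * (Pool.Agent.Lib.SW.WX X : ℝ) ≤ H := by
      have h2 : (d : ℝ) * (Pool.Agent.Lib.SW.WX X : ℝ) ≤ L * L ^ 2 :=
        mul_le_mul hdL hWL (Nat.cast_nonneg _) hL0.le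
      have h3 : L * L ^ 2 = L ^ 3 := by ring
      linarith
    exact_mod_cast h1
  have h12 : 0 < 12 / δ := by positivity
  have hwX0 : (0 : ℝ) < wX X := by linarith
  have hwX1 : 1 ≤ wX X := by
    have : (0 : ℕ) < wX X := by exact_mod_cast hwX0
    exact this
  have hdA := dwA (wX X) d X H S hd1 hWH
  have hdB := dwB (wX X) (wX X - 1) d X H S hwX1 (Or.inr (by omega)) hd1 hWH
  have hcmp : ∀ N ∈ Ioc X (X + H), |g (N % d) * sg (w1 (N % d)) d S N - cX X * (sg (wX X) d S N : ℝ) * ρ| ≤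
      2 * ρ * |cW (wX X - 1) * (sg (wX X - 1) d S N : ℝ) - cW (wX X) * (sg (wX X) d S N : ℝ)| +
        δ * ρ * (cW (wX X) * (sg (wX X) d S N : ℝ)) := by
    intro N _
    have hr : N % d < d := Nat.mod_lt N (by omega)
    obtain ⟨hr0, hr2⟩ := hρr0 _ hr
    have e1 : g (N % d) * (sg (w1 (N % d)) d S N : ℝ) = cW (w1 (N % d)) * (sg (w1 (N % d)) d S N : ℝ) * ρ1 (N % d) := by
      have e2 : g (N % d) = cW (w1 (N % d)) * ρ1 (N % d) := rfl
      rw [e2]
      ring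
    have e3 : cX X * (sg (wX X) d S N : ℝ) * ρ = cW (wX X) * (sg (wX X) d S N : ℝ) * ρ := rfl
    rw [e1, e3]
    have hcW : 0 ≤ cW (wX X) := by
      unfold Pool.Agent.Lib.MP_5d7b92_nt.UA.cW
      positivity
    refine dl_cmp (mul_nonneg hcW (Nat.cast_nonneg _)) hρ0.le hr0 hr2 (hρr _ hr) ?_
    rcases hw1r _ hr with h | h
    · rw [h, sub_self, abs_zero]
      exact abs_nonneg _
    · have h' : w1 (N % d) = wX X - 1 := by omega
      rw [h']
  have hs2 : ∑ N ∈ Ioc X (X + H), |g (N % d) * sg (w1 (N % d)) d S N - cX X * (sg (wX X) d S N : ℝ) * ρ| ≤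
      4 * δ * (H / d) * ρ * Sc := by
    refine (sum_le_sum hcmp).trans ?_
    rw [sum_add_distrib, ← mul_sum, ← mul_sum]
    have u1 := mul_le_mul_of_nonneg_left hdB (by positivity : 0 ≤ 2 * ρ)
    have u2 := mul_le_mul_of_nonneg_left hdA (by positivity : 0 ≤ δ * ρ)
    have u3 : 2 * ρ * (6 * Sc * (H / (d * wX X))) ≤ δ * (H / d) * ρ * Sc := by
      have h1 : 12 / (wX X : ℝ) ≤ δ := by
        rw [div_le_iff₀ hwX0]
        have h2 : 12 / δ ≤ wX X := by linarith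
        rw [div_le_iff₀ hδ] at h2
        linarith
      have h3 : 2 * ρ * (6 * Sc * (H / (d * wX X))) = 12 / (wX X : ℝ) * ((H / d) * ρ * Sc) := by
        field_simp
        ring
      rw [h3]
      have h4 : 0 ≤ (H : ℝ) / d * ρ * Sc := mul_nonneg (by positivity) (Nat.cast_nonneg _)
      have h5 := mul_le_mul_of_nonneg_right h1 h4
      linarith
    linarith
  calc ∑ N ∈ Ioc X (X + H), |(cD d k T S N : ℝ) - cX X * (sg (wX X) d S N : ℝ) * ρ|
      ≤ ∑ N ∈ Ioc X (X + H), (|(cD d k T S N : ℝ) - g (N % d) * sg (w1 (N % d)) d S N| +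
          |g (N % d) * sg (w1 (N % d)) d S N - cX X * (sg (wX X) d S N : ℝ) * ρ|) := by
        refine sum_le_sum fun N _ => ?_
        exact abs_sub_le _ _ _
    _ ≤ 5 * δ * (H / d) * ρ * (Sc + X / L ^ K) + 4 * δ * (H / d) * ρ * Sc := by
        rw [sum_add_distrib]
        exact add_le_add hs1 hs2
    _ ≤ ε * (H / d) * (Sc + X / L ^ K) * ρ := by
        have h1 : 0 ≤ (X : ℝ) / L ^ K := by positivity
        have h2 : 4 * δ * (H / d) * ρ * Sc ≤ 4 * δ * (H / d) * ρ * (Sc + X / L ^ K) :=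
          mul_le_mul_of_nonneg_left (by linarith) (by positivity)
        have h3 : 9 * δ * ((H / d) * ρ * (Sc + X / L ^ K)) ≤ ε * ((H / d) * ρ * (Sc + X / L ^ K)) := by
          refine mul_le_mul_of_nonneg_right (by linarith) ?_
          have h4 : 0 ≤ Sc := Nat.cast_nonneg _
          positivity
        linarith

end Pool.Agent.Lib.WL
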