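import Pool.Agent.Lib.T8.Def
import Pool.Agent.Lib.SW.SP3
import Pool.Agent.Lib.SW.LG1

/-!
# WL: `N = s + m`, `s` in an arbitrary set `S`, `m` almost prime, `N` in ONE class modulo `W` and in a window of length `(log X)^C`: definitions

`WX X` is the product of the primes `≤ log log X`, `cX X = W/φ(W)`, `Sa W S a` the set of the `s ∈ S` with `a - s` coprime to `W` (SW/SP3, LG1);
`EL`, `sL`, `RgL` are in G8/LDefs, `FZ`, `rZ`, `dT` in T8/Def, `ram` in VK/TDef (`ram Q n = LQ (squarefree q ≤ Q) n`, `LQ`, `gq` in SW/RamModel).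
-/

set_option autoImplicit false

open Finset

namespace Pool.Agent.Lib.WL

open Pool.Agent.Lib.SW (WX cX Sa gq Q2Of)
open Pool.Agent.Lib.G8 (EL)

/-- the `N ≡ a (W)` in the window `(Z, Z + H]` -/
def wnd (Z H W a : ℕ) : Finset ℕ := (Ioc Z (Z + H)).filter fun N => N ≡ a [MOD W]

open Classical in
/-- number of the `s ∈ S` with `N - s` typical -/
noncomputable def cE (k U : ℕ) (T S : Finset ℕ) (N : ℕ) : ℕ := (S.filter fun s => s < N ∧ EL k U T (N - s)).card

/-- number of the `s ∈ S` such that `N - s` has exactly `k` prime factors, counted with multiplicity, the least one in `T` -/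
def cT (k : ℕ) (T S : Finset ℕ) (N : ℕ) : ℕ :=
  (S.filter fun s => s < N ∧ (N - s).primeFactorsList.length = k ∧ (N - s).minFac ∈ T).card

/-- the moduli `q ≤ Q` prime to `W`, squarefree, with `Q < q W` -/
noncomputable def QT (W Q : ℕ) : Finset ℕ := (Q2Of W Q).filter fun q => Q < q * W

/-- the incomplete sum over the divisors of `W` -/
noncomputable def Dd (W Q q : ℕ) (u : ℤ) : ℝ := ∑ d ∈ W.divisors.filter (fun d => d * q ≤ Q), gq d u

/-- the block `i` of `S` as seen from `Z`: `2^i < Z - s ≤ 2^(i+1)` -/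
def Sb (Z : ℕ) (S : Finset ℕ) (i : ℕ) : Finset ℕ := S.filter fun s => 2 ^ i < Z - s ∧ Z - s ≤ 2 ^ (i + 1)

/-- the primes with index in `I` -/
def ixd (I : Set ℕ) (p : ℕ) : Prop := p.Prime ∧ Nat.primeCounting p ∈ I

end Pool.Agent.Lib.WL
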