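import Pool.Agent.Lib.WL.NDef
import Pool.Agent.Lib.MP_5d7b92_nt.UA.Fb

/-!
# WL, row FB: few members of a short interval have a large smooth part (compare `few_bad`, `sum_log_sp` in UA/Fb.lean, UA/Me.lean)

PROOF IN WORDS. `w = wX X`, `L = log X`. `∑_{m ∈ (A, A+H]} log (sp w m) = ∑_{p ≤ w} ∑_{j ≥ 1, p^j ≤ A+H} log p · #{m : p^j ∣ m} ≤ ∑_p ∑_j log p (H/p^j + 1) ≤ H ∑_{p ≤ w} log p/(p-1) + w · log (A + H)` (at most `log (A+H)/log p` values of `j`), and `∑_{p ≤ w} log p/(p-1) ≤ C1 log w` (Mertens, see `sum_log_sp` in UA/Fb.lean),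
`w log (4X) ≤ 2 w L ≤ H` for large `X`. So the sum is at most `C2 H log w`, and the number of `m` with `log (sp w m) > D0 log w` is at most `C2 H/D0 ≤ ε H`.
-/

set_option autoImplicit false

open Finset

namespace Pool.Agent.Lib.WL

open Pool.Agent.Lib.SW (wX)
open Pool.Agent.Lib.MP_5d7b92_nt.UA (sp PR mem_PR sum_log_sp)

private theorem FB_fac (p M : ℕ) : ∑ m ∈ Icc 1 M, m.factorization p = (M.factorial).factorization p := by
  induction M with
  | zero => simp
  | succ M ih =>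
    rw [sum_Icc_succ_top (by omega), ih, Nat.factorial_succ,
      Nat.factorization_mul (by omega) (Nat.factorial_ne_zero _), Finsupp.coe_add, Pi.add_apply,
      add_comm]

private theorem FB_val (p A H : ℕ) :
    ∑ m ∈ Ioc A (A + H), m.factorization p ≤ (∑ m ∈ Icc 1 H, m.factorization p) + Nat.log p (A + H) := by
  have h1 : ∑ m ∈ Icc 1 (A + H), m.factorization p =
      ∑ m ∈ Icc 1 A, m.factorization p + ∑ m ∈ Ioc A (A + H), m.factorization p := by
    rw [← sum_union]
    · refine sum_congr ?_ fun _ _ => rfl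
      ext m
      simp only [mem_union, mem_Icc, mem_Ioc]
      omega
    · rw [Finset.disjoint_left]
      intro m hm hm'
      rw [mem_Icc] at hm
      rw [mem_Ioc] at hm'
      omega
  rw [FB_fac, FB_fac] at h1
  rw [FB_fac p H]
  have h2 : ((A + H).factorial).factorization p =
      ((A + H).choose H).factorization p + (A.factorial).factorization p + (H.factorial).factorization p := by
    rw [← Nat.add_choose_mul_factorial_mul_factorial A H, Nat.factorization_mul, Nat.factorization_mul]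
    · rw [Finsupp.coe_add, Finsupp.coe_add, Pi.add_apply, Pi.add_apply]
      try simp
    · exact (Nat.choose_pos (by omega)).ne'
    · exact Nat.factorial_ne_zero _
    · exact Nat.mul_ne_zero (Nat.choose_pos (by omega)).ne' (Nat.factorial_ne_zero _)
    · exact Nat.factorial_ne_zero _
  have h3 : ((A + H).choose H).factorization p ≤ Nat.log p (A + H) := Nat.factorization_choose_le_log
  omega

private theorem FB_logsp (w m : ℕ) :
    Real.log (sp w m) = ∑ p ∈ PR w, (m.factorization p : ℝ) * Real.log p := by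
  unfold sp
  push_cast
  rw [Real.log_prod]
  · exact sum_congr rfl fun p _ => Real.log_pow _ _
  · intro p hp
    have h1 : (0 : ℝ) < p := by exact_mod_cast (mem_PR.1 hp).2.pos
    exact (pow_pos h1 _).ne'

private theorem FB_swap (w : ℕ) (S : Finset ℕ) : ∑ m ∈ S, Real.log (sp w m) =
    ∑ p ∈ PR w, (∑ m ∈ S, (m.factorization p : ℝ)) * Real.log p := by
  rw [sum_congr rfl fun m _ => FB_logsp w m, sum_comm]
  exact sum_congr rfl fun p _ => (sum_mul _ _ _).symm

private theorem FB_natlog (p n : ℕ) (hp : p.Prime) (hn : n ≠ 0) :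
    (Nat.log p n : ℝ) * Real.log p ≤ Real.log n := by
  rw [← Real.log_pow]
  have h1 : p ^ Nat.log p n ≤ n := Nat.pow_log_le_self p hn
  have h2 : 0 < p ^ Nat.log p n := pow_pos hp.pos _
  have h3 : ((p : ℝ) ^ Nat.log p n) ≤ n := by exact_mod_cast h1
  have h4 : (0 : ℝ) < (p : ℝ) ^ Nat.log p n := by exact_mod_cast h2
  exact Real.log_le_log h4 h3

private theorem FB_card (w : ℕ) : ((PR w).card : ℝ) ≤ w := by
  have h4 : PR w ⊆ Icc 1 w := by
    intro p hp
    obtain ⟨h5, h6⟩ := mem_PR.1 hp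
    exact mem_Icc.2 ⟨h6.one_lt.le, h5⟩
  have h5 := card_le_card h4
  rw [Nat.card_Icc, Nat.add_sub_cancel] at h5
  exact_mod_cast h5

private theorem FB_sum (w A H : ℕ) (hH : 0 < H) :
    ∑ m ∈ Ioc A (A + H), Real.log (sp w m) ≤
      ∑ m ∈ Icc 1 H, Real.log (sp w m) + w * Real.log ((A + H : ℕ) : ℝ) := by
  rw [FB_swap, FB_swap]
  have h1 : ∀ p ∈ PR w, (∑ m ∈ Ioc A (A + H), (m.factorization p : ℝ)) * Real.log p ≤
      (∑ m ∈ Icc 1 H, (m.factorization p : ℝ)) * Real.log p + Real.log ((A + H : ℕ) : ℝ) := by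
    intro p hp
    obtain ⟨-, hpp⟩ := mem_PR.1 hp
    have h2 : (∑ m ∈ Ioc A (A + H), (m.factorization p : ℝ)) ≤
        (∑ m ∈ Icc 1 H, (m.factorization p : ℝ)) + Nat.log p (A + H) := by
      exact_mod_cast FB_val p A H
    have h3 : 0 ≤ Real.log (p : ℝ) := Real.log_nonneg (by exact_mod_cast hpp.one_lt.le)
    have h4 := FB_natlog p (A + H) hpp (by omega)
    calc (∑ m ∈ Ioc A (A + H), (m.factorization p : ℝ)) * Real.log p ≤
          ((∑ m ∈ Icc 1 H, (m.factorization p : ℝ)) + Nat.log p (A + H)) * Real.log p :=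
          mul_le_mul_of_nonneg_right h2 h3
      _ = (∑ m ∈ Icc 1 H, (m.factorization p : ℝ)) * Real.log p + Nat.log p (A + H) * Real.log p := by ring
      _ ≤ _ := by linarith
  refine (sum_le_sum h1).trans ?_
  rw [sum_add_distrib, sum_const, nsmul_eq_mul]
  have h5 : 0 ≤ Real.log ((A + H : ℕ) : ℝ) := Real.log_natCast_nonneg _
  have h6 := mul_le_mul_of_nonneg_right (FB_card w) h5
  linarith

private theorem FB_sp_pos (w m : ℕ) : 0 < sp w m := by
  unfold sp
  exact Finset.prod_pos fun p hp => pow_pos (mem_PR.1 hp).2.pos _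

theorem fbL (ε : ℝ) (hε : 0 < ε) : ∃ D0 X0 : ℕ, ∀ X A H : ℕ, X0 ≤ X → A ≤ 2 * X → (Real.log X) ^ 2 ≤ H → H ≤ 2 * X →
    (((Ioc A (A + H)).filter fun m => (wX X) ^ D0 < sp (wX X) m).card : ℝ) ≤ ε * H := by
  obtain ⟨C1, hC1, hsl⟩ := sum_log_sp
  obtain ⟨D0, hD0⟩ := exists_nat_gt (2 / ε)
  obtain ⟨w1, hw1⟩ := Filter.eventually_atTop.1 (Pool.Agent.Lib.SW.LG3_log_ev (C1 + 1))
  obtain ⟨X0, hX0⟩ := Filter.eventually_atTop.1 ((Pool.Agent.Lib.SW.LG3_loglog_ev ((w1 : ℝ) + 3)).and
    ((Pool.Agent.Lib.SW.LG3_log_ev 4).and (Filter.eventually_ge_atTop 3)))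
  refine ⟨D0, X0, fun X A H hX hA hLH hHX => ?_⟩
  obtain ⟨hl1, hl2, hX3⟩ := hX0 X hX
  have hw1' : (0 : ℝ) ≤ w1 := Nat.cast_nonneg _
  have hXr : (3 : ℝ) ≤ X := by exact_mod_cast hX3
  obtain ⟨L, hL⟩ : ∃ L : ℝ, L = Real.log X := ⟨_, rfl⟩
  rw [← hL] at hl1 hl2 hLH
  have hLpos : 0 < L := by linarith
  have hwle : (wX X : ℝ) ≤ Real.log L := by
    unfold Pool.Agent.Lib.SW.wX
    rw [← hL]
    exact Nat.floor_le (by linarith)
  have hwge : w1 + 3 ≤ wX X := by
    unfold Pool.Agent.Lib.SW.wX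
    rw [← hL]
    refine Nat.le_floor ?_
    push_cast
    exact hl1
  obtain ⟨w, hw⟩ : ∃ w : ℕ, w = wX X := ⟨_, rfl⟩
  rw [← hw] at hwle hwge ⊢
  have hlogw : C1 + 1 ≤ Real.log w := hw1 w (by omega)
  have hH0 : (0 : ℝ) < H := lt_of_lt_of_le (by positivity) hLH
  have hHpos : 0 < H := by exact_mod_cast hH0
  -- the bound for the last term
  have hlog4 : Real.log 4 ≤ 2 := by
    have h1 : Real.log 4 = 2 * Real.log 2 := by
      rw [show (4 : ℝ) = 2 ^ 2 by norm_num, Real.log_pow]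
      norm_num
    have h2 := Real.log_two_lt_d9
    linarith
  have hlogL : Real.log L ≤ L / 2 := by
    have h1 := Real.log_le_sub_one_of_pos (show (0 : ℝ) < L / 2 by linarith)
    rw [Real.log_div hLpos.ne' (by norm_num)] at h1
    have h2 := Real.log_two_lt_d9
    linarith
  have hAH : Real.log ((A + H : ℕ) : ℝ) ≤ 2 * L := by
    have h1 : ((A + H : ℕ) : ℝ) ≤ 4 * X := by
      have : A + H ≤ 4 * X := by omega
      exact_mod_cast this
    have h2 : (0 : ℝ) < ((A + H : ℕ) : ℝ) := by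
      have : 0 < A + H := by omega
      exact_mod_cast this
    have h3 := Real.log_le_log h2 h1
    rw [Real.log_mul (by norm_num) (by linarith), ← hL] at h3
    linarith
  have hw0 : (0 : ℝ) ≤ w := Nat.cast_nonneg _
  have hlast : (w : ℝ) * Real.log ((A + H : ℕ) : ℝ) ≤ H := by
    calc (w : ℝ) * Real.log ((A + H : ℕ) : ℝ) ≤ w * (2 * L) := mul_le_mul_of_nonneg_left hAH hw0
      _ ≤ (L / 2) * (2 * L) := mul_le_mul_of_nonneg_right (hwle.trans hlogL) (by linarith)
      _ = L ^ 2 := by ring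
      _ ≤ H := hLH
  have hsum : ∑ m ∈ Ioc A (A + H), Real.log (sp w m) ≤ (H : ℝ) * (2 * Real.log w) := by
    refine (FB_sum w A H hHpos).trans ?_
    have h1 := hsl w H (by omega)
    nlinarith
  -- Markov
  have hmark : (((Ioc A (A + H)).filter fun m => w ^ D0 < sp w m).card : ℝ) * (D0 * Real.log w) ≤
      ∑ m ∈ Ioc A (A + H), Real.log (sp w m) := by
    rw [← nsmul_eq_mul, ← sum_const]
    refine (sum_le_sum fun m hm => ?_).trans
      (sum_le_sum_of_subset_of_nonneg (filter_subset _ _) fun m _ _ => Real.log_natCast_nonneg _)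
    obtain ⟨h1, h2⟩ := mem_filter.1 hm
    rw [← Real.log_pow]
    have h3 : (0 : ℝ) < (w : ℝ) ^ D0 := pow_pos (by exact_mod_cast (by omega : 0 < w)) _
    refine Real.log_le_log h3 ?_
    exact_mod_cast h2.le
  generalize (((Ioc A (A + H)).filter fun m => w ^ D0 < sp w m).card : ℝ) = c at *
  have hlw : 0 < Real.log w := by linarith
  have h1 : (c * D0) * Real.log w ≤ (2 * H) * Real.log w := by
    have := hmark.trans hsum
    linarith
  have h2 : c * D0 ≤ 2 * H := le_of_mul_le_mul_right h1 hlw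
  have h3 : (2 : ℝ) < D0 * ε := by
    rwa [div_lt_iff₀ hε] at hD0
  rcases le_or_gt c 0 with hc | hc
  · have : 0 ≤ ε * H := by positivity
    linarith
  · have h4 : c * 2 ≤ c * (D0 * ε) := mul_le_mul_of_nonneg_left h3.le hc.le
    have h5 : (c * D0) * ε ≤ (2 * H) * ε := mul_le_mul_of_nonneg_right h2 hε.le
    nlinarith

end Pool.Agent.Lib.WL
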