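import Pool.Agent.Lib.WL.Def
import Pool.Agent.Lib.T8.Var
import Pool.Agent.Lib.T8.Bd
import Pool.Agent.Lib.G3.FourV

/-!
# WL, row Fo: the finite Fourier inequality for the block functions and an arbitrary set `S`

PROOF IN WORDS. `varZ K A c2` gives `g`, `a1`, `c6`. Let `F n = FZ n - rZ n ram Q n` (as complex numbers), `G m = 1` if `m ∈ S` and `0` otherwise. `F n ≠ 0 → 1 ≤ n ≤ 32Y` by `FZ_le`, `rZ_le` (with `c1 + 1` in the place of `c1`). `fourV` with `H`, `X = 32Y`, `Y = Z`, `Z = 32Y + H + 1`,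
`D = 32Y H/(log 32Y)^A` (`VV ≤ (1/log^A) 32Y H^2 = D H`): `∑_{N ∈ (Z, Z+H]} |∑_{n ≤ N} F n G (N - n)|^2 ≤ 2 D ∑_{m < Z + H} |G m|^2 ≤ 2 D |S|`; and `∑_{n ∈ range (N+1)} F n G (N - n) = ∑_{s ∈ S} F (N - s)` for `N > Z` (all `s ≤ Z < N`; substitute `n = N - s`).
-/

set_option autoImplicit false

open Finset

namespace Pool.Agent.Lib.WL

open Pool.Agent.Lib.T8 (FZ rZ)
open Pool.Agent.Lib.G8 (RgL)
open Pool.Agent.Lib.VKT (ram)

theorem foW (K A c2 : ℕ) : ∃ g : ℕ, c2 ≤ g ∧ ∃ a1 : ℕ, ∀ c1 : ℕ, a1 ≤ c1 → ∃ (c6 : ℕ) (x0 : ℝ), ∀ Y : ℕ, x0 ≤ Y →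
    ∀ (k U w' : ℕ) (T : Finset ℕ), 2 ≤ k → k ≤ K → RgL (4 * Y) U w' (c1 + 1) (1000 * K) T → ∀ H : ℕ, 1 ≤ H →
      (w' : ℝ) * (Real.log (32 * Y : ℕ)) ^ c6 ≤ H → ∀ (Z : ℕ) (S : Finset ℕ), (∀ s ∈ S, s ≤ Z) →
        ∑ N ∈ Ioc Z (Z + H), (∑ s ∈ S, (FZ Y k U T (N - s) - rZ Y k U T (N - s) * ram ⌊(Real.log (32 * Y : ℕ)) ^ g⌋₊ (N - s))) ^ 2 ≤
          64 * Y * H * S.card / (Real.log (32 * Y : ℕ)) ^ A := by
  classical
  obtain ⟨g, hg, a1, hv⟩ := Pool.Agent.Lib.T8.varZ K A c2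
  refine ⟨g, hg, a1, fun c1 hc1 => ?_⟩
  obtain ⟨c6, _, x0, hx⟩ := hv c1 hc1
  obtain ⟨x1, h1⟩ := Pool.Agent.Lib.T8.FZ_le K (c1 + 1)
  obtain ⟨x2, h2⟩ := Pool.Agent.Lib.T8.rZ_le K (c1 + 1)
  refine ⟨c6, max (max x0 2) (max x1 x2), fun Y hY k U w' T hk hkK hR H hH hwH Z S hS => ?_⟩
  have hY0 : x0 ≤ Y := ((le_max_left _ _).trans (le_max_left _ _)).trans hY
  have hY2 : (2 : ℝ) ≤ Y := ((le_max_right _ _).trans (le_max_left _ _)).trans hY
  have hY3 : x1 ≤ Y := ((le_max_left _ _).trans (le_max_right _ _)).trans hY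
  have hY4 : x2 ≤ Y := ((le_max_right _ _).trans (le_max_right _ _)).trans hY
  have hl : 0 < Real.log (32 * Y : ℕ) := by
    refine Real.log_pos ?_
    push_cast
    linarith
  obtain ⟨F, hF⟩ : ∃ F : ℕ → ℂ, F = fun n => ((FZ Y k U T n : ℝ) : ℂ) -
    ((rZ Y k U T n * ram ⌊(Real.log (32 * Y : ℕ)) ^ g⌋₊ n : ℝ) : ℂ) := ⟨_, rfl⟩
  have hVV := hx Y hY0 k U w' T hk hkK hR H hwH
  rw [← hF] at hVV
  have hFs : ∀ n, F n ≠ 0 → 1 ≤ n ∧ n ≤ 32 * Y := by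
    intro n hn
    by_contra hc
    apply hn
    have e1 : FZ Y k U T n = 0 := by
      by_contra h
      exact hc ((h1 Y hY3 U w' T hR k hk hkK n).2.2 h)
    have e2 : rZ Y k U T n = 0 := by
      by_contra h
      exact hc ((h2 Y hY4 U w' T hR k hk hkK n).2.2 h)
    rw [hF]
    simp only
    rw [e1, e2]
    simp
  have hH' : (0 : ℝ) < H := by exact_mod_cast hH
  have key := Pool.Agent.Lib.G3.fourV H (32 * Y) Z (32 * Y + H + 1) hH (by omega) F (fun m => if m ∈ S then 1 else 0) hFs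
    ((32 * Y : ℕ) * H / (Real.log (32 * Y : ℕ)) ^ A) (by
      intro al
      refine (hVV al).trans (le_of_eq ?_)
      ring)
  have hG : ∑ m ∈ range (Z + H), ‖(if m ∈ S then (1 : ℂ) else 0)‖ ^ 2 ≤ S.card := by
    have e : ∀ m ∈ range (Z + H), ‖(if m ∈ S then (1 : ℂ) else 0)‖ ^ 2 = if m ∈ S then (1 : ℝ) else 0 := by
      intro m _
      split_ifs <;> simp
    rw [sum_congr rfl e, ← sum_filter, sum_const, nsmul_eq_mul, mul_one]
    have : ((range (Z + H)).filter fun m => m ∈ S) ⊆ S := fun m hm => (mem_filter.1 hm).2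
    exact_mod_cast card_le_card this
  have hN : ∀ N ∈ Ioc Z (Z + H), ‖∑ n ∈ range (N + 1), F n * (if N - n ∈ S then 1 else 0)‖ ^ 2 =
      (∑ s ∈ S, (FZ Y k U T (N - s) - rZ Y k U T (N - s) * ram ⌊(Real.log (32 * Y : ℕ)) ^ g⌋₊ (N - s))) ^ 2 := by
    intro N hN
    rw [mem_Ioc] at hN
    have e1 : ∑ n ∈ range (N + 1), F n * (if N - n ∈ S then 1 else 0) =
        ∑ m ∈ range (N + 1), F (N - m) * (if m ∈ S then 1 else 0) := by
      rw [← sum_range_reflect]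
      refine sum_congr rfl fun j hj => ?_
      rw [mem_range] at hj
      rw [show N + 1 - 1 - j = N - j by omega, show N - (N - j) = j by omega]
    have e2 : ∑ m ∈ range (N + 1), F (N - m) * (if m ∈ S then 1 else 0) = ∑ s ∈ S, F (N - s) := by
      have e3 : ∀ m ∈ range (N + 1), F (N - m) * (if m ∈ S then 1 else 0) = if m ∈ S then F (N - m) else 0 := by
        intro m _
        split_ifs <;> simp
      rw [sum_congr rfl e3, ← sum_filter]
      refine sum_congr ?_ fun _ _ => rfl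
      ext m
      simp only [mem_filter, mem_range]
      constructor
      · exact fun h => h.2
      · intro h
        have := hS m h
        exact ⟨by omega, h⟩
    have e4 : ∑ s ∈ S, F (N - s) = ((∑ s ∈ S, (FZ Y k U T (N - s) -
        rZ Y k U T (N - s) * ram ⌊(Real.log (32 * Y : ℕ)) ^ g⌋₊ (N - s)) : ℝ) : ℂ) := by
      rw [Complex.ofReal_sum]
      refine sum_congr rfl fun s _ => ?_
      rw [hF, Complex.ofReal_sub]
    rw [e1, e2, e4, Complex.norm_real, Real.norm_eq_abs, sq_abs]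
  rw [sum_congr rfl hN] at key
  refine key.trans ?_
  have hD : (0 : ℝ) ≤ 2 * ((32 * Y : ℕ) * H / (Real.log (32 * Y : ℕ)) ^ A) := by positivity
  refine (mul_le_mul_of_nonneg_left hG hD).trans (le_of_eq ?_)
  push_cast
  ring

end Pool.Agent.Lib.WL
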