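import Pool.Agent.Lib.WL.Mn
import Pool.Agent.Lib.MTR.Idx

/-!
# WL, row Ix: index sets with bounded gaps: almost all even `N` of every window

PROOF IN WORDS. `L = log X`, `W = WX X` (even for large `X`), `S = {p ≤ 2X : p prime, π(p) ∈ I}`. Let `a < W` be even, and `N1 ≡ a (W)` in `(X, X + W]` (exists), so `N1` is even, `N1 ≤ 4X/3`. `every m` (MTR/Idx; its constants `r`, `C`) at `N1`: at least `N1/(log N1)^C` primes `p ≤ 3 N1/4 ≤ X` with `π(p) ∈ I` such that all prime factors of `N1 - p` are `> N1^(1/r)`,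
hence `> log log X` for large `X`, so `(N1 - p, W) = 1` and `p ∈ Sa W S a` (`cop_cast`); so the set `S1 = S ∩ [1, X]` has `|Sa W S1 a| ≥ X/L^(C+1)`. For all `N ≡ a`, `N > X`: `SN W S1 N = Sa W S1 a`. `mnW 2 (C+1) B` for the set `S1` with `ε' = min ε 1/4`: for all but `ε' H/W` of the `N ≡ a` of the window `cT 2 T S1 N ≥ (1/2) |Sa| δ/L ≥ X/L^(C+B+4)`, and
`cT 2 T S N ≥ cT 2 T S1 N`. At most `W` classes: `≤ ε' H` exceptions. (`m = 0`: `I` cannot meet the empty interval, the hypothesis is false.)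
-/

set_option autoImplicit false

open Finset

namespace Pool.Agent.Lib.WL

open Pool.Agent.Lib.SW (WX wX cX Sa SN cop_cast mem_Sa SN_eq_Sa one_le_cX cX_le_log)
open Pool.Agent.Lib.T8 (dT)

private theorem ix_large (r Ce N0 : ℕ) : ∃ X1 : ℕ, ∀ X : ℕ, X1 ≤ X → N0 ≤ X ∧ 2 ≤ wX X ∧ (wX X) ^ r ≤ X ∧
    6 * WX X ≤ X ∧ 2 ≤ Real.log X ∧ (2 : ℝ) ^ Ce ≤ Real.log X := by
  have hL : Filter.Tendsto (fun X : ℕ => Real.log (X : ℝ)) Filter.atTop Filter.atTop :=
    Real.tendsto_log_atTop.comp tendsto_natCast_atTop_atTop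
  have hLL : Filter.Tendsto (fun X : ℕ => Real.log (Real.log (X : ℝ))) Filter.atTop Filter.atTop :=
    Real.tendsto_log_atTop.comp hL
  have hpow : ∀ (k : ℕ) (c : ℝ), 0 < c → ∀ᶠ X : ℕ in Filter.atTop, (Real.log (X : ℝ)) ^ k ≤ c * X := by
    intro k c hc
    have h1 := (Real.isLittleO_pow_log_id_atTop (n := k)).bound hc
    filter_upwards [tendsto_natCast_atTop_atTop.eventually h1] with X hX
    simp only [Real.norm_eq_abs, id_eq, Nat.abs_cast] at hX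
    exact (le_abs_self _).trans hX
  obtain ⟨Xc, hXc⟩ := cX_le_log
  have hev := ((((((Filter.eventually_ge_atTop N0).and (hLL.eventually_ge_atTop 2)).and
    (hpow r 1 one_pos)).and (hpow 2 (1 / 6) (by norm_num))).and (hL.eventually_ge_atTop 2)).and
    (hL.eventually_ge_atTop ((2 : ℝ) ^ Ce))).and (Filter.eventually_ge_atTop Xc)
  obtain ⟨X1, hX1⟩ := Filter.eventually_atTop.1 hev
  refine ⟨X1, fun X hX => ?_⟩
  obtain ⟨⟨⟨⟨⟨⟨h1, h2⟩, h3⟩, h4⟩, h5⟩, h6⟩, h7⟩ := hX1 X hX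
  have hL0 : (0 : ℝ) ≤ Real.log X := by linarith
  have hLL0 : (0 : ℝ) ≤ Real.log (Real.log X) := by linarith
  have hle : Real.log (Real.log X) ≤ Real.log X := (Real.log_le_sub_one_of_pos (by linarith)).trans (by linarith)
  have hw : ((wX X : ℕ) : ℝ) ≤ Real.log (Real.log X) := Nat.floor_le hLL0
  refine ⟨h1, Nat.le_floor (by exact_mod_cast h2), ?_, ?_, h5, h6⟩
  · have h8 : ((wX X : ℕ) : ℝ) ^ r ≤ X := by
      calc ((wX X : ℕ) : ℝ) ^ r ≤ (Real.log X) ^ r := pow_le_pow_left₀ (Nat.cast_nonneg _) (hw.trans hle) r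
        _ ≤ 1 * X := h3
        _ = X := one_mul _
    exact_mod_cast h8
  · have h8 := (hXc X h7).2
    have h9 : (6 : ℝ) * WX X ≤ X := by linarith
    exact_mod_cast h9

open Classical in
private theorem ix_class {m r Ce N0 : ℕ} (hev : ∀ N : ℕ, N0 ≤ N → Even N →
    ∀ S : ℕ → Prop, (∀ n ≤ N, ∃ b, n < b ∧ b ≤ n + m ∧ S b) →
    N / (Real.log N) ^ Ce ≤
      (((range N).filter (fun p => N ≤ 4 * p ∧ 4 * p ≤ 3 * N ∧ p.Prime ∧ S (Nat.primeCounting p) ∧
        ∀ q : ℕ, q.Prime → q ∣ N - p → N < q ^ r)).card : ℝ)) {X a : ℕ} (h1 : N0 ≤ X) (h2 : 2 ≤ wX X)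
    (h3 : (wX X) ^ r ≤ X) (h4 : 6 * WX X ≤ X) (h5 : 2 ≤ Real.log X) (h6 : (2 : ℝ) ^ Ce ≤ Real.log X)
    (ha : a < WX X) (hae : Even a) {I : Set ℕ} (hI : ∀ n : ℕ, n ≤ 2 * X → ∃ b ∈ I, n < b ∧ b ≤ n + m) :
    X / (Real.log X) ^ (Ce + 1) ≤ ((Sa (WX X) ((Icc 1 X).filter (ixd I)) a).card : ℝ) := by
  set W := WX X with hW
  have hWe : Even W := by
    rw [hW, even_iff_two_dvd]
    exact Nat.prime_two.dvd_primorial_iff.2 h2
  have hW0 : 0 < W := by omega
  set N1 : ℕ := (X / W + 1) * W + a with hN1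
  have e0 : W * (X / W) + X % W = X := Nat.div_add_mod X W
  have e1 : X % W < W := Nat.mod_lt X hW0
  have e2 : (X / W + 1) * W = W * (X / W) + W := by ring
  have hN1X : X < N1 := by omega
  have hN1u : N1 ≤ X + 2 * W := by omega
  have hN1m : N1 ≡ a [MOD W] := by
    show N1 % W = a % W
    rw [hN1, Nat.add_mod, Nat.mul_mod_left, zero_add, Nat.mod_mod]
  have hN1e : Even N1 := (hWe.mul_left _).add hae
  have h := hev N1 (by omega) hN1e (fun n => n ∈ I) (fun n hn => by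
    obtain ⟨b, hb, h7, h8⟩ := hI n (by omega)
    exact ⟨b, h7, h8, hb⟩)
  have hXpos : (0 : ℝ) < X := by
    have : 0 < X := by omega
    exact_mod_cast this
  have hN1pos : (0 : ℝ) < N1 := by
    have : 0 < N1 := by omega
    exact_mod_cast this
  have hXN : (X : ℝ) ≤ N1 := by exact_mod_cast hN1X.le
  have hlog1 : Real.log X ≤ Real.log N1 := Real.log_le_log hXpos hXN
  have hlog2 : Real.log N1 ≤ 2 * Real.log X := by
    have h7 : (N1 : ℝ) ≤ (X : ℝ) ^ 2 := by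
      have h8 : N1 ≤ X ^ 2 := by nlinarith
      exact_mod_cast h8
    calc Real.log N1 ≤ Real.log ((X : ℝ) ^ 2) := Real.log_le_log hN1pos h7
      _ = 2 * Real.log X := by rw [Real.log_pow]; norm_num
  have hpw : (Real.log N1) ^ Ce ≤ (Real.log X) ^ (Ce + 1) := by
    calc (Real.log N1) ^ Ce ≤ (2 * Real.log X) ^ Ce := pow_le_pow_left₀ (by linarith) hlog2 Ce
      _ = 2 ^ Ce * (Real.log X) ^ Ce := mul_pow _ _ _
      _ ≤ Real.log X * (Real.log X) ^ Ce := mul_le_mul_of_nonneg_right h6 (pow_nonneg (by linarith) _)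
      _ = (Real.log X) ^ (Ce + 1) := by rw [pow_succ, mul_comm]
  have hA : (X : ℝ) / (Real.log X) ^ (Ce + 1) ≤ N1 / (Real.log N1) ^ Ce :=
    div_le_div₀ hN1pos.le hXN (pow_pos (by linarith) _) hpw
  refine (hA.trans h).trans ?_
  have hsub : (range N1).filter (fun p => N1 ≤ 4 * p ∧ 4 * p ≤ 3 * N1 ∧ p.Prime ∧ (fun n => n ∈ I) (Nat.primeCounting p) ∧
        ∀ q : ℕ, q.Prime → q ∣ N1 - p → N1 < q ^ r) ⊆ Sa W ((Icc 1 X).filter (ixd I)) a := by
    intro p hp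
    rw [mem_filter, mem_range] at hp
    obtain ⟨hpN, -, h8, hpp, hpI, hq⟩ := hp
    rw [mem_Sa]
    refine ⟨mem_filter.2 ⟨mem_Icc.2 ⟨hpp.pos, by omega⟩, hpp, hpI⟩, (cop_cast hN1m hpN).1 ?_⟩
    by_contra hc
    obtain ⟨q, hqp, hq1, hq2⟩ := Nat.Prime.not_coprime_iff_dvd.1 hc
    have h9 : q ≤ wX X := hqp.dvd_primorial_iff.1 hq2
    have h10 := hq q hqp hq1
    have h11 : q ^ r ≤ (wX X) ^ r := Nat.pow_le_pow_left h9 r
    omega
  exact_mod_cast card_le_card hsub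

open Classical in
theorem ixW (m B : ℕ) : ∃ c0 C C1 : ℕ, ∀ ε : ℝ, 0 < ε → ∃ η : ℝ, 0 < η ∧ ∃ X0 : ℕ, ∀ (X H : ℕ) (w' : ℝ) (T : Finset ℕ),
    X0 ≤ X → 1 ≤ w' → w' ≤ (X : ℝ) ^ η → w' * (Real.log X) ^ C ≤ H → H ≤ X → (∀ q ∈ T, q.Prime ∧ (Real.log X) ^ c0 ≤ q ∧ (q : ℝ) ≤ w') →
      1 / (Real.log X) ^ B ≤ ∑ q ∈ T, 1 / (q : ℝ) → ∀ I : Set ℕ, (∀ n : ℕ, n ≤ 2 * X → ∃ b ∈ I, n < b ∧ b ≤ n + m) →
        (((Ioc X (X + H)).filter fun N => Even N ∧ (cT 2 T ((Icc 1 (2 * X)).filter (ixd I)) N : ℝ) < X / (Real.log X) ^ C1).card : ℝ) ≤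
          ε * H := by
  rcases Nat.eq_zero_or_pos m with rfl | hm
  · refine ⟨0, 0, 0, fun ε _ => ⟨1, one_pos, 0, ?_⟩⟩
    intro X H w' T _ _ _ _ _ _ _ I hI
    obtain ⟨b, _, h1, h2⟩ := hI 0 (Nat.zero_le _)
    omega
  obtain ⟨r, Ce, N0, hr, hev⟩ := MTR.every m hm
  obtain ⟨c0, C, hmn⟩ := mnW 2 (Ce + 1) B le_rfl
  obtain ⟨X1, hX1⟩ := ix_large r Ce N0
  refine ⟨c0, C, Ce + 1 + B + 2, fun ε hε => ?_⟩
  set ε' : ℝ := min ε (1 / 4) with hε'
  have hε0 : 0 < ε' := lt_min hε (by norm_num)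
  have hε4 : ε' ≤ 1 / 4 := min_le_right _ _
  obtain ⟨η, hη, X0, h⟩ := hmn ε' hε0
  refine ⟨η, hη, max X0 X1, ?_⟩
  intro X H w' T hX hw1 hw2 hw3 hH hT hB I hI
  obtain ⟨g1, g2, g3, g4, g5, g6⟩ := hX1 X ((le_max_right _ _).trans hX)
  set W := WX X with hW
  set S1 : Finset ℕ := (Icc 1 X).filter (ixd I) with hS1
  set S : Finset ℕ := (Icc 1 (2 * X)).filter (ixd I) with hS
  set L : ℝ := Real.log X with hL
  have hW0 : 0 < W := Pool.Agent.Lib.SW.WX_pos X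
  have hWr : (0 : ℝ) < W := by exact_mod_cast hW0
  have hS1X : S1 ⊆ Icc 1 X := filter_subset _ _
  have hS1X2 : S1 ⊆ Icc 1 (2 * X) := hS1X.trans (Icc_subset_Icc_right (by omega))
  have hS1S : S1 ⊆ S := filter_subset_filter _ (Icc_subset_Icc_right (by omega))
  have hL0 : 0 < L := by linarith
  have hd : dT 2 T X = ∑ q ∈ T, 1 / (q : ℝ) := by
    unfold dT
    refine sum_congr rfl fun q _ => ?_
    simp
  have hfib : ∀ a ∈ (range W).filter Even, (((((Ioc X (X + H)).filter fun N => Even N ∧ (cT 2 T S N : ℝ) <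
      X / L ^ (Ce + 1 + B + 2)).filter fun N => N % W = a).card : ℕ) : ℝ) ≤ ε' * (H / W) := by
    intro a ha
    rw [mem_filter, mem_range] at ha
    have hcl := ix_class hev g1 g2 g3 g4 g5 g6 ha.1 ha.2 hI
    have h1 := (h X H a w' T ((le_max_left _ _).trans hX) hw1 hw2 hw3 hH hT hB S1 hS1X2).1
    refine le_trans ?_ h1
    have hsub : (((Ioc X (X + H)).filter fun N => Even N ∧ (cT 2 T S N : ℝ) < X / L ^ (Ce + 1 + B + 2)).filter
        fun N => N % W = a) ⊆ (wnd X H W a).filter fun N => (cT 2 T S1 N : ℝ) < cX X * (SN W S1 N).card * (dT 2 T X / L) -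
          ε' * (cX X * max ((Sa W S1 a).card : ℝ) (X / L ^ (Ce + 1)) * (dT 2 T X / L)) := by
      intro N hN
      rw [mem_filter, mem_filter] at hN
      obtain ⟨⟨hN1, -, hN2⟩, hN3⟩ := hN
      have hNm : N ≡ a [MOD W] := by
        show N % W = a % W
        rw [hN3, Nat.mod_eq_of_lt ha.1]
      rw [mem_filter]
      refine ⟨mem_filter.2 ⟨hN1, hNm⟩, ?_⟩
      have hNX : X < N := (mem_Ioc.1 hN1).1
      have hc : (cT 2 T S1 N : ℝ) ≤ cT 2 T S N := by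
        exact_mod_cast card_le_card (filter_subset_filter _ hS1S)
      rw [SN_eq_Sa S1 hS1X hNX a hNm, max_eq_left hcl, hd]
      refine (hc.trans_lt hN2).trans_le ?_
      set A : ℝ := ((Sa W S1 a).card : ℝ) with hA
      set δ : ℝ := ∑ q ∈ T, 1 / (q : ℝ) with hδ
      have hcX := one_le_cX X
      have hA0 : 0 ≤ A := Nat.cast_nonneg _
      have hX0 : (0 : ℝ) ≤ X := Nat.cast_nonneg _
      have hδ1 : 1 / L ^ B / L ≤ δ / L := div_le_div_of_nonneg_right hB hL0.le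
      have hcA : X / L ^ (Ce + 1) ≤ cX X * A := by
        calc X / L ^ (Ce + 1) ≤ A := hcl
          _ ≤ cX X * A := le_mul_of_one_le_left hA0 hcX
      have hmul : X / L ^ (Ce + 1) * (1 / L ^ B / L) ≤ cX X * A * (δ / L) :=
        mul_le_mul hcA hδ1 (by positivity) (by positivity)
      have heq : X / L ^ (Ce + 1) * (1 / L ^ B / L) = X / L ^ (Ce + 1 + B + 1) := by
        rw [pow_succ L (Ce + 1 + B), pow_add L (Ce + 1) B]
        field_simp
      have hstep : X / L ^ (Ce + 1 + B + 2) ≤ (1 / 2) * (X / L ^ (Ce + 1 + B + 1)) := by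
        rw [show Ce + 1 + B + 2 = (Ce + 1 + B + 1) + 1 by omega, pow_succ L (Ce + 1 + B + 1), ← div_div]
        rw [div_le_iff₀ hL0]
        have h0 : 0 ≤ X / L ^ (Ce + 1 + B + 1) := by positivity
        nlinarith
      rw [heq] at hmul
      have hM0 : 0 ≤ cX X * A * (δ / L) := le_trans (by positivity) hmul
      nlinarith
    exact_mod_cast card_le_card hsub
  have hmaps : ∀ N ∈ (Ioc X (X + H)).filter (fun N => Even N ∧ (cT 2 T S N : ℝ) < X / L ^ (Ce + 1 + B + 2)),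
      N % W ∈ (range W).filter Even := by
    intro N hN
    rw [mem_filter] at hN
    rw [mem_filter, mem_range]
    refine ⟨Nat.mod_lt _ hW0, ?_⟩
    have hWe : 2 ∣ W := Nat.prime_two.dvd_primorial_iff.2 g2
    rw [Nat.even_iff, Nat.mod_mod_of_dvd _ hWe]
    exact Nat.even_iff.1 hN.2.1
  rw [card_eq_sum_card_fiberwise hmaps]
  push_cast
  calc ∑ a ∈ (range W).filter Even, (((((Ioc X (X + H)).filter fun N => Even N ∧ (cT 2 T S N : ℝ) <
      X / L ^ (Ce + 1 + B + 2)).filter fun N => N % W = a).card : ℕ) : ℝ)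
      ≤ ∑ a ∈ (range W).filter Even, ε' * (H / W) := sum_le_sum hfib
    _ = (((range W).filter Even).card : ℝ) * (ε' * (H / W)) := by rw [sum_const, nsmul_eq_mul]
    _ ≤ W * (ε' * (H / W)) := by
        refine mul_le_mul_of_nonneg_right ?_ (by positivity)
        have h7 : ((range W).filter Even).card ≤ W := (card_filter_le _ _).trans (card_range W).le
        exact_mod_cast h7
    _ = ε' * H := by field_simp
    _ ≤ ε * H := mul_le_mul_of_nonneg_right (min_le_left _ _) (Nat.cast_nonneg _)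

end Pool.Agent.Lib.WL
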