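import Pool.Agent.Lib.WL.Co
import Pool.Agent.Lib.WL.Cb
import Pool.Agent.Lib.T8.Mer
import Pool.Agent.Lib.T8.Sp

/-!
# WL, row M2: the asymptotic formula for all `k` (as WL/Mn.lean, with `cbW` in the place of the lower bound)

PROOF IN WORDS. As in Mn.lean (proof words there): `coW K k (B+1)` gives `c10`; `cbW k K B` gives `c0'`, `C''`, `M1`; `c0 = max (c10 + 3) c0'`, use `coW` with `c1 = c0 - 3 ≥ c10`, `C = max` of the two. For `ε`: `coW` with `ε/8` gives `M`; `M' = max M M1`; `U` = the largest with `U^(2M') ≤ X` (so `U^(2M) ≤ X` and `X ≤ (U+1)^(2M')`); `merA k (2M') (ε/8)`,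
`cbW` at `M'` with `ε/8` give `η`. `cE ≤ cT ≤ cE + cB` (`EL_len`; a counted `s` is typical or counted by `cB`). Outside the two exceptional sets (`≤ (ε/8) H/W` each): `|cT - c |SN| dT/L| ≤ (ε/2) c m dT/L + (ε/8) c m dT/L`.
-/

set_option autoImplicit false

open Finset

namespace Pool.Agent.Lib.WL

open Pool.Agent.Lib.SW (WX cX Sa SN)
open Pool.Agent.Lib.T8 (dT)
open Pool.Agent.Lib.G8 (EL sL di)
open Pool.Agent.Lib.G5 (esy)

private theorem m2_ev (M f : ℕ) (hM : 1 ≤ M) : ∃ X0 : ℕ, ∀ X : ℕ, X0 ≤ X → 1 ≤ (X : ℝ) ∧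
    2 ≤ (X : ℝ) ^ (1 / (8 * M) : ℝ) ∧ 2 * (f : ℝ) + 2 ≤ Real.log X := by
  have hl4 : ∀ᶠ x : ℝ in Filter.atTop, 2 * (f : ℝ) + 2 ≤ Real.log x :=
    Real.tendsto_log_atTop.eventually (Filter.eventually_ge_atTop _)
  have hM0 : (0 : ℝ) < M := by exact_mod_cast hM
  have hp : ∀ᶠ x : ℝ in Filter.atTop, (2 : ℝ) ≤ x ^ (1 / (8 * M : ℝ)) :=
    (tendsto_rpow_atTop (by positivity)).eventually (Filter.eventually_ge_atTop _)
  obtain ⟨x1, hx1⟩ := Filter.eventually_atTop.1 ((hl4.and hp).and (Filter.eventually_ge_atTop (1 : ℝ)))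
  refine ⟨⌈x1⌉₊, fun X hX => ?_⟩
  have hX' : x1 ≤ X := (Nat.le_ceil _).trans (by exact_mod_cast hX)
  obtain ⟨⟨h2, h4⟩, h3⟩ := hx1 X hX'
  exact ⟨h3, h4, h2⟩

private theorem m2_U (M : ℕ) (hM : 1 ≤ M) (Y : ℕ) (hY : 1 ≤ Y) : ∃ U : ℕ, U ^ M ≤ Y ∧ Y ≤ (U + 1) ^ M ∧
    (Y : ℝ) ^ (1 / (M : ℝ)) - 1 ≤ U := by
  have hn0 : (0 : ℝ) < M := by exact_mod_cast hM
  have hY0 : (0 : ℝ) < Y := by exact_mod_cast hY
  have hy : (0 : ℝ) ≤ (Y : ℝ) ^ (1 / (M : ℝ)) := by positivity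
  have b1 : ((⌊(Y : ℝ) ^ (1 / (M : ℝ))⌋₊ : ℕ) : ℝ) ≤ (Y : ℝ) ^ (1 / (M : ℝ)) := Nat.floor_le hy
  have b2 : (Y : ℝ) ^ (1 / (M : ℝ)) < (⌊(Y : ℝ) ^ (1 / (M : ℝ))⌋₊ : ℝ) + 1 := Nat.lt_floor_add_one _
  have e1 : ((Y : ℝ) ^ (1 / (M : ℝ))) ^ M = Y := by
    rw [← Real.rpow_natCast, ← Real.rpow_mul hY0.le]
    rw [one_div, inv_mul_cancel₀ hn0.ne', Real.rpow_one]
  refine ⟨⌊(Y : ℝ) ^ (1 / (M : ℝ))⌋₊, ?_, ?_, by linarith⟩
  · have h : ((⌊(Y : ℝ) ^ (1 / (M : ℝ))⌋₊ : ℕ) : ℝ) ^ M ≤ Y := by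
      calc ((⌊(Y : ℝ) ^ (1 / (M : ℝ))⌋₊ : ℕ) : ℝ) ^ M ≤ ((Y : ℝ) ^ (1 / (M : ℝ))) ^ M := pow_le_pow_left₀ (Nat.cast_nonneg _) b1 M
        _ = Y := e1
    exact_mod_cast h
  · have h : (Y : ℝ) ≤ ((⌊(Y : ℝ) ^ (1 / (M : ℝ))⌋₊ : ℝ) + 1) ^ M := by
      calc (Y : ℝ) = ((Y : ℝ) ^ (1 / (M : ℝ))) ^ M := e1.symm
        _ ≤ _ := pow_le_pow_left₀ hy b2.le M
    exact_mod_cast h

private theorem m2_cE_le {k U N : ℕ} {T S : Finset ℕ} (hT : ∀ q ∈ T, q.Prime) : cE k U T S N ≤ cT k T S N := by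
  classical
  unfold cE cT
  refine Finset.card_le_card fun s hs => ?_
  rw [mem_filter] at hs ⊢
  obtain ⟨h1, h2, h3⟩ := hs
  exact ⟨h1, h2, Pool.Agent.Lib.T8.EL_len hT h3⟩

private theorem m2_cT_le {k U N : ℕ} {T S : Finset ℕ} : cT k T S N ≤ cE k U T S N + cB k U T S N := by
  classical
  have h1 : (S.filter fun s => s < N ∧ (N - s).primeFactorsList.length = k ∧ (N - s).minFac ∈ T) ⊆
      (S.filter fun s => s < N ∧ EL k U T (N - s)) ∪ (S.filter fun s => s < N ∧ (N - s).primeFactorsList.length = k ∧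
        (N - s).minFac ∈ T ∧ ¬ EL k U T (N - s)) := by
    intro s hs
    rw [mem_filter] at hs
    obtain ⟨h1, h2, h3, h4⟩ := hs
    rw [mem_union, mem_filter, mem_filter]
    by_cases h : EL k U T (N - s)
    · exact Or.inl ⟨h1, h2, h⟩
    · exact Or.inr ⟨h1, h2, h3, h4, h⟩
  have h2 := Finset.card_le_card h1
  have h4 := Finset.card_union_le (S.filter fun s => s < N ∧ EL k U T (N - s))
    (S.filter fun s => s < N ∧ (N - s).primeFactorsList.length = k ∧ (N - s).minFac ∈ T ∧ ¬ EL k U T (N - s))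
  have e1 : cE k U T S N = (S.filter fun s => s < N ∧ EL k U T (N - s)).card := by
    unfold cE
    congr
  have e2 : cB k U T S N = (S.filter fun s => s < N ∧ (N - s).primeFactorsList.length = k ∧
      (N - s).minFac ∈ T ∧ ¬ EL k U T (N - s)).card := by
    unfold cB
    congr
  rw [e1, e2]
  unfold cT
  omega

private theorem m2_SN_le {W N a : ℕ} (hN : N ≡ a [MOD W]) (S : Finset ℕ) : (SN W S N).card ≤ (Sa W S a).card := by
  refine Finset.card_le_card fun s hs => ?_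
  unfold SN at hs
  rw [mem_filter] at hs
  obtain ⟨h1, h2, h3⟩ := hs
  exact Pool.Agent.Lib.SW.mem_Sa.2 ⟨h1, (Pool.Agent.Lib.SW.cop_cast hN h2).1 h3⟩

/-- the comparison of the two main terms -/
private theorem m2_cmp {E c A m s d L e : ℝ} (he0 : 0 < e) (he : e ≤ 1 / 8) (hc : 0 ≤ c) (hA : 0 ≤ A) (hAm : A ≤ m)
    (hd : 0 ≤ d) (hL : 0 < L) (h1 : |E - c * A * (s / L)| ≤ e * (c * m * (s / L))) (h2 : |s - d| ≤ e * d) :
    |E - c * A * (d / L)| ≤ 4 * e * (c * m * (d / L)) := by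
  have hm : 0 ≤ m := hA.trans hAm
  obtain ⟨s1, s2⟩ := abs_le.1 h2
  have hs : s ≤ 2 * d := by nlinarith
  have e1 : E - c * A * (d / L) = (E - c * A * (s / L)) + c * A * ((s - d) / L) := by
    field_simp
    ring
  rw [e1]
  refine (abs_add_le _ _).trans ?_
  have h3 : |c * A * ((s - d) / L)| ≤ e * (c * m * (d / L)) := by
    rw [abs_mul, abs_of_nonneg (mul_nonneg hc hA), abs_div, abs_of_pos hL]
    have h4 : |s - d| / L ≤ e * d / L := div_le_div_of_nonneg_right h2 hL.le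
    calc c * A * (|s - d| / L) ≤ c * A * (e * d / L) := mul_le_mul_of_nonneg_left h4 (mul_nonneg hc hA)
      _ ≤ c * m * (e * d / L) := mul_le_mul_of_nonneg_right (mul_le_mul_of_nonneg_left hAm hc) (by positivity)
      _ = e * (c * m * (d / L)) := by ring
  have h5 : e * (c * m * (s / L)) ≤ e * (c * m * (2 * d / L)) := by
    refine mul_le_mul_of_nonneg_left (mul_le_mul_of_nonneg_left ?_ (mul_nonneg hc hm)) he0.le
    exact div_le_div_of_nonneg_right hs hL.le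
  have h6 : e * (c * m * (2 * d / L)) = 2 * e * (c * m * (d / L)) := by ring
  have h7 : 0 ≤ e * (c * m * (d / L)) := by positivity
  linarith

theorem mn2 (k K B : ℕ) (hk : 2 ≤ k) : ∃ c0 C : ℕ, ∀ ε : ℝ, 0 < ε → ∃ η : ℝ, 0 < η ∧ ∃ X0 : ℕ, ∀ (X H a : ℕ) (w' : ℝ) (T : Finset ℕ),
    X0 ≤ X → 1 ≤ w' → w' ≤ (X : ℝ) ^ η → w' * (Real.log X) ^ C ≤ H → H ≤ X → (∀ q ∈ T, q.Prime ∧ (Real.log X) ^ c0 ≤ q ∧ (q : ℝ) ≤ w') →
      1 / (Real.log X) ^ B ≤ ∑ q ∈ T, 1 / (q : ℝ) → ∀ S : Finset ℕ, S ⊆ Icc 1 (2 * X) →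
        (((wnd X H (WX X) a).filter fun N => ε * (cX X * max ((Sa (WX X) S a).card : ℝ) (X / (Real.log X) ^ K) * (dT k T X / Real.log X)) <
          |(cT k T S N : ℝ) - cX X * (SN (WX X) S N).card * (dT k T X / Real.log X)|).card : ℝ) ≤ ε * (H / WX X) := by
  classical
  obtain ⟨c10, hco⟩ := coW K k (B + 1)
  obtain ⟨c0', C', M1, hcb⟩ := cbW k K B hk
  obtain ⟨c0, hc0⟩ : ∃ c0 : ℕ, c0 = max (c10 + 3) c0' := ⟨_, rfl⟩
  have hc01 : c10 + 3 ≤ c0 := by omega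
  have hc02 : c0' ≤ c0 := by omega
  obtain ⟨C, hco⟩ := hco (c0 - 3) (by omega)
  refine ⟨c0, max C C', fun ε hε => ?_⟩
  set e : ℝ := min ε 1 with he
  have he0 : 0 < e := lt_min hε one_pos
  have heε : e ≤ ε := min_le_left _ _
  have he1 : e ≤ 1 := min_le_right _ _
  obtain ⟨M, X1, hM, hco⟩ := hco (e / 8) (by positivity)
  obtain ⟨M2, hM2d⟩ : ∃ M2 : ℕ, M2 = max M M1 := ⟨_, rfl⟩
  have hMM : M ≤ M2 := by omega
  have hM2 : 2 ≤ M2 := by omega
  have hM0 : (0 : ℝ) < M2 := by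
    have : 0 < M2 := by omega
    exact_mod_cast this
  obtain ⟨η1, hη1, y0, hmer⟩ := Pool.Agent.Lib.T8.merA k (2 * M2) hk (by omega) (e / 8) (by positivity)
  obtain ⟨η2, hη2, X3, hcb⟩ := hcb M2 (by omega) (e / 8) (by positivity)
  obtain ⟨X2, hev⟩ := m2_ev M2 (Nat.factorial (k - 2)) (by omega)
  refine ⟨min η1 (min η2 (1 / (8 * M2))), lt_min hη1 (lt_min hη2 (by positivity)),
    max (max X1 X2) (max (max ⌈y0⌉₊ 1) X3), ?_⟩
  intro X H a w' T hX hw1 hw2 hw3 hHX hT hTs S hS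
  have hX1 : X1 ≤ X := le_trans (le_trans (le_max_left _ _) (le_max_left _ _)) hX
  have hX2 : X2 ≤ X := le_trans (le_trans (le_max_right _ _) (le_max_left _ _)) hX
  have hX3 : y0 ≤ X := (Nat.le_ceil _).trans (by
    exact_mod_cast le_trans (le_trans (le_trans (le_max_left _ _) (le_max_left _ _)) (le_max_right _ _)) hX)
  have hXn : 1 ≤ X := le_trans (le_trans (le_trans (le_max_right _ _) (le_max_left _ _)) (le_max_right _ _)) hX
  have hX4 : X3 ≤ X := le_trans (le_trans (le_max_right _ _) (le_max_right _ _)) hX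
  obtain ⟨hXr, ht2, hLf⟩ := hev X hX2
  set L : ℝ := Real.log X with hLdef
  have hf1 : (1 : ℝ) ≤ (Nat.factorial (k - 2) : ℝ) := by exact_mod_cast Nat.factorial_pos (k - 2)
  have hL4 : 4 ≤ L := by linarith
  have hL0 : 0 < L := by linarith
  have hX0 : (0 : ℝ) < X := by linarith
  have hLC : L ^ C ≤ L ^ max C C' := pow_le_pow_right₀ (by linarith) (le_max_left _ _)
  have hLC' : L ^ C' ≤ L ^ max C C' := pow_le_pow_right₀ (by linarith) (le_max_right _ _)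
  obtain ⟨U, hU1, hU2, hU3⟩ := m2_U (2 * M2) (by omega) X hXn
  have hUM : U ^ (2 * M) ≤ X := by
    rcases Nat.eq_zero_or_pos U with h0 | h0
    · rw [h0, zero_pow (by omega)]
      exact Nat.zero_le _
    · exact (Nat.pow_le_pow_right h0 (by omega)).trans hU1
  set t : ℝ := (X : ℝ) ^ (1 / (8 * M2) : ℝ) with ht
  have ht4 : (X : ℝ) ^ (1 / ((2 * M2 : ℕ) : ℝ)) = t ^ 4 := by
    rw [ht, ← Real.rpow_natCast, ← Real.rpow_mul hX0.le]
    congr 1
    push_cast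
    field_simp
    norm_num
  have hwt : w' ≤ t := hw2.trans (Real.rpow_le_rpow_of_exponent_le hXr ((min_le_right _ _).trans (min_le_right _ _)))
  have hwη : w' ≤ (X : ℝ) ^ η1 := hw2.trans (Real.rpow_le_rpow_of_exponent_le hXr (min_le_left _ _))
  have h2tU : 2 * t ≤ U := by
    rw [ht4] at hU3
    have h1 : 2 * t + 1 ≤ t ^ 4 := by
      have h2 : 8 * t ≤ t ^ 4 := by
        have h3 : (2 : ℝ) ^ 3 ≤ t ^ 3 := pow_le_pow_left₀ (by norm_num) ht2 3
        calc 8 * t = 2 ^ 3 * t := by norm_num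
          _ ≤ t ^ 3 * t := mul_le_mul_of_nonneg_right h3 (by linarith)
          _ = t ^ 4 := by ring
      linarith
    linarith
  have hwfl : ((⌊w'⌋₊ : ℕ) : ℝ) ≤ w' := Nat.floor_le (by linarith)
  have hwU : 2 * ⌊w'⌋₊ ≤ U := by
    have h1 : ((2 * ⌊w'⌋₊ : ℕ) : ℝ) ≤ U := by
      push_cast
      linarith
    exact_mod_cast h1
  have hw1' : 1 ≤ ⌊w'⌋₊ := Nat.le_floor (by exact_mod_cast hw1)
  have hT' : ∀ q ∈ T, q.Prime ∧ L ^ c0 ≤ q ∧ q ≤ ⌊w'⌋₊ := fun q hq => by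
    obtain ⟨h1, h2, h3⟩ := hT q hq
    exact ⟨h1, h2, Nat.le_floor h3⟩
  have hT3 : ∀ q ∈ T, q.Prime ∧ L ^ (c0 - 3 + 3) ≤ q ∧ q ≤ ⌊w'⌋₊ := by
    have e3 : c0 - 3 + 3 = c0 := by omega
    rw [e3]
    exact hT'
  have hTU : ∀ q ∈ T, q.Prime ∧ 2 * q ≤ U := fun q hq => by
    obtain ⟨h1, h2, h3⟩ := hT' q hq
    exact ⟨h1, by omega⟩
  have hLq : ∀ q ∈ T, L ≤ q := fun q hq => by
    obtain ⟨h1, h2, h3⟩ := hT q hq
    refine le_trans ?_ h2
    calc L = L ^ 1 := (pow_one L).symm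
      _ ≤ L ^ c0 := pow_le_pow_right₀ (by linarith) (by omega)
  -- the two densities
  set D : ℕ → ℝ := fun q => (Real.log (Real.log X / Real.log q)) ^ (k - 2) / (Nat.factorial (k - 2) : ℝ) with hD
  have hdT : dT k T X = ∑ q ∈ T, 1 / (q : ℝ) * D q := rfl
  have hDq : ∀ q ∈ T, 1 / (Nat.factorial (k - 2) : ℝ) ≤ D q := fun q hq => by
    obtain ⟨h1, h2, h3⟩ := hT q hq
    have hq2 : (2 : ℝ) ≤ q := by exact_mod_cast h1.two_le
    have hlq : 0 < Real.log q := Real.log_pos (by linarith)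
    have h4 : Real.log q ≤ 1 / (8 * M2) * L := by
      have h5 : Real.log q ≤ Real.log t := Real.log_le_log (by linarith) (h3.trans hwt)
      rwa [ht, Real.log_rpow hX0] at h5
    have h5 : Real.log q ≤ L / 16 := by
      refine h4.trans ?_
      have hM2 : (2 : ℝ) ≤ M2 := by exact_mod_cast hM2
      rw [div_mul_eq_mul_div, one_mul, div_le_div_iff₀ (by positivity) (by norm_num)]
      nlinarith
    have h6 : 16 ≤ L / Real.log q := by
      rw [le_div_iff₀ hlq]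
      linarith
    have h7 : 1 ≤ Real.log (L / Real.log q) := by
      rw [Real.le_log_iff_exp_le (by linarith)]
      have := Real.exp_one_lt_d9
      linarith
    have h8 : 1 ≤ (Real.log (Real.log X / Real.log q)) ^ (k - 2) := one_le_pow₀ h7
    exact div_le_div_of_nonneg_right h8 (by linarith)
  have hD0 : ∀ q ∈ T, 0 ≤ D q := fun q hq => le_trans (by positivity) (hDq q hq)
  have hd0 : 0 ≤ dT k T X := by
    rw [hdT]
    exact Finset.sum_nonneg fun q hq => mul_nonneg (by positivity) (hD0 q hq)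
  have hdl : 1 / (Nat.factorial (k - 2) : ℝ) * (1 / L ^ B) ≤ dT k T X := by
    rw [hdT]
    calc 1 / (Nat.factorial (k - 2) : ℝ) * (1 / L ^ B) ≤ 1 / (Nat.factorial (k - 2) : ℝ) * ∑ q ∈ T, 1 / (q : ℝ) :=
          mul_le_mul_of_nonneg_left hTs (by positivity)
      _ = ∑ q ∈ T, 1 / (q : ℝ) * (1 / (Nat.factorial (k - 2) : ℝ)) := by
          rw [Finset.mul_sum]
          exact Finset.sum_congr rfl fun q _ => mul_comm _ _
      _ ≤ ∑ q ∈ T, 1 / (q : ℝ) * D q :=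
          Finset.sum_le_sum fun q hq => mul_le_mul_of_nonneg_left (hDq q hq) (by positivity)
  have hsd : |sL k U T - dT k T X| ≤ e / 8 * dT k T X := by
    rw [hdT]
    unfold sL
    rw [← Finset.sum_sub_distrib]
    refine (Finset.abs_sum_le_sum_abs _ _).trans ?_
    rw [Finset.mul_sum]
    refine Finset.sum_le_sum fun q hq => ?_
    obtain ⟨h1, h2, h3⟩ := hT q hq
    have h4 := hmer X U q hX3 hU1 hU2 (hLq q hq) (h3.trans hwη)
    rw [← mul_sub, abs_mul, abs_of_nonneg (by positivity : (0 : ℝ) ≤ 1 / (q : ℝ))]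
    calc 1 / (q : ℝ) * |esy (k - 2) (2 ^ (di q + 1)) U - D q| ≤ 1 / (q : ℝ) * (e / 8 * D q) :=
          mul_le_mul_of_nonneg_left h4 (by positivity)
      _ = e / 8 * (1 / (q : ℝ) * D q) := by ring
  have hsl : 1 / L ^ (B + 1) ≤ sL k U T := by
    have h1 : (7 / 8) * dT k T X ≤ sL k U T := by
      have h2 := (abs_le.1 hsd).1
      have h3 : e / 8 * dT k T X ≤ 1 / 8 * dT k T X := mul_le_mul_of_nonneg_right (by linarith) hd0
      linarith
    have h2 : 1 / L ^ (B + 1) ≤ (7 / 8) * (1 / (Nat.factorial (k - 2) : ℝ) * (1 / L ^ B)) := by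
      have hLB : 0 < L ^ B := by positivity
      have e1 : (7 / 8) * (1 / (Nat.factorial (k - 2) : ℝ) * (1 / L ^ B)) = (7 / (8 * (Nat.factorial (k - 2) : ℝ))) / L ^ B := by
        field_simp
      have e2 : 1 / L ^ (B + 1) = (1 / L) / L ^ B := by
        rw [pow_succ]
        field_simp
      rw [e1, e2]
      refine div_le_div_of_nonneg_right ?_ hLB.le
      rw [div_le_div_iff₀ hL0 (by positivity)]
      linarith
    linarith
  have hco' := hco X H a k U ⌊w'⌋₊ T hX1 hk le_rfl hT3 hwU hUM hsl hw1'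
    ((mul_le_mul hwfl hLC (by positivity) (by linarith)).trans hw3) hHX S hS
  have hc1 : 1 ≤ cX X := Pool.Agent.Lib.SW.one_le_cX X
  have hc0' : 0 ≤ cX X := by linarith
  have hW0 : (0 : ℝ) < WX X := by exact_mod_cast Pool.Agent.Lib.SW.WX_pos X
  have hHW : 0 ≤ (H : ℝ) / WX X := by positivity
  set m : ℝ := max ((Sa (WX X) S a).card : ℝ) (X / L ^ K) with hm
  have hm0 : 0 ≤ m := le_trans (Nat.cast_nonneg _) (le_max_left _ _)
  have hmd : 0 ≤ cX X * m * (dT k T X / L) := by positivity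
  have hTη : ∀ q ∈ T, q.Prime ∧ L ^ c0' ≤ q ∧ (q : ℝ) ≤ (X : ℝ) ^ η2 := fun q hq => by
    obtain ⟨h1, h2, h3⟩ := hT q hq
    refine ⟨h1, (pow_le_pow_right₀ (by linarith) hc02).trans h2, h3.trans (hw2.trans ?_)⟩
    exact Real.rpow_le_rpow_of_exponent_le hXr ((min_le_right _ _).trans (min_le_left _ _))
  have hHC : L ^ C' ≤ (H : ℝ) := by
    refine le_trans ?_ hw3
    calc L ^ C' ≤ L ^ max C C' := hLC'
      _ = 1 * L ^ max C C' := (one_mul _).symm
      _ ≤ w' * L ^ max C C' := mul_le_mul_of_nonneg_right hw1 (by positivity)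
  have hcb' := hcb X H a U T hX4 hU1 hU2 hTη hTs hHC hHX S hS
  have hTp : ∀ q ∈ T, q.Prime := fun q hq => (hT q hq).1
  have hsub : ((wnd X H (WX X) a).filter fun N => ε * (cX X * m * (dT k T X / L)) <
      |(cT k T S N : ℝ) - cX X * (SN (WX X) S N).card * (dT k T X / L)|) ⊆
      ((wnd X H (WX X) a).filter fun N => e / 8 * (cX X * m * (sL k U T / L)) <
        |(cE k U T S N : ℝ) - cX X * (SN (WX X) S N).card * (sL k U T / L)|) ∪
      ((wnd X H (WX X) a).filter fun N => e / 8 * (cX X * m * (dT k T X / L)) < (cB k U T S N : ℝ)) := by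
    intro N hN
    rw [mem_filter] at hN
    rw [mem_union, mem_filter, mem_filter]
    by_contra hcon
    rw [not_or] at hcon
    obtain ⟨hc1', hc2'⟩ := hcon
    have hnot := fun h => hc1' ⟨hN.1, h⟩
    have hnot2 := not_lt.1 fun h => hc2' ⟨hN.1, h⟩
    have hmod : N ≡ a [MOD WX X] := by
      have := hN.1
      unfold wnd at this
      exact (mem_filter.1 this).2
    have hAm : ((SN (WX X) S N).card : ℝ) ≤ m := by
      refine le_trans ?_ (le_max_left _ _)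
      exact_mod_cast m2_SN_le hmod S
    have h := m2_cmp (e := e / 8) (by positivity) (by linarith) hc0' (Nat.cast_nonneg _) hAm hd0 hL0 (not_lt.1 hnot) hsd
    have h2 : (cE k U T S N : ℝ) ≤ cT k T S N := by exact_mod_cast m2_cE_le hTp
    have h3 : (cT k T S N : ℝ) ≤ cE k U T S N + cB k U T S N := by
      exact_mod_cast m2_cT_le
    obtain ⟨b1, b2⟩ := abs_le.1 h
    have h4 : |(cT k T S N : ℝ) - cX X * (SN (WX X) S N).card * (dT k T X / L)| ≤
        e * (cX X * m * (dT k T X / L)) := by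
      have : 0 ≤ e * (cX X * m * (dT k T X / L)) := by positivity
      rw [abs_le]
      constructor <;> linarith
    have h5 : e * (cX X * m * (dT k T X / L)) ≤ ε * (cX X * m * (dT k T X / L)) :=
      mul_le_mul_of_nonneg_right heε hmd
    linarith [hN.2]
  have h1 := (Finset.card_le_card hsub).trans (Finset.card_union_le _ _)
  refine le_trans (Nat.cast_le.2 h1) ?_
  rw [Nat.cast_add]
  refine (add_le_add hco' hcb').trans ?_
  have : (e / 8 + e / 8) * ((H : ℝ) / WX X) ≤ ε * (H / WX X) := mul_le_mul_of_nonneg_right (by linarith) hHW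
  linarith

end Pool.Agent.Lib.WL
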