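import Pool.Agent.Lib.WL.CL
import Pool.Agent.Lib.WL.CbL
import Pool.Agent.Lib.T8.Mer
import Pool.Agent.Lib.T8.Sp

/-!
# WL, row ML: `mn2` in mean (copy of WL/M2.lean, with `coL`, `cbL`)

PROOF IN WORDS. As M2.lean and Mn.lean (parameters as there): `cE ≤ cT ≤ cE + cB` pointwise, so `|cT - c |SN| dT/L| ≤ |cE - c |SN| σ/L| + cB + c |SN| |σ - dT|/L`, the last one is `≤ (ε/8) c m dT/L` for each of the at most `2H/W` numbers `N` (merA), `σ ≤ 2 dT`. Sum with `coL` (`ε/8`) and `cbL` (`ε/8`).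
-/

set_option autoImplicit false

open Finset

namespace Pool.Agent.Lib.WL

open Pool.Agent.Lib.SW (WX cX Sa SN)
open Pool.Agent.Lib.T8 (dT)
open Pool.Agent.Lib.G8 (EL sL di)
open Pool.Agent.Lib.G5 (esy)
open Pool.Agent.Lib.SW (cX_le_log)

private theorem ml_ev (M f : ℕ) (hM : 1 ≤ M) : ∃ X0 : ℕ, ∀ X : ℕ, X0 ≤ X → 1 ≤ (X : ℝ) ∧
    2 ≤ (X : ℝ) ^ (1 / (8 * M) : ℝ) ∧ 2 * (f : ℝ) + 2 ≤ Real.log X := by
  have hl4 : ∀ᶠ x : ℝ in Filter.atTop, 2 * (f : ℝ) + 2 ≤ Real.log x :=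
    Real.tendsto_log_atTop.eventually (Filter.eventually_ge_atTop _)
  have hM0 : (0 : ℝ) < M := by exact_mod_cast hM
  have hp : ∀ᶠ x : ℝ in Filter.atTop, (2 : ℝ) ≤ x ^ (1 / (8 * M : ℝ)) :=
    (tendsto_rpow_atTop (by positivity)).eventually (Filter.eventually_ge_atTop _)
  obtain ⟨x1, hx1⟩ := Filter.eventually_atTop.1 ((hl4.and hp).and (Filter.eventually_ge_atTop (1 : ℝ)))
  refine ⟨⌈x1⌉₊, fun X hX => ?_⟩
  have hX' : x1 ≤ X := (Nat.le_ceil _).trans (by exact_mod_cast hX)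
  obtain ⟨⟨h2, h4⟩, h3⟩ := hx1 X hX'
  exact ⟨h3, h4, h2⟩

private theorem ml_U (M : ℕ) (hM : 1 ≤ M) (Y : ℕ) (hY : 1 ≤ Y) : ∃ U : ℕ, U ^ M ≤ Y ∧ Y ≤ (U + 1) ^ M ∧
    (Y : ℝ) ^ (1 / (M : ℝ)) - 1 ≤ U := by
  have hn0 : (0 : ℝ) < M := by exact_mod_cast hM
  have hY0 : (0 : ℝ) < Y := by exact_mod_cast hY
  have hy : (0 : ℝ) ≤ (Y : ℝ) ^ (1 / (M : ℝ)) := by positivity
  have b1 : ((⌊(Y : ℝ) ^ (1 / (M : ℝ))⌋₊ : ℕ) : ℝ) ≤ (Y : ℝ) ^ (1 / (M : ℝ)) := Nat.floor_le hy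
  have b2 : (Y : ℝ) ^ (1 / (M : ℝ)) < (⌊(Y : ℝ) ^ (1 / (M : ℝ))⌋₊ : ℝ) + 1 := Nat.lt_floor_add_one _
  have e1 : ((Y : ℝ) ^ (1 / (M : ℝ))) ^ M = Y := by
    rw [← Real.rpow_natCast, ← Real.rpow_mul hY0.le]
    rw [one_div, inv_mul_cancel₀ hn0.ne', Real.rpow_one]
  refine ⟨⌊(Y : ℝ) ^ (1 / (M : ℝ))⌋₊, ?_, ?_, by linarith⟩
  · have h : ((⌊(Y : ℝ) ^ (1 / (M : ℝ))⌋₊ : ℕ) : ℝ) ^ M ≤ Y := by
      calc ((⌊(Y : ℝ) ^ (1 / (M : ℝ))⌋₊ : ℕ) : ℝ) ^ M ≤ ((Y : ℝ) ^ (1 / (M : ℝ))) ^ M := pow_le_pow_left₀ (Nat.cast_nonneg _) b1 M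
        _ = Y := e1
    exact_mod_cast h
  · have h : (Y : ℝ) ≤ ((⌊(Y : ℝ) ^ (1 / (M : ℝ))⌋₊ : ℝ) + 1) ^ M := by
      calc (Y : ℝ) = ((Y : ℝ) ^ (1 / (M : ℝ))) ^ M := e1.symm
        _ ≤ _ := pow_le_pow_left₀ hy b2.le M
    exact_mod_cast h

private theorem ml_cE_le {k U N : ℕ} {T S : Finset ℕ} (hT : ∀ q ∈ T, q.Prime) : cE k U T S N ≤ cT k T S N := by
  classical
  unfold cE cT
  refine Finset.card_le_card fun s hs => ?_
  rw [mem_filter] at hs ⊢
  obtain ⟨h1, h2, h3⟩ := hs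
  exact ⟨h1, h2, Pool.Agent.Lib.T8.EL_len hT h3⟩

private theorem ml_cT_le {k U N : ℕ} {T S : Finset ℕ} : cT k T S N ≤ cE k U T S N + cB k U T S N := by
  classical
  have h1 : (S.filter fun s => s < N ∧ (N - s).primeFactorsList.length = k ∧ (N - s).minFac ∈ T) ⊆
      (S.filter fun s => s < N ∧ EL k U T (N - s)) ∪ (S.filter fun s => s < N ∧ (N - s).primeFactorsList.length = k ∧
        (N - s).minFac ∈ T ∧ ¬ EL k U T (N - s)) := by
    intro s hs
    rw [mem_filter] at hs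
    obtain ⟨h1, h2, h3, h4⟩ := hs
    rw [mem_union, mem_filter, mem_filter]
    by_cases h : EL k U T (N - s)
    · exact Or.inl ⟨h1, h2, h⟩
    · exact Or.inr ⟨h1, h2, h3, h4, h⟩
  have h2 := Finset.card_le_card h1
  have h4 := Finset.card_union_le (S.filter fun s => s < N ∧ EL k U T (N - s))
    (S.filter fun s => s < N ∧ (N - s).primeFactorsList.length = k ∧ (N - s).minFac ∈ T ∧ ¬ EL k U T (N - s))
  have e1 : cE k U T S N = (S.filter fun s => s < N ∧ EL k U T (N - s)).card := by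
    unfold cE
    congr
  have e2 : cB k U T S N = (S.filter fun s => s < N ∧ (N - s).primeFactorsList.length = k ∧
      (N - s).minFac ∈ T ∧ ¬ EL k U T (N - s)).card := by
    unfold cB
    congr
  rw [e1, e2]
  unfold cT
  omega

private theorem ml_SN_le {W N a : ℕ} (hN : N ≡ a [MOD W]) (S : Finset ℕ) : (SN W S N).card ≤ (Sa W S a).card := by
  refine Finset.card_le_card fun s hs => ?_
  unfold SN at hs
  rw [mem_filter] at hs
  obtain ⟨h1, h2, h3⟩ := hs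
  exact Pool.Agent.Lib.SW.mem_Sa.2 ⟨h1, (Pool.Agent.Lib.SW.cop_cast hN h2).1 h3⟩

private theorem ml_card_le (Z H W a : ℕ) (hW : 0 < W) : ((wnd Z H W a).card : ℝ) ≤ H / W + 1 := by
  have h1 := Nat.Ioc_filter_modEq_card Z (Z + H) hW a
  have h2 : (((wnd Z H W a).card : ℤ) : ℚ) ≤ (H : ℚ) / W + 1 := by
    unfold wnd
    rw [h1]
    rcases le_total (⌊(((Z + H : ℕ) : ℚ) - a) / W⌋ - ⌊((Z : ℚ) - a) / W⌋) 0 with h | h
    · rw [max_eq_right h]
      push_cast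
      positivity
    · rw [max_eq_left h]
      push_cast
      have f1 := Int.floor_le (((Z : ℚ) + H - a) / W)
      have f2 := Int.sub_one_lt_floor (((Z : ℚ) - a) / W)
      have f3 : ((Z : ℚ) + H - a) / W = ((Z : ℚ) - a) / W + H / W := by ring
      rw [f3] at f1
      rw [f3]
      linarith
  have h3 : (((wnd Z H W a).card : ℕ) : ℚ) ≤ (H : ℚ) / W + 1 := by exact_mod_cast h2
  have h4 : (((((wnd Z H W a).card : ℕ) : ℚ)) : ℝ) ≤ (((H : ℚ) / W + 1 : ℚ) : ℝ) := Rat.cast_le.2 h3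
  push_cast at h4
  exact h4

/-- the comparison of the two main terms -/
private theorem ml_cmp {E c A m s d L e : ℝ} (hc : 0 ≤ c) (hA : 0 ≤ A) (hAm : A ≤ m)
    (hL : 0 < L) (h2 : |s - d| ≤ e * d) :
    |E - c * A * (d / L)| ≤ |E - c * A * (s / L)| + e * (c * m * (d / L)) := by
  have e1 : E - c * A * (d / L) = (E - c * A * (s / L)) + c * A * ((s - d) / L) := by
    field_simp
    ring
  rw [e1]
  refine (abs_add_le _ _).trans ?_
  have h3 : |c * A * ((s - d) / L)| ≤ e * (c * m * (d / L)) := by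
    rw [abs_mul, abs_of_nonneg (mul_nonneg hc hA), abs_div, abs_of_pos hL]
    have h4 : |s - d| / L ≤ e * d / L := div_le_div_of_nonneg_right h2 hL.le
    have h5 : 0 ≤ e * d / L := le_trans (by positivity) h4
    calc c * A * (|s - d| / L) ≤ c * A * (e * d / L) := mul_le_mul_of_nonneg_left h4 (mul_nonneg hc hA)
      _ ≤ c * m * (e * d / L) := mul_le_mul_of_nonneg_right (mul_le_mul_of_nonneg_left hAm hc) h5
      _ = e * (c * m * (d / L)) := by ring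
  linarith

theorem mnL (k K B : ℕ) (hk : 2 ≤ k) : ∃ c0 C : ℕ, ∀ ε : ℝ, 0 < ε → ∃ η : ℝ, 0 < η ∧ ∃ X0 : ℕ, ∀ (X H a : ℕ) (w' : ℝ) (T : Finset ℕ),
    X0 ≤ X → 1 ≤ w' → w' ≤ (X : ℝ) ^ η → w' * (Real.log X) ^ C ≤ H → H ≤ X → (∀ q ∈ T, q.Prime ∧ (Real.log X) ^ c0 ≤ q ∧ (q : ℝ) ≤ w') →
      1 / (Real.log X) ^ B ≤ ∑ q ∈ T, 1 / (q : ℝ) → ∀ S : Finset ℕ, S ⊆ Icc 1 (2 * X) →
        ∑ N ∈ wnd X H (WX X) a, |(cT k T S N : ℝ) - cX X * (SN (WX X) S N).card * (dT k T X / Real.log X)| ≤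
          ε * (H / WX X) * (cX X * max ((Sa (WX X) S a).card : ℝ) (X / (Real.log X) ^ K) * (dT k T X / Real.log X)) := by
  classical
  obtain ⟨c10, hco⟩ := coL K k (B + 1)
  obtain ⟨c0', C', M1, hcb⟩ := cbL k K B hk
  obtain ⟨c0, hc0⟩ : ∃ c0 : ℕ, c0 = max (c10 + 3) c0' := ⟨_, rfl⟩
  have hc01 : c10 + 3 ≤ c0 := by omega
  have hc02 : c0' ≤ c0 := by omega
  obtain ⟨C, hco⟩ := hco (c0 - 3) (by omega)
  obtain ⟨X5, hW2⟩ := cX_le_log
  refine ⟨c0, max (max C C') 2, fun ε hε => ?_⟩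
  set e : ℝ := min ε 1 with he
  have he0 : 0 < e := lt_min hε one_pos
  have heε : e ≤ ε := min_le_left _ _
  have he1 : e ≤ 1 := min_le_right _ _
  obtain ⟨M, X1, hM, hco⟩ := hco (e / 8) (by positivity)
  obtain ⟨M2, hM2d⟩ : ∃ M2 : ℕ, M2 = max M M1 := ⟨_, rfl⟩
  have hMM : M ≤ M2 := by omega
  have hM2 : 2 ≤ M2 := by omega
  have hM0 : (0 : ℝ) < M2 := by
    have : 0 < M2 := by omega
    exact_mod_cast this
  obtain ⟨η1, hη1, y0, hmer⟩ := Pool.Agent.Lib.T8.merA k (2 * M2) hk (by omega) (e / 8) (by positivity)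
  obtain ⟨η2, hη2, X3, hcb⟩ := hcb M2 (by omega) (e / 8) (by positivity)
  obtain ⟨X2, hev⟩ := ml_ev M2 (Nat.factorial (k - 2)) (by omega)
  refine ⟨min η1 (min η2 (1 / (8 * M2))), lt_min hη1 (lt_min hη2 (by positivity)),
    max (max (max X1 X2) (max (max ⌈y0⌉₊ 1) X3)) X5, ?_⟩
  intro X H a w' T hX0' hw1 hw2 hw3 hHX hT hTs S hS
  have hX : max (max X1 X2) (max (max ⌈y0⌉₊ 1) X3) ≤ X := (le_max_left _ _).trans hX0'
  obtain ⟨-, hWL⟩ := hW2 X ((le_max_right _ _).trans hX0')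
  have hX1 : X1 ≤ X := le_trans (le_trans (le_max_left _ _) (le_max_left _ _)) hX
  have hX2 : X2 ≤ X := le_trans (le_trans (le_max_right _ _) (le_max_left _ _)) hX
  have hX3 : y0 ≤ X := (Nat.le_ceil _).trans (by
    exact_mod_cast le_trans (le_trans (le_trans (le_max_left _ _) (le_max_left _ _)) (le_max_right _ _)) hX)
  have hXn : 1 ≤ X := le_trans (le_trans (le_trans (le_max_right _ _) (le_max_left _ _)) (le_max_right _ _)) hX
  have hX4 : X3 ≤ X := le_trans (le_trans (le_max_right _ _) (le_max_right _ _)) hX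
  obtain ⟨hXr, ht2, hLf⟩ := hev X hX2
  set L : ℝ := Real.log X with hLdef
  have hf1 : (1 : ℝ) ≤ (Nat.factorial (k - 2) : ℝ) := by exact_mod_cast Nat.factorial_pos (k - 2)
  have hL4 : 4 ≤ L := by linarith
  have hL0 : 0 < L := by linarith
  have hX0 : (0 : ℝ) < X := by linarith
  have hLC : L ^ C ≤ L ^ max (max C C') 2 := pow_le_pow_right₀ (by linarith) ((le_max_left _ _).trans (le_max_left _ _))
  have hLC' : L ^ C' ≤ L ^ max (max C C') 2 := pow_le_pow_right₀ (by linarith) ((le_max_right _ _).trans (le_max_left _ _))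
  have hL2' : L ^ 2 ≤ L ^ max (max C C') 2 := pow_le_pow_right₀ (by linarith) (le_max_right _ _)
  obtain ⟨U, hU1, hU2, hU3⟩ := ml_U (2 * M2) (by omega) X hXn
  have hUM : U ^ (2 * M) ≤ X := by
    rcases Nat.eq_zero_or_pos U with h0 | h0
    · rw [h0, zero_pow (by omega)]
      exact Nat.zero_le _
    · exact (Nat.pow_le_pow_right h0 (by omega)).trans hU1
  set t : ℝ := (X : ℝ) ^ (1 / (8 * M2) : ℝ) with ht
  have ht4 : (X : ℝ) ^ (1 / ((2 * M2 : ℕ) : ℝ)) = t ^ 4 := by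
    rw [ht, ← Real.rpow_natCast, ← Real.rpow_mul hX0.le]
    congr 1
    push_cast
    field_simp
    norm_num
  have hwt : w' ≤ t := hw2.trans (Real.rpow_le_rpow_of_exponent_le hXr ((min_le_right _ _).trans (min_le_right _ _)))
  have hwη : w' ≤ (X : ℝ) ^ η1 := hw2.trans (Real.rpow_le_rpow_of_exponent_le hXr (min_le_left _ _))
  have h2tU : 2 * t ≤ U := by
    rw [ht4] at hU3
    have h1 : 2 * t + 1 ≤ t ^ 4 := by
      have h2 : 8 * t ≤ t ^ 4 := by
        have h3 : (2 : ℝ) ^ 3 ≤ t ^ 3 := pow_le_pow_left₀ (by norm_num) ht2 3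
        calc 8 * t = 2 ^ 3 * t := by norm_num
          _ ≤ t ^ 3 * t := mul_le_mul_of_nonneg_right h3 (by linarith)
          _ = t ^ 4 := by ring
      linarith
    linarith
  have hwfl : ((⌊w'⌋₊ : ℕ) : ℝ) ≤ w' := Nat.floor_le (by linarith)
  have hwU : 2 * ⌊w'⌋₊ ≤ U := by
    have h1 : ((2 * ⌊w'⌋₊ : ℕ) : ℝ) ≤ U := by
      push_cast
      linarith
    exact_mod_cast h1
  have hw1' : 1 ≤ ⌊w'⌋₊ := Nat.le_floor (by exact_mod_cast hw1)
  have hT' : ∀ q ∈ T, q.Prime ∧ L ^ c0 ≤ q ∧ q ≤ ⌊w'⌋₊ := fun q hq => by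
    obtain ⟨h1, h2, h3⟩ := hT q hq
    exact ⟨h1, h2, Nat.le_floor h3⟩
  have hT3 : ∀ q ∈ T, q.Prime ∧ L ^ (c0 - 3 + 3) ≤ q ∧ q ≤ ⌊w'⌋₊ := by
    have e3 : c0 - 3 + 3 = c0 := by omega
    rw [e3]
    exact hT'
  have hTU : ∀ q ∈ T, q.Prime ∧ 2 * q ≤ U := fun q hq => by
    obtain ⟨h1, h2, h3⟩ := hT' q hq
    exact ⟨h1, by omega⟩
  have hLq : ∀ q ∈ T, L ≤ q := fun q hq => by
    obtain ⟨h1, h2, h3⟩ := hT q hq
    refine le_trans ?_ h2
    calc L = L ^ 1 := (pow_one L).symm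
      _ ≤ L ^ c0 := pow_le_pow_right₀ (by linarith) (by omega)
  -- the two densities
  set D : ℕ → ℝ := fun q => (Real.log (Real.log X / Real.log q)) ^ (k - 2) / (Nat.factorial (k - 2) : ℝ) with hD
  have hdT : dT k T X = ∑ q ∈ T, 1 / (q : ℝ) * D q := rfl
  have hDq : ∀ q ∈ T, 1 / (Nat.factorial (k - 2) : ℝ) ≤ D q := fun q hq => by
    obtain ⟨h1, h2, h3⟩ := hT q hq
    have hq2 : (2 : ℝ) ≤ q := by exact_mod_cast h1.two_le
    have hlq : 0 < Real.log q := Real.log_pos (by linarith)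
    have h4 : Real.log q ≤ 1 / (8 * M2) * L := by
      have h5 : Real.log q ≤ Real.log t := Real.log_le_log (by linarith) (h3.trans hwt)
      rwa [ht, Real.log_rpow hX0] at h5
    have h5 : Real.log q ≤ L / 16 := by
      refine h4.trans ?_
      have hM2 : (2 : ℝ) ≤ M2 := by exact_mod_cast hM2
      rw [div_mul_eq_mul_div, one_mul, div_le_div_iff₀ (by positivity) (by norm_num)]
      nlinarith
    have h6 : 16 ≤ L / Real.log q := by
      rw [le_div_iff₀ hlq]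
      linarith
    have h7 : 1 ≤ Real.log (L / Real.log q) := by
      rw [Real.le_log_iff_exp_le (by linarith)]
      have := Real.exp_one_lt_d9
      linarith
    have h8 : 1 ≤ (Real.log (Real.log X / Real.log q)) ^ (k - 2) := one_le_pow₀ h7
    exact div_le_div_of_nonneg_right h8 (by linarith)
  have hD0 : ∀ q ∈ T, 0 ≤ D q := fun q hq => le_trans (by positivity) (hDq q hq)
  have hd0 : 0 ≤ dT k T X := by
    rw [hdT]
    exact Finset.sum_nonneg fun q hq => mul_nonneg (by positivity) (hD0 q hq)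
  have hdl : 1 / (Nat.factorial (k - 2) : ℝ) * (1 / L ^ B) ≤ dT k T X := by
    rw [hdT]
    calc 1 / (Nat.factorial (k - 2) : ℝ) * (1 / L ^ B) ≤ 1 / (Nat.factorial (k - 2) : ℝ) * ∑ q ∈ T, 1 / (q : ℝ) :=
          mul_le_mul_of_nonneg_left hTs (by positivity)
      _ = ∑ q ∈ T, 1 / (q : ℝ) * (1 / (Nat.factorial (k - 2) : ℝ)) := by
          rw [Finset.mul_sum]
          exact Finset.sum_congr rfl fun q _ => mul_comm _ _
      _ ≤ ∑ q ∈ T, 1 / (q : ℝ) * D q :=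
          Finset.sum_le_sum fun q hq => mul_le_mul_of_nonneg_left (hDq q hq) (by positivity)
  have hsd : |sL k U T - dT k T X| ≤ e / 8 * dT k T X := by
    rw [hdT]
    unfold sL
    rw [← Finset.sum_sub_distrib]
    refine (Finset.abs_sum_le_sum_abs _ _).trans ?_
    rw [Finset.mul_sum]
    refine Finset.sum_le_sum fun q hq => ?_
    obtain ⟨h1, h2, h3⟩ := hT q hq
    have h4 := hmer X U q hX3 hU1 hU2 (hLq q hq) (h3.trans hwη)
    rw [← mul_sub, abs_mul, abs_of_nonneg (by positivity : (0 : ℝ) ≤ 1 / (q : ℝ))]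
    calc 1 / (q : ℝ) * |esy (k - 2) (2 ^ (di q + 1)) U - D q| ≤ 1 / (q : ℝ) * (e / 8 * D q) :=
          mul_le_mul_of_nonneg_left h4 (by positivity)
      _ = e / 8 * (1 / (q : ℝ) * D q) := by ring
  have hsl : 1 / L ^ (B + 1) ≤ sL k U T := by
    have h1 : (7 / 8) * dT k T X ≤ sL k U T := by
      have h2 := (abs_le.1 hsd).1
      have h3 : e / 8 * dT k T X ≤ 1 / 8 * dT k T X := mul_le_mul_of_nonneg_right (by linarith) hd0
      linarith
    have h2 : 1 / L ^ (B + 1) ≤ (7 / 8) * (1 / (Nat.factorial (k - 2) : ℝ) * (1 / L ^ B)) := by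
      have hLB : 0 < L ^ B := by positivity
      have e1 : (7 / 8) * (1 / (Nat.factorial (k - 2) : ℝ) * (1 / L ^ B)) = (7 / (8 * (Nat.factorial (k - 2) : ℝ))) / L ^ B := by
        field_simp
      have e2 : 1 / L ^ (B + 1) = (1 / L) / L ^ B := by
        rw [pow_succ]
        field_simp
      rw [e1, e2]
      refine div_le_div_of_nonneg_right ?_ hLB.le
      rw [div_le_div_iff₀ hL0 (by positivity)]
      linarith
    linarith
  have hco' := hco X H a k U ⌊w'⌋₊ T hX1 hk le_rfl hT3 hwU hUM hsl hw1'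
    ((mul_le_mul hwfl hLC (by positivity) (by linarith)).trans hw3) hHX S hS
  have hc1 : 1 ≤ cX X := Pool.Agent.Lib.SW.one_le_cX X
  have hc0' : 0 ≤ cX X := by linarith
  have hW0 : (0 : ℝ) < WX X := by exact_mod_cast Pool.Agent.Lib.SW.WX_pos X
  have hHW : 0 ≤ (H : ℝ) / WX X := by positivity
  set m : ℝ := max ((Sa (WX X) S a).card : ℝ) (X / L ^ K) with hm
  have hm0 : 0 ≤ m := le_trans (Nat.cast_nonneg _) (le_max_left _ _)
  have hmd : 0 ≤ cX X * m * (dT k T X / L) := by positivity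
  have hTη : ∀ q ∈ T, q.Prime ∧ L ^ c0' ≤ q ∧ (q : ℝ) ≤ (X : ℝ) ^ η2 := fun q hq => by
    obtain ⟨h1, h2, h3⟩ := hT q hq
    refine ⟨h1, (pow_le_pow_right₀ (by linarith) hc02).trans h2, h3.trans (hw2.trans ?_)⟩
    exact Real.rpow_le_rpow_of_exponent_le hXr ((min_le_right _ _).trans (min_le_left _ _))
  have hHC : L ^ C' ≤ (H : ℝ) := by
    refine le_trans ?_ hw3
    calc L ^ C' ≤ L ^ max (max C C') 2 := hLC'
      _ = 1 * L ^ max (max C C') 2 := (one_mul _).symm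
      _ ≤ w' * L ^ max (max C C') 2 := mul_le_mul_of_nonneg_right hw1 (by positivity)
  have hWH : (WX X : ℝ) ≤ H := by
    refine hWL.trans (le_trans ?_ hw3)
    calc L ^ 2 ≤ L ^ max (max C C') 2 := hL2'
      _ = 1 * L ^ max (max C C') 2 := (one_mul _).symm
      _ ≤ w' * L ^ max (max C C') 2 := mul_le_mul_of_nonneg_right hw1 (by positivity)
  have hcb' := hcb X H a U T hX4 hU1 hU2 hTη hTs hHC hHX S hS
  have hTp : ∀ q ∈ T, q.Prime := fun q hq => (hT q hq).1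
  have hpt : ∀ N ∈ wnd X H (WX X) a, |(cT k T S N : ℝ) - cX X * (SN (WX X) S N).card * (dT k T X / L)| ≤
      (|(cE k U T S N : ℝ) - cX X * (SN (WX X) S N).card * (sL k U T / L)| + (cB k U T S N : ℝ)) +
        e / 8 * (cX X * m * (dT k T X / L)) := by
    intro N hN
    have hmod : N ≡ a [MOD WX X] := by
      have := hN
      unfold wnd at this
      exact (mem_filter.1 this).2
    have hAm : ((SN (WX X) S N).card : ℝ) ≤ m := by
      refine le_trans ?_ (le_max_left _ _)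
      exact_mod_cast ml_SN_le hmod S
    have h := ml_cmp (E := (cE k U T S N : ℝ)) (e := e / 8) hc0' (Nat.cast_nonneg _) hAm hL0 hsd
    have h2 : (cE k U T S N : ℝ) ≤ cT k T S N := by exact_mod_cast ml_cE_le hTp
    have h3 : (cT k T S N : ℝ) ≤ cE k U T S N + cB k U T S N := by
      exact_mod_cast ml_cT_le
    have h4 : |(cT k T S N : ℝ) - cX X * (SN (WX X) S N).card * (dT k T X / L)| ≤
        |(cE k U T S N : ℝ) - cX X * (SN (WX X) S N).card * (dT k T X / L)| + (cB k U T S N : ℝ) := by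
      obtain ⟨b1, b2⟩ := abs_le.1 (le_refl |(cE k U T S N : ℝ) - cX X * (SN (WX X) S N).card * (dT k T X / L)|)
      rw [abs_le]
      constructor <;> linarith
    linarith
  refine (sum_le_sum hpt).trans ?_
  rw [sum_add_distrib, sum_add_distrib, sum_const, nsmul_eq_mul]
  have hcard : ((wnd X H (WX X) a).card : ℝ) ≤ 2 * (H / WX X) := by
    have h1 := ml_card_le X H (WX X) a (Pool.Agent.Lib.SW.WX_pos X)
    have h2 : (1 : ℝ) ≤ H / WX X := by rwa [le_div_iff₀ hW0, one_mul]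
    linarith
  have hs2 : sL k U T ≤ 2 * dT k T X := by
    have h1 := (abs_le.1 hsd).2
    have h2 : e / 8 * dT k T X ≤ 1 * dT k T X := mul_le_mul_of_nonneg_right (by linarith) hd0
    linarith
  have hA1 : e / 8 * (H / WX X) * (cX X * m * (sL k U T / L)) ≤ e / 8 * (H / WX X) * (2 * (cX X * m * (dT k T X / L))) := by
    refine mul_le_mul_of_nonneg_left ?_ (by positivity)
    calc cX X * m * (sL k U T / L) ≤ cX X * m * (2 * dT k T X / L) :=
          mul_le_mul_of_nonneg_left (div_le_div_of_nonneg_right hs2 hL0.le) (mul_nonneg hc0' hm0)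
      _ = 2 * (cX X * m * (dT k T X / L)) := by ring
  have hA3 : ((wnd X H (WX X) a).card : ℝ) * (e / 8 * (cX X * m * (dT k T X / L))) ≤
      2 * (H / WX X) * (e / 8 * (cX X * m * (dT k T X / L))) := mul_le_mul_of_nonneg_right hcard (by positivity)
  obtain ⟨P, hP⟩ : ∃ P : ℝ, P = (H / WX X : ℝ) * (cX X * m * (dT k T X / L)) := ⟨_, rfl⟩
  have hP0 : 0 ≤ P := hP ▸ mul_nonneg hHW hmd
  have hB1 : e / 8 * (H / WX X) * (2 * (cX X * m * (dT k T X / L))) = e / 4 * P := by rw [hP]; ring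
  have hB2 : e / 8 * (H / WX X) * (cX X * m * (dT k T X / L)) = e / 8 * P := by rw [hP]; ring
  have hB3 : 2 * (H / WX X) * (e / 8 * (cX X * m * (dT k T X / L))) = e / 4 * P := by rw [hP]; ring
  have hB4 : ε * (H / WX X) * (cX X * m * (dT k T X / L)) = ε * P := by rw [hP]; ring
  rw [hB1] at hA1
  rw [hB2] at hcb'
  rw [hB3] at hA3
  rw [hB4]
  have hfin : e * P ≤ ε * P := mul_le_mul_of_nonneg_right heε hP0
  have hfin2 : 0 ≤ e * P := mul_nonneg he0.le hP0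
  have h1 := add_le_add (add_le_add (hco'.trans hA1) hcb') hA3
  linarith

end Pool.Agent.Lib.WL
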