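import Pool.Agent.Lib.WL.Def
import Pool.Agent.Lib.MP_7b7e48_nt.GT.RoughCount

/-!
# WL, row Ms: Mertens product between `log log X` and `U`

PROOF IN WORDS. `cX X = W/φ(W) = ∏_{p ≤ w} (1 - 1/p)^(-1)`, `w = wX X`, `W = primorial w` (see `hh`, `LG3V`, `LG3_V` in SW/LG3, SC4). So for `w ≤ U` the product is `cX X ∏_{p ≤ U} (1 - 1/p) ≤ C cX X/log U` by Mertens' theorem (upper bound: `∏_{p ≤ U} (1 - 1/p)^(-1) ≥ ∑_{n ≤ U} 1/n ≥ log U`, so `C = 1` will do:
every `n ≤ U` is a product of primes `≤ U`; search the library for a landed form, e.g. LG3_mertens or the Mertens files of G3/G5).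
-/

set_option autoImplicit false

open Finset

namespace Pool.Agent.Lib.WL

open Pool.Agent.Lib.SW (wX cX)

private theorem tot_div (z : ℕ) : ((primorial z).totient : ℝ) / (primorial z : ℝ) = GT.V z := by
  have h1 := Nat.totient_eq_mul_prod_factors (primorial z)
  have h0 : (primorial z : ℝ) ≠ 0 := by exact_mod_cast primorial_ne_zero z
  have h2 : ((primorial z).totient : ℝ) =
      (primorial z : ℝ) * ∏ p ∈ (primorial z).primeFactors, (1 - (p : ℝ)⁻¹) := by
    have h3 := congrArg (fun r : ℚ => (r : ℝ)) h1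
    push_cast at h3
    exact h3
  rw [h2, mul_div_cancel_left₀ _ h0, primeFactors_primorial]
  unfold GT.V
  refine prod_congr rfl fun p _ => ?_
  rw [one_div]

theorem msW : ∃ C : ℝ, 0 < C ∧ ∀ X U : ℕ, wX X ≤ U → 3 ≤ U →
    ∏ p ∈ (Icc 1 U).filter (fun p => p.Prime ∧ wX X < p), (1 - 1 / (p : ℝ)) ≤ C * (cX X / Real.log U) := by
  refine ⟨1, one_pos, ?_⟩
  intro X U hw hU
  have hV : 0 < GT.V (wX X) := GT.V_pos (wX X)
  have hc : cX X = (GT.V (wX X))⁻¹ := by
    rw [← tot_div, inv_div]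
    rfl
  have hs : GT.V (wX X) * ∏ p ∈ (Icc 1 U).filter (fun p => p.Prime ∧ wX X < p), (1 - 1 / (p : ℝ)) = GT.V U := by
    unfold GT.V
    rw [← Finset.prod_filter_mul_prod_filter_not (GT.pr U) (fun p => p ≤ wX X)]
    congr 1
    · refine Finset.prod_congr ?_ fun _ _ => rfl
      ext p
      simp only [GT.pr, mem_filter, mem_range]
      constructor
      · rintro ⟨h1, h2⟩
        exact ⟨⟨by omega, h2⟩, by omega⟩
      · rintro ⟨⟨h1, h2⟩, h3⟩
        exact ⟨by omega, h2⟩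
    · refine Finset.prod_congr ?_ fun _ _ => rfl
      ext p
      simp only [GT.pr, mem_filter, mem_range, mem_Icc, not_le]
      constructor
      · rintro ⟨⟨h1, h2⟩, h3, h4⟩
        exact ⟨⟨by omega, h3⟩, h4⟩
      · rintro ⟨⟨h1, h2⟩, h3⟩
        exact ⟨⟨h2.one_le, by omega⟩, h2, h3⟩
  have h1 : ∏ p ∈ (Icc 1 U).filter (fun p => p.Prime ∧ wX X < p), (1 - 1 / (p : ℝ)) = cX X * GT.V U := by
    rw [← hs, hc, inv_mul_cancel_left₀ hV.ne']
  rw [h1, one_mul, div_eq_mul_one_div]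
  refine mul_le_mul_of_nonneg_left (GT.V_le U (by omega)) ?_
  rw [hc]
  positivity

end Pool.Agent.Lib.WL
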