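import Pool.Agent.Lib.WL.FB
import Pool.Agent.Lib.MP_5d7b92_nt.UA.Sm

/-!
# WL, row PR: almost all differences in a window have a small smooth part

PROOF IN WORDS. `w = wX X`, `L = log X`. For `s < N` the smooth part `sp w (N - s)` is in `SmD w D` iff it is `≤ D` (`sp_pos`, `sp_prime_le` in UA/Sm). So the left side is at most the number of pairs `(N, s)`, `s < N`, with `sp w (N - s) > D ≥ w^D0`. For fixed `s ≤ X` the `m = N - s` run through `(X - s, X + H - s]`: `fbL` with `ε/2`. For `s > X` they run through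
`(0, X + H - s]`: if `X + H - s ≥ L^2` `fbL` again, otherwise at most `L^2 ≤ (ε/2) H` (for large `X`, as `H ≥ L^3`). In total `≤ ε H |S|`.
-/

set_option autoImplicit false

open Finset

namespace Pool.Agent.Lib.WL

open Pool.Agent.Lib.SW (wX)
open Pool.Agent.Lib.MP_5d7b92_nt.UA (mt)

private theorem PR_one (w D K N : ℕ) (hD : K ≤ D) (S : Finset ℕ) :
    ((S.filter fun s => s < N).card : ℝ) - mt w (SmD w D) S N ≤
      ((S.filter fun s => s < N ∧ K < Pool.Agent.Lib.MP_5d7b92_nt.UA.sp w (N - s)).card : ℝ) := by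
  have h : (S.filter fun s => s < N).card ≤ mt w (SmD w D) S N +
      (S.filter fun s => s < N ∧ K < Pool.Agent.Lib.MP_5d7b92_nt.UA.sp w (N - s)).card := by
    unfold Pool.Agent.Lib.MP_5d7b92_nt.UA.mt
    refine le_trans (card_le_card fun s hs => ?_) (card_union_le _ _)
    obtain ⟨h1, h2⟩ := mem_filter.1 hs
    rw [mem_union, mem_filter, mem_filter]
    by_cases h3 : Pool.Agent.Lib.MP_5d7b92_nt.UA.sp w (N - s) ≤ D
    · refine Or.inl ⟨h1, h2, ?_⟩
      unfold SmD
      rw [mem_filter, mem_Icc]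
      exact ⟨⟨Pool.Agent.Lib.MP_5d7b92_nt.UA.sp_pos w _, h3⟩, fun p hp =>
        Pool.Agent.Lib.MP_5d7b92_nt.UA.sp_prime_le (Nat.prime_of_mem_primeFactors hp) (Nat.dvd_of_mem_primeFactors hp)⟩
    · exact Or.inr ⟨h1, h2, by omega⟩
  have h' : ((S.filter fun s => s < N).card : ℝ) ≤ (mt w (SmD w D) S N : ℝ) +
      ((S.filter fun s => s < N ∧ K < Pool.Agent.Lib.MP_5d7b92_nt.UA.sp w (N - s)).card : ℝ) := by
    exact_mod_cast h
  linarith

/-- the `N` in a window with a given property of `N - s`, counted through `m = N - s` -/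
private theorem PR_cnt (P : ℕ → Prop) [DecidablePred P] (X H s A H' : ℕ) (h : ∀ N, X < N → N ≤ X + H → s < N → A < N - s ∧ N - s ≤ A + H') :
    ((Ioc X (X + H)).filter fun N => s < N ∧ P (N - s)).card ≤ ((Ioc A (A + H')).filter fun m => P m).card := by
  refine card_le_card_of_injOn (fun N => N - s) (fun N hN => ?_) ?_
  · rw [mem_coe, mem_filter, mem_Ioc] at hN
    rw [mem_coe, mem_filter, mem_Ioc]
    exact ⟨h N hN.1.1 hN.1.2 hN.2.1, hN.2.2⟩
  · intro a ha b hb hab
    rw [mem_coe, mem_filter] at ha hb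
    have h1 := ha.2.1
    have h2 := hb.2.1
    have h3 : a - s = b - s := hab
    omega

theorem prL (ε : ℝ) (hε : 0 < ε) : ∃ D0 X0 : ℕ, ∀ X H : ℕ, X0 ≤ X → (Real.log X) ^ 3 ≤ H → H ≤ X → ∀ S : Finset ℕ, S ⊆ Icc 1 (2 * X) →
    ∀ D : ℕ, (wX X) ^ D0 ≤ D →
      ∑ N ∈ Ioc X (X + H), (((S.filter fun s => s < N).card : ℝ) - mt (wX X) (SmD (wX X) D) S N) ≤ ε * H * S.card := by
  obtain ⟨D0, X1, h1⟩ := fbL (ε / 2) (by positivity)
  obtain ⟨X2, h2⟩ := Filter.eventually_atTop.1 (Pool.Agent.Lib.SW.LG3_log_ev (1 + 1 / ε))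
  refine ⟨D0, max X1 X2, fun X H hX hH hHX S hS D hD => ?_⟩
  have hX1 : X1 ≤ X := le_trans (le_max_left _ _) hX
  have hL := h2 X (le_trans (le_max_right _ _) hX)
  have hi : 0 < 1 / ε := by positivity
  have hL1 : 1 ≤ Real.log X := by linarith
  have hH2 : (Real.log X) ^ 2 ≤ H := le_trans (pow_le_pow_right₀ hL1 (by norm_num)) hH
  have hH3 : (Real.log X) ^ 2 ≤ ε * H := by
    have h3 : 1 ≤ ε * Real.log X := by
      have h4 : ε * (1 / ε) ≤ ε * Real.log X := mul_le_mul_of_nonneg_left (by linarith) hε.le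
      rwa [mul_one_div_cancel hε.ne'] at h4
    have h5 : (Real.log X) ^ 2 * 1 ≤ (Real.log X) ^ 2 * (ε * Real.log X) :=
      mul_le_mul_of_nonneg_left h3 (by positivity)
    have h6 : ε * (Real.log X) ^ 3 ≤ ε * H := mul_le_mul_of_nonneg_left hH hε.le
    nlinarith [h5, h6]
  have hHn : (0 : ℝ) ≤ H := Nat.cast_nonneg H
  have key : ∀ s ∈ S, (((Ioc X (X + H)).filter fun N => s < N ∧
      (wX X) ^ D0 < Pool.Agent.Lib.MP_5d7b92_nt.UA.sp (wX X) (N - s)).card : ℝ) ≤ ε * H := by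
    intro s hs
    have hs2 := (mem_Icc.1 (hS hs)).2
    by_cases hsX : s ≤ X
    · have h3 := PR_cnt (fun m => (wX X) ^ D0 < Pool.Agent.Lib.MP_5d7b92_nt.UA.sp (wX X) m) X H s (X - s) H
        (fun N h4 h5 h6 => by omega)
      have h4 := h1 X (X - s) H hX1 (by omega) hH2 (by omega)
      have h5 : (((Ioc X (X + H)).filter fun N => s < N ∧
        (wX X) ^ D0 < Pool.Agent.Lib.MP_5d7b92_nt.UA.sp (wX X) (N - s)).card : ℝ) ≤
        (((Ioc (X - s) (X - s + H)).filter fun m => (wX X) ^ D0 < Pool.Agent.Lib.MP_5d7b92_nt.UA.sp (wX X) m).card : ℝ) := by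
        exact_mod_cast h3
      nlinarith [h5, h4, mul_nonneg hε.le hHn]
    · have h3 := PR_cnt (fun m => (wX X) ^ D0 < Pool.Agent.Lib.MP_5d7b92_nt.UA.sp (wX X) m) X H s 0 (X + H - s)
        (fun N h4 h5 h6 => by omega)
      have h5 : (((Ioc X (X + H)).filter fun N => s < N ∧
        (wX X) ^ D0 < Pool.Agent.Lib.MP_5d7b92_nt.UA.sp (wX X) (N - s)).card : ℝ) ≤
        (((Ioc 0 (0 + (X + H - s))).filter fun m => (wX X) ^ D0 < Pool.Agent.Lib.MP_5d7b92_nt.UA.sp (wX X) m).card : ℝ) := by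
        exact_mod_cast h3
      have hle : ((X + H - s : ℕ) : ℝ) ≤ H := by
        have : X + H - s ≤ H := by omega
        exact_mod_cast this
      by_cases h6 : (Real.log X) ^ 2 ≤ ((X + H - s : ℕ) : ℝ)
      · have h4 := h1 X 0 (X + H - s) hX1 (by omega) h6 (by omega)
        have h7 : ε / 2 * ((X + H - s : ℕ) : ℝ) ≤ ε / 2 * H := mul_le_mul_of_nonneg_left hle (by positivity)
        nlinarith [h5, h4, h7, mul_nonneg hε.le hHn]
      · have h7 : ((Ioc 0 (0 + (X + H - s))).filter fun m =>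
            (wX X) ^ D0 < Pool.Agent.Lib.MP_5d7b92_nt.UA.sp (wX X) m).card ≤ X + H - s := by
          refine le_trans (card_filter_le _ _) ?_
          rw [Nat.card_Ioc]
          omega
        have h8 : (((Ioc 0 (0 + (X + H - s))).filter fun m =>
            (wX X) ^ D0 < Pool.Agent.Lib.MP_5d7b92_nt.UA.sp (wX X) m).card : ℝ) ≤ ((X + H - s : ℕ) : ℝ) := by
          exact_mod_cast h7
        have h9 := not_le.1 h6
        linarith
  calc ∑ N ∈ Ioc X (X + H), (((S.filter fun s => s < N).card : ℝ) - mt (wX X) (SmD (wX X) D) S N)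
      ≤ ∑ N ∈ Ioc X (X + H), ((S.filter fun s => s < N ∧
          (wX X) ^ D0 < Pool.Agent.Lib.MP_5d7b92_nt.UA.sp (wX X) (N - s)).card : ℝ) :=
        sum_le_sum fun N _ => PR_one (wX X) D ((wX X) ^ D0) N hD S
    _ = ∑ s ∈ S, (((Ioc X (X + H)).filter fun N => s < N ∧
          (wX X) ^ D0 < Pool.Agent.Lib.MP_5d7b92_nt.UA.sp (wX X) (N - s)).card : ℝ) := by
        have h3 : ∑ N ∈ Ioc X (X + H), (S.filter fun s => s < N ∧
            (wX X) ^ D0 < Pool.Agent.Lib.MP_5d7b92_nt.UA.sp (wX X) (N - s)).card =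
          ∑ s ∈ S, ((Ioc X (X + H)).filter fun N => s < N ∧
            (wX X) ^ D0 < Pool.Agent.Lib.MP_5d7b92_nt.UA.sp (wX X) (N - s)).card := by
          simp only [card_filter]
          exact sum_comm
        exact_mod_cast h3
    _ ≤ ∑ _s ∈ S, ε * H := sum_le_sum key
    _ = ε * H * S.card := by
        rw [sum_const, nsmul_eq_mul]
        ring

end Pool.Agent.Lib.WL
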