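import Pool.Agent.Lib.WL.Def
import Pool.Agent.Lib.MP_5d7b92_nt.UA.Defs

/-!
# WL, no classes: `N = s + d n` with a small cofactor `d`. Definitions

`sg w d S N` (UA/Defs): the number of the `s ∈ S`, `s < N`, with `N - s = d e`, `e` coprime to `W = primorial w`; `sp w m`: the `w`-smooth part of `m`; `mt w D S N`: the number of the `s ∈ S`, `s < N`, with `sp w (N - s) ∈ D`; `cW w = W/φ(W)`, so `cX X = cW (wX X)`.
-/

set_option autoImplicit false

open Finset

namespace Pool.Agent.Lib.WL

/-- the `w`-smooth numbers in `[1, D]` -/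
def SmD (w D : ℕ) : Finset ℕ := (Icc 1 D).filter fun d => ∀ p ∈ d.primeFactors, p ≤ w

/-- number of the `s ∈ S` such that `N - s = d n`, `n` with exactly `k` prime factors, the least one in `T` -/
def cD (d k : ℕ) (T S : Finset ℕ) (N : ℕ) : ℕ :=
  (S.filter fun s => s < N ∧ d ∣ N - s ∧ ((N - s) / d).primeFactorsList.length = k ∧ ((N - s) / d).minFac ∈ T).card

/-- number of the `s ∈ S` such that `N - s = d n` for some `w`-smooth `d ≤ D`, `n` with exactly `k` prime factors, the least one in `T` -/
def cA (w D k : ℕ) (T S : Finset ℕ) (N : ℕ) : ℕ :=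
  (S.filter fun s => s < N ∧ ∃ d ∈ SmD w D, d ∣ N - s ∧ ((N - s) / d).primeFactorsList.length = k ∧ ((N - s) / d).minFac ∈ T).card

/-- the quotients `≥ 1` of the members `≡ r` modulo `d` of `S` -/
def Sq (d r : ℕ) (S : Finset ℕ) : Finset ℕ := ((S.filter fun s => s % d = r).image fun s => s / d).filter fun s => 1 ≤ s

end Pool.Agent.Lib.WL
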