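import Pool.Agent.Lib.WL.M2
import Pool.Agent.Lib.SW.SC.SC2

/-!
# WL, row P2: the multiples of `W` and the iterated prime-indexed primes, all `k` (copy of WL/Pj.lean)

PROOF IN WORDS. Word for word WL/Pj.lean with `mn2 k (j+2) B` in the place of `mnW 2 (j+2) B` and `dT k T X ≥ 0` in the place of `∑ 1/q` (`log (log X/log q) ≥ 1` as `q ≤ X^η`, `η ≤ 1/e` w.l.o.g.).
-/

set_option autoImplicit false

open Finset Filter Topology

namespace Pool.Agent.Lib.WL

open Pool.Agent.Lib.SW (WX PI)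
open Pool.Agent.Lib.SW (cX Sa SN wX wX_le PI_unif PI_prime cX_ratio one_le_cX eventually_log_pow SC2_log LG3_log3_ev LG3_loglog_ev)
open Pool.Agent.Lib.T8 (dT)

theorem pjK (k j B : ℕ) (hk : 2 ≤ k) : ∃ c0 C : ℕ, ∀ ε : ℝ, 0 < ε → ∃ η : ℝ, 0 < η ∧ ∃ X0 : ℕ, ∀ (X H : ℕ) (w' : ℝ) (T : Finset ℕ),
    X0 ≤ X → 1 ≤ w' → w' ≤ (X : ℝ) ^ η → w' * (Real.log X) ^ C ≤ H → H ≤ X → (∀ q ∈ T, q.Prime ∧ (Real.log X) ^ c0 ≤ q ∧ (q : ℝ) ≤ w') →
      1 / (Real.log X) ^ B ≤ ∑ q ∈ T, 1 / (q : ℝ) →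
        (((Ioc X (X + H)).filter fun N => WX X ∣ N ∧
          ε * (Real.log (Real.log (Real.log X)) * (N / (Real.log X) ^ (j + 2)) * dT k T X) <
            |(cT k T ((Icc 1 (2 * X)).filter (PI j)) N : ℝ) - Real.exp Real.eulerMascheroniConstant *
              (Real.log (Real.log (Real.log X)) * (N / (Real.log X) ^ (j + 2)) * dT k T X)|).card : ℝ) ≤ ε * (H / WX X) := by
  obtain ⟨G, hG⟩ : ∃ G : ℝ, G = Real.exp Real.eulerMascheroniConstant := ⟨_, rfl⟩
  have hG0 : 0 < G := by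
    rw [hG]
    exact Real.exp_pos _
  obtain ⟨c0, C, hmn⟩ := mn2 k (j + 2) B hk
  refine ⟨c0, C, fun ε hε => ?_⟩
  obtain ⟨κ, hκ0, hκ1, hκε⟩ : ∃ κ : ℝ, 0 < κ ∧ κ ≤ 1 ∧ (11 * G + 13) * κ ≤ ε := by
    refine ⟨min (ε / (11 * G + 13)) 1, by positivity, min_le_right _ _, ?_⟩
    have h := min_le_left (ε / (11 * G + 13)) 1
    calc (11 * G + 13) * min (ε / (11 * G + 13)) 1 ≤ (11 * G + 13) * (ε / (11 * G + 13)) :=
          mul_le_mul_of_nonneg_left h (by positivity)
      _ = ε := by field_simp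
  have hκε' : κ ≤ ε := by nlinarith
  obtain ⟨η, hη, X₁, hX₁⟩ := hmn κ hκ0
  obtain ⟨X₂, hX₂⟩ := PI_unif j κ hκ0
  -- `|cX - G T| ≤ κ T`
  have hc : ∀ᶠ X : ℕ in atTop, |cX X / Real.log (Real.log (Real.log X)) - G| < κ := by
    have h := Metric.tendsto_atTop.1 cX_ratio κ hκ0
    obtain ⟨N, hN⟩ := h
    filter_upwards [eventually_ge_atTop N] with X hX
    have := hN X hX
    rwa [Real.dist_eq, ← hG] at this
  -- `log log X + 1 ≤ κ X / L^(j+1)`
  have hw : ∀ᶠ X : ℕ in atTop, (Real.log X) ^ (j + 1) * (Real.log X + 1) ≤ κ * X := by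
    have h1 := eventually_log_pow (j + 2) (κ / 2) (by positivity)
    filter_upwards [h1, SC2_log.eventually_ge_atTop 1] with X hX hX1
    have h2 : (Real.log X) ^ (j + 1) * (Real.log X + 1) ≤ 2 * (Real.log X) ^ (j + 2) := by
      have h3 : (Real.log X) ^ (j + 2) = (Real.log X) ^ (j + 1) * Real.log X := pow_succ _ _
      rw [h3]
      have h4 : 0 ≤ (Real.log X) ^ (j + 1) := by positivity
      nlinarith
    linarith
  -- `log (2 X)` against `log X`
  have h2X : ∀ᶠ X : ℕ in atTop, 1 - κ < (Real.log X / (Real.log X + Real.log 2)) ^ (j + 1) := by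
    have h3 : Tendsto (fun y : ℝ => y / (y + Real.log 2)) atTop (𝓝 1) := by
      have h4 : Tendsto (fun y : ℝ => Real.log 2 / (y + Real.log 2)) atTop (𝓝 0) :=
        Tendsto.const_div_atTop (tendsto_atTop_add_const_right _ _ tendsto_id) _
      have h5 := h4.const_sub 1
      rw [sub_zero] at h5
      refine h5.congr' ?_
      filter_upwards [eventually_gt_atTop 0] with y hy
      have h6 : y + Real.log 2 ≠ 0 := by
        have := Real.log_pos (by norm_num : (1 : ℝ) < 2)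
        intro h7
        linarith
      field_simp
      ring
    have h5 := (h3.comp SC2_log).pow (j + 1)
    rw [one_pow] at h5
    exact h5.eventually_const_lt (by linarith)
  obtain ⟨X₀, hX₀⟩ := eventually_atTop.1 (hc.and (hw.and ((LG3_log3_ev 1).and
    ((LG3_loglog_ev 1).and ((SC2_log.eventually_ge_atTop 1).and (h2X.and
      (eventually_ge_atTop (max X₁ (max X₂ 3)))))))))
  refine ⟨min η 1, lt_min hη one_pos, X₀, fun X H w' T hX hw1 hw2' hw3 hH hT hTB => ?_⟩
  obtain ⟨k1, k2, k3, k4, k5, k7, k6⟩ := hX₀ X hX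
  have hXa : X₁ ≤ X := (le_max_left _ _).trans k6
  have hXb : X₂ ≤ X := (le_max_left _ _).trans ((le_max_right _ _).trans k6)
  have hX3 : 3 ≤ X := (le_max_right _ _).trans ((le_max_right _ _).trans k6)
  have hXr : (3 : ℝ) ≤ X := by exact_mod_cast hX3
  have hX0 : (0 : ℝ) < X := by linarith
  obtain ⟨S, hS⟩ : ∃ S : Finset ℕ, S = (Icc 1 (2 * X)).filter (PI j) := ⟨_, rfl⟩
  have hSX : S ⊆ Icc 1 (2 * X) := by
    rw [hS]
    exact filter_subset _ _
  have hw2 : w' ≤ (X : ℝ) ^ η :=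
    hw2'.trans (Real.rpow_le_rpow_of_exponent_le (by linarith) (min_le_left _ _))
  have hmain := hX₁ X H 0 w' T hXa hw1 hw2 hw3 hH hT hTB S hSX
  have hcount := hX₂ (2 * X) (by omega)
  obtain ⟨δ, hδ⟩ : ∃ δ : ℝ, δ = dT k T X := ⟨_, rfl⟩
  have hδ0 : 0 ≤ δ := by
    rw [hδ]
    unfold dT
    refine sum_nonneg fun q hq => ?_
    obtain ⟨g1, _, g3⟩ := hT q hq
    have g4 : (q : ℝ) ≤ X := by
      refine g3.trans (hw2'.trans ?_)
      calc (X : ℝ) ^ (min η 1) ≤ (X : ℝ) ^ (1 : ℝ) :=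
            Real.rpow_le_rpow_of_exponent_le (by linarith) (min_le_right _ _)
        _ = X := Real.rpow_one _
    have g5 : (1 : ℝ) < q := by exact_mod_cast g1.one_lt
    have g6 : 0 < Real.log q := Real.log_pos g5
    have g7 : 0 ≤ Real.log (Real.log X / Real.log q) := by
      refine Real.log_nonneg ?_
      rw [le_div_iff₀ g6, one_mul]
      exact Real.log_le_log (by linarith) g4
    positivity
  rw [← hS, ← hG, ← hδ]
  rw [← hδ] at hmain
  refine le_trans ?_ (hmain.trans (mul_le_mul_of_nonneg_right hκε' (by positivity)))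
  refine Nat.cast_le.2 (card_le_card ?_)
  intro N hN
  rw [mem_filter, mem_Ioc] at hN
  obtain ⟨⟨hN1, hN2⟩, hWN, hbad⟩ := hN
  unfold wnd
  rw [mem_filter, mem_filter, mem_Ioc]
  refine ⟨⟨⟨hN1, hN2⟩, (Nat.modEq_zero_iff_dvd).2 hWN⟩, ?_⟩
  by_contra hgood
  have hgood2 := le_of_not_gt hgood
  refine absurd hbad (not_lt.2 ?_)
  have hN2X : N ≤ 2 * X := by omega
  -- abbreviations
  obtain ⟨L, hL⟩ : ∃ L : ℝ, L = Real.log X := ⟨_, rfl⟩
  obtain ⟨t, ht⟩ : ∃ t : ℝ, t = Real.log (Real.log L) := ⟨_, rfl⟩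
  rw [← hL] at k1 k2 k3 k4 k5 k7 hgood2
  rw [← ht] at k1 k3
  rw [← hL, ← ht]
  have hL0 : 0 < L := by linarith
  have ht0 : 0 < t := by linarith
  have hc1 := one_le_cX X
  obtain ⟨c, hc'⟩ : ∃ c : ℝ, c = cX X := ⟨_, rfl⟩
  rw [← hc'] at k1 hgood2 hc1
  have hc2 : |c - G * t| ≤ κ * t := by
    have h1 : c - G * t = (c / t - G) * t := by
      field_simp
    rw [h1, abs_mul, abs_of_pos ht0]
    exact mul_le_mul_of_nonneg_right k1.le ht0.le
  have hc3 : c ≤ (G + 1) * t := by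
    have := (abs_le.1 hc2).2
    nlinarith
  obtain ⟨Q, hQ⟩ : ∃ Q : ℝ, Q = L ^ (j + 1) := ⟨_, rfl⟩
  have hQ0 : 0 < Q := by
    rw [hQ]
    positivity
  have hQL : L ^ (j + 2) = Q * L := by
    rw [hQ]
    exact pow_succ _ _
  -- the counting function with `L` instead of `log (2 X)`
  have hcnt : ∀ M : ℕ, M ≤ 2 * X → |(((Icc 1 M).filter (PI j)).card : ℝ) - M / Q| ≤ 4 * κ * X / Q := by
    intro M hM
    have h1 := hcount M hM
    have hlog : Real.log ((2 * X : ℕ) : ℝ) = L + Real.log 2 := by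
      rw [Nat.cast_mul, Nat.cast_ofNat, Real.log_mul (by norm_num) hX0.ne', ← hL, add_comm]
    rw [hlog] at h1
    have hl2 : 0 < Real.log 2 := Real.log_pos (by norm_num)
    obtain ⟨P, hP⟩ : ∃ P : ℝ, P = (L + Real.log 2) ^ (j + 1) := ⟨_, rfl⟩
    have hP0 : 0 < P := by
      rw [hP]
      positivity
    rw [← hP] at h1
    have hQP : Q ≤ P := by
      rw [hQ, hP]
      exact pow_le_pow_left₀ hL0.le (by linarith) _
    have hQP2 : 1 - κ < Q / P := by
      rw [hQ, hP, ← div_pow]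
      exact k7
    have hMX : (M : ℝ) ≤ 2 * X := by exact_mod_cast hM
    have hM0 : (0 : ℝ) ≤ M := Nat.cast_nonneg M
    have h2 : |(M : ℝ) / P - M / Q| ≤ 2 * κ * X / Q := by
      have e1 : (M : ℝ) / P - M / Q = -((1 - Q / P) * (M / Q)) := by
        field_simp
        ring
      have e2 : 0 ≤ 1 - Q / P := by
        have : Q / P ≤ 1 := by
          rw [div_le_one hP0]
          exact hQP
        linarith
      rw [e1, abs_neg, abs_of_nonneg (mul_nonneg e2 (by positivity))]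
      calc (1 - Q / P) * (M / Q) ≤ κ * (2 * X / Q) := by
            refine mul_le_mul (by linarith) ?_ (by positivity) hκ0.le
            exact div_le_div_of_nonneg_right hMX hQ0.le
        _ = 2 * κ * X / Q := by ring
    have h3 : κ * ((2 * X : ℕ) : ℝ) / P ≤ 2 * κ * X / Q := by
      rw [Nat.cast_mul, Nat.cast_ofNat]
      calc κ * (2 * (X : ℝ)) / P ≤ κ * (2 * (X : ℝ)) / Q :=
            div_le_div_of_nonneg_left (by positivity) hQ0 hQP
        _ = 2 * κ * X / Q := by ring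
    have e3 : (((Icc 1 M).filter (PI j)).card : ℝ) - M / Q =
        ((((Icc 1 M).filter (PI j)).card : ℝ) - M / P) + ((M : ℝ) / P - M / Q) := by ring
    rw [e3]
    refine (abs_add_le _ _).trans ?_
    have e4 : 4 * κ * X / Q = 2 * κ * X / Q + 2 * κ * X / Q := by ring
    linarith
  -- the sizes of the sets
  have hSa : ((Sa (WX X) S 0).card : ℝ) ≤ 6 * X / Q := by
    have h1 : ((Sa (WX X) S 0).card : ℝ) ≤ (S.card : ℝ) := by
      unfold Sa
      exact Nat.cast_le.2 (card_filter_le _ _)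
    have h2 := (abs_le.1 (hcnt (2 * X) le_rfl)).2
    rw [← hS, Nat.cast_mul, Nat.cast_ofNat] at h2
    have h3 : 4 * κ * X / Q ≤ 4 * X / Q := by
      refine div_le_div_of_nonneg_right ?_ hQ0.le
      nlinarith
    have h4 : 6 * (X : ℝ) / Q = 2 * X / Q + 4 * X / Q := by ring
    linarith
  have hmax : max ((Sa (WX X) S 0).card : ℝ) (X / L ^ (j + 2)) ≤ 6 * X / Q := by
    refine max_le hSa ?_
    rw [hQL, div_le_div_iff₀ (by positivity) hQ0]
    have h4 : 0 ≤ X * Q := by positivity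
    nlinarith
  -- the local count
  have hw' : (wX X : ℝ) + 1 ≤ κ * X / Q := by
    have h1 : (wX X : ℝ) ≤ L := by
      rw [hL]
      exact wX_le X (by rw [← hL]; exact k5)
    rw [le_div_iff₀ hQ0]
    refine le_trans ?_ k2
    rw [mul_comm, hQ]
    exact mul_le_mul_of_nonneg_left (by linarith) (by positivity)
  obtain ⟨f, hf⟩ : ∃ f : ℝ, f = (((Icc 1 N).filter (PI j)).card : ℝ) := ⟨_, rfl⟩
  have hSNle : ((SN (WX X) S N).card : ℝ) ≤ f := by
    rw [hf]
    refine Nat.cast_le.2 (card_le_card ?_)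
    intro s hs
    unfold SN at hs
    rw [hS, mem_filter, mem_filter, mem_Icc] at hs
    exact mem_filter.2 ⟨mem_Icc.2 ⟨hs.1.1.1, hs.2.1.le⟩, hs.1.2⟩
  have hSNge : f ≤ ((SN (WX X) S N).card : ℝ) + (wX X + 1) := by
    rw [hf]
    have h1 : (Icc 1 N).filter (PI j) ⊆ SN (WX X) S N ∪ insert N (Icc 1 (wX X)) := by
      intro s hs
      obtain ⟨hs1, hs2⟩ := mem_filter.1 hs
      obtain ⟨hs3, hs4⟩ := mem_Icc.1 hs1
      rw [mem_union, mem_insert]
      by_cases h2 : s = N
      · exact Or.inr (Or.inl h2)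
      by_cases h3 : s ≤ wX X
      · exact Or.inr (Or.inr (mem_Icc.2 ⟨hs3, h3⟩))
      left
      unfold SN
      rw [hS]
      refine mem_filter.2 ⟨mem_filter.2 ⟨mem_Icc.2 ⟨hs3, hs4.trans hN2X⟩, hs2⟩, by omega, ?_⟩
      -- coprimality
      have hsp : s.Prime := PI_prime j s hs2
      have h4 : Nat.Coprime s (WX X) := by
        rw [Nat.Prime.coprime_iff_not_dvd hsp]
        unfold WX
        rw [hsp.dvd_primorial_iff]
        exact h3
      obtain ⟨m, hm⟩ := hWN
      have h5 : IsCoprime (((N - s : ℕ) : ℤ)) (WX X : ℤ) := by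
        rw [Nat.cast_sub (by omega)]
        have h6 : (N : ℤ) - s = -(s : ℤ) + (WX X : ℤ) * m := by
          have : (N : ℤ) = (WX X : ℤ) * m := by exact_mod_cast hm
          rw [this]
          ring
        rw [h6]
        refine (IsCoprime.add_mul_left_left_iff).2 ?_
        exact (Nat.isCoprime_iff_coprime.mpr h4).neg_left
      exact Nat.isCoprime_iff_coprime.mp h5
    have h2 := (card_le_card h1).trans (card_union_le _ _)
    have h3 := card_insert_le N (Icc 1 (wX X))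
    rw [Nat.card_Icc, Nat.add_sub_cancel] at h3
    have h4 : ((Icc 1 N).filter (PI j)).card ≤ (SN (WX X) S N).card + (wX X + 1) := by omega
    exact_mod_cast h4
  have hfN := abs_le.1 (hcnt N hN2X)
  rw [← hf] at hfN
  obtain ⟨s, hs⟩ : ∃ s : ℝ, s = ((SN (WX X) S N).card : ℝ) := ⟨_, rfl⟩
  rw [← hs] at hgood2 hSNle hSNge
  have hs1 : |s - N / Q| ≤ 5 * κ * X / Q := by
    have e1 : 5 * κ * X / Q = 4 * κ * X / Q + κ * X / Q := by ring
    rw [abs_le, e1]
    constructor
    · linarith [hfN.1]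
    · have : 0 ≤ κ * X / Q := by positivity
      linarith [hfN.2]
  -- the error terms
  have hNX : (X : ℝ) ≤ N := by exact_mod_cast hN1.le
  have hNn : (0 : ℝ) ≤ N := Nat.cast_nonneg N
  have hN2r : (N : ℝ) ≤ 2 * X := by exact_mod_cast hN2X
  rw [hQL]
  rw [hQL] at hmax
  have t1 : |(cT k T S N : ℝ) - c * s * (δ / L)| ≤ 6 * κ * (G + 1) * (t * X * δ / (Q * L)) := by
    refine hgood2.trans ?_
    rw [hQL]
    calc κ * (c * max ((Sa (WX X) S 0).card : ℝ) (X / (Q * L)) * (δ / L))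
        ≤ κ * ((G + 1) * t * (6 * X / Q) * (δ / L)) := by
          refine mul_le_mul_of_nonneg_left ?_ hκ0.le
          refine mul_le_mul_of_nonneg_right ?_ (by positivity)
          exact mul_le_mul hc3 hmax (le_max_of_le_left (Nat.cast_nonneg _)) (by positivity)
      _ = 6 * κ * (G + 1) * (t * X * δ / (Q * L)) := by
          field_simp
  have t2 : |c * s * (δ / L) - c * (N / Q) * (δ / L)| ≤ 5 * κ * (G + 1) * (t * X * δ / (Q * L)) := by
    have e1 : c * s * (δ / L) - c * (N / Q) * (δ / L) = c * (s - N / Q) * (δ / L) := by ring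
    rw [e1, abs_mul, abs_mul, abs_of_nonneg (by positivity : 0 ≤ δ / L), abs_of_pos (by linarith : 0 < c)]
    calc c * |s - N / Q| * (δ / L) ≤ ((G + 1) * t) * (5 * κ * X / Q) * (δ / L) := by
          refine mul_le_mul_of_nonneg_right ?_ (by positivity)
          exact mul_le_mul hc3 hs1 (abs_nonneg _) (by positivity)
      _ = 5 * κ * (G + 1) * (t * X * δ / (Q * L)) := by
          field_simp
  have t3 : |c * (N / Q) * (δ / L) - G * (t * (N / (Q * L)) * δ)| ≤ 2 * κ * (t * X * δ / (Q * L)) := by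
    have e1 : c * (N / Q) * (δ / L) - G * (t * (N / (Q * L)) * δ) = (c - G * t) * (N * δ / (Q * L)) := by
      field_simp
    rw [e1, abs_mul, abs_of_nonneg (by positivity : 0 ≤ N * δ / (Q * L))]
    calc |c - G * t| * (N * δ / (Q * L)) ≤ (κ * t) * (2 * X * δ / (Q * L)) := by
          refine mul_le_mul hc2 ?_ (by positivity) (by positivity)
          refine div_le_div_of_nonneg_right ?_ (by positivity)
          exact mul_le_mul_of_nonneg_right hN2r hδ0
      _ = 2 * κ * (t * X * δ / (Q * L)) := by ring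
  have t4 : |(cT k T S N : ℝ) - G * (t * (N / (Q * L)) * δ)| ≤ ((11 * G + 13) * κ) * (t * X * δ / (Q * L)) := by
    have e1 : (cT k T S N : ℝ) - G * (t * (N / (Q * L)) * δ) = ((cT k T S N : ℝ) - c * s * (δ / L)) +
      (c * s * (δ / L) - c * (N / Q) * (δ / L)) + (c * (N / Q) * (δ / L) - G * (t * (N / (Q * L)) * δ)) := by ring
    rw [e1]
    refine ((abs_add_le _ _).trans (add_le_add ((abs_add_le _ _).trans (add_le_add t1 t2)) t3)).trans (le_of_eq ?_)
    ring
  refine t4.trans ?_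
  calc ((11 * G + 13) * κ) * (t * X * δ / (Q * L)) ≤ ε * (t * X * δ / (Q * L)) :=
        mul_le_mul_of_nonneg_right hκε (by positivity)
    _ ≤ ε * (t * (N / (Q * L)) * δ) := by
        refine mul_le_mul_of_nonneg_left ?_ hε.le
        have e2 : t * (N / (Q * L)) * δ = t * N * δ / (Q * L) := by ring
        rw [e2]
        refine div_le_div_of_nonneg_right ?_ (by positivity)
        exact mul_le_mul_of_nonneg_right (mul_le_mul_of_nonneg_left hNX ht0.le) hδ0

end Pool.Agent.Lib.WL
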