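import Pool.Agent.Lib.WL.Def
import Pool.Agent.Lib.T8.Bd
import Pool.Agent.Lib.G8.L4
import Pool.Agent.Lib.T8.Pt

/-!
# WL, row Pt: the block functions and the typical numbers, pointwise (the pointwise part of T8/Unw.lean)

PROOF IN WORDS. `FZ_le` gives `0 ≤ FZ ≤ 1`. `FZ N ≠ 0 → EL k U T N` (some `bL k U T b N ≠ 0` with `b ∈ IL (4Y) 3 k U T`, all `bL ≥ 0`, so the sum over `IL (4Y)` is `≠ 0`: `l4 k 3 c1` at `4Y`); and `EL k U T N → FZ N ≥ 1 - δ`: `l4` gives `∑_{b ∈ IL (4Y)} bL ≥ 1 - 2/log 4Y`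
(`8 · 4Y/(log 4Y)^3 ≤ Y < N ≤ 4Y`); the blocks with `bL k U T b N ≠ 0` have `N ≤ 8 · 2^(i+j+g)`, so they are in `IZ`, and `2·2^g ≥ N/(4 · 2^(i+j)) ≥ Y/(4 U^(k-1))`, so `log (2·2^g)/log 32Y ≥ 1 - (log 128 + k log U)/log 32Y ≥ 1 - δ/2`
as `log U ≤ (log 4Y)/M` and `M ≥ 4 K/δ` (compare `wunw_log`, `wunw_pt` in VK/WUnw.lean, and T8/Unw.lean as soon as it is landed). `M = max (1000 K) ⌈4K/δ⌉`.
-/

set_option autoImplicit false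

open Finset

namespace Pool.Agent.Lib.WL

open Pool.Agent.Lib.T8 (FZ rZ)
open Pool.Agent.Lib.G8 (RgL EL)

theorem ptW (K c1 : ℕ) (δ : ℝ) (hδ : 0 < δ) : ∃ (M : ℕ) (x0 : ℝ), 1000 * K ≤ M ∧ ∀ Y : ℕ, x0 ≤ Y → ∀ (k U w' : ℕ) (T : Finset ℕ), 2 ≤ k → k ≤ K →
    RgL (4 * Y) U w' c1 M T → ∀ n : ℕ, Y < n → n ≤ 3 * Y →
      0 ≤ FZ Y k U T n ∧ FZ Y k U T n ≤ 1 ∧ (FZ Y k U T n ≠ 0 → EL k U T n) ∧ (EL k U T n → 1 - δ ≤ FZ Y k U T n) := by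
  obtain ⟨M1, x1, h1⟩ := Pool.Agent.Lib.T8.FZ_pt K c1 δ hδ
  obtain ⟨x2, h2⟩ := Pool.Agent.Lib.T8.FZ_le K c1
  refine ⟨max M1 (1000 * K), max x1 x2, le_max_right _ _, fun Y hY k U w' T hk hkK hR n hn1 hn3 => ?_⟩
  have hmono : ∀ m : ℕ, m ≤ max M1 (1000 * K) → RgL (4 * Y) U w' c1 m T := by
    intro m hm
    refine ⟨hR.hS, hR.h2, ?_⟩
    rcases Nat.eq_zero_or_pos U with hU | hU
    · rcases Nat.eq_zero_or_pos m with hm0 | hm0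
      · rw [hm0, pow_zero]
        omega
      · rw [hU, zero_pow (by omega)]
        exact Nat.zero_le _
    · exact (Nat.pow_le_pow_right hU hm).trans hR.h3
  obtain ⟨h3, h4, -⟩ := h2 Y ((le_max_right _ _).trans hY) U w' T (hmono _ (le_max_right _ _)) k hk hkK n
  obtain ⟨h5, h6⟩ := h1 Y ((le_max_left _ _).trans hY) U w' T (hmono _ (le_max_left _ _)) k hk hkK n hn1 hn3
  exact ⟨h3, h4, h5, h6⟩

end Pool.Agent.Lib.WL
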