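import Pool.Agent.Lib.WL.Def
import Pool.Agent.Lib.SW.SP2

/-!
# WL, row Sm: the second moment over a class in a window, with coefficients (copy of `second_moment`, SW/SP2.lean)

PROOF IN WORDS. Open the square: `∑_{s, s' ∈ S} ∑_{q, q' ∈ 𝒬} D q s · D q' s' · ∑_{N ∈ wnd} gq q (N - s) gq q' (N - s')`. The `N` of `wnd Z H W a` are `N₀ + W k`, `k < n`, `n ≤ H/W + 1` (`sp2_ap` has the interval `[1, M]` and `L < N`: use it with `M = Z + H`, `L = Z` and bound `n` by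
hand, or prove the analogue: minimum of the set). `gq_corr W q q'` with `u = N₀ - s`, `u' = N₀ - s'`: the inner sum is at most `q q' + [q = q'] n |gq q (s' - s)|/φ(q)` in absolute value, `q q' ≤ Q^2`, at most `Q^2` pairs (`𝒬 ⊆ [1, Q]`), and `|D q s D q' s'| ≤ B^2`.
(`gq q` is even in its argument for the form `s - s'`; or use the symmetry of the double sum.)
-/

set_option autoImplicit false

open Finset

namespace Pool.Agent.Lib.WL

open Pool.Agent.Lib.SW (gq)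

/-- the class in a window is an arithmetic progression -/
private theorem wnd_ap (Z H W a : ℕ) (hW : 1 ≤ W) : ∃ N₀ n : ℕ, (n : ℝ) ≤ (H : ℝ) / W + 1 ∧
    ∀ F : ℕ → ℝ, ∑ N ∈ wnd Z H W a, F N = ∑ k ∈ range n, F (N₀ + W * k) := by
  classical
  by_cases hne : (wnd Z H W a).Nonempty
  · have hmin := (wnd Z H W a).min'_mem hne
    have hle : ∀ N ∈ wnd Z H W a, (wnd Z H W a).min' hne ≤ N := fun N hN => (wnd Z H W a).min'_le _ hN
    obtain ⟨N₀, hN₀⟩ : ∃ N₀, N₀ = (wnd Z H W a).min' hne := ⟨_, rfl⟩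
    rw [← hN₀] at hmin hle
    have hm := mem_filter.1 hmin
    have hm1 := mem_Ioc.1 hm.1
    refine ⟨N₀, (Z + H - N₀) / W + 1, ?_, fun F => ?_⟩
    · push_cast
      have h1 : (((Z + H - N₀) / W : ℕ) : ℝ) ≤ ((Z + H - N₀ : ℕ) : ℝ) / W := Nat.cast_div_le
      have h2 : ((Z + H - N₀ : ℕ) : ℝ) ≤ (H : ℝ) := by
        have : Z + H - N₀ ≤ H := by omega
        exact_mod_cast this
      have h3 : ((Z + H - N₀ : ℕ) : ℝ) / W ≤ (H : ℝ) / W :=
        div_le_div_of_nonneg_right h2 (Nat.cast_nonneg _)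
      linarith
    · symm
      refine sum_nbij (fun k => N₀ + W * k) ?_ ?_ ?_ fun _ _ => rfl
      · intro k hk
        have hk1 : k ≤ (Z + H - N₀) / W := Nat.lt_succ_iff.1 (mem_range.1 hk)
        have hk2 : W * k ≤ Z + H - N₀ := by
          rw [mul_comm]
          exact (Nat.mul_le_mul_right W hk1).trans (Nat.div_mul_le_self _ _)
        refine mem_filter.2 ⟨mem_Ioc.2 ⟨by omega, by omega⟩, ?_⟩
        have : N₀ + W * k ≡ N₀ [MOD W] := by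
          unfold Nat.ModEq
          rw [Nat.add_mul_mod_self_left]
        exact this.trans hm.2
      · intro k _ k' _ hkk
        simp only at hkk
        have : W * k = W * k' := by omega
        exact Nat.eq_of_mul_eq_mul_left hW this
      · intro N hN
        have hN' := mem_filter.1 (mem_coe.1 hN)
        have hN1 := mem_Ioc.1 hN'.1
        have hle' : N₀ ≤ N := hle _ (mem_coe.1 hN)
        have hmod : N₀ ≡ N [MOD W] := hm.2.trans hN'.2.symm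
        obtain ⟨k, hk⟩ := (Nat.modEq_iff_dvd' hle').1 hmod
        refine ⟨k, ?_, ?_⟩
        · simp only [coe_range, Set.mem_Iio]
          have : k ≤ (Z + H - N₀) / W := by
            rw [Nat.le_div_iff_mul_le hW, mul_comm]
            omega
          omega
        · simp only
          omega
  · refine ⟨0, 0, ?_, fun F => ?_⟩
    · push_cast
      positivity
    · rw [not_nonempty_iff_eq_empty.1 hne, sum_empty, range_zero, sum_empty]

private theorem gq_even (q : ℕ) (s s' : ℤ) : gq q (s' - s) = gq q (s - s') := by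
  rw [← neg_sub s s']
  unfold Pool.Agent.Lib.SW.gq
  simp only [dvd_neg]

theorem smC (Z H W Q a : ℕ) (hW : 1 ≤ W) (𝒬 : Finset ℕ) (h𝒬 : ∀ q ∈ 𝒬, Squarefree q ∧ 1 ≤ q ∧ q ≤ Q ∧ Nat.Coprime W q) (S : Finset ℕ)
    (hS : ∀ s ∈ S, s ≤ Z) (D : ℕ → ℕ → ℝ) (B : ℝ) (hD : ∀ q ∈ 𝒬, ∀ s ∈ S, |D q s| ≤ B) :
    ∑ N ∈ wnd Z H W a, (∑ s ∈ S, ∑ q ∈ 𝒬, D q s * gq q ((N : ℤ) - s)) ^ 2 ≤
      B ^ 2 * (((H : ℝ) / W + 1) * (∑ s ∈ S, ∑ s' ∈ S, ∑ q ∈ 𝒬, |gq q ((s : ℤ) - s')| / (q.totient : ℝ)) + (Q : ℝ) ^ 4 * (S.card : ℝ) ^ 2) := by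
  classical
  have hcard : 𝒬.card ≤ Q := by
    have h1 : 𝒬 ⊆ Icc 1 Q := fun q hq => mem_Icc.2 ⟨(h𝒬 q hq).2.1, (h𝒬 q hq).2.2.1⟩
    have h2 := card_le_card h1
    rw [Nat.card_Icc] at h2
    omega
  have hcardr : (𝒬.card : ℝ) ≤ Q := by exact_mod_cast hcard
  have h1 : ∀ N : ℕ, (∑ s ∈ S, ∑ q ∈ 𝒬, D q s * gq q ((N : ℤ) - s)) ^ 2 =
      ∑ s ∈ S, ∑ s' ∈ S, ∑ q ∈ 𝒬, ∑ q' ∈ 𝒬,
        (D q s * D q' s') * (gq q ((N : ℤ) - s) * gq q' ((N : ℤ) - s')) := by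
    intro N
    rw [sq, sum_mul_sum]
    refine sum_congr rfl fun s _ => sum_congr rfl fun s' _ => ?_
    rw [sum_mul_sum]
    refine sum_congr rfl fun q _ => sum_congr rfl fun q' _ => ?_
    ring
  rw [sum_congr rfl fun N _ => h1 N]
  rw [sum_comm]
  rw [sum_congr rfl fun s _ => sum_comm]
  rw [sum_congr rfl fun s _ => sum_congr rfl fun s' _ => sum_comm]
  rw [sum_congr rfl fun s _ => sum_congr rfl fun s' _ => sum_congr rfl fun q _ => sum_comm]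
  obtain ⟨N₀, n, hn, hF⟩ := wnd_ap Z H W a hW
  -- the inner sums
  have h2 : ∀ s ∈ S, ∀ s' ∈ S, ∀ q ∈ 𝒬, ∀ q' ∈ 𝒬,
      ∑ N ∈ wnd Z H W a, (D q s * D q' s') * (gq q ((N : ℤ) - s) * gq q' ((N : ℤ) - s')) ≤
      B ^ 2 * ((Q : ℝ) ^ 2 + (if q = q' then ((H : ℝ) / W + 1) *
        (|gq q ((s : ℤ) - s')| / (q.totient : ℝ)) else 0)) := by
    intro s hs s' hs' q hq q' hq'
    rw [← mul_sum, hF]
    have hc : Nat.Coprime W (q * q') := Nat.Coprime.mul_right (h𝒬 q hq).2.2.2 (h𝒬 q' hq').2.2.2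
    have h3 := Pool.Agent.Lib.SW.gq_corr W q q' hc (h𝒬 q hq).1 (h𝒬 q' hq').1 ((N₀ : ℤ) - s) ((N₀ : ℤ) - s') n
    have h4 : ∑ k ∈ range n, gq q (((N₀ + W * k : ℕ) : ℤ) - s) * gq q' (((N₀ + W * k : ℕ) : ℤ) - s') =
        ∑ k ∈ range n, gq q (W * k + ((N₀ : ℤ) - s)) * gq q' (W * k + ((N₀ : ℤ) - s')) := by
      refine sum_congr rfl fun k _ => ?_
      congr 2 <;> push_cast <;> ring
    rw [h4]
    refine (le_abs_self _).trans ?_
    rw [abs_mul, abs_mul]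
    have hB0 : 0 ≤ B := (abs_nonneg _).trans (hD q hq s hs)
    have hDD : |D q s| * |D q' s'| ≤ B ^ 2 := by
      rw [sq]
      exact mul_le_mul (hD q hq s hs) (hD q' hq' s' hs') (abs_nonneg _) hB0
    refine mul_le_mul hDD (h3.trans (add_le_add ?_ ?_)) (abs_nonneg _) (sq_nonneg _)
    · have e1 : (q : ℝ) ≤ Q := by exact_mod_cast (h𝒬 q hq).2.2.1
      have e2 : (q' : ℝ) ≤ Q := by exact_mod_cast (h𝒬 q' hq').2.2.1
      rw [sq]
      exact mul_le_mul e1 e2 (Nat.cast_nonneg _) (Nat.cast_nonneg _)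
    · by_cases hqq : q = q'
      · rw [if_pos hqq, if_pos hqq]
        have e1 : ((N₀ : ℤ) - s) - ((N₀ : ℤ) - s') = (s' : ℤ) - s := by ring
        rw [e1, gq_even]
        exact mul_le_mul_of_nonneg_right hn (div_nonneg (abs_nonneg _) (Nat.cast_nonneg _))
      · rw [if_neg hqq, if_neg hqq]
  have hXW : 0 ≤ (H : ℝ) / W + 1 := by positivity
  have h3 : ∀ s ∈ S, ∀ s' ∈ S, ∑ q ∈ 𝒬, ∑ q' ∈ 𝒬,
      ∑ N ∈ wnd Z H W a, (D q s * D q' s') * (gq q ((N : ℤ) - s) * gq q' ((N : ℤ) - s')) ≤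
      B ^ 2 * ((Q : ℝ) ^ 4 + ((H : ℝ) / W + 1) * ∑ q ∈ 𝒬, |gq q ((s : ℤ) - s')| / (q.totient : ℝ)) := by
    intro s hs s' hs'
    refine (sum_le_sum fun q hq => sum_le_sum fun q' hq' => h2 s hs s' hs' q hq q' hq').trans ?_
    have e1 : ∀ q ∈ 𝒬, ∑ q' ∈ 𝒬, B ^ 2 * ((Q : ℝ) ^ 2 + (if q = q' then ((H : ℝ) / W + 1) *
        (|gq q ((s : ℤ) - s')| / (q.totient : ℝ)) else 0)) =
        B ^ 2 * (𝒬.card * (Q : ℝ) ^ 2 + ((H : ℝ) / W + 1) *
        (|gq q ((s : ℤ) - s')| / (q.totient : ℝ))) := by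
      intro q hq
      rw [← mul_sum, sum_add_distrib, sum_const, nsmul_eq_mul, sum_ite_eq, if_pos hq]
    rw [sum_congr rfl e1, ← mul_sum, sum_add_distrib, sum_const, nsmul_eq_mul, ← mul_sum]
    refine mul_le_mul_of_nonneg_left (add_le_add ?_ le_rfl) (sq_nonneg _)
    have e2 : (𝒬.card : ℝ) * (𝒬.card * (Q : ℝ) ^ 2) ≤ (Q : ℝ) * (Q * (Q : ℝ) ^ 2) := by
      refine mul_le_mul hcardr (mul_le_mul_of_nonneg_right hcardr (by positivity)) (by positivity)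
        (Nat.cast_nonneg _)
    refine e2.trans (le_of_eq ?_)
    ring
  refine (sum_le_sum fun s hs => sum_le_sum fun s' hs' => h3 s hs s' hs').trans ?_
  have e1 : ∀ s ∈ S, ∑ s' ∈ S, B ^ 2 * ((Q : ℝ) ^ 4 + ((H : ℝ) / W + 1) *
      ∑ q ∈ 𝒬, |gq q ((s : ℤ) - s')| / (q.totient : ℝ)) =
      B ^ 2 * (S.card * (Q : ℝ) ^ 4 + ((H : ℝ) / W + 1) *
        ∑ s' ∈ S, ∑ q ∈ 𝒬, |gq q ((s : ℤ) - s')| / (q.totient : ℝ)) := by
    intro s _
    rw [← mul_sum, sum_add_distrib, sum_const, nsmul_eq_mul, ← mul_sum]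
  rw [sum_congr rfl e1, ← mul_sum, sum_add_distrib, sum_const, nsmul_eq_mul, ← mul_sum]
  refine le_of_eq ?_
  ring

end Pool.Agent.Lib.WL
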