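import Pool.Agent.Lib.WL.Bl

/-!
# WL, row Su: the sum over the blocks (Minkowski inequality)

PROOF IN WORDS. `blW (K+1) Kk B B3` with `ε`. For `i ∈ bk X Z B3` let `Y = 2^i` (`X/L^B3 ≤ Y ≤ Z ≤ 2X`, `H ≤ X/L^B3 ≤ Y`), `S_i = Sb Z S i` (exactly the condition of `blW`), `A_i = |Sa W S_i a|`, `x_i(N) = ∑_{s ∈ S_i} FZ (2^i) .. (N - s) - c A_i σ/L`, `b_i = A_i + X/L^(K+1) > 0`:
`∑_N x_i(N)^2 ≤ ε (H/W) (c σ/L)^2 b_i^2`. Cauchy-Schwarz with weights: `(∑_i x_i)^2 ≤ (∑_i b_i)(∑_i x_i^2/b_i)`, so `∑_N (∑_i x_i(N))^2 ≤ (∑ b_i) ∑_i ε (H/W) (c σ/L)^2 b_i = ε (H/W) (c σ/L)^2 (∑ b_i)^2`. The `S_i` are disjoint subsets of `S`, so `∑ A_i ≤ |Sa W S a|`, and the number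
of blocks is at most `log 2X/log 2 - (log X - B3 log log X)/log 2 + 2 ≤ log X` for large `X`: `∑ b_i ≤ |Sa| + X/L^K`.
-/

set_option autoImplicit false

open Finset

namespace Pool.Agent.Lib.WL

open Pool.Agent.Lib.SW (WX cX Sa)
open Pool.Agent.Lib.T8 (FZ)
open Pool.Agent.Lib.G8 (RgL sL)

open Classical in
/-- the blocks with `X/(log X)^B3 ≤ 2^i ≤ Z` -/
noncomputable def bk (X Z B3 : ℕ) : Finset ℕ := (range (Nat.log 2 Z + 1)).filter fun i => (X : ℝ) / (Real.log X) ^ B3 ≤ (2 : ℝ) ^ i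

private theorem su_cs {ι κ : Type*} (s : Finset ι) (V : Finset κ) (x : ι → κ → ℝ) (b : ι → ℝ) (hb : ∀ i ∈ s, 0 < b i) (G : ℝ)
    (hx : ∀ i ∈ s, ∑ N ∈ V, x i N ^ 2 ≤ G * b i ^ 2) :
    ∑ N ∈ V, (∑ i ∈ s, x i N) ^ 2 ≤ G * (∑ i ∈ s, b i) ^ 2 := by
  rcases s.eq_empty_or_nonempty with rfl | hs
  · simp
  have hB : 0 < ∑ i ∈ s, b i := sum_pos hb hs
  have h1 : ∀ N ∈ V, (∑ i ∈ s, x i N) ^ 2 ≤ (∑ i ∈ s, x i N ^ 2 / b i) * ∑ i ∈ s, b i := by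
    intro N _
    rw [← div_le_iff₀ hB]
    exact sq_sum_div_le_sum_sq_div s (fun i => x i N) hb
  refine (sum_le_sum h1).trans ?_
  rw [← sum_mul, sum_comm]
  have h2 : ∑ i ∈ s, ∑ N ∈ V, x i N ^ 2 / b i ≤ ∑ i ∈ s, G * b i := by
    refine sum_le_sum fun i hi => ?_
    rw [← sum_div, div_le_iff₀ (hb i hi)]
    calc ∑ N ∈ V, x i N ^ 2 ≤ G * b i ^ 2 := hx i hi
      _ = G * b i * b i := by ring
  calc (∑ i ∈ s, ∑ N ∈ V, x i N ^ 2 / b i) * ∑ i ∈ s, b i ≤ (∑ i ∈ s, G * b i) * ∑ i ∈ s, b i :=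
        mul_le_mul_of_nonneg_right h2 hB.le
    _ = G * (∑ i ∈ s, b i) ^ 2 := by
        rw [← mul_sum]
        ring

private theorem su_dis (W Z a : ℕ) (S s : Finset ℕ) :
    ∑ i ∈ s, (Sa W (Sb Z S i) a).card ≤ (Sa W S a).card := by
  classical
  rw [← card_biUnion]
  · refine card_le_card fun n hn => ?_
    obtain ⟨i, _, hi⟩ := mem_biUnion.mp hn
    unfold Pool.Agent.Lib.SW.Sa at hi ⊢
    unfold Sb at hi
    rw [mem_filter] at hi ⊢
    exact ⟨(mem_filter.mp hi.1).1, hi.2⟩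
  · intro i _ j _ hij
    refine disjoint_left.mpr fun n h1 h2 => ?_
    unfold Pool.Agent.Lib.SW.Sa at h1 h2
    unfold Sb at h1 h2
    have a1 := (mem_filter.mp (mem_filter.mp h1).1).2
    have a2 := (mem_filter.mp (mem_filter.mp h2).1).2
    rcases lt_or_gt_of_ne hij with h | h
    · have h3 : 2 ^ (i + 1) ≤ 2 ^ j := Nat.pow_le_pow_right (by norm_num) h
      omega
    · have h3 : 2 ^ (j + 1) ≤ 2 ^ i := Nat.pow_le_pow_right (by norm_num) h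
      omega

private theorem su_ev (B3 : ℕ) : ∃ X1 : ℕ, ∀ X : ℕ, X1 ≤ X → 3 ≤ X ∧
    2 * (((⌊Real.log X⌋₊ + 1 : ℕ) : ℝ)) ^ B3 < 2 ^ ⌊Real.log X⌋₊ := by
  have h1 : Filter.Tendsto (fun n : ℕ => ((n : ℝ)) ^ B3 / 2 ^ n) Filter.atTop (nhds 0) :=
    tendsto_pow_const_div_const_pow_of_one_lt B3 (by norm_num)
  have h2 : Filter.Tendsto (fun X : ℕ => ⌊Real.log X⌋₊ + 1) Filter.atTop Filter.atTop :=
    (Filter.tendsto_add_atTop_nat 1).comp
      (tendsto_nat_floor_atTop.comp (Real.tendsto_log_atTop.comp tendsto_natCast_atTop_atTop))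
  have h3 := (h1.comp h2).eventually (gt_mem_nhds (by norm_num : (0 : ℝ) < 1 / 4))
  obtain ⟨X1, h4⟩ := Filter.eventually_atTop.mp h3
  refine ⟨max X1 3, fun X hX => ⟨(le_max_right _ _).trans hX, ?_⟩⟩
  have h5 := h4 X ((le_max_left _ _).trans hX)
  simp only [Function.comp_apply] at h5
  rw [div_lt_iff₀ (by positivity), pow_succ] at h5
  linarith

private theorem su_bk {X Z B3 : ℕ} (hX : 3 ≤ X) (hZ : Z ≤ 2 * X)
    (hgr : 2 * (((⌊Real.log X⌋₊ + 1 : ℕ) : ℝ)) ^ B3 < 2 ^ ⌊Real.log X⌋₊) : ((bk X Z B3).card : ℝ) ≤ Real.log X := by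
  classical
  have hX0 : (0 : ℝ) < X := by
    have : 0 < X := by omega
    exact_mod_cast this
  have hL0 : 0 < Real.log X := Real.log_pos (by
    have : 1 < X := by omega
    exact_mod_cast this)
  have h2m : ((2 : ℝ)) ^ Nat.log 2 Z ≤ 2 * X := by
    have h1 : 2 ^ Nat.log 2 Z ≤ 2 * X := by
      rcases Nat.eq_zero_or_pos Z with h | h
      · rw [h, Nat.log_zero_right, pow_zero]
        omega
      · exact (Nat.pow_log_le_self 2 h.ne').trans hZ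
    exact_mod_cast h1
  have hLr : Real.log X ≤ ((⌊Real.log X⌋₊ + 1 : ℕ) : ℝ) := by
    push_cast
    exact (Nat.lt_floor_add_one _).le
  have h3 : (bk X Z B3).card ≤ (range ⌊Real.log X⌋₊).card := by
    refine card_le_card_of_injOn (fun i => Nat.log 2 Z - i) ?_ ?_
    · intro i hi
      have hi' := mem_coe.mp hi
      unfold bk at hi'
      rw [mem_filter, mem_range] at hi'
      refine mem_coe.mpr (mem_range.mpr ?_)
      have h4 : (2 : ℝ) ^ (Nat.log 2 Z - i) * 2 ^ i = 2 ^ Nat.log 2 Z := by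
        rw [← pow_add, Nat.sub_add_cancel (by omega)]
      have h5 : (X : ℝ) ≤ 2 ^ i * (Real.log X) ^ B3 := by
        have := hi'.2
        rwa [div_le_iff₀ (by positivity)] at this
      have h6 : (2 : ℝ) ^ (Nat.log 2 Z - i) ≤ 2 * (Real.log X) ^ B3 := by
        have h7 : (2 : ℝ) ^ (Nat.log 2 Z - i) * 2 ^ i ≤ 2 * (Real.log X) ^ B3 * 2 ^ i := by
          rw [h4]
          linarith
        exact le_of_mul_le_mul_right h7 (by positivity)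
      have h8 : 2 * (Real.log X) ^ B3 ≤ 2 * (((⌊Real.log X⌋₊ + 1 : ℕ) : ℝ)) ^ B3 :=
        mul_le_mul_of_nonneg_left (pow_le_pow_left₀ hL0.le hLr _) (by norm_num)
      have h9 : (2 : ℝ) ^ (Nat.log 2 Z - i) < 2 ^ ⌊Real.log X⌋₊ := by linarith
      exact (pow_lt_pow_iff_right₀ (by norm_num : (1 : ℝ) < 2)).mp h9
    · intro i hi j hj hij
      have hi' := mem_coe.mp hi
      have hj' := mem_coe.mp hj
      unfold bk at hi' hj'
      rw [mem_filter, mem_range] at hi' hj'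
      have hij' : Nat.log 2 Z - i = Nat.log 2 Z - j := hij
      omega
  rw [card_range] at h3
  exact (by exact_mod_cast h3 : ((bk X Z B3).card : ℝ) ≤ (⌊Real.log X⌋₊ : ℝ)).trans (Nat.floor_le hL0.le)

theorem suW (K Kk B B3 : ℕ) : ∃ a1 : ℕ, ∀ c1 : ℕ, a1 ≤ c1 → ∃ C : ℕ, ∀ ε : ℝ, 0 < ε → ∃ X0 : ℕ, ∀ (X Z H a k U w' : ℕ) (T : Finset ℕ),
    X0 ≤ X → Z ≤ 2 * X → 2 ≤ k → k ≤ Kk → (∀ Y : ℕ, (X : ℝ) / (Real.log X) ^ B3 ≤ Y → Y ≤ 2 * X → RgL (4 * Y) U w' (c1 + 1) (1000 * Kk) T) →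
      1 / (Real.log X) ^ B ≤ sL k U T → 1 ≤ w' → (w' : ℝ) * (Real.log X) ^ C ≤ H → (H : ℝ) ≤ X / (Real.log X) ^ B3 →
        ∀ S : Finset ℕ, S ⊆ Icc 1 Z →
          ∑ N ∈ wnd Z H (WX X) a, (∑ i ∈ bk X Z B3, ∑ s ∈ Sb Z S i, FZ (2 ^ i) k U T (N - s) -
              cX X * (∑ i ∈ bk X Z B3, ((Sa (WX X) (Sb Z S i) a).card : ℝ)) * (sL k U T / Real.log X)) ^ 2 ≤
            ε * (H / WX X) * (cX X * (sL k U T / Real.log X)) ^ 2 * (((Sa (WX X) S a).card : ℝ) + X / (Real.log X) ^ K) ^ 2 := by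
  classical
  obtain ⟨a1, h⟩ := blW (K + 1) Kk B B3
  refine ⟨a1, fun c1 hc1 => ?_⟩
  obtain ⟨C, h⟩ := h c1 hc1
  refine ⟨C, fun ε hε => ?_⟩
  obtain ⟨X0, h⟩ := h ε hε
  obtain ⟨X1, hX1⟩ := su_ev B3
  refine ⟨max X0 X1, ?_⟩
  intro X Z H a k U w' T hX hZ hk2 hkK hRg hσ hw1 hwH hHX S hS
  obtain ⟨hX3, hgr⟩ := hX1 X ((le_max_right _ _).trans hX)
  have hX0' : (0 : ℝ) < X := by
    have : 0 < X := by omega
    exact_mod_cast this
  have hL0 : 0 < Real.log X := Real.log_pos (by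
    have : 1 < X := by omega
    exact_mod_cast this)
  have hbk : ∀ i ∈ bk X Z B3, (X : ℝ) / (Real.log X) ^ B3 ≤ ((2 ^ i : ℕ) : ℝ) ∧ 2 ^ i ≤ 2 * X := by
    intro i hi
    unfold bk at hi
    rw [mem_filter, mem_range] at hi
    refine ⟨by push_cast; exact hi.2, ?_⟩
    rcases Nat.eq_zero_or_pos Z with h0 | h0
    · rw [h0, Nat.log_zero_right] at hi
      have : i = 0 := by omega
      rw [this, pow_zero]
      omega
    · exact ((Nat.pow_le_pow_right (by norm_num) (by omega)).trans (Nat.pow_log_le_self 2 h0.ne')).trans hZ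
  set G : ℝ := ε * (H / WX X) * (cX X * (sL k U T / Real.log X)) ^ 2 with hG
  have hG0 : 0 ≤ G := by positivity
  set b : ℕ → ℝ := fun i => ((Sa (WX X) (Sb Z S i) a).card : ℝ) + X / (Real.log X) ^ (K + 1) with hb
  have hb0 : ∀ i ∈ bk X Z B3, 0 < b i := fun i _ => by
    rw [hb]
    positivity
  have key : ∀ i ∈ bk X Z B3, ∑ N ∈ wnd Z H (WX X) a, (∑ s ∈ Sb Z S i, FZ (2 ^ i) k U T (N - s) -
      cX X * (Sa (WX X) (Sb Z S i) a).card * (sL k U T / Real.log X)) ^ 2 ≤ G * b i ^ 2 := by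
    intro i hi
    obtain ⟨h1, h2⟩ := hbk i hi
    refine h X (2 ^ i) Z H a k U w' T ((le_max_left _ _).trans hX) h1 h2 hZ hk2 hkK (hRg _ h1 h2) hσ hw1 hwH ?_
      (Sb Z S i) ((filter_subset _ _).trans hS) fun s hs => ?_
    · exact_mod_cast hHX.trans h1
    · have h3 := (mem_filter.mp hs).2
      rw [pow_succ] at h3
      exact ⟨h3.1, by omega⟩
  have hcs := su_cs (bk X Z B3) (wnd Z H (WX X) a) (fun i N => ∑ s ∈ Sb Z S i, FZ (2 ^ i) k U T (N - s) -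
      cX X * (Sa (WX X) (Sb Z S i) a).card * (sL k U T / Real.log X)) b hb0 G key
  have hsum : ∑ i ∈ bk X Z B3, b i ≤ ((Sa (WX X) S a).card : ℝ) + X / (Real.log X) ^ K := by
    rw [hb, sum_add_distrib, sum_const, nsmul_eq_mul]
    have h1 : ∑ i ∈ bk X Z B3, ((Sa (WX X) (Sb Z S i) a).card : ℝ) ≤ (Sa (WX X) S a).card := by
      exact_mod_cast su_dis (WX X) Z a S (bk X Z B3)
    have h2 := mul_le_mul_of_nonneg_right (su_bk hX3 hZ hgr) (by positivity : 0 ≤ (X : ℝ) / (Real.log X) ^ (K + 1))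
    have h3 : Real.log X * ((X : ℝ) / (Real.log X) ^ (K + 1)) = X / (Real.log X) ^ K := by
      rw [pow_succ]
      field_simp
    linarith
  have hsum0 : 0 ≤ ∑ i ∈ bk X Z B3, b i := sum_nonneg fun i hi => (hb0 i hi).le
  calc ∑ N ∈ wnd Z H (WX X) a, (∑ i ∈ bk X Z B3, ∑ s ∈ Sb Z S i, FZ (2 ^ i) k U T (N - s) -
              cX X * (∑ i ∈ bk X Z B3, ((Sa (WX X) (Sb Z S i) a).card : ℝ)) * (sL k U T / Real.log X)) ^ 2
      = ∑ N ∈ wnd Z H (WX X) a, (∑ i ∈ bk X Z B3, (∑ s ∈ Sb Z S i, FZ (2 ^ i) k U T (N - s) -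
              cX X * (Sa (WX X) (Sb Z S i) a).card * (sL k U T / Real.log X))) ^ 2 := by
        refine sum_congr rfl fun N _ => ?_
        rw [sum_sub_distrib, mul_sum, sum_mul]
    _ ≤ G * (∑ i ∈ bk X Z B3, b i) ^ 2 := hcs
    _ ≤ G * (((Sa (WX X) S a).card : ℝ) + X / (Real.log X) ^ K) ^ 2 :=
        mul_le_mul_of_nonneg_left (pow_le_pow_left₀ hsum0 hsum 2) hG0

end Pool.Agent.Lib.WL
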