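import Pool.Agent.Lib.WL.Su
import Pool.Agent.Lib.WL.Pt

/-!
# WL, row Ty: the number of the `s ∈ S` with `N - s` typical, short windows

PROOF IN WORDS. `L = log X`, `B3 = K + B + 4`; `suW K Kk B B3` gives `a1`; `c10 = a1`; for `c1 ≥ c10` its `C'`, `C = max C' (B3 + 1)`. `δ = min ε 1/16`; `ptW Kk (c1 + 1) δ` gives `M ≥ 1000 Kk`. `RgL (4Y) U w' (c1 + 1) M T` for `X/L^B3 ≤ Y ≤ 2X`: `(log 4Y)^(c1+2) ≤ (log 8X)^(c1+2) ≤ L^(c1+3) ≤ q` for large `X`,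
`U^M ≤ √X ≤ 4Y`; so also with `1000 Kk ≤ M` in the place of `M` (`U ≥ 1`). Let `N` be in the window, `Φ = ∑_i ∑_{s ∈ Sb i} FZ (2^i) (N - s)`, `E = cE k U T S N`, `E' = ∑_{i ∈ bk} #{s ∈ Sb i : EL (N - s)}`: by `ptW` (`N - s ∈ (2^i, 3·2^i]`) `(1-δ) E' ≤ Φ ≤ E'`; `E' ≤ E ≤ E' + R`, `R` the number of `s ∈ S` in no
block `Sb Z S i`, `i ∈ bk`: for these `Z - s < 2X/L^B3` (if `Z - s ≥ 2` let `2^i < Z - s ≤ 2^(i+1)`; then `i ≤ log2 Z`, so `2^i < X/L^B3`), so `R ≤ 2X/L^B3 + 1`. In the same way `A' = ∑_i |Sa (Sb i)|`, `A = |Sa S|`: `A' ≤ A ≤ A' + R`. `m = max A (X/L^K)`, `σ ≥ L^(-B)`, `1 ≤ c`: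
`R ≤ δ m σ/L` and so `c R σ/L ≤ δ c m σ/L` for large `X`. If `|Φ - c A' σ/L| ≤ δ c m σ/L` then `|E - c A σ/L| ≤ ε c m σ/L` (`δ = ε/16`). By `suW` with `ε''= ε δ^2/4` and Chebyshev (`(A + X/L^K)^2 ≤ 4 m^2`) this fails for at most `ε H/W` of the `N`. (`H ≤ X/L^B3` as `H L^C ≤ X`.)
-/

set_option autoImplicit false

open Finset

namespace Pool.Agent.Lib.WL

open Pool.Agent.Lib.SW (WX cX Sa)
open Pool.Agent.Lib.G8 (RgL sL)

private theorem ty_large (n : ℕ) (L0 : ℝ) : ∃ X0 : ℕ, ∀ X : ℕ, X0 ≤ X → L0 ≤ Real.log X ∧ (Real.log X) ^ n ≤ X ∧ 1 ≤ X := by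
  have h1 := (Real.isLittleO_pow_log_id_atTop (n := n)).def (one_pos : (0 : ℝ) < 1)
  have h2 := Real.tendsto_log_atTop.eventually_ge_atTop (max L0 0)
  obtain ⟨x0, hx0⟩ := Filter.eventually_atTop.1 (h1.and (h2.and (Filter.eventually_ge_atTop 1)))
  obtain ⟨X0, hX0⟩ := exists_nat_ge x0
  refine ⟨X0, fun X hX => ?_⟩
  obtain ⟨a1, a2, a3⟩ := hx0 X (hX0.trans (by exact_mod_cast hX))
  have a4 : 0 ≤ Real.log X := (le_max_right _ _).trans a2
  rw [Real.norm_of_nonneg (pow_nonneg a4 n), id, Real.norm_of_nonneg (by linarith), one_mul] at a1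
  exact ⟨(le_max_left _ _).trans a2, a1, by exact_mod_cast a3⟩

private theorem ty_disj (Z : ℕ) (S : Finset ℕ) {i j : ℕ} (hij : i ≠ j) : Disjoint (Sb Z S i) (Sb Z S j) := by
  rw [disjoint_left]
  intro s hi hj
  unfold Sb at hi hj
  rw [mem_filter] at hi hj
  have h1 : 2 ^ i < 2 ^ (j + 1) := hi.2.1.trans_le hj.2.2
  have h2 : 2 ^ j < 2 ^ (i + 1) := hj.2.1.trans_le hi.2.2
  have h3 := (Nat.pow_lt_pow_iff_right (by norm_num)).1 h1
  have h4 := (Nat.pow_lt_pow_iff_right (by norm_num)).1 h2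
  omega

private theorem ty_blocks {X Z B3 : ℕ} {S : Finset ℕ} (hS : S ⊆ Icc 1 Z) (hX : 1 ≤ (X : ℝ) / (Real.log X) ^ B3)
    (P : ℕ → Prop) [DecidablePred P] :
    ∑ i ∈ bk X Z B3, (((Sb Z S i).filter P).card : ℝ) ≤ ((S.filter P).card : ℝ) ∧
      ((S.filter P).card : ℝ) ≤ ∑ i ∈ bk X Z B3, (((Sb Z S i).filter P).card : ℝ) + (2 * (X / (Real.log X) ^ B3) + 1) := by
  classical
  constructor
  · have h1 : ((bk X Z B3).biUnion fun i => (Sb Z S i).filter P).card = ∑ i ∈ bk X Z B3, ((Sb Z S i).filter P).card := by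
      refine card_biUnion fun i _ j _ hij => ?_
      exact (ty_disj Z S hij).mono (filter_subset _ _) (filter_subset _ _)
    have h2 : ((bk X Z B3).biUnion fun i => (Sb Z S i).filter P) ⊆ S.filter P := by
      intro s hs
      rw [mem_biUnion] at hs
      obtain ⟨i, _, hs⟩ := hs
      rw [mem_filter] at hs ⊢
      exact ⟨(mem_filter.1 hs.1).1, hs.2⟩
    have h3 := card_le_card h2
    rw [h1] at h3
    exact_mod_cast h3
  · obtain ⟨τ, hτ⟩ : ∃ τ : ℝ, τ = 2 * (X / (Real.log X) ^ B3) := ⟨_, rfl⟩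
    have hτ2 : 2 ≤ τ := by rw [hτ]; linarith
    have hsub : S.filter P ⊆ ((bk X Z B3).biUnion fun i => (Sb Z S i).filter P) ∪ Icc (Z - ⌊τ⌋₊) Z := by
      intro s hs
      rw [mem_filter] at hs
      have hsZ := mem_Icc.1 (hS hs.1)
      rw [mem_union]
      by_cases ht : ((Z - s : ℕ) : ℝ) ≤ τ
      · right
        rw [mem_Icc]
        have := Nat.le_floor ht
        omega
      · left
        rw [not_le] at ht
        have ht3 : 2 < Z - s := by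
          have : (2 : ℝ) < ((Z - s : ℕ) : ℝ) := hτ2.trans_lt ht
          exact_mod_cast this
        rw [mem_biUnion]
        obtain ⟨i, hi⟩ : ∃ i, i = Nat.log 2 (Z - s - 1) := ⟨_, rfl⟩
        have hi1 : 2 ^ i ≤ Z - s - 1 := by rw [hi]; exact Nat.pow_log_le_self 2 (by omega)
        have hi2 : Z - s - 1 < 2 ^ (i + 1) := by rw [hi]; exact Nat.lt_pow_succ_log_self (by norm_num) _
        refine ⟨i, ?_, ?_⟩
        · unfold bk
          rw [mem_filter, mem_range]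
          refine ⟨?_, ?_⟩
          · have : Nat.log 2 (Z - s - 1) ≤ Nat.log 2 Z := Nat.log_mono_right (by omega)
            omega
          · have h5 : ((Z - s : ℕ) : ℝ) ≤ 2 ^ (i + 1) := by
              have : Z - s ≤ 2 ^ (i + 1) := by omega
              exact_mod_cast this
            rw [pow_succ] at h5
            linarith
        · rw [mem_filter]
          refine ⟨?_, hs.2⟩
          unfold Sb
          rw [mem_filter]
          exact ⟨hs.1, by omega, by omega⟩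
    have h1 := (card_le_card hsub).trans (card_union_le _ _)
    have h2 := h1.trans (Nat.add_le_add_right (card_biUnion_le (s := bk X Z B3) (t := fun i => (Sb Z S i).filter P)) _)
    have h3 : (Icc (Z - ⌊τ⌋₊) Z).card ≤ ⌊τ⌋₊ + 1 := by rw [Nat.card_Icc]; omega
    have h4 : (S.filter P).card ≤ ∑ i ∈ bk X Z B3, ((Sb Z S i).filter P).card + (⌊τ⌋₊ + 1) := h2.trans (Nat.add_le_add_left h3 _)
    have h5 : (⌊τ⌋₊ : ℝ) ≤ τ := Nat.floor_le (by linarith)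
    have h6 : ((S.filter P).card : ℝ) ≤ ∑ i ∈ bk X Z B3, (((Sb Z S i).filter P).card : ℝ) + ((⌊τ⌋₊ : ℝ) + 1) := by
      exact_mod_cast h4
    rw [← hτ]
    linarith

/-- the arithmetic of the comparison -/
private theorem ty_arith {δ E E' Φ A A' R c s m : ℝ} (hδ0 : 0 < δ) (hδ : δ ≤ 1 / 16) (hE' : 0 ≤ E') (h1 : (1 - δ) * E' ≤ Φ)
    (h2 : Φ ≤ E') (h3 : E' ≤ E) (h4 : E ≤ E' + R) (h5 : A' ≤ A) (h6 : A ≤ A' + R) (hc : 1 ≤ c) (hs : 0 ≤ s) (hA : A ≤ m)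
    (hA0 : 0 ≤ A) (hR : R ≤ δ * (m * s)) (hR2 : R ≤ δ * m) (hΦ : |Φ - c * A' * s| ≤ δ * (c * m * s)) :
    |E - c * A * s| ≤ 5 * δ * (c * m * s) := by
  have hm : 0 ≤ m := hA0.trans hA
  obtain ⟨G, hG⟩ : ∃ G, G = c * m * s := ⟨_, rfl⟩
  have hG0 : 0 ≤ G := by rw [hG]; positivity
  have hms : m * s ≤ G := by
    rw [hG, mul_assoc]
    nlinarith [mul_nonneg hm hs]
  have hRG : R ≤ δ * G := hR.trans (mul_le_mul_of_nonneg_left hms hδ0.le)
  have hcs : 0 ≤ c * s := by positivity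
  have hRc : c * R * s ≤ δ * G := by
    have := mul_le_mul_of_nonneg_left hR2 hcs
    rw [hG]
    nlinarith
  have hAG : c * A * s ≤ G := by
    have := mul_le_mul_of_nonneg_left hA hcs
    rw [hG]
    nlinarith
  have hA'1 : c * A' * s ≤ c * A * s := by
    have := mul_le_mul_of_nonneg_left h5 hcs
    nlinarith
  have hA'2 : c * A * s ≤ c * A' * s + c * R * s := by
    have := mul_le_mul_of_nonneg_left h6 hcs
    nlinarith
  rw [← hG] at hΦ ⊢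
  rw [abs_le] at hΦ ⊢
  obtain ⟨p1, p2⟩ := hΦ
  constructor
  · linarith [mul_nonneg hδ0.le hG0]
  · have q1 : (1 - δ) * E' ≤ c * A * s + δ * G := by linarith
    have q2 : E' ≤ (1 + 2 * δ) * ((1 - δ) * E') := by nlinarith [mul_nonneg hδ0.le hE']
    have q3 : E' ≤ (1 + 2 * δ) * (c * A * s + δ * G) := q2.trans (mul_le_mul_of_nonneg_left q1 (by linarith))
    have q4 : (1 + 2 * δ) * (c * A * s + δ * G) ≤ c * A * s + 4 * (δ * G) := by
      nlinarith [mul_nonneg hδ0.le hG0, mul_nonneg (mul_nonneg hδ0.le hG0) hδ0.le, mul_le_mul_of_nonneg_left hAG hδ0.le]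
    linarith

theorem tyW (K Kk B : ℕ) : ∃ c10 : ℕ, ∀ c1 : ℕ, c10 ≤ c1 → ∃ C : ℕ, ∀ ε : ℝ, 0 < ε → ∃ M X0 : ℕ, ∀ (X Z H a k U w' : ℕ) (T : Finset ℕ),
    X0 ≤ X → Z ≤ 2 * X → 2 ≤ k → k ≤ Kk → (∀ q ∈ T, q.Prime ∧ (Real.log X) ^ (c1 + 3) ≤ q ∧ q ≤ w') → 2 * w' ≤ U → U ^ (2 * M) ≤ X →
      1 / (Real.log X) ^ B ≤ sL k U T → 1 ≤ w' → (w' : ℝ) * (Real.log X) ^ C ≤ H → (H : ℝ) * (Real.log X) ^ C ≤ X →
        ∀ S : Finset ℕ, S ⊆ Icc 1 Z →
          (((wnd Z H (WX X) a).filter fun N => ε * (cX X * max ((Sa (WX X) S a).card : ℝ) (X / (Real.log X) ^ K) * (sL k U T / Real.log X)) <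
            |(cE k U T S N : ℝ) - cX X * (Sa (WX X) S a).card * (sL k U T / Real.log X)|).card : ℝ) ≤ ε * (H / WX X) := by
  obtain ⟨B3, hB3⟩ : ∃ B3, B3 = K + B + 4 := ⟨_, rfl⟩
  obtain ⟨a1, ha1⟩ := suW K Kk B B3
  refine ⟨a1, fun c1 hc1 => ?_⟩
  obtain ⟨C', hC'⟩ := ha1 c1 hc1
  refine ⟨max C' (B3 + 1), fun ε hε => ?_⟩
  obtain ⟨δ, hδd⟩ : ∃ δ : ℝ, δ = min ε 1 / 16 := ⟨_, rfl⟩
  have hδ0 : 0 < δ := by rw [hδd]; have := lt_min hε one_pos; positivity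
  have hδ1 : δ ≤ 1 / 16 := by rw [hδd]; have := min_le_right ε 1; linarith
  have hδε : 5 * δ ≤ ε := by
    rw [hδd]
    have h1 := min_le_left ε 1
    have h2 := (lt_min hε one_pos).le
    linarith
  obtain ⟨M, x0, hMK, hpt⟩ := ptW Kk (c1 + 1) δ hδ0
  obtain ⟨X1, hX1⟩ := hC' (ε * δ ^ 2 / 4) (by positivity)
  obtain ⟨X2, hX2⟩ := ty_large (2 * B3 + 1) (max (max 3 (2 ^ (c1 + 2))) (max (3 / δ) x0))
  refine ⟨M, max X1 X2, fun X Z H a k U w' T hX hZ hk hkK hT hU hUM hσ hw' hwH hHX S hS => ?_⟩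
  obtain ⟨hL0, hLn, hX1'⟩ := hX2 X ((le_max_right _ _).trans hX)
  obtain ⟨L, hL⟩ : ∃ L, L = Real.log X := ⟨_, rfl⟩
  rw [← hL] at hL0 hLn hT hσ hwH hHX
  have hL3 : 3 ≤ L := ((le_max_left _ _).trans (le_max_left _ _)).trans hL0
  have hLc : 2 ^ (c1 + 2) ≤ L := ((le_max_right _ _).trans (le_max_left _ _)).trans hL0
  have hLδ : 3 / δ ≤ L := ((le_max_left _ _).trans (le_max_right _ _)).trans hL0
  have hLx : x0 ≤ L := ((le_max_right _ _).trans (le_max_right _ _)).trans hL0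
  have hLp : 0 < L := by linarith
  have hL1 : 1 ≤ L := by linarith
  have hXp : (0 : ℝ) < X := by exact_mod_cast hX1'
  have hLB : 0 < L ^ B3 := pow_pos hLp _
  -- `L ^ (2 B3) ≤ X`, `L ^ (B3 + 1) ≤ X`
  have hLX : L ^ (2 * B3) ≤ X := (pow_le_pow_right₀ hL1 (by omega)).trans hLn
  have hLX1 : L ^ (B3 + 1) ≤ X := (pow_le_pow_right₀ hL1 (by omega)).trans hLn
  obtain ⟨ρ, hρ⟩ : ∃ ρ : ℝ, ρ = X / L ^ B3 := ⟨_, rfl⟩
  have hρL : L ≤ ρ := by
    rw [hρ, le_div_iff₀ hLB]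
    calc L * L ^ B3 = L ^ (B3 + 1) := by ring
      _ ≤ X := hLX1
  have hρ1 : 1 ≤ ρ := hL1.trans hρL
  have hρ0 : 0 < ρ := by linarith
  have hC1 : L ^ C' ≤ L ^ (max C' (B3 + 1)) := pow_le_pow_right₀ hL1 (le_max_left _ _)
  have hC2 : L ^ B3 ≤ L ^ (max C' (B3 + 1)) := pow_le_pow_right₀ hL1 ((Nat.le_succ _).trans (le_max_right _ _))
  have hHρ : (H : ℝ) ≤ ρ := by
    rw [hρ, le_div_iff₀ hLB]
    exact (mul_le_mul_of_nonneg_left hC2 (Nat.cast_nonneg _)).trans hHX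
  have hwH' : (w' : ℝ) * L ^ C' ≤ H := (mul_le_mul_of_nonneg_left hC1 (Nat.cast_nonneg _)).trans hwH
  have hU1 : 1 ≤ U := by omega
  -- `RgL`
  have hUM' : ((U ^ M : ℕ) : ℝ) ≤ ρ := by
    have h1 : ((U ^ M : ℕ) : ℝ) ^ 2 ≤ ρ ^ 2 := by
      have h2 : ((U ^ M : ℕ) : ℝ) ^ 2 ≤ X := by
        have : (U ^ M) ^ 2 = U ^ (2 * M) := by rw [← pow_mul, mul_comm]
        have h3 : (U ^ M) ^ 2 ≤ X := this.le.trans hUM
        exact_mod_cast h3
      refine h2.trans ?_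
      rw [hρ, div_pow, le_div_iff₀ (by positivity), ← pow_mul, mul_comm B3 2]
      calc (X : ℝ) * L ^ (2 * B3) ≤ X * X := mul_le_mul_of_nonneg_left hLX hXp.le
        _ = (X : ℝ) ^ 2 := by ring
    exact le_of_sq_le_sq h1 hρ0.le
  have hRg : ∀ Y : ℕ, ρ ≤ Y → Y ≤ 2 * X → ∀ M' : ℕ, M' ≤ M → RgL (4 * Y) U w' (c1 + 1) M' T := by
    intro Y hY hYX M' hM'
    have hYp : (0 : ℝ) < Y := by linarith
    refine ⟨fun q hq => ⟨(hT q hq).1, ?_, (hT q hq).2.2⟩, hU, ?_⟩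
    · refine le_trans ?_ (hT q hq).2.1
      have h1 : Real.log ((4 * Y : ℕ) : ℝ) ≤ 2 * L := by
        have h2 : ((4 * Y : ℕ) : ℝ) ≤ 8 * X := by
          have : 4 * Y ≤ 8 * X := by omega
          exact_mod_cast this
        calc Real.log ((4 * Y : ℕ) : ℝ) ≤ Real.log (8 * X) := Real.log_le_log (by push_cast; linarith) h2
          _ = Real.log 8 + L := by rw [Real.log_mul (by norm_num) hXp.ne', hL]
          _ ≤ 2 * L := by
              have h3 : Real.log 8 ≤ 3 := by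
                have h4 : Real.log 8 = 3 * Real.log 2 := by
                  rw [show (8 : ℝ) = 2 ^ 3 by norm_num, Real.log_pow]; norm_num
                rw [h4]
                have := Real.log_two_lt_d9
                linarith
              linarith
      have h0 : 0 ≤ Real.log ((4 * Y : ℕ) : ℝ) := by
        apply Real.log_nonneg
        push_cast
        linarith
      calc Real.log ((4 * Y : ℕ) : ℝ) ^ (c1 + 1 + 1) ≤ (2 * L) ^ (c1 + 2) := pow_le_pow_left₀ h0 h1 _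
        _ = 2 ^ (c1 + 2) * L ^ (c1 + 2) := mul_pow _ _ _
        _ ≤ L * L ^ (c1 + 2) := mul_le_mul_of_nonneg_right hLc (by positivity)
        _ = L ^ (c1 + 3) := by ring
    · have h1 : U ^ M' ≤ U ^ M := Nat.pow_le_pow_right hU1 hM'
      have h2 : ((U ^ M : ℕ) : ℝ) ≤ Y := hUM'.trans hY
      have h3 : U ^ M ≤ Y := by exact_mod_cast h2
      omega
  have key := hX1 X Z H a k U w' T ((le_max_left _ _).trans hX) hZ hk hkK (fun Y h1 h2 => by
      rw [← hL, ← hρ] at h1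
      exact hRg Y h1 h2 _ hMK) (by rw [← hL]; exact hσ) hw' (by rw [← hL]; exact hwH') (by rw [← hL, ← hρ]; exact hHρ) S hS
  rw [← hL] at key ⊢
  obtain ⟨σ, hσd⟩ : ∃ σ, σ = sL k U T := ⟨_, rfl⟩
  obtain ⟨A, hA⟩ : ∃ A : ℝ, A = ((Sa (WX X) S a).card : ℝ) := ⟨_, rfl⟩
  obtain ⟨c, hc⟩ : ∃ c, c = cX X := ⟨_, rfl⟩
  obtain ⟨s, hs⟩ : ∃ s, s = σ / L := ⟨_, rfl⟩
  have hc1' : 1 ≤ c := by rw [hc]; exact SW.one_le_cX X
  rw [← hσd] at key ⊢ hσ
  rw [← hA, ← hc, ← hs] at key ⊢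
  obtain ⟨m, hm⟩ : ∃ m, m = max A (X / L ^ K) := ⟨_, rfl⟩
  rw [← hm]
  have hAm : A ≤ m := by rw [hm]; exact le_max_left _ _
  have hXm : X / L ^ K ≤ m := by rw [hm]; exact le_max_right _ _
  have hXK : 0 < X / L ^ K := by positivity
  have hm0 : 0 < m := hXK.trans_le hXm
  have hA0 : 0 ≤ A := by rw [hA]; positivity
  have hσ0 : 0 < σ := lt_of_lt_of_le (by positivity) hσ
  have hs0 : 0 < s := by rw [hs]; positivity
  have hG0 : 0 < c * m * s := by positivity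
  -- the rest
  obtain ⟨R, hR⟩ : ∃ R : ℝ, R = 2 * (X / L ^ B3) + 1 := ⟨_, rfl⟩
  have hδL : 3 ≤ δ * L := by rwa [div_le_iff₀ hδ0, mul_comm] at hLδ
  have hR3 : R ≤ 3 * ρ := by rw [hR, ← hρ]; linarith
  have hRm : R ≤ δ * (m * s) := by
    have h1 : X / L ^ (K + B + 1) ≤ m * s := by
      have h2 : X / L ^ K * (1 / L ^ B / L) ≤ m * s := by
        rw [hs]
        exact mul_le_mul hXm (div_le_div_of_nonneg_right hσ hLp.le) (by positivity) hm0.le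
      refine le_trans (le_of_eq ?_) h2
      rw [pow_add, pow_add, pow_one]
      field_simp
    have h3 : 3 * ρ ≤ δ * (X / L ^ (K + B + 1)) := by
      have h4 : X / L ^ (K + B + 1) = ρ * L ^ 3 := by
        rw [hρ, hB3, show K + B + 4 = (K + B + 1) + 3 by ring, pow_add _ _ 3]
        field_simp
      rw [h4]
      have h5 : 1 ≤ L ^ 2 := one_le_pow₀ hL1
      have h6 : 3 ≤ δ * L ^ 3 := by
        calc (3 : ℝ) ≤ δ * L := hδL
          _ = δ * L * 1 := by ring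
          _ ≤ δ * L * L ^ 2 := mul_le_mul_of_nonneg_left h5 (by positivity)
          _ = δ * L ^ 3 := by ring
      calc 3 * ρ ≤ δ * L ^ 3 * ρ := mul_le_mul_of_nonneg_right h6 hρ0.le
        _ = δ * (ρ * L ^ 3) := by ring
    exact hR3.trans (h3.trans (mul_le_mul_of_nonneg_left h1 hδ0.le))
  have hRm2 : R ≤ δ * m := by
    have h3 : 3 * ρ ≤ δ * (X / L ^ K) := by
      have h4 : X / L ^ K = ρ * L ^ (B + 4) := by
        rw [hρ, hB3, show K + B + 4 = K + (B + 4) by ring, pow_add _ K]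
        field_simp
      rw [h4]
      have h5 : 1 ≤ L ^ (B + 3) := one_le_pow₀ hL1
      have h6 : 3 ≤ δ * L ^ (B + 4) := by
        calc (3 : ℝ) ≤ δ * L := hδL
          _ = δ * L * 1 := by ring
          _ ≤ δ * L * L ^ (B + 3) := mul_le_mul_of_nonneg_left h5 (by positivity)
          _ = δ * L ^ (B + 4) := by ring
      calc 3 * ρ ≤ δ * L ^ (B + 4) * ρ := mul_le_mul_of_nonneg_right h6 hρ0.le
        _ = δ * (ρ * L ^ (B + 4)) := by ring
    exact hR3.trans (h3.trans (mul_le_mul_of_nonneg_left hXm hδ0.le))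
  have hbA : ∑ i ∈ bk X Z B3, ((Sa (WX X) (Sb Z S i) a).card : ℝ) ≤ A ∧
      A ≤ ∑ i ∈ bk X Z B3, ((Sa (WX X) (Sb Z S i) a).card : ℝ) + R := by
    rw [hA, hR, hL]
    unfold Sa
    exact ty_blocks hS (by rw [← hL, ← hρ]; exact hρ1) _
  obtain ⟨A', hA'⟩ : ∃ A' : ℝ, A' = ∑ i ∈ bk X Z B3, ((Sa (WX X) (Sb Z S i) a).card : ℝ) := ⟨_, rfl⟩
  rw [← hA'] at hbA key
  -- the sum `Φ`
  obtain ⟨Φ, hΦ⟩ : ∃ Φ : ℕ → ℝ, ∀ N, Φ N = ∑ i ∈ bk X Z B3, ∑ s ∈ Sb Z S i, T8.FZ (2 ^ i) k U T (N - s) := ⟨_, fun _ => rfl⟩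
  have hcmp : ∀ N ∈ wnd Z H (WX X) a, |Φ N - c * A' * s| ≤ δ * (c * m * s) → |(cE k U T S N : ℝ) - c * A * s| ≤ 5 * δ * (c * m * s) := by
    classical
    intro N hN hΦN
    unfold wnd at hN
    rw [mem_filter, mem_Ioc] at hN
    obtain ⟨⟨hN1, hN2⟩, _⟩ := hN
    have hb := ty_blocks (X := X) (B3 := B3) hS (by rw [← hL, ← hρ]; exact hρ1) (fun s => s < N ∧ G8.EL k U T (N - s))
    rw [← hL, ← hR] at hb
    obtain ⟨E', hE'⟩ : ∃ E' : ℝ, E' = ∑ i ∈ bk X Z B3, (((Sb Z S i).filter fun s => s < N ∧ G8.EL k U T (N - s)).card : ℝ) := ⟨_, rfl⟩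
    have hE0 : 0 ≤ E' := by rw [hE']; exact sum_nonneg fun _ _ => Nat.cast_nonneg _
    have hcE : (cE k U T S N : ℝ) = ((S.filter fun s => s < N ∧ G8.EL k U T (N - s)).card : ℝ) := by
      unfold cE
      rfl
    rw [← hE', ← hcE] at hb
    have hpw : ∀ i ∈ bk X Z B3, ∀ s ∈ Sb Z S i, 0 ≤ T8.FZ (2 ^ i) k U T (N - s) ∧
        T8.FZ (2 ^ i) k U T (N - s) ≤ (if s < N ∧ G8.EL k U T (N - s) then 1 else 0) ∧
        (1 - δ) * (if s < N ∧ G8.EL k U T (N - s) then 1 else 0) ≤ T8.FZ (2 ^ i) k U T (N - s) := by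
      intro i hi s hs
      unfold bk at hi
      rw [mem_filter, mem_range, ← hL, ← hρ] at hi
      unfold Sb at hs
      rw [mem_filter] at hs
      have hi2 : ρ ≤ ((2 ^ i : ℕ) : ℝ) := by push_cast; exact hi.2
      have hiX : 2 ^ i ≤ 2 * X := by
        rcases Nat.eq_zero_or_pos Z with hZ0 | hZ0
        · rw [hZ0, Nat.log_zero_right] at hi
          have : i = 0 := by omega
          rw [this]; omega
        · exact ((Nat.pow_le_pow_right (by norm_num) (by omega : i ≤ Nat.log 2 Z)).trans (Nat.pow_log_le_self 2 hZ0.ne')).trans hZ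
      have hH2 : H ≤ 2 ^ i := by
        have : (H : ℝ) ≤ ((2 ^ i : ℕ) : ℝ) := hHρ.trans hi2
        exact_mod_cast this
      have e1 : 2 ^ i < N - s := by have := hs.2.1; omega
      have e2 : N - s ≤ 3 * 2 ^ i := by
        have h1 := hs.2.1
        have h2 := hs.2.2
        rw [pow_succ] at h2
        omega
      have hsN : s < N := by have := hs.2.1; omega
      obtain ⟨p1, p2, p3, p4⟩ := hpt (2 ^ i) (hLx.trans (hρL.trans hi2)) k U w' T hk hkK (hRg _ hi2 hiX M le_rfl) (N - s) e1 e2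
      refine ⟨p1, ?_, ?_⟩
      · by_cases hEL : G8.EL k U T (N - s)
        · rw [if_pos ⟨hsN, hEL⟩]; exact p2
        · rw [if_neg fun h => hEL h.2]
          have : T8.FZ (2 ^ i) k U T (N - s) = 0 := by
            by_contra h
            exact hEL (p3 h)
          rw [this]
      · by_cases hEL : G8.EL k U T (N - s)
        · rw [if_pos ⟨hsN, hEL⟩, mul_one]; exact p4 hEL
        · rw [if_neg fun h => hEL h.2, mul_zero]; exact p1
    have hΦ2 : Φ N ≤ E' := by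
      rw [hΦ, hE']
      refine sum_le_sum fun i hi => ?_
      rw [natCast_card_filter]
      exact sum_le_sum fun s hs => (hpw i hi s hs).2.1
    have hΦ1 : (1 - δ) * E' ≤ Φ N := by
      rw [hΦ, hE', mul_sum]
      refine sum_le_sum fun i hi => ?_
      rw [natCast_card_filter, mul_sum]
      exact sum_le_sum fun s hs => (hpw i hi s hs).2.2
    exact ty_arith hδ0 hδ1 hE0 hΦ1 hΦ2 hb.1 hb.2 hbA.1 hbA.2 hc1' hs0.le hAm hA0 hRm hRm2 hΦN
  -- Chebyshev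
  obtain ⟨Bd, hBd⟩ : ∃ Bd : Finset ℕ, Bd = (wnd Z H (WX X) a).filter fun N => ε * (c * m * s) < |(cE k U T S N : ℝ) - c * A * s| := ⟨_, rfl⟩
  rw [← hBd]
  have hbig : ∀ N ∈ Bd, (δ * (c * m * s)) ^ 2 ≤ (Φ N - c * A' * s) ^ 2 := by
    intro N hN
    rw [hBd, mem_filter] at hN
    have h1 : δ * (c * m * s) ≤ |Φ N - c * A' * s| := by
      by_contra h
      have h2 := hcmp N hN.1 (not_le.1 h).le
      have h3 : 5 * δ * (c * m * s) ≤ ε * (c * m * s) := mul_le_mul_of_nonneg_right hδε hG0.le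
      linarith [hN.2]
    rw [← sq_abs (Φ N - c * A' * s)]
    exact pow_le_pow_left₀ (by positivity) h1 2
  have hsum : (Bd.card : ℝ) * (δ * (c * m * s)) ^ 2 ≤ ε * δ ^ 2 / 4 * (H / WX X) * (c * s) ^ 2 * (A + X / L ^ K) ^ 2 := by
    calc (Bd.card : ℝ) * (δ * (c * m * s)) ^ 2 = ∑ _N ∈ Bd, (δ * (c * m * s)) ^ 2 := by rw [sum_const, nsmul_eq_mul]
      _ ≤ ∑ N ∈ Bd, (Φ N - c * A' * s) ^ 2 := sum_le_sum hbig
      _ ≤ ∑ N ∈ wnd Z H (WX X) a, (Φ N - c * A' * s) ^ 2 :=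
          sum_le_sum_of_subset_of_nonneg (by rw [hBd]; exact filter_subset _ _) fun _ _ _ => sq_nonneg _
      _ ≤ _ := by
          have e : ∑ N ∈ wnd Z H (WX X) a, (Φ N - c * A' * s) ^ 2 =
            ∑ N ∈ wnd Z H (WX X) a, (∑ i ∈ bk X Z B3, ∑ s ∈ Sb Z S i, T8.FZ (2 ^ i) k U T (N - s) - c * A' * s) ^ 2 :=
            sum_congr rfl fun N _ => by rw [hΦ]
          rw [e]
          exact key
  have hW : (0 : ℝ) ≤ H / WX X := by positivity
  have hAm2 : (A + X / L ^ K) ^ 2 ≤ 4 * m ^ 2 := by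
    have : A + X / L ^ K ≤ 2 * m := by linarith
    calc (A + X / L ^ K) ^ 2 ≤ (2 * m) ^ 2 := pow_le_pow_left₀ (by positivity) this 2
      _ = 4 * m ^ 2 := by ring
  have hfin : (Bd.card : ℝ) * (δ * (c * m * s)) ^ 2 ≤ ε * (H / WX X) * (δ * (c * m * s)) ^ 2 := by
    refine hsum.trans ?_
    calc ε * δ ^ 2 / 4 * (H / WX X) * (c * s) ^ 2 * (A + X / L ^ K) ^ 2
        ≤ ε * δ ^ 2 / 4 * (H / WX X) * (c * s) ^ 2 * (4 * m ^ 2) := mul_le_mul_of_nonneg_left hAm2 (by positivity)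
      _ = ε * (H / WX X) * (δ * (c * m * s)) ^ 2 := by ring
  exact le_of_mul_le_mul_right hfin (by positivity)

end Pool.Agent.Lib.WL
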