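import Pool.Agent.Lib.SW.SC.SC5

/-!
# WL, row Ub: the proportion in `clW` cannot be improved (window version of `theta_upper`, SW/SC/SC5.lean)
-/

set_option autoImplicit false

open Finset Filter Topology

namespace Pool.Agent.Lib.WL

open Pool.Agent.Lib.SW

private theorem ub_count (X H m k : ℕ) (hm : 0 < m) (hk : 0 < k) (hmk : Nat.Coprime m k) :
    (((Ioc X (X + H)).filter (fun N => m ∣ N ∧ Nat.Coprime k (N - 1))).card : ℝ) ≤
      (H : ℝ) / m * hh k + k := by
  have h0 : ∀ N : ℕ, X < N → N ≤ X + H → m ∣ N → X / m < N / m ∧ N / m ≤ X / m + 1 + H / m := by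
    intro N h1 h2 h3
    constructor
    · rw [Nat.div_lt_iff_lt_mul hm, Nat.div_mul_cancel h3]
      exact h1
    · refine (Nat.div_le_div_right h2).trans ?_
      have := Nat.add_div_le_add_div X H m
      have e : (X + H) / m ≤ X / m + H / m + 1 := by
        rw [Nat.add_div hm]
        split_ifs <;> omega
      omega
  have h1 : ((Ioc X (X + H)).filter (fun N => m ∣ N ∧ Nat.Coprime k (N - 1))).card ≤
      (range (H / m / k + 1) ×ˢ (range k).filter (fun b => k.Coprime b)).card := by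
    refine Finset.card_le_card_of_injOn (fun N => ((N / m - (X / m + 1)) / k, (N - 1) % k)) ?_ ?_
    · intro N hN
      obtain ⟨hN1, hN2, hN3⟩ := mem_filter.1 (Finset.mem_coe.1 hN)
      obtain ⟨hN4, hN5⟩ := mem_Ioc.1 hN1
      obtain ⟨g1, g2⟩ := h0 N hN4 hN5 hN2
      rw [Finset.mem_coe, mem_product, mem_range, mem_filter, mem_range]
      refine ⟨?_, Nat.mod_lt _ hk, ?_⟩
      · exact Nat.lt_succ_of_le (Nat.div_le_div_right (by omega))
      · rw [Nat.Coprime, Nat.gcd_comm, ← Nat.gcd_rec]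
        exact hN3
    · intro N hN M hM hNM
      obtain ⟨hN1, hN2, hN3⟩ := mem_filter.1 (Finset.mem_coe.1 hN)
      obtain ⟨hN4, hN5⟩ := mem_Ioc.1 hN1
      obtain ⟨hM1, hM2, hM3⟩ := mem_filter.1 (Finset.mem_coe.1 hM)
      obtain ⟨hM4, hM5⟩ := mem_Ioc.1 hM1
      obtain ⟨g1, g2⟩ := h0 N hN4 hN5 hN2
      obtain ⟨g3, g4⟩ := h0 M hM4 hM5 hM2
      simp only [Prod.mk.injEq] at hNM
      obtain ⟨h1, h2⟩ := hNM
      obtain ⟨s, hs⟩ := hN2
      obtain ⟨t, ht⟩ := hM2
      have h3 : N - 1 ≡ M - 1 [MOD k] := h2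
      have h4 : N ≡ M [MOD k] := by
        have := h3.add_right 1
        rwa [Nat.sub_add_cancel (by omega), Nat.sub_add_cancel (by omega)] at this
      rw [hs, ht] at h4
      have h5 : s ≡ t [MOD k] := Nat.ModEq.cancel_left_of_coprime (by rw [Nat.gcd_comm]; exact hmk) h4
      rw [hs, Nat.mul_div_cancel_left _ hm] at g1
      rw [ht, Nat.mul_div_cancel_left _ hm] at g3
      rw [hs, ht, Nat.mul_div_cancel_left _ hm, Nat.mul_div_cancel_left _ hm] at h1
      have h6 : s - (X / m + 1) ≡ t - (X / m + 1) [MOD k] := by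
        have e1 : s - (X / m + 1) + (X / m + 1) ≡ t - (X / m + 1) + (X / m + 1) [MOD k] := by
          rw [Nat.sub_add_cancel (by omega), Nat.sub_add_cancel (by omega)]
          exact h5
        exact Nat.ModEq.add_right_cancel' _ e1
      have h7 : s - (X / m + 1) = t - (X / m + 1) := by
        have e1 := Nat.div_add_mod (s - (X / m + 1)) k
        have e2 := Nat.div_add_mod (t - (X / m + 1)) k
        have e3 : (s - (X / m + 1)) % k = (t - (X / m + 1)) % k := h6
        rw [← e1, ← e2, h1, e3]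
      have h8 : s = t := by omega
      rw [hs, ht, h8]
  rw [card_product, card_range] at h1
  have h2 : ((range k).filter (fun b => k.Coprime b)).card = k.totient := rfl
  rw [h2] at h1
  have h3 : (((H / m / k : ℕ) : ℕ) : ℝ) ≤ (H : ℝ) / m / k := by
    refine Nat.cast_div_le.trans ?_
    exact div_le_div_of_nonneg_right Nat.cast_div_le (Nat.cast_nonneg _)
  calc _ ≤ (((H / m / k + 1) * k.totient : ℕ) : ℝ) := by exact_mod_cast h1
    _ = (((H / m / k : ℕ) : ℝ) + 1) * k.totient := by push_cast; ring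
    _ ≤ ((H : ℝ) / m / k + 1) * k.totient :=
        mul_le_mul_of_nonneg_right (by linarith) (Nat.cast_nonneg _)
    _ = (H : ℝ) / m * hh k + k.totient := by
        unfold hh
        ring
    _ ≤ (H : ℝ) / m * hh k + k := by
        have : (k.totient : ℝ) ≤ k := by exact_mod_cast Nat.totient_le k
        linarith

theorem ubW (ε : ℝ) (hε : 0 < ε) : ∃ X₀ : ℕ, ∀ X : ℕ, X₀ ≤ X → ∃ S : Finset ℕ,
    (∀ s ∈ S, s.Prime ∧ s ≤ X) ∧
    (∀ Y : ℕ, Real.sqrt X ≤ Y → Y ≤ X →
      Y / (Real.log Y) ^ 2 ≤ ((S.filter (fun s => s ≤ Y)).card : ℝ)) ∧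
    ∀ H : ℕ, (Real.log X) ^ 6 ≤ H → ∀ m : ℕ, m ∣ WX X →
      (((Ioc X (X + H)).filter (fun N => m ∣ N ∧ ∃ s ∈ S, s < N ∧ Nat.Coprime (N - s) (WX X))).card : ℝ) ≤
        (1 + ε) * H * ((WX X / m).totient : ℝ) / WX X := by
  obtain ⟨C, hC, hθ⟩ := theta_ap 3 1 one_pos
  obtain ⟨δ, hδ, hδε⟩ : ∃ δ : ℝ, 0 < δ ∧ δ ≤ ε / 8 := ⟨ε / 8, by positivity, le_rfl⟩
  -- the two Mertens products
  have hm1 : ∀ᶠ X : ℕ in atTop, hh (primorial ⌊1 / 4 * Real.log (Real.log X)⌋₊) ≤
      (1 + δ) * hh (WX X) := by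
    have a1 := (LG3_mertens (1 / 4) (by norm_num)).comp LG3_loglog
    have a2 := (LG3_mertens 1 one_pos).comp LG3_loglog
    have a3 := a1.div a2 (Real.exp_pos _).ne'
    rw [div_self (Real.exp_pos _).ne'] at a3
    have a4 := a3.eventually_lt_const (show (1 : ℝ) < 1 + δ by linarith)
    filter_upwards [a4, LG3_log3_ev 1] with X h1 h2
    simp only [Pi.div_apply, Function.comp_apply] at h1
    have h3 : 0 < Real.log (Real.log (Real.log X)) := by linarith
    rw [one_mul] at h1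
    have e1 : hh (WX X) = LG3V ⌊Real.log (Real.log X)⌋₊ := by
      rw [← LG3_V]
      rfl
    have e2 : hh (primorial ⌊1 / 4 * Real.log (Real.log X)⌋₊) =
        LG3V ⌊1 / 4 * Real.log (Real.log X)⌋₊ := by
      rw [← LG3_V]
      rfl
    rw [← e1, ← e2, mul_div_mul_left _ _ h3.ne', div_lt_iff₀ (hh_pos (WX_pos X))] at h1
    exact h1.le
  have hm2 : ∀ᶠ X : ℕ in atTop, cX X ≤ 3 * Real.log (Real.log (Real.log X)) := by
    have h0 : Real.exp Real.eulerMascheroniConstant < 3 := by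
      have h1 : Real.exp Real.eulerMascheroniConstant ≤ Real.exp 1 := by
        rw [Real.exp_le_exp]
        have := Real.eulerMascheroniConstant_lt_two_thirds
        linarith
      have := Real.exp_one_lt_d9
      linarith
    filter_upwards [cX_ratio.eventually_lt_const h0, LG3_log3_ev 1] with X h1 h2
    rw [div_lt_iff₀ (by linarith)] at h1
    exact h1.le
  obtain ⟨X₀, hX₀⟩ := eventually_atTop.1 (hm1.and (hm2.and ((LG3_log3_ev 1).and
    ((LG3_log_ev (max 16 C)).and ((LG3_log_ev (3 / δ)).and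
      (eventually_ge_atTop 16))))))
  refine ⟨X₀, fun X hX => ?_⟩
  obtain ⟨k1, k2, k4, k5, k7, k8⟩ := hX₀ X hX
  obtain ⟨L, hL⟩ : ∃ L, L = Real.log X := ⟨_, rfl⟩
  obtain ⟨M, hM⟩ : ∃ M, M = Real.log L := ⟨_, rfl⟩
  obtain ⟨T, hT⟩ : ∃ T, T = Real.log M := ⟨_, rfl⟩
  rw [← hL, ← hM] at k1
  rw [← hL, ← hM, ← hT] at k2
  rw [← hL, ← hM, ← hT] at k4
  rw [← hL] at k5 k7
  have hL16 : 16 ≤ L := (le_max_left _ _).trans k5
  have hLC : C ≤ L := (le_max_right _ _).trans k5
  have hM1 : 1 ≤ M := by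
    have h1 : (1 : ℝ) ≤ T := k4
    by_contra hcon
    have h2 : M < 1 := lt_of_not_ge hcon
    have h3 : 0 ≤ M := by
      rw [hM]
      exact Real.log_nonneg (by linarith)
    have h4 : T ≤ 0 := by
      rw [hT]
      exact Real.log_nonpos h3 h2.le
    linarith
  have hTM : T ≤ M := by
    rw [hT]
    exact (Real.log_le_sub_one_of_pos (by linarith)).trans (by linarith)
  have hML : M ≤ L := by
    rw [hM]
    exact (Real.log_le_sub_one_of_pos (by linarith)).trans (by linarith)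
  have hXr : (16 : ℝ) ≤ X := by exact_mod_cast k8
  have hX0 : (0 : ℝ) < X := by linarith
  have hL1' : 1 ≤ Real.log X := by rw [← hL]; linarith
  obtain ⟨z, hz⟩ : ∃ z, z = ⌊1 / 4 * M⌋₊ := ⟨_, rfl⟩
  rw [← hz] at k1
  have hzM : (z : ℝ) ≤ 1 / 4 * M := by
    rw [hz]
    exact Nat.floor_le (by linarith)
  obtain ⟨W, hW⟩ : ∃ W, W = primorial z := ⟨_, rfl⟩
  rw [← hW] at k1
  have hW0 : 0 < W := by
    rw [hW]
    exact primorial_pos z
  have hW1 : (1 : ℝ) ≤ W := by exact_mod_cast hW0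
  have hWL : (W : ℝ) ≤ √L := by
    have h1 := LG3_four_pow (by linarith : 0 ≤ M) hzM
    rw [← hW] at h1
    refine h1.trans (le_of_eq ?_)
    rw [Real.exp_half, hM, Real.exp_log (by linarith)]
  have hsL : √L ≤ L / 4 := by
    have h1 := Real.sq_sqrt (by linarith : 0 ≤ L)
    have h2 : 4 ≤ √L := by
      rw [Real.le_sqrt (by norm_num) (by linarith)]
      linarith
    nlinarith
  have hφ : 0 < W.totient := Nat.totient_pos.2 hW0
  have hφ' : (0 : ℝ) < W.totient := by exact_mod_cast hφ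
  have hφW : (W.totient : ℝ) ≤ W := by exact_mod_cast Nat.totient_le W
  refine ⟨(Icc 1 X).filter (fun s => s.Prime ∧ s ≡ 1 [MOD W]), ?_, ?_, ?_⟩
  · intro s hs
    obtain ⟨hs1, hs2, -⟩ := mem_filter.1 hs
    exact ⟨hs2, (mem_Icc.1 hs1).2⟩
  · intro Y hY1 hY2
    have h4 : (4 : ℝ) ≤ √X := by
      rw [Real.le_sqrt (by norm_num) (by linarith)]
      linarith
    have hY0 : (4 : ℝ) ≤ Y := h4.trans hY1
    have hlY : L / 2 ≤ Real.log Y := by
      rw [hL, ← Real.log_sqrt (by linarith)]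
      exact Real.log_le_log (by linarith) hY1
    have h1 := hθ W 1 hW0 (Nat.coprime_one_left W) Y (by linarith)
    rw [Nat.floor_natCast, Real.rpow_one] at h1
    have h2 : (Icc 1 Y).filter (fun n => n.Prime ∧ n ≡ 1 [MOD W]) ⊆
        ((Icc 1 X).filter (fun s => s.Prime ∧ s ≡ 1 [MOD W])).filter (fun s => s ≤ Y) := by
      intro s hs
      obtain ⟨hs1, hs2⟩ := mem_filter.1 hs
      obtain ⟨hs3, hs4⟩ := mem_Icc.1 hs1
      exact mem_filter.2 ⟨mem_filter.2 ⟨mem_Icc.2 ⟨hs3, hs4.trans hY2⟩, hs2⟩, hs4⟩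
    refine le_trans ?_ (Nat.cast_le.2 (card_le_card h2))
    have h3 : ∑ n ∈ (Icc 1 Y).filter (fun n => n.Prime ∧ n ≡ 1 [MOD W]), Real.log n ≤
        (((Icc 1 Y).filter (fun n => n.Prime ∧ n ≡ 1 [MOD W])).card : ℝ) * Real.log Y := by
      rw [← nsmul_eq_mul, ← sum_const]
      refine sum_le_sum fun n hn => ?_
      obtain ⟨hn1, hn2⟩ := mem_Icc.1 (mem_filter.1 hn).1
      exact Real.log_le_log (by exact_mod_cast hn1) (by exact_mod_cast hn2)
    generalize (((Icc 1 Y).filter (fun n => n.Prime ∧ n ≡ 1 [MOD W])).card : ℝ) = c at *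
    generalize ∑ n ∈ (Icc 1 Y).filter (fun n => n.Prime ∧ n ≡ 1 [MOD W]), Real.log n = A at *
    have hYp : (0 : ℝ) < Y := by linarith
    generalize hl : Real.log Y = l at *
    have hl0 : 0 < l := by linarith
    have h5 : (Y : ℝ) / W ≤ Y / W.totient := div_le_div_of_nonneg_left hYp.le hφ' hφW
    have hWl : (W : ℝ) ≤ l / 2 := by linarith
    have h6 : 2 * (Y / l) ≤ (Y : ℝ) / W := by
      rw [le_div_iff₀ (by linarith)]
      calc 2 * (Y / l) * W ≤ 2 * (Y / l) * (l / 2) :=
            mul_le_mul_of_nonneg_left hWl (by positivity)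
        _ = Y := by field_simp
    have h7 : C * W * Y / l ^ 3 ≤ Y / l := by
      rw [div_le_div_iff₀ (by positivity) hl0]
      have h8 : C * W ≤ l * l := by
        have h9 : C ≤ 2 * l := by linarith
        calc C * W ≤ (2 * l) * (l / 2) := mul_le_mul h9 hWl (by linarith) (by linarith)
          _ = l * l := by ring
      calc C * W * Y * l ≤ (l * l) * Y * l := by
            refine mul_le_mul_of_nonneg_right (mul_le_mul_of_nonneg_right h8 hYp.le) hl0.le
        _ = Y * l ^ 3 := by ring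
    have h8 := (abs_le.1 h1).1
    have h9 : Y / l ≤ c * l := by linarith
    rw [div_le_iff₀ (by positivity)]
    rw [div_le_iff₀ hl0] at h9
    calc (Y : ℝ) ≤ c * l * l := h9
      _ = c * l ^ 2 := by ring
  · -- the upper bound
    intro H hH m hm
    rw [← hL] at hH
    have hH0 : (0 : ℝ) < H := lt_of_lt_of_le (by positivity) hH
    have hWXsq : Squarefree (WX X) := WX_squarefree _
    have hzw : z ≤ wX X := by
      rw [hz]
      unfold wX
      rw [← hL, ← hM]
      refine Nat.floor_mono ?_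
      linarith
    have hWdvd : W ∣ WX X := by
      rw [hW]
      exact SC5_prim_dvd hzw
    obtain ⟨a1, a2, a3, a4, a5⟩ := SC5_alg (WX X) W m hWXsq hWdvd hm
    obtain ⟨k, hk⟩ : ∃ k, k = Nat.gcd W (WX X / m) := ⟨_, rfl⟩
    rw [← hk] at a1 a2 a3
    have hkW : k ∣ W := hk ▸ Nat.gcd_dvd_left _ _
    have hWXpos := WX_pos X
    have hm0 : 0 < m := Nat.pos_of_dvd_of_pos hm hWXpos
    have hmr : (0 : ℝ) < m := by exact_mod_cast hm0
    have hWXL : (WX X : ℝ) ≤ L ^ 2 := by
      rw [hL]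
      exact WX_le X hL1'
    have hmW : (m : ℝ) ≤ WX X := by exact_mod_cast Nat.le_of_dvd hWXpos hm
    have hmL : (m : ℝ) ≤ L ^ 2 := hmW.trans hWXL
    have hcov : (Ioc X (X + H)).filter (fun N => m ∣ N ∧ ∃ s ∈ (Icc 1 X).filter
        (fun s => s.Prime ∧ s ≡ 1 [MOD W]), s < N ∧ Nat.Coprime (N - s) (WX X)) ⊆
        (Ioc X (X + H)).filter (fun N => m ∣ N ∧ Nat.Coprime k (N - 1)) := by
      intro N hN
      obtain ⟨hN1, hN2, s, hs, hsn, hp⟩ := mem_filter.1 hN
      obtain ⟨hs1, hs2, hs3⟩ := mem_filter.1 hs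
      refine mem_filter.2 ⟨hN1, hN2, ?_⟩
      have h1 : Nat.Coprime W (N - s) := (Nat.Coprime.coprime_dvd_right hWdvd hp).symm
      have h2 : W ∣ s - 1 := (Nat.modEq_iff_dvd' hs2.one_lt.le).1 hs3.symm
      obtain ⟨r, hr⟩ := h2
      have hs1' := hs2.one_lt
      have h3 : N - 1 = (N - s) + W * r := by
        rw [← hr]
        omega
      have h4 : Nat.Coprime W (N - 1) := by
        rw [h3]
        exact (Nat.coprime_add_mul_left_right _ _ _).2 h1
      exact Nat.Coprime.coprime_dvd_left hkW h4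
    refine ((Nat.cast_le (α := ℝ)).2 (card_le_card hcov)).trans ?_
    obtain ⟨R, hR⟩ : ∃ R, R = WX X / m := ⟨_, rfl⟩
    rw [← hR] at a3 a5 ⊢
    have hRm : WX X = m * R := by
      rw [hR]
      exact (Nat.mul_div_cancel' hm).symm
    have hR0 : 0 < R := Nat.pos_of_ne_zero (by rintro rfl; simp at hRm; omega)
    have hRr : (0 : ℝ) < R := by exact_mod_cast hR0
    have htarget : (1 + ε) * H * (R.totient : ℝ) / WX X = (1 + ε) * (H / m * hh R) := by
      unfold hh
      rw [hRm]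
      push_cast
      field_simp
    rw [htarget]
    -- the constants
    have hhW : hh (WX X) = 1 / cX X := by
      unfold hh cX
      rw [one_div_div]
    have hc1 := one_le_cX X
    have hcpos : 0 < cX X := by linarith
    have hhWpos : 0 < hh (WX X) := hh_pos hWXpos
    have hc3 : cX X ≤ 3 * M := k2.trans (by linarith)
    have hhRlow : 1 / (3 * M) ≤ hh R := by
      refine le_trans ?_ a5
      rw [hhW]
      exact one_div_le_one_div_of_le hcpos hc3
    obtain ⟨Z, hZ⟩ : ∃ Z : ℝ, Z = H / m * hh R := ⟨_, rfl⟩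
    rw [← hZ]
    have hZlow : H / (L ^ 2 * (3 * M)) ≤ Z := by
      rw [hZ]
      calc (H : ℝ) / (L ^ 2 * (3 * M)) = H / L ^ 2 * (1 / (3 * M)) := by
            field_simp
        _ ≤ H / m * hh R := by
            refine mul_le_mul ?_ hhRlow (by positivity) (by positivity)
            exact div_le_div_of_nonneg_left hH0.le hmr hmL
    have hZ0 : 0 < Z := lt_of_lt_of_le (by positivity) hZlow
    have h1 := ub_count X H m k hm0 a1 a2
    have h2 : hh k ≤ (1 + δ) * hh R := by
      have h3 : hh k * hh (WX X) ≤ ((1 + δ) * hh R) * hh (WX X) := by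
        calc hh k * hh (WX X) ≤ hh W * hh R := a3
          _ ≤ ((1 + δ) * hh (WX X)) * hh R :=
              mul_le_mul_of_nonneg_right k1 (hh_pos hR0).le
          _ = ((1 + δ) * hh R) * hh (WX X) := by ring
      exact le_of_mul_le_mul_right h3 hhWpos
    have h3 : (H : ℝ) / m * hh k ≤ (1 + δ) * Z := by
      rw [hZ]
      calc (H : ℝ) / m * hh k ≤ H / m * ((1 + δ) * hh R) :=
            mul_le_mul_of_nonneg_left h2 (by positivity)
        _ = (1 + δ) * (H / m * hh R) := by ring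
    have h4 : (k : ℝ) ≤ δ * Z := by
      have g1 : (k : ℝ) ≤ L := by
        have g2 : (k : ℝ) ≤ W := by exact_mod_cast Nat.le_of_dvd hW0 hkW
        linarith
      have g5 : L ^ 6 / (L ^ 2 * (3 * L)) ≤ Z := by
        refine le_trans ?_ hZlow
        refine div_le_div₀ hH0.le hH (by positivity) ?_
        exact mul_le_mul_of_nonneg_left (by linarith) (by positivity)
      have g6 : L ^ 6 / (L ^ 2 * (3 * L)) = L ^ 3 / 3 := by field_simp
      have g7 : 3 ≤ δ * L := by
        rw [div_le_iff₀ hδ] at k7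
        linarith
      have g8 : L ≤ δ * (L ^ 3 / 3) := by
        have g9 : 3 * L ≤ (δ * L) * L ^ 2 := by
          refine mul_le_mul g7 ?_ (by linarith) (by linarith)
          nlinarith
        linarith [show δ * (L ^ 3 / 3) = (δ * L) * L ^ 2 / 3 by ring]
      calc (k : ℝ) ≤ L := g1
        _ ≤ δ * (L ^ 3 / 3) := g8
        _ ≤ δ * Z := mul_le_mul_of_nonneg_left (by rw [← g6]; exact g5) hδ.le
    have hfin : (1 + 2 * δ) * Z ≤ (1 + ε) * Z := mul_le_mul_of_nonneg_right (by linarith) hZ0.le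
    linarith

end Pool.Agent.Lib.WL
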