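import Pool.Agent.Lib.WL.VaA

/-!
# WL, row Va: the variance of a divisor-bounded type I function over the `N ≡ a (W)` of a window, as a function of `s`

PROOF IN WORDS. `J` = number of the `N` in `wnd Z H W a`; they are `N₀ + W k`, `k < J` (see row Sm, `smC`). `m0 = ∑ μ e/e`, `B(s) = ∑_N ∑_{e ∣ N - s} μ e` (`1 ≤ N - s`). Expand the square. For `e`, `f` and `N`, `N'`: the `s ≤ Z` with `e ∣ N - s`, `f ∣ N' - s` exist only if `g = gcd(e, f)` divides `N - N'`, and then they are one class modulo `lcm(e, f)`: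
their number is `(Z+1)/lcm(e,f) + O(1)` (error at most `1`). `g` is coprime to `W`, so the number of the pairs `(N, N')` with `g ∣ N - N'` is the number in `pairW`: `J^2/g + E_g`, `0 ≤ |E_g| ≤ J`, `E_1 = 0`. As `1/lcm(e, f) = g/(e f)`: `∑_s B(s)^2 = (Z+1) J^2 m0^2 + (Z+1) ∑_{e,f} μ e μ f g E_g/(e f) + O(J^2 (∑ |μ|)^2)`,
`∑_s B(s) = J ((Z+1) m0 + O(∑ |μ|))`. So the sum is at most `(Z+1) J ∑∑ τ(e) τ(f) g/(e f) + J^2 (∑|μ|)^2 + 2 J^2 |m0| ∑|μ| ≤ (Z+1) J (1 + log R)^8 + 3 J^2 R^4` (`s2W`; `τ(e) ≤ e ≤ R`, `∑|μ| ≤ R^2`, `|m0| ≤ R`).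
(Done below for the centred terms `[e ∣ N - s] - 1/e`, which gives the error `3 J^2 (∑|μ|)^2` directly.)
-/

set_option autoImplicit false

open Finset

namespace Pool.Agent.Lib.WL

/-- the class in a window is an arithmetic progression -/
private theorem va_ap (Z H W a : ℕ) (hW : 1 ≤ W) : ∃ N₀ : ℕ, ∀ F : ℕ → ℝ,
    ∑ N ∈ wnd Z H W a, F N = ∑ k ∈ range (wnd Z H W a).card, F (N₀ + W * k) := by
  classical
  by_cases hne : (wnd Z H W a).Nonempty
  · have hmin := (wnd Z H W a).min'_mem hne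
    have hle : ∀ N ∈ wnd Z H W a, (wnd Z H W a).min' hne ≤ N := fun N hN => (wnd Z H W a).min'_le _ hN
    obtain ⟨N₀, hN₀⟩ : ∃ N₀, N₀ = (wnd Z H W a).min' hne := ⟨_, rfl⟩
    rw [← hN₀] at hmin hle
    have hm := mem_filter.1 hmin
    have hm1 := mem_Ioc.1 hm.1
    have key : ∀ F : ℕ → ℝ, ∑ N ∈ wnd Z H W a, F N = ∑ k ∈ range ((Z + H - N₀) / W + 1), F (N₀ + W * k) := by
      intro F
      symm
      refine sum_nbij (fun k => N₀ + W * k) ?_ ?_ ?_ fun _ _ => rfl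
      · intro k hk
        have hk1 : k ≤ (Z + H - N₀) / W := Nat.lt_succ_iff.1 (mem_range.1 hk)
        have hk2 : W * k ≤ Z + H - N₀ := by
          rw [mul_comm]
          exact (Nat.mul_le_mul_right W hk1).trans (Nat.div_mul_le_self _ _)
        refine mem_filter.2 ⟨mem_Ioc.2 ⟨by omega, by omega⟩, ?_⟩
        have : N₀ + W * k ≡ N₀ [MOD W] := by
          unfold Nat.ModEq
          rw [Nat.add_mul_mod_self_left]
        exact this.trans hm.2
      · intro k _ k' _ hkk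
        simp only at hkk
        have : W * k = W * k' := by omega
        exact Nat.eq_of_mul_eq_mul_left hW this
      · intro N hN
        have hN' := mem_filter.1 (mem_coe.1 hN)
        have hN1 := mem_Ioc.1 hN'.1
        have hle' : N₀ ≤ N := hle _ (mem_coe.1 hN)
        have hmod : N₀ ≡ N [MOD W] := hm.2.trans hN'.2.symm
        obtain ⟨k, hk⟩ := (Nat.modEq_iff_dvd' hle').1 hmod
        refine ⟨k, ?_, ?_⟩
        · simp only [coe_range, Set.mem_Iio]
          have : k ≤ (Z + H - N₀) / W := by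
            rw [Nat.le_div_iff_mul_le hW, mul_comm]
            omega
          omega
        · simp only
          omega
    have hcard : ((wnd Z H W a).card : ℝ) = (((Z + H - N₀) / W + 1 : ℕ) : ℝ) := by
      have h1 := key fun _ => 1
      simpa using h1
    have hcard' : (wnd Z H W a).card = (Z + H - N₀) / W + 1 := by exact_mod_cast hcard
    refine ⟨N₀, fun F => ?_⟩
    rw [hcard']
    exact key F
  · refine ⟨0, fun F => ?_⟩
    rw [not_nonempty_iff_eq_empty.1 hne]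
    simp

/-- the `s < V` in a residue class -/
private theorem va_count (V m v : ℕ) (hm : 0 < m) :
    |(((range V).filter fun s => s ≡ v [MOD m]).card : ℝ) - (V : ℝ) / m| ≤ 1 := by
  have h1 := Nat.count_modEq_card V hm v
  rw [Nat.count_eq_card_filter_range] at h1
  rw [h1]
  have hm' : (0 : ℝ) < m := by exact_mod_cast hm
  have h2 : ((V / m : ℕ) : ℝ) ≤ (V : ℝ) / m := Nat.cast_div_le
  have h3 : (V : ℝ) / m < ((V / m : ℕ) : ℝ) + 1 := by
    rw [div_lt_iff₀ hm']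
    have h4 := Nat.lt_div_mul_add (a := V) hm
    have h5 : (V : ℝ) < ((V / m : ℕ) : ℝ) * m + m := by exact_mod_cast h4
    linarith
  split_ifs
  · push_cast
    rw [abs_le]
    constructor <;> linarith
  · push_cast
    rw [abs_le]
    constructor <;> linarith

private theorem va_one (V e N : ℕ) (he : 0 < e) (hN : V ≤ N) :
    |(((range V).filter fun s => e ∣ N - s).card : ℝ) - (V : ℝ) / e| ≤ 1 := by
  have h : ((range V).filter fun s => e ∣ N - s) = (range V).filter fun s => s ≡ N [MOD e] := by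
    refine filter_congr fun s hs => ?_
    rw [mem_range] at hs
    exact (Nat.modEq_iff_dvd' (by omega)).symm
  rw [h]
  exact va_count V e N he

private theorem va_two (V e f N N' : ℕ) (he : 0 < e) (hf : 0 < f) (hN : V ≤ N) (hN' : V ≤ N') :
    |(((range V).filter fun s => e ∣ N - s ∧ f ∣ N' - s).card : ℝ) -
      (if N ≡ N' [MOD Nat.gcd e f] then (V : ℝ) / (Nat.lcm e f : ℕ) else 0)| ≤ 1 := by
  by_cases h : N ≡ N' [MOD Nat.gcd e f]
  · rw [if_pos h]
    obtain ⟨r, hr1, hr2⟩ := Nat.chineseRemainder' h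
    have h1 : ((range V).filter fun s => e ∣ N - s ∧ f ∣ N' - s) =
        (range V).filter fun s => s ≡ r [MOD Nat.lcm e f] := by
      refine filter_congr fun s hs => ?_
      rw [mem_range] at hs
      rw [← Nat.modEq_iff_dvd' (show s ≤ N by omega), ← Nat.modEq_iff_dvd' (show s ≤ N' by omega)]
      constructor
      · rintro ⟨h2, h3⟩
        have h4 : s ≡ r [MOD e] := h2.trans hr1.symm
        have h5 : s ≡ r [MOD f] := h3.trans hr2.symm
        have h6 := Int.modEq_and_modEq_iff_modEq_lcm.1 ⟨Int.natCast_modEq_iff.2 h4, Int.natCast_modEq_iff.2 h5⟩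
        rw [Int.lcm_natCast_natCast] at h6
        exact Int.natCast_modEq_iff.1 h6
      · intro h2
        exact ⟨(h2.of_dvd (Nat.dvd_lcm_left e f)).trans hr1, (h2.of_dvd (Nat.dvd_lcm_right e f)).trans hr2⟩
    rw [h1]
    exact va_count V _ r (Nat.lcm_pos he hf)
  · rw [if_neg h]
    have h1 : ((range V).filter fun s => e ∣ N - s ∧ f ∣ N' - s) = ∅ := by
      refine filter_eq_empty_iff.2 fun s hs h2 => h ?_
      rw [mem_range] at hs
      have h3 : s ≡ N [MOD Nat.gcd e f] :=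
        ((Nat.modEq_iff_dvd' (show s ≤ N by omega)).2 h2.1).of_dvd (Nat.gcd_dvd_left e f)
      have h4 : s ≡ N' [MOD Nat.gcd e f] :=
        ((Nat.modEq_iff_dvd' (show s ≤ N' by omega)).2 h2.2).of_dvd (Nat.gcd_dvd_right e f)
      exact h3.symm.trans h4
    rw [h1]
    simp

/-- the centred pair sum over `s` -/
private theorem va_K (V e f N N' : ℕ) (he : 0 < e) (hf : 0 < f) (hN : V ≤ N) (hN' : V ≤ N') :
    |∑ s ∈ range V, ((if e ∣ N - s then (1 : ℝ) else 0) - 1 / e) * ((if f ∣ N' - s then (1 : ℝ) else 0) - 1 / f) -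
      V * ((if N ≡ N' [MOD Nat.gcd e f] then (1 : ℝ) / (Nat.lcm e f : ℕ) else 0) - 1 / (e * f))| ≤ 3 := by
  have h1 : ∑ s ∈ range V, ((if e ∣ N - s then (1 : ℝ) else 0) - 1 / e) * ((if f ∣ N' - s then (1 : ℝ) else 0) - 1 / f) =
      (((range V).filter fun s => e ∣ N - s ∧ f ∣ N' - s).card : ℝ) -
        1 / f * (((range V).filter fun s => e ∣ N - s).card : ℝ) -
        1 / e * (((range V).filter fun s => f ∣ N' - s).card : ℝ) + V * (1 / (e * f)) := by
    have h2 : ∀ s ∈ range V, ((if e ∣ N - s then (1 : ℝ) else 0) - 1 / e) * ((if f ∣ N' - s then (1 : ℝ) else 0) - 1 / f) =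
        (if e ∣ N - s ∧ f ∣ N' - s then (1 : ℝ) else 0) - 1 / f * (if e ∣ N - s then (1 : ℝ) else 0) -
          1 / e * (if f ∣ N' - s then (1 : ℝ) else 0) + 1 / (e * f) := by
      intro s _
      by_cases ha : e ∣ N - s <;> by_cases hb : f ∣ N' - s <;> simp [ha, hb] <;> ring
    rw [sum_congr rfl h2, sum_add_distrib, sum_sub_distrib, sum_sub_distrib, ← mul_sum, ← mul_sum, sum_boole, sum_boole,
      sum_boole, sum_const, card_range, nsmul_eq_mul]
  rw [h1]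
  have a1 := va_two V e f N N' he hf hN hN'
  have a2 := va_one V e N he hN
  have a3 := va_one V f N' hf hN'
  set c : ℝ := (((range V).filter fun s => e ∣ N - s ∧ f ∣ N' - s).card : ℝ)
  set ce : ℝ := (((range V).filter fun s => e ∣ N - s).card : ℝ)
  set cf : ℝ := (((range V).filter fun s => f ∣ N' - s).card : ℝ)
  have he' : (1 : ℝ) ≤ e := by exact_mod_cast he
  have hf' : (1 : ℝ) ≤ f := by exact_mod_cast hf
  have e1 : (if N ≡ N' [MOD Nat.gcd e f] then (V : ℝ) / (Nat.lcm e f : ℕ) else 0) =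
      V * (if N ≡ N' [MOD Nat.gcd e f] then (1 : ℝ) / (Nat.lcm e f : ℕ) else 0) := by
    split_ifs
    · ring
    · ring
  rw [e1] at a1
  set t : ℝ := (if N ≡ N' [MOD Nat.gcd e f] then (1 : ℝ) / (Nat.lcm e f : ℕ) else 0)
  have e2 : c - 1 / f * ce - 1 / e * cf + V * (1 / (e * f)) - V * (t - 1 / (e * f)) =
      (c - V * t) - 1 / f * (ce - V / e) - 1 / e * (cf - V / f) := by
    field_simp
    ring
  rw [e2]
  have b2 : |1 / (f : ℝ) * (ce - V / e)| ≤ 1 := by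
    rw [abs_mul, abs_of_nonneg (by positivity)]
    calc 1 / (f : ℝ) * |ce - V / e| ≤ 1 * 1 := by
          refine mul_le_mul ?_ a2 (abs_nonneg _) zero_le_one
          rw [div_le_one (by linarith)]
          exact hf'
      _ = 1 := by ring
  have b3 : |1 / (e : ℝ) * (cf - V / f)| ≤ 1 := by
    rw [abs_mul, abs_of_nonneg (by positivity)]
    calc 1 / (e : ℝ) * |cf - V / f| ≤ 1 * 1 := by
          refine mul_le_mul ?_ a3 (abs_nonneg _) zero_le_one
          rw [div_le_one (by linarith)]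
          exact he'
      _ = 1 := by ring
  rw [abs_le] at a1 b2 b3 ⊢
  constructor <;> linarith [a1.1, a1.2, b2.1, b2.2, b3.1, b3.2]

/-- the pairs of a class in a window -/
private theorem va_pairs (Z H W a g : ℕ) (hW : 1 ≤ W) (hg : 1 ≤ g) (hc : Nat.Coprime W g) :
    |∑ N ∈ wnd Z H W a, ∑ N' ∈ wnd Z H W a, (if N ≡ N' [MOD g] then (1 : ℝ) else 0) -
      ((wnd Z H W a).card : ℝ) ^ 2 / g| ≤ (wnd Z H W a).card := by
  obtain ⟨N₀, hF⟩ := va_ap Z H W a hW
  set J := (wnd Z H W a).card with hJ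
  have h1 : ∑ N ∈ wnd Z H W a, ∑ N' ∈ wnd Z H W a, (if N ≡ N' [MOD g] then (1 : ℝ) else 0) =
      (((range J ×ˢ range J).filter fun p => p.1 ≡ p.2 [MOD g]).card : ℝ) := by
    rw [hF, ← sum_boole, sum_product]
    refine sum_congr rfl fun k _ => ?_
    rw [hF]
    refine sum_congr rfl fun k' _ => ?_
    have h2 : N₀ + W * k ≡ N₀ + W * k' [MOD g] ↔ k ≡ k' [MOD g] := by
      constructor
      · intro h
        exact (Nat.ModEq.add_left_cancel' N₀ h).cancel_left_of_coprime (by rw [Nat.coprime_comm.1 hc |>.gcd_eq_one])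
      · intro h
        exact (h.mul_left W).add_left N₀
    simp only [h2]
  rw [h1]
  refine (pairW J g hg).trans ?_
  split_ifs
  · positivity
  · exact le_rfl

theorem vaW (Z H W a R : ℕ) (hW : 1 ≤ W) (μ : ℕ → ℝ) (h1 : ∀ e, μ e ≠ 0 → 1 ≤ e ∧ e ≤ R ∧ Nat.Coprime W e)
    (h2 : ∀ e, |μ e| ≤ (e.divisors.card : ℝ)) :
    ∑ s ∈ range (Z + 1), (∑ N ∈ wnd Z H W a, ∑ e ∈ (N - s).divisors, μ e - (wnd Z H W a).card * ∑ e ∈ Icc 1 R, μ e / e) ^ 2 ≤
      ((Z : ℝ) + 1) * (wnd Z H W a).card * (1 + Real.log R) ^ 8 + 4 * ((wnd Z H W a).card : ℝ) ^ 2 * (R : ℝ) ^ 4 := by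
  classical
  set A := wnd Z H W a with hA
  set J := A.card with hJ
  set V := Z + 1 with hV
  have hAV : ∀ N ∈ A, V ≤ N := by
    intro N hN
    have := mem_Ioc.1 (mem_filter.1 hN).1
    omega
  set E := (Icc 1 R).filter fun e => Nat.Coprime W e with hE
  have hEm : ∀ e ∈ E, 0 < e ∧ e ≤ R ∧ Nat.Coprime W e := by
    intro e he
    have h3 := mem_filter.1 he
    have h4 := mem_Icc.1 h3.1
    exact ⟨h4.1, h4.2, h3.2⟩
  -- the divisor sum as a sum over `E`
  have hdiv : ∀ n : ℕ, 1 ≤ n → ∑ e ∈ n.divisors, μ e = ∑ e ∈ E, μ e * (if e ∣ n then (1 : ℝ) else 0) := by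
    intro n hn
    have h3 : ∑ e ∈ E, μ e * (if e ∣ n then (1 : ℝ) else 0) = ∑ e ∈ E.filter (fun e => e ∣ n), μ e := by
      symm
      refine (sum_filter _ _).trans (sum_congr rfl fun e _ => ?_)
      split_ifs <;> simp
    rw [h3]
    symm
    refine sum_subset_zero_on_sdiff ?_ ?_ fun _ _ => rfl
    · intro e he
      have h4 := mem_filter.1 he
      exact Nat.mem_divisors.2 ⟨h4.2, by omega⟩
    · intro e he
      have h4 := mem_sdiff.1 he
      by_contra h5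
      have h6 := h1 e h5
      exact h4.2 (mem_filter.2 ⟨mem_filter.2 ⟨mem_Icc.2 ⟨h6.1, h6.2.1⟩, h6.2.2⟩, (Nat.mem_divisors.1 h4.1).1⟩)
  have hm0 : ∑ e ∈ Icc 1 R, μ e / e = ∑ e ∈ E, μ e * (1 / e) := by
    rw [hE, sum_filter]
    refine sum_congr rfl fun e _ => ?_
    split_ifs with h3
    · ring
    · have : μ e = 0 := by
        by_contra h5
        exact h3 (h1 e h5).2.2
      rw [this]
      simp
  set u : ℕ × ℕ → ℕ → ℝ := fun x s => μ x.2 * ((if x.2 ∣ x.1 - s then (1 : ℝ) else 0) - 1 / (x.2 : ℝ)) with hu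
  have hB : ∀ s ∈ range V, ∑ N ∈ A, ∑ e ∈ (N - s).divisors, μ e - J * ∑ e ∈ Icc 1 R, μ e / e =
      ∑ x ∈ A ×ˢ E, u x s := by
    intro s hs
    rw [mem_range] at hs
    rw [sum_product, hm0]
    have h3 : (J : ℝ) * ∑ e ∈ E, μ e * (1 / e) = ∑ N ∈ A, ∑ e ∈ E, μ e * (1 / e) := by
      rw [sum_const, nsmul_eq_mul]
    rw [h3, ← sum_sub_distrib]
    refine sum_congr rfl fun N hN => ?_
    have h4 := hAV N hN
    rw [hdiv (N - s) (by omega), ← sum_sub_distrib]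
    refine sum_congr rfl fun e _ => ?_
    simp only [hu]
    ring
  have hsq : ∑ s ∈ range V, (∑ N ∈ A, ∑ e ∈ (N - s).divisors, μ e - J * ∑ e ∈ Icc 1 R, μ e / e) ^ 2 =
      ∑ x ∈ A ×ˢ E, ∑ y ∈ A ×ˢ E, μ x.2 * μ y.2 * ∑ s ∈ range V,
        ((if x.2 ∣ x.1 - s then (1 : ℝ) else 0) - 1 / (x.2 : ℝ)) * ((if y.2 ∣ y.1 - s then (1 : ℝ) else 0) - 1 / (y.2 : ℝ)) := by
    rw [sum_congr rfl fun s hs => by rw [hB s hs, sq, sum_mul_sum]]
    rw [sum_comm]
    refine sum_congr rfl fun x _ => ?_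
    rw [sum_comm]
    refine sum_congr rfl fun y _ => ?_
    rw [mul_sum]
    refine sum_congr rfl fun s _ => ?_
    simp only [hu]
    ring
  rw [hsq]
  -- replace the inner sums
  have hK : ∀ x ∈ A ×ˢ E, ∀ y ∈ A ×ˢ E, μ x.2 * μ y.2 * ∑ s ∈ range V,
        ((if x.2 ∣ x.1 - s then (1 : ℝ) else 0) - 1 / (x.2 : ℝ)) * ((if y.2 ∣ y.1 - s then (1 : ℝ) else 0) - 1 / (y.2 : ℝ)) ≤
      μ x.2 * μ y.2 * (V * ((if x.1 ≡ y.1 [MOD Nat.gcd x.2 y.2] then (1 : ℝ) / (Nat.lcm x.2 y.2 : ℕ) else 0) - 1 / (x.2 * y.2))) +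
        3 * (|μ x.2| * |μ y.2|) := by
    intro x hx y hy
    have hx' := mem_product.1 hx
    have hy' := mem_product.1 hy
    have h3 := va_K V x.2 y.2 x.1 y.1 (hEm _ hx'.2).1 (hEm _ hy'.2).1 (hAV _ hx'.1) (hAV _ hy'.1)
    set K := ∑ s ∈ range V,
        ((if x.2 ∣ x.1 - s then (1 : ℝ) else 0) - 1 / (x.2 : ℝ)) * ((if y.2 ∣ y.1 - s then (1 : ℝ) else 0) - 1 / (y.2 : ℝ))
    set T := (V : ℝ) * ((if x.1 ≡ y.1 [MOD Nat.gcd x.2 y.2] then (1 : ℝ) / (Nat.lcm x.2 y.2 : ℕ) else 0) - 1 / (x.2 * y.2))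
    have h4 : μ x.2 * μ y.2 * (K - T) ≤ |μ x.2| * |μ y.2| * 3 := by
      refine (le_abs_self _).trans ?_
      rw [abs_mul, abs_mul]
      exact mul_le_mul_of_nonneg_left h3 (by positivity)
    have h5 : μ x.2 * μ y.2 * K = μ x.2 * μ y.2 * (K - T) + μ x.2 * μ y.2 * T := by ring
    rw [h5]
    linarith
  have hM : ∑ x ∈ A ×ˢ E, |μ x.2| ≤ J * (R : ℝ) ^ 2 := by
    rw [sum_product]
    change ∑ _N ∈ A, ∑ e ∈ E, |μ e| ≤ _
    rw [sum_const, nsmul_eq_mul]
    refine mul_le_mul_of_nonneg_left ?_ (by positivity)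
    calc ∑ e ∈ E, |μ e| ≤ ∑ e ∈ E, (R : ℝ) := by
          refine sum_le_sum fun e he => (h2 e).trans ?_
          have h3 := Nat.card_divisors_le_self e
          have h4 := (hEm e he).2.1
          exact_mod_cast h3.trans h4
      _ = E.card * (R : ℝ) := by rw [sum_const, nsmul_eq_mul]
      _ ≤ R * R := by
          refine mul_le_mul_of_nonneg_right ?_ (by positivity)
          have h3 : E.card ≤ (Icc 1 R).card := card_le_card (filter_subset _ _)
          rw [Nat.card_Icc] at h3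
          have h4 : E.card ≤ R := by omega
          exact_mod_cast h4
      _ = (R : ℝ) ^ 2 := by ring
  have hM0 : 0 ≤ ∑ x ∈ A ×ˢ E, |μ x.2| := sum_nonneg fun _ _ => abs_nonneg _
  have hmain : ∑ x ∈ A ×ˢ E, ∑ y ∈ A ×ˢ E, μ x.2 * μ y.2 *
      (V * ((if x.1 ≡ y.1 [MOD Nat.gcd x.2 y.2] then (1 : ℝ) / (Nat.lcm x.2 y.2 : ℕ) else 0) - 1 / (x.2 * y.2))) ≤
      V * J * (1 + Real.log R) ^ 8 := by
    have h3 : ∑ x ∈ A ×ˢ E, ∑ y ∈ A ×ˢ E, μ x.2 * μ y.2 *
        (V * ((if x.1 ≡ y.1 [MOD Nat.gcd x.2 y.2] then (1 : ℝ) / (Nat.lcm x.2 y.2 : ℕ) else 0) - 1 / (x.2 * y.2))) =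
        ∑ e ∈ E, ∑ f ∈ E, μ e * μ f * V * ((Nat.gcd e f : ℝ) / (e * f)) *
          (∑ N ∈ A, ∑ N' ∈ A, (if N ≡ N' [MOD Nat.gcd e f] then (1 : ℝ) else 0) - (J : ℝ) ^ 2 / (Nat.gcd e f : ℕ)) := by
      rw [sum_product, sum_comm]
      refine sum_congr rfl fun e he => ?_
      have h4 : ∀ N ∈ A, ∑ y ∈ A ×ˢ E, μ e * μ y.2 *
          (V * ((if N ≡ y.1 [MOD Nat.gcd e y.2] then (1 : ℝ) / (Nat.lcm e y.2 : ℕ) else 0) - 1 / (e * y.2))) =
          ∑ f ∈ E, ∑ N' ∈ A, μ e * μ f *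
          (V * ((if N ≡ N' [MOD Nat.gcd e f] then (1 : ℝ) / (Nat.lcm e f : ℕ) else 0) - 1 / (e * f))) := by
        intro N _
        rw [sum_product, sum_comm]
      rw [sum_congr rfl h4, sum_comm]
      refine sum_congr rfl fun f hf => ?_
      have he0 : (0 : ℝ) < e := by exact_mod_cast (hEm e he).1
      have hf0 : (0 : ℝ) < f := by exact_mod_cast (hEm f hf).1
      have hg0 : (0 : ℝ) < (Nat.gcd e f : ℕ) := by exact_mod_cast Nat.gcd_pos_of_pos_left f (hEm e he).1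
      have hl0 : (0 : ℝ) < (Nat.lcm e f : ℕ) := by exact_mod_cast Nat.lcm_pos (hEm e he).1 (hEm f hf).1
      have hgl : ((Nat.gcd e f : ℕ) : ℝ) * (Nat.lcm e f : ℕ) = e * f := by exact_mod_cast Nat.gcd_mul_lcm e f
      have h5 : (1 : ℝ) / (Nat.lcm e f : ℕ) = (Nat.gcd e f : ℕ) / (e * f) := by
        rw [← hgl]
        field_simp
      have h6 : ∀ N ∈ A, ∀ N' ∈ A, μ e * μ f *
          (V * ((if N ≡ N' [MOD Nat.gcd e f] then (1 : ℝ) / (Nat.lcm e f : ℕ) else 0) - 1 / (e * f))) =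
          μ e * μ f * V * ((Nat.gcd e f : ℝ) / (e * f)) *
            ((if N ≡ N' [MOD Nat.gcd e f] then (1 : ℝ) else 0) - 1 / (Nat.gcd e f : ℕ)) := by
        intro N _ N' _
        rw [h5]
        split_ifs
        · field_simp
        · field_simp
          ring
      rw [sum_congr rfl fun N hN => sum_congr rfl fun N' hN' => h6 N hN N' hN']
      rw [sum_congr rfl fun N _ => (mul_sum _ _ _).symm, ← mul_sum]
      congr 1
      rw [sum_congr rfl fun N _ => sum_sub_distrib _ _, sum_sub_distrib]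
      congr 1
      simp only [sum_const, nsmul_eq_mul, ← hJ]
      ring
    rw [h3]
    have h7 : ∀ e ∈ E, ∀ f ∈ E, μ e * μ f * V * ((Nat.gcd e f : ℝ) / (e * f)) *
          (∑ N ∈ A, ∑ N' ∈ A, (if N ≡ N' [MOD Nat.gcd e f] then (1 : ℝ) else 0) - (J : ℝ) ^ 2 / (Nat.gcd e f : ℕ)) ≤
        V * J * ((e.divisors.card : ℝ) * f.divisors.card * (Nat.gcd e f : ℝ) / (e * f)) := by
      intro e he f hf
      have hc : Nat.Coprime W (Nat.gcd e f) := Nat.Coprime.coprime_dvd_right (Nat.gcd_dvd_left e f) (hEm e he).2.2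
      have h8 := va_pairs Z H W a (Nat.gcd e f) hW (Nat.gcd_pos_of_pos_left f (hEm e he).1) hc
      refine (le_abs_self _).trans ?_
      rw [abs_mul, abs_mul, abs_mul, abs_mul]
      have h9 : |(V : ℝ)| = V := abs_of_nonneg (by positivity)
      have h10 : |(Nat.gcd e f : ℝ) / (e * f)| = (Nat.gcd e f : ℝ) / (e * f) := abs_of_nonneg (by positivity)
      rw [h9, h10]
      calc |μ e| * |μ f| * V * ((Nat.gcd e f : ℝ) / (e * f)) *
          |∑ N ∈ A, ∑ N' ∈ A, (if N ≡ N' [MOD Nat.gcd e f] then (1 : ℝ) else 0) - (J : ℝ) ^ 2 / (Nat.gcd e f : ℕ)|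
          ≤ (e.divisors.card : ℝ) * f.divisors.card * V * ((Nat.gcd e f : ℝ) / (e * f)) * J := by
            refine mul_le_mul ?_ h8 (abs_nonneg _) (by positivity)
            refine mul_le_mul_of_nonneg_right ?_ (by positivity)
            refine mul_le_mul_of_nonneg_right ?_ (by positivity)
            exact mul_le_mul (h2 e) (h2 f) (abs_nonneg _) (by positivity)
        _ = V * J * ((e.divisors.card : ℝ) * f.divisors.card * (Nat.gcd e f : ℝ) / (e * f)) := by ring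
    calc ∑ e ∈ E, ∑ f ∈ E, μ e * μ f * V * ((Nat.gcd e f : ℝ) / (e * f)) *
          (∑ N ∈ A, ∑ N' ∈ A, (if N ≡ N' [MOD Nat.gcd e f] then (1 : ℝ) else 0) - (J : ℝ) ^ 2 / (Nat.gcd e f : ℕ))
        ≤ ∑ e ∈ E, ∑ f ∈ E, V * J * ((e.divisors.card : ℝ) * f.divisors.card * (Nat.gcd e f : ℝ) / (e * f)) :=
          sum_le_sum fun e he => sum_le_sum fun f hf => h7 e he f hf
      _ = V * J * ∑ e ∈ E, ∑ f ∈ E, (e.divisors.card : ℝ) * f.divisors.card * (Nat.gcd e f : ℝ) / (e * f) := by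
          rw [mul_sum]
          refine sum_congr rfl fun e _ => ?_
          rw [mul_sum]
      _ ≤ V * J * (1 + Real.log R) ^ 8 := by
          refine mul_le_mul_of_nonneg_left ?_ (by positivity)
          refine le_trans ?_ (s2W R)
          have hEI : E ⊆ Icc 1 R := filter_subset _ _
          calc ∑ e ∈ E, ∑ f ∈ E, (e.divisors.card : ℝ) * f.divisors.card * (Nat.gcd e f : ℝ) / (e * f)
              ≤ ∑ e ∈ E, ∑ f ∈ Icc 1 R, (e.divisors.card : ℝ) * f.divisors.card * (Nat.gcd e f : ℝ) / (e * f) :=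
                sum_le_sum fun e _ => sum_le_sum_of_subset_of_nonneg hEI fun f _ _ => by positivity
            _ ≤ ∑ e ∈ Icc 1 R, ∑ f ∈ Icc 1 R, (e.divisors.card : ℝ) * f.divisors.card * (Nat.gcd e f : ℝ) / (e * f) :=
                sum_le_sum_of_subset_of_nonneg hEI fun e _ _ => sum_nonneg fun f _ => by positivity
  have hVr : (V : ℝ) = (Z : ℝ) + 1 := by rw [hV]; push_cast; ring
  calc ∑ x ∈ A ×ˢ E, ∑ y ∈ A ×ˢ E, μ x.2 * μ y.2 * ∑ s ∈ range V,
        ((if x.2 ∣ x.1 - s then (1 : ℝ) else 0) - 1 / (x.2 : ℝ)) * ((if y.2 ∣ y.1 - s then (1 : ℝ) else 0) - 1 / (y.2 : ℝ))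
      ≤ ∑ x ∈ A ×ˢ E, ∑ y ∈ A ×ˢ E, (μ x.2 * μ y.2 *
        (V * ((if x.1 ≡ y.1 [MOD Nat.gcd x.2 y.2] then (1 : ℝ) / (Nat.lcm x.2 y.2 : ℕ) else 0) - 1 / (x.2 * y.2))) +
        3 * (|μ x.2| * |μ y.2|)) := sum_le_sum fun x hx => sum_le_sum fun y hy => hK x hx y hy
    _ = ∑ x ∈ A ×ˢ E, ∑ y ∈ A ×ˢ E, μ x.2 * μ y.2 *
        (V * ((if x.1 ≡ y.1 [MOD Nat.gcd x.2 y.2] then (1 : ℝ) / (Nat.lcm x.2 y.2 : ℕ) else 0) - 1 / (x.2 * y.2))) +
        3 * (∑ x ∈ A ×ˢ E, |μ x.2|) ^ 2 := by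
        rw [sq, sum_mul_sum, mul_sum, ← sum_add_distrib]
        refine sum_congr rfl fun x _ => ?_
        rw [sum_add_distrib, mul_sum]
    _ ≤ V * J * (1 + Real.log R) ^ 8 + 3 * (J * (R : ℝ) ^ 2) ^ 2 := by
        refine add_le_add hmain (mul_le_mul_of_nonneg_left ?_ (by norm_num))
        exact pow_le_pow_left₀ hM0 hM 2
    _ ≤ ((Z : ℝ) + 1) * J * (1 + Real.log R) ^ 8 + 4 * (J : ℝ) ^ 2 * (R : ℝ) ^ 4 := by
        rw [hVr]
        have h8 : 0 ≤ (J : ℝ) ^ 2 * (R : ℝ) ^ 4 := by positivity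
        nlinarith

end Pool.Agent.Lib.WL
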