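import Pool.Agent.Lib.WL.Def

/-!
# WL, row VaA: pairs in a class, and a divisor sum (elementary)

PROOF IN WORDS. `pairW`: let `n_r` be the number of the `k < J` with `k ≡ r` modulo `g`; the number of pairs is `∑ n_r^2 = J^2/g + ∑ (n_r - J/g)^2` (`∑ n_r = J`), and `|n_r - J/g| ≤ 1`. `g = 1`: all pairs. `g ≤ J`: `∑ (n_r - J/g)^2 ≤ g ≤ J`. `g > J`: every `n_r ≤ 1`, so the number of pairs is `J`.
`s2W`: `gcd(e, f) = ∑_{h ∣ e, h ∣ f} φ(h) ≤ ∑_{h ∣ e, h ∣ f} h`, so the sum is at most `∑_{h ≤ R} h (∑_{e ≤ R, h ∣ e} τ(e)/e)^2`, and with `e = h e'`, `τ(h e') ≤ τ(h) τ(e')`, this is at most `∑_{h ≤ R} τ(h)^2/h · (∑_{e' ≤ R} τ(e')/e')^2`; `∑_{e ≤ R} τ(e)/e ≤ (∑_{d ≤ R} 1/d)^2 ≤ (1 + log R)^2`,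
and `∑_{h ≤ R} τ(h)^2/h = ∑_{h} τ(h)/h ∑_{d ∣ h} 1 ≤ ∑_{d, f ≤ R} τ(d) τ(f)/(d f) ≤ (1 + log R)^4`.
-/

set_option autoImplicit false

open Finset

namespace Pool.Agent.Lib.WL

private theorem vaa_cnt (J g v : ℕ) (hg : 1 ≤ g) :
    |(((range J).filter fun b => v ≡ b [MOD g]).card : ℝ) - (J : ℝ) / g| ≤ 1 := by
  have h1 : ((range J).filter fun b => v ≡ b [MOD g]).card = J / g + if v % g < J % g then 1 else 0 := by
    rw [← Nat.count_modEq_card J (by omega : 0 < g) v, Nat.count_eq_card_filter_range]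
    congr 1
    ext b
    simp only [mem_filter]
    constructor
    · rintro ⟨h, h'⟩
      exact ⟨h, h'.symm⟩
    · rintro ⟨h, h'⟩
      exact ⟨h, h'.symm⟩
  have hgR : (0 : ℝ) < g := by exact_mod_cast hg
  have h2 : (J : ℝ) / g = ((J / g : ℕ) : ℝ) + ((J % g : ℕ) : ℝ) / g := by
    have h3 : (J : ℝ) = (g : ℝ) * ((J / g : ℕ) : ℝ) + ((J % g : ℕ) : ℝ) := by
      exact_mod_cast (Nat.div_add_mod J g).symm
    rw [div_eq_iff hgR.ne', add_mul, div_mul_cancel₀ _ hgR.ne']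
    linarith
  have h4 : (0 : ℝ) ≤ ((J % g : ℕ) : ℝ) / g := by positivity
  have h5 : ((J % g : ℕ) : ℝ) / g ≤ 1 := by
    rw [div_le_one hgR]
    exact_mod_cast (Nat.mod_lt J (by omega : 0 < g)).le
  rw [h1, h2, abs_le]
  push_cast
  split_ifs
  · constructor <;> linarith
  · constructor <;> linarith

theorem pairW (J g : ℕ) (hg : 1 ≤ g) : |(((range J ×ˢ range J).filter fun p => p.1 ≡ p.2 [MOD g]).card : ℝ) - (J : ℝ) ^ 2 / g| ≤
    if g = 1 then 0 else (J : ℝ) := by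
  split_ifs with h
  · subst h
    have h1 : ((range J ×ˢ range J).filter fun p => p.1 ≡ p.2 [MOD 1]) = range J ×ˢ range J := by
      apply Finset.filter_true_of_mem
      intro p _
      exact Nat.modEq_one
    rw [h1, card_product, card_range]
    push_cast
    rw [show (J : ℝ) * J - (J : ℝ) ^ 2 / 1 = 0 by ring, abs_zero]
  · have h1 : ((range J ×ˢ range J).filter fun p => p.1 ≡ p.2 [MOD g]).card =
        ∑ a ∈ range J, ((range J).filter fun b => a ≡ b [MOD g]).card := by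
      rw [card_filter, sum_product]
      exact sum_congr rfl fun a _ => (card_filter _ _).symm
    have h2 : (J : ℝ) ^ 2 / g = ∑ _a ∈ range J, (J : ℝ) / g := by
      rw [sum_const, card_range, nsmul_eq_mul]
      ring
    rw [h1, h2]
    push_cast
    rw [← sum_sub_distrib]
    calc |∑ a ∈ range J, ((((range J).filter fun b => a ≡ b [MOD g]).card : ℝ) - (J : ℝ) / g)|
        ≤ ∑ a ∈ range J, |(((range J).filter fun b => a ≡ b [MOD g]).card : ℝ) - (J : ℝ) / g| :=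
          abs_sum_le_sum_abs _ _
      _ ≤ ∑ _a ∈ range J, (1 : ℝ) := sum_le_sum fun a _ => vaa_cnt J g a hg
      _ = J := by simp

/-- sum over the divisors against the double sum -/
private theorem vaa_div (R : ℕ) (F : ℕ → ℕ → ℝ) (hF : ∀ a b, 0 ≤ F a b) :
    ∑ e ∈ Icc 1 R, ∑ p ∈ e.divisorsAntidiagonal, F p.1 p.2 ≤ ∑ d ∈ Icc 1 R, ∑ f ∈ Icc 1 R, F d f := by
  rw [← sum_product' (Icc 1 R) (Icc 1 R) F]
  have h1 : ∀ p ∈ (Icc 1 R ×ˢ Icc 1 R).filter (fun p : ℕ × ℕ => p.1 * p.2 ∈ Icc 1 R), p.1 * p.2 ∈ Icc 1 R :=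
    fun p hp => (mem_filter.1 hp).2
  calc ∑ e ∈ Icc 1 R, ∑ p ∈ e.divisorsAntidiagonal, F p.1 p.2
      = ∑ e ∈ Icc 1 R, ∑ p ∈ ((Icc 1 R ×ˢ Icc 1 R).filter (fun p : ℕ × ℕ => p.1 * p.2 ∈ Icc 1 R)).filter
          (fun p : ℕ × ℕ => p.1 * p.2 = e), F p.1 p.2 := by
        refine sum_congr rfl fun e he => ?_
        refine sum_congr ?_ fun _ _ => rfl
        obtain ⟨he1, heR⟩ := mem_Icc.1 he
        ext p
        simp only [Nat.mem_divisorsAntidiagonal, mem_filter, mem_product, mem_Icc]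
        constructor
        · rintro ⟨hp, hne⟩
          have h1 : p.1 ≠ 0 := by
            rintro h
            rw [h, zero_mul] at hp
            exact hne hp.symm
          have h2 : p.2 ≠ 0 := by
            rintro h
            rw [h, mul_zero] at hp
            exact hne hp.symm
          have h3 : p.1 ≤ e := by
            rw [← hp]
            exact Nat.le_mul_of_pos_right _ (Nat.pos_of_ne_zero h2)
          have h4 : p.2 ≤ e := by
            rw [← hp]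
            exact Nat.le_mul_of_pos_left _ (Nat.pos_of_ne_zero h1)
          refine ⟨⟨⟨⟨by omega, by omega⟩, ⟨by omega, by omega⟩⟩, ?_⟩, hp⟩
          rw [hp]
          exact ⟨he1, heR⟩
        · rintro ⟨_, hp⟩
          exact ⟨hp, by omega⟩
    _ = ∑ p ∈ (Icc 1 R ×ˢ Icc 1 R).filter (fun p : ℕ × ℕ => p.1 * p.2 ∈ Icc 1 R), F p.1 p.2 :=
        sum_fiberwise_of_maps_to h1 _
    _ ≤ ∑ p ∈ Icc 1 R ×ˢ Icc 1 R, F p.1 p.2 :=
        sum_le_sum_of_subset_of_nonneg (filter_subset _ _) fun p _ _ => hF _ _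

private theorem vaa_sub (m n : ℕ) : ((m * n).divisors.card : ℝ) ≤ (m.divisors.card : ℝ) * n.divisors.card := by
  rw [Nat.divisors_mul]
  exact_mod_cast Finset.card_mul_le

/-- `∑ τ(e)/e ≤ (∑ 1/d)^2` -/
private theorem vaa_one (R : ℕ) : ∑ e ∈ Icc 1 R, (e.divisors.card : ℝ) / e ≤ (∑ d ∈ Icc 1 R, (1 : ℝ) / d) ^ 2 := by
  calc ∑ e ∈ Icc 1 R, (e.divisors.card : ℝ) / e
      = ∑ e ∈ Icc 1 R, ∑ p ∈ e.divisorsAntidiagonal, ((1 : ℝ) / p.1 * (1 / p.2)) := by
        refine sum_congr rfl fun e he => ?_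
        have h1 : ∀ p ∈ e.divisorsAntidiagonal, ((1 : ℝ) / (p.1 : ℝ) * (1 / (p.2 : ℝ))) = 1 / e := by
          intro p hp
          obtain ⟨hp, hne⟩ := Nat.mem_divisorsAntidiagonal.1 hp
          rw [← hp]
          push_cast
          rw [one_div_mul_one_div]
        rw [sum_congr rfl h1, sum_const, nsmul_eq_mul, ← Nat.map_div_right_divisors, card_map]
        ring
    _ ≤ ∑ d ∈ Icc 1 R, ∑ f ∈ Icc 1 R, ((1 : ℝ) / d * (1 / f)) :=
        vaa_div R (fun a b => (1 : ℝ) / a * (1 / b)) fun a b => by positivity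
    _ = (∑ d ∈ Icc 1 R, (1 : ℝ) / d) ^ 2 := by
        rw [sq, sum_mul_sum]

/-- `∑ τ(e)^2/e ≤ (∑ 1/d)^4` -/
private theorem vaa_two (R : ℕ) : ∑ e ∈ Icc 1 R, (e.divisors.card : ℝ) ^ 2 / e ≤ (∑ d ∈ Icc 1 R, (1 : ℝ) / d) ^ 4 := by
  calc ∑ e ∈ Icc 1 R, (e.divisors.card : ℝ) ^ 2 / e
      ≤ ∑ e ∈ Icc 1 R, ∑ p ∈ e.divisorsAntidiagonal, ((p.1.divisors.card : ℝ) / p.1 * (p.2.divisors.card / p.2)) := by
        refine sum_le_sum fun e he => ?_
        have h1 : ∀ p ∈ e.divisorsAntidiagonal, (e.divisors.card : ℝ) / e ≤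
            ((p.1.divisors.card : ℝ) / (p.1 : ℝ) * (p.2.divisors.card / (p.2 : ℝ))) := by
          intro p hp
          obtain ⟨hp, hne⟩ := Nat.mem_divisorsAntidiagonal.1 hp
          rw [← hp]
          push_cast
          rw [div_mul_div_comm]
          exact div_le_div_of_nonneg_right (vaa_sub _ _) (by positivity)
        have h2 : (e.divisors.card : ℝ) ^ 2 / e = ∑ _p ∈ e.divisorsAntidiagonal, (e.divisors.card : ℝ) / e := by
          rw [sum_const, nsmul_eq_mul]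
          have h3 : e.divisorsAntidiagonal.card = e.divisors.card := by
            rw [← Nat.map_div_right_divisors, card_map]
          rw [h3]
          ring
        rw [h2]
        exact sum_le_sum h1
    _ ≤ ∑ d ∈ Icc 1 R, ∑ f ∈ Icc 1 R, ((d.divisors.card : ℝ) / d * (f.divisors.card / f)) :=
        vaa_div R (fun a b => (a.divisors.card : ℝ) / a * (b.divisors.card / b)) fun a b => by positivity
    _ = (∑ d ∈ Icc 1 R, (d.divisors.card : ℝ) / d) ^ 2 := by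
        rw [sq, sum_mul_sum]
    _ ≤ ((∑ d ∈ Icc 1 R, (1 : ℝ) / d) ^ 2) ^ 2 :=
        pow_le_pow_left₀ (sum_nonneg fun _ _ => by positivity) (vaa_one R) 2
    _ = _ := by ring

/-- the multiples of `h` -/
private theorem vaa_mul (R h : ℕ) (hh : 1 ≤ h) : ∑ e ∈ (Icc 1 R).filter (fun e => h ∣ e), (e.divisors.card : ℝ) / e ≤
    (h.divisors.card : ℝ) / h * ∑ e ∈ Icc 1 R, (e.divisors.card : ℝ) / e := by
  have hsub : (Icc 1 R).filter (fun e => h ∣ e) ⊆ (Icc 1 R).image (fun e => h * e) := by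
    intro e he
    obtain ⟨he, hd⟩ := mem_filter.1 he
    obtain ⟨he1, heR⟩ := mem_Icc.1 he
    obtain ⟨c, rfl⟩ := hd
    refine mem_image.2 ⟨c, mem_Icc.2 ⟨?_, ?_⟩, rfl⟩
    · rcases Nat.eq_zero_or_pos c with hc | hc
      · subst hc
        omega
      · exact hc
    · exact (Nat.le_mul_of_pos_left c (by omega)).trans heR
  calc ∑ e ∈ (Icc 1 R).filter (fun e => h ∣ e), (e.divisors.card : ℝ) / e
      ≤ ∑ e ∈ (Icc 1 R).image (fun e => h * e), (e.divisors.card : ℝ) / e :=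
        sum_le_sum_of_subset_of_nonneg hsub fun _ _ _ => by positivity
    _ = ∑ e ∈ Icc 1 R, ((h * e).divisors.card : ℝ) / ((h * e : ℕ) : ℝ) := by
        rw [sum_image]
        intro a _ b _ hab
        exact Nat.eq_of_mul_eq_mul_left (by omega : 0 < h) hab
    _ ≤ ∑ e ∈ Icc 1 R, (h.divisors.card : ℝ) / h * ((e.divisors.card : ℝ) / e) := by
        refine sum_le_sum fun e _ => ?_
        push_cast
        rw [div_mul_div_comm]
        exact div_le_div_of_nonneg_right (vaa_sub _ _) (by positivity)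
    _ = _ := by rw [mul_sum]

private theorem vaa_H (R : ℕ) : ∑ d ∈ Icc 1 R, (1 : ℝ) / d ≤ 1 + Real.log R := by
  have h := harmonic_le_one_add_log R
  rw [harmonic_eq_sum_Icc] at h
  push_cast at h
  simp only [one_div]
  exact h

theorem s2W (R : ℕ) : ∑ e ∈ Icc 1 R, ∑ f ∈ Icc 1 R, (e.divisors.card : ℝ) * f.divisors.card * (Nat.gcd e f : ℝ) / (e * f) ≤
    (1 + Real.log R) ^ 8 := by
  rcases Nat.eq_zero_or_pos R with h0 | _
  · subst h0
    have h : (Icc 1 0 : Finset ℕ) = ∅ := rfl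
    rw [h, sum_empty]
    positivity
  set H : ℝ := ∑ d ∈ Icc 1 R, (1 : ℝ) / d with hH
  have hH0 : 0 ≤ H := sum_nonneg fun _ _ => by positivity
  have hH1 : H ≤ 1 + Real.log R := vaa_H R
  set T : ℝ := ∑ e ∈ Icc 1 R, (e.divisors.card : ℝ) / e with hT
  have hT0 : 0 ≤ T := sum_nonneg fun _ _ => by positivity
  have hTH : T ≤ H ^ 2 := vaa_one R
  calc ∑ e ∈ Icc 1 R, ∑ f ∈ Icc 1 R, (e.divisors.card : ℝ) * f.divisors.card * (Nat.gcd e f : ℝ) / (e * f)
      ≤ ∑ e ∈ Icc 1 R, ∑ f ∈ Icc 1 R, ∑ h ∈ Icc 1 R, (h : ℝ) *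
          ((if h ∣ e then (e.divisors.card : ℝ) / e else 0) * (if h ∣ f then (f.divisors.card : ℝ) / f else 0)) := by
        refine sum_le_sum fun e he => sum_le_sum fun f hf => ?_
        obtain ⟨he1, heR⟩ := mem_Icc.1 he
        obtain ⟨hf1, hfR⟩ := mem_Icc.1 hf
        have hg : Nat.gcd e f ∈ Icc 1 R :=
          mem_Icc.2 ⟨Nat.gcd_pos_of_pos_left _ he1, (Nat.gcd_le_left _ he1).trans heR⟩
        have h1 := single_le_sum (f := fun h : ℕ => (h : ℝ) *
          ((if h ∣ e then (e.divisors.card : ℝ) / e else 0) * (if h ∣ f then (f.divisors.card : ℝ) / f else 0)))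
          (fun h _ => by
            have ha : (0 : ℝ) ≤ if h ∣ e then (e.divisors.card : ℝ) / e else 0 := by
              split_ifs <;> positivity
            have hb : (0 : ℝ) ≤ if h ∣ f then (f.divisors.card : ℝ) / f else 0 := by
              split_ifs <;> positivity
            exact mul_nonneg (Nat.cast_nonneg _) (mul_nonneg ha hb)) hg
        refine le_trans (le_of_eq ?_) h1
        simp only [Nat.gcd_dvd_left, Nat.gcd_dvd_right, if_true]
        rw [div_mul_div_comm]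
        ring
    _ = ∑ h ∈ Icc 1 R, (h : ℝ) * (∑ e ∈ (Icc 1 R).filter (fun e => h ∣ e), (e.divisors.card : ℝ) / e) ^ 2 := by
        rw [sum_congr rfl fun e _ => sum_comm, sum_comm]
        refine sum_congr rfl fun h _ => ?_
        rw [sum_filter, sq, sum_mul_sum, mul_sum]
        refine sum_congr rfl fun e _ => ?_
        rw [mul_sum]
    _ ≤ ∑ h ∈ Icc 1 R, (h.divisors.card : ℝ) ^ 2 / h * T ^ 2 := by
        refine sum_le_sum fun h hh => ?_
        obtain ⟨hh1, _⟩ := mem_Icc.1 hh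
        have hhR : (0 : ℝ) < h := by exact_mod_cast hh1
        have h1 := pow_le_pow_left₀ (sum_nonneg fun _ _ => by positivity) (vaa_mul R h hh1) 2
        calc (h : ℝ) * (∑ e ∈ (Icc 1 R).filter (fun e => h ∣ e), (e.divisors.card : ℝ) / e) ^ 2
            ≤ (h : ℝ) * ((h.divisors.card : ℝ) / h * T) ^ 2 := mul_le_mul_of_nonneg_left h1 hhR.le
          _ = (h.divisors.card : ℝ) ^ 2 / h * T ^ 2 := by
              field_simp
    _ = (∑ h ∈ Icc 1 R, (h.divisors.card : ℝ) ^ 2 / h) * T ^ 2 := by rw [sum_mul]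
    _ ≤ H ^ 4 * (H ^ 2) ^ 2 := mul_le_mul (vaa_two R) (pow_le_pow_left₀ hT0 hTH 2) (pow_nonneg hT0 2) (pow_nonneg hH0 4)
    _ = H ^ 8 := by ring
    _ ≤ (1 + Real.log R) ^ 8 := pow_le_pow_left₀ hH0 hH1 8

end Pool.Agent.Lib.WL
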